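import Pool.Agent.Helper89.PB.Defs

namespace PB

open Finset Polynomial

/-- flip the bit `k` -/
def C1_fl {m : ℕ} (k : Fin m) (s : Sp m) : Sp m := Function.update s k (!(s k))

/-- the sign of the bits below `k` -/
noncomputable def C1_sg {m : ℕ} (k : Fin m) (s : Sp m) : ℝ :=
  ∏ t ∈ univ.filter (fun t : Fin m => t < k), (if s t then (-1 : ℝ) else 1)

theorem C1_fl_same {m : ℕ} (k : Fin m) (s : Sp m) : C1_fl k s k = !(s k) := by
  simp [C1_fl]

theorem C1_fl_ne {m : ℕ} {k t : Fin m} (h : t ≠ k) (s : Sp m) : C1_fl k s t = s t := by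
  simp [C1_fl, h]

theorem C1_fl_fl {m : ℕ} (k : Fin m) (s : Sp m) : C1_fl k (C1_fl k s) = s := by
  funext t
  by_cases h : t = k
  · subst h
    rw [C1_fl_same, C1_fl_same, Bool.not_not]
  · rw [C1_fl_ne h, C1_fl_ne h]

theorem C1_fl_comm {m : ℕ} (k l : Fin m) (s : Sp m) :
    C1_fl k (C1_fl l s) = C1_fl l (C1_fl k s) := by
  by_cases hkl : k = l
  · rw [hkl]
  funext t
  by_cases h : t = k
  · subst h
    rw [C1_fl_same, C1_fl_ne hkl, C1_fl_ne hkl, C1_fl_same]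
  · by_cases h' : t = l
    · subst h'
      rw [C1_fl_ne h, C1_fl_same, C1_fl_same, C1_fl_ne h]
    · rw [C1_fl_ne h, C1_fl_ne h', C1_fl_ne h', C1_fl_ne h]

theorem C1_fl_bij {m : ℕ} (k : Fin m) : Function.Bijective (C1_fl k) :=
  (show Function.Involutive (C1_fl k) from C1_fl_fl k).bijective

theorem C1_sg_sq {m : ℕ} (k : Fin m) (s : Sp m) : C1_sg k s * C1_sg k s = 1 := by
  rw [C1_sg, ← Finset.prod_mul_distrib]
  apply Finset.prod_eq_one
  intro t _
  split_ifs <;> norm_num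

theorem C1_sg_abs {m : ℕ} (k : Fin m) (s : Sp m) : |C1_sg k s| = 1 := by
  have h := C1_sg_sq k s
  have h2 : |C1_sg k s| * |C1_sg k s| = 1 := by rw [abs_mul_abs_self, h]
  nlinarith [abs_nonneg (C1_sg k s)]

/-- flipping a bit at or above `k` does not change the sign -/
theorem C1_sg_fl_le {m : ℕ} {k l : Fin m} (h : k ≤ l) (s : Sp m) :
    C1_sg k (C1_fl l s) = C1_sg k s := by
  rw [C1_sg, C1_sg]
  apply Finset.prod_congr rfl
  intro t ht
  have ht' : t < k := (Finset.mem_filter.1 ht).2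
  rw [C1_fl_ne (ne_of_lt (lt_of_lt_of_le ht' h))]

/-- flipping a bit below `l` changes the sign -/
theorem C1_sg_fl_lt {m : ℕ} {k l : Fin m} (h : k < l) (s : Sp m) :
    C1_sg l (C1_fl k s) = -C1_sg l s := by
  rw [C1_sg, C1_sg]
  have hk : k ∈ univ.filter (fun t : Fin m => t < l) := by simp [h]
  rw [← Finset.mul_prod_erase _ _ hk, ← Finset.mul_prod_erase _ _ hk, ← neg_mul]
  congr 1
  · rw [C1_fl_same]
    cases s k <;> simp
  · apply Finset.prod_congr rfl
    intro t ht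
    rw [C1_fl_ne (Finset.ne_of_mem_erase ht)]

theorem C1_Cl {m : ℕ} (k : Fin m) (s' s : Sp m) :
    Cl k s' s = if s' = C1_fl k s then (C1_sg k s : ℂ) else 0 := by
  rw [Cl, C1_sg, C1_fl]
  congr 1
  rw [Complex.ofReal_prod]
  apply Finset.prod_congr rfl
  intro t _
  split_ifs <;> simp

theorem C1_eq_iff {m : ℕ} (k : Fin m) (s' s : Sp m) : s' = C1_fl k s ↔ s = C1_fl k s' := by
  constructor
  · rintro rfl
    rw [C1_fl_fl]
  · rintro rfl
    rw [C1_fl_fl]

theorem Cl_symm {m : ℕ} (k : Fin m) (s' s : Sp m) : Cl k s' s = Cl k s s' := by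
  rw [C1_Cl, C1_Cl]
  by_cases h : s' = C1_fl k s
  · rw [if_pos h, if_pos ((C1_eq_iff k s' s).1 h), h, C1_sg_fl_le le_rfl]
  · rw [if_neg h, if_neg (fun h' => h ((C1_eq_iff k s' s).2 h'))]

theorem C1_apply {m : ℕ} (k : Fin m) (s' : Sp m) (x : Sp m → ℂ) :
    ∑ s, Cl k s' s * x s = (C1_sg k s' : ℂ) * x (C1_fl k s') := by
  rw [Finset.sum_eq_single (C1_fl k s')]
  · rw [C1_Cl, C1_fl_fl, if_pos rfl, C1_sg_fl_le le_rfl]
  · intro s _ hs
    rw [C1_Cl, if_neg (fun h => hs ((C1_eq_iff k s' s).1 h)), zero_mul]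
  · intro h
    exact absurd (Finset.mem_univ _) h

theorem Cl_iso {m : ℕ} (k : Fin m) (x : Sp m → ℂ) :
    ∑ s', ‖∑ s, Cl k s' s * x s‖ ^ 2 = sq x := by
  rw [sq, ← (C1_fl_bij k).sum_comp (fun s => ‖x s‖ ^ 2)]
  apply Finset.sum_congr rfl
  intro s _
  rw [C1_apply, norm_mul, Complex.norm_real, Real.norm_eq_abs, C1_sg_abs, one_mul]

theorem Cl_orth {m : ℕ} (k l : Fin m) :
    ∑ s' : Sp m, ∑ s : Sp m, Cl k s' s * Cl l s' s = if k = l then (2 : ℂ) ^ m else 0 := by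
  have h1 : ∀ s' : Sp m, ∑ s : Sp m, Cl k s' s * Cl l s' s = if k = l then 1 else 0 := by
    intro s'
    rw [C1_apply k s' (fun s => Cl l s' s), C1_Cl]
    by_cases h : k = l
    · subst h
      rw [C1_fl_fl, if_pos rfl, if_pos rfl, C1_sg_fl_le le_rfl, ← Complex.ofReal_mul, C1_sg_sq,
        Complex.ofReal_one]
    · rw [if_neg h, if_neg, mul_zero]
      intro h2
      have h3 := congrFun h2 l
      rw [C1_fl_same, C1_fl_ne (Ne.symm h)] at h3
      cases h4 : s' l <;> rw [h4] at h3 <;> simp at h3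
  rw [Finset.sum_congr rfl (fun s' _ => h1 s')]
  by_cases h : k = l
  · rw [if_pos h, if_pos h]
    simp
  · rw [if_neg h, if_neg h]
    simp

end PB
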