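import Pool.Agent.Helper89.PB.Defs

namespace PB

open Finset Polynomial

theorem rr_pow (A : ℕ) (hA : 1 ≤ A) : rr A ^ A = 1 / 2 := by
  unfold rr
  rw [one_div (A : ℝ)]
  exact Real.rpow_inv_natCast_pow (by norm_num) (by omega)

theorem rr_pos (A : ℕ) : 0 < rr A := by
  unfold rr
  exact Real.rpow_pos_of_pos (by norm_num) _

theorem rr_le_one (A : ℕ) : rr A ≤ 1 := by
  unfold rr
  exact Real.rpow_le_one (by norm_num) (by norm_num) (by positivity)

theorem rr_lt_one (A : ℕ) (hA : 1 ≤ A) : rr A < 1 := by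
  unfold rr
  have : (0 : ℝ) < A := by exact_mod_cast hA
  exact Real.rpow_lt_one (by norm_num) (by norm_num) (by positivity)

theorem rr_mono (A B : ℕ) (hA : 1 ≤ A) (hAB : A ≤ B) : rr A ≤ rr B := by
  unfold rr
  have hA' : (0 : ℝ) < A := by exact_mod_cast hA
  have hAB' : (A : ℝ) ≤ B := by exact_mod_cast hAB
  refine Real.rpow_le_rpow_of_exponent_ge (by norm_num) (by norm_num) ?_
  exact one_div_le_one_div_of_le hA' hAB'

theorem one_sub_rr_pow (A n : ℕ) (hA : 1 ≤ A) : 1 - rr A ^ n ≤ 0.6932 * n / A := by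
  have hA' : (0 : ℝ) < A := by exact_mod_cast hA
  have h1 : rr A ^ n = Real.exp (-(Real.log 2 * n / A)) := by
    unfold rr
    rw [← Real.rpow_natCast, ← Real.rpow_mul (by norm_num), Real.rpow_def_of_pos (by norm_num)]
    congr 1
    rw [one_div (2 : ℝ), Real.log_inv]
    ring
  have h2 := Real.add_one_le_exp (-(Real.log 2 * n / A))
  have h3 : Real.log 2 * n / A ≤ 0.6932 * n / A := by
    have := Real.log_two_lt_d9
    gcongr
    linarith
  rw [h1]
  linarith

theorem one_sub_rr (A : ℕ) (hA : 1 ≤ A) : 1 / (2 * A) ≤ 1 - rr A := by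
  have hA' : (1 : ℝ) ≤ A := by exact_mod_cast hA
  have h0 : (1 : ℝ) / (2 * A) ≤ 1 / 2 := by
    apply one_div_le_one_div_of_le (by norm_num)
    linarith
  have h1 : (1 : ℝ) + A * (-(1 / (2 * A))) ≤ (1 + -(1 / (2 * A))) ^ A :=
    one_add_mul_le_pow (by linarith) A
  have h2 : (1 : ℝ) + A * (-(1 / (2 * A))) = 1 / 2 := by
    field_simp
    norm_num
  rw [h2, ← rr_pow A hA] at h1
  have h3 : rr A ≤ 1 + -(1 / (2 * A)) :=
    le_of_pow_le_pow_left₀ (by omega) (by linarith) h1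
  linarith

theorem norm_rt (A i : ℕ) : ‖rt A i‖ = 1 := by
  unfold rt
  have : (2 * Real.pi * Complex.I * ((i : ℂ) / (A : ℂ)) : ℂ)
      = ((2 * Real.pi * (i / A) : ℝ) : ℂ) * Complex.I := by
    push_cast
    ring
  rw [this, Complex.norm_exp_ofReal_mul_I]

theorem rt_pow (A i : ℕ) (hA : 1 ≤ A) : rt A i ^ A = 1 := by
  unfold rt
  have hA' : (A : ℂ) ≠ 0 := by
    have : A ≠ 0 := by omega
    exact_mod_cast this
  rw [← Complex.exp_nat_mul]
  have : (A : ℂ) * (2 * Real.pi * Complex.I * ((i : ℂ) / (A : ℂ)))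
      = i * (2 * Real.pi * Complex.I) := by
    field_simp
  rw [this, Complex.exp_nat_mul_two_pi_mul_I]

theorem norm_zz_le (M l i : ℕ) : ‖zz M l i‖ ≤ 1 := by
  unfold zz
  rw [norm_mul, norm_rt, mul_one, Complex.norm_real, Real.norm_eq_abs, abs_of_pos (rr_pos _)]
  exact rr_le_one _

end PB
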