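import Pool.Agent.Helper89.PB.Defs
import Pool.Agent.Helper89.PB.R0

namespace PB

open Finset Polynomial

theorem A2_rt_eq (A i : ℕ) :
    rt A i = Complex.exp (2 * Real.pi * Complex.I / (A : ℂ)) ^ i := by
  unfold rt
  rw [← Complex.exp_nat_mul]
  congr 1
  ring

theorem A2_prim (A : ℕ) (hA : 1 ≤ A) :
    IsPrimitiveRoot (Complex.exp (2 * Real.pi * Complex.I / (A : ℂ))) A :=
  Complex.isPrimitiveRoot_exp A (by omega)

theorem A2_orth (A : ℕ) (hA : 1 ≤ A) (n m : ℕ) (hn : n < A) (hm : m < A) :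
    ∑ i ∈ range A, (rt A i) ^ n * (starRingEnd ℂ) (rt A i) ^ m = if n = m then (A : ℂ) else 0 := by
  set ζ : ℂ := Complex.exp (2 * Real.pi * Complex.I / (A : ℂ)) with hζ
  have hprim : IsPrimitiveRoot ζ A := A2_prim A hA
  have hnorm : ‖ζ‖ = 1 := hprim.norm'_eq_one (by omega)
  have hconj : (starRingEnd ℂ) ζ * ζ = 1 := by
    rw [mul_comm, Complex.mul_conj', hnorm]
    norm_num
  have hterm : ∀ i, (rt A i) ^ n * (starRingEnd ℂ) (rt A i) ^ m
      = (ζ ^ n * (starRingEnd ℂ) ζ ^ m) ^ i := by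
    intro i
    rw [A2_rt_eq, ← hζ, map_pow, mul_pow, ← pow_mul, ← pow_mul, ← pow_mul, ← pow_mul, mul_comm n i,
      mul_comm m i]
  simp_rw [hterm]
  by_cases h : n = m
  · subst h
    have : ζ ^ n * (starRingEnd ℂ) ζ ^ n = 1 := by
      rw [← mul_pow, mul_comm ζ, hconj, one_pow]
    simp [this]
  · rw [if_neg h]
    set η : ℂ := ζ ^ n * (starRingEnd ℂ) ζ ^ m with hη
    have hηA : η ^ A = 1 := by
      rw [hη, mul_pow, ← pow_mul, ← pow_mul, mul_comm n A, mul_comm m A, pow_mul, pow_mul,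
        ← map_pow, hprim.pow_eq_one]
      simp
    have hη1 : η ≠ 1 := by
      intro h1
      apply h
      apply hprim.pow_inj hn hm
      have : ζ ^ n = η * ζ ^ m := by
        rw [hη, mul_assoc, ← mul_pow, hconj, one_pow, mul_one]
      rw [this, h1, one_mul]
    have hg := mul_neg_geom_sum η A
    rw [hηA, sub_self] at hg
    rcases mul_eq_zero.mp hg with h0 | h0
    · exact absurd (sub_eq_zero.mp h0).symm hη1
    · exact h0

/-- PB-2 -/
theorem parseval (A : ℕ) (hA : 1 ≤ A) (q : ℂ[X]) (hq : q.natDegree < A) (u : ℂ) :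
    ∑ i ∈ range A, ‖q.eval (u * rt A i)‖ ^ 2 = A * ∑ n ∈ range A, ‖u‖ ^ (2 * n) * ‖q.coeff n‖ ^ 2 := by
  have key : ((∑ i ∈ range A, ‖q.eval (u * rt A i)‖ ^ 2 : ℝ) : ℂ)
      = ((A * ∑ n ∈ range A, ‖u‖ ^ (2 * n) * ‖q.coeff n‖ ^ 2 : ℝ) : ℂ) := by
    push_cast
    have h1 : ∀ i ∈ range A, ((‖q.eval (u * rt A i)‖ : ℂ)) ^ 2
        = ∑ n ∈ range A, ∑ m ∈ range A, (q.coeff n * u ^ n) * (starRingEnd ℂ) (q.coeff m * u ^ m) *
          ((rt A i) ^ n * (starRingEnd ℂ) (rt A i) ^ m) := by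
      intro i _
      rw [← Complex.mul_conj', eval_eq_sum_range' hq, map_sum, sum_mul_sum]
      refine sum_congr rfl fun n _ => sum_congr rfl fun m _ => ?_
      simp only [map_mul, map_pow, mul_pow]
      ring
    rw [sum_congr rfl h1, sum_comm, mul_sum]
    refine sum_congr rfl fun n hn => ?_
    rw [sum_comm]
    have h2 : ∀ m ∈ range A, ∑ i ∈ range A,
        (q.coeff n * u ^ n) * (starRingEnd ℂ) (q.coeff m * u ^ m) *
          ((rt A i) ^ n * (starRingEnd ℂ) (rt A i) ^ m)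
        = if n = m then (q.coeff n * u ^ n) * (starRingEnd ℂ) (q.coeff m * u ^ m) * (A : ℂ)
          else 0 := by
      intro m hm
      rw [← mul_sum, A2_orth A hA n m (mem_range.mp hn) (mem_range.mp hm)]
      split_ifs <;> simp
    rw [sum_congr rfl h2, sum_ite_eq, if_pos hn, Complex.mul_conj', norm_mul, norm_pow]
    push_cast
    ring
  exact_mod_cast key

end PB
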