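import Pool.Agent.Helper89.PB.Defs
import Pool.Agent.Helper89.PB.R0
import Pool.Agent.Helper89.PB.A2

namespace PB

open Finset Polynomial

/-- the class sums -/
private noncomputable def A1_sc (A : ℕ) (q : ℂ[X]) (c : ℕ) : ℂ :=
  ∑ n ∈ (range (q.natDegree + 1)).filter (fun n => n % A = c), q.coeff n * (rr A : ℂ) ^ n

private theorem A1_geom (A : ℕ) (hA : 1 ≤ A) (N c : ℕ) :
    ∑ n ∈ (range (N + 1)).filter (fun n => n % A = c), (rr A) ^ n ≤ 2 := by
  have hr0 := rr_pos A
  have hr1 := rr_le_one A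
  have h1 : ∑ n ∈ (range (N + 1)).filter (fun n => n % A = c), (rr A) ^ n ≤
      ∑ n ∈ (range (N + 1)).filter (fun n => n % A = c), (1 / (2 : ℝ)) ^ (n / A) := by
    apply Finset.sum_le_sum
    intro n _
    have hn : n = A * (n / A) + n % A := (Nat.div_add_mod n A).symm
    calc (rr A) ^ n = (rr A) ^ (A * (n / A) + n % A) := by rw [← hn]
      _ = ((rr A) ^ A) ^ (n / A) * (rr A) ^ (n % A) := by rw [pow_add, pow_mul]
      _ = (1 / (2 : ℝ)) ^ (n / A) * (rr A) ^ (n % A) := by rw [rr_pow A hA]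
      _ ≤ (1 / (2 : ℝ)) ^ (n / A) * 1 := by
          apply mul_le_mul_of_nonneg_left _ (by positivity)
          exact pow_le_one₀ hr0.le hr1
      _ = _ := mul_one _
  refine h1.trans ?_
  have hinj : Set.InjOn (fun n : ℕ => n / A)
      ((range (N + 1)).filter (fun n => n % A = c) : Finset ℕ) := by
    intro x hx y hy hxy
    simp only [Finset.coe_filter, Finset.mem_range, Set.mem_setOf_eq] at hx hy
    have hx1 := Nat.div_add_mod x A
    have hy1 := Nat.div_add_mod y A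
    have hxy' : x / A = y / A := hxy
    rw [← hx1, ← hy1, hxy', hx.2, hy.2]
  have h2 := Finset.sum_image (f := fun j : ℕ => (1 / (2 : ℝ)) ^ j) hinj
  rw [← h2]
  refine le_trans ?_ (sum_geometric_two_le (N + 1))
  apply Finset.sum_le_sum_of_subset_of_nonneg
  · intro j hj
    rw [Finset.mem_image] at hj
    obtain ⟨n, hn, rfl⟩ := hj
    rw [Finset.mem_filter, Finset.mem_range] at hn
    rw [Finset.mem_range]
    exact lt_of_le_of_lt (Nat.div_le_self n A) hn.1
  · intro j _ _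
    positivity

private theorem A1_sc_le (A : ℕ) (hA : 1 ≤ A) (q : ℂ[X]) (c : ℕ) :
    ‖A1_sc A q c‖ ^ 2 ≤ 2 * ∑ n ∈ (range (q.natDegree + 1)).filter (fun n => n % A = c),
      (rr A) ^ n * ‖q.coeff n‖ ^ 2 := by
  have hr0 := rr_pos A
  have h1 : ‖A1_sc A q c‖ ≤ ∑ n ∈ (range (q.natDegree + 1)).filter (fun n => n % A = c),
      (rr A) ^ n * ‖q.coeff n‖ := by
    unfold A1_sc
    refine (norm_sum_le _ _).trans (le_of_eq ?_)
    apply Finset.sum_congr rfl
    intro n _
    rw [norm_mul, norm_pow, Complex.norm_real, Real.norm_of_nonneg hr0.le, mul_comm]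
  have h2 : (∑ n ∈ (range (q.natDegree + 1)).filter (fun n => n % A = c),
      (rr A) ^ n * ‖q.coeff n‖) ^ 2 ≤
      (∑ n ∈ (range (q.natDegree + 1)).filter (fun n => n % A = c), (rr A) ^ n) *
      ∑ n ∈ (range (q.natDegree + 1)).filter (fun n => n % A = c),
        (rr A) ^ n * ‖q.coeff n‖ ^ 2 := by
    apply Finset.sum_sq_le_sum_mul_sum_of_sq_eq_mul
    · intro i _; positivity
    · intro i _; positivity
    · intro i _; ring
  have h3 := A1_geom A hA q.natDegree c
  calc ‖A1_sc A q c‖ ^ 2 ≤ (∑ n ∈ (range (q.natDegree + 1)).filter (fun n => n % A = c),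
      (rr A) ^ n * ‖q.coeff n‖) ^ 2 := by
        apply pow_le_pow_left₀ (norm_nonneg _) h1
    _ ≤ _ := h2
    _ ≤ _ := by
        apply mul_le_mul_of_nonneg_right h3
        apply Finset.sum_nonneg
        intro i _; positivity

/-- PB-1 -/
theorem sampling (A : ℕ) (hA : 1 ≤ A) (q : ℂ[X]) :
    ∑ i ∈ range A, ‖q.eval ((rr A : ℂ) * rt A i)‖ ^ 2 ≤
      2 * A * ∑ n ∈ range (q.natDegree + 1), (rr A) ^ n * ‖q.coeff n‖ ^ 2 := by
  have hmaps : ∀ n ∈ range (q.natDegree + 1), n % A ∈ range A := by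
    intro n _
    rw [Finset.mem_range]
    exact Nat.mod_lt _ hA
  set S : ℂ[X] := ∑ c ∈ range A, C (A1_sc A q c) * X ^ c with hS
  have hSdeg : S.natDegree < A := by
    have h1 : S.natDegree ≤ A - 1 := by
      rw [hS]
      apply Polynomial.natDegree_sum_le_of_forall_le
      intro c hc
      rw [Finset.mem_range] at hc
      exact (Polynomial.natDegree_C_mul_X_pow_le _ _).trans (by omega)
    omega
  have hScoeff : ∀ c ∈ range A, S.coeff c = A1_sc A q c := by
    intro c hc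
    rw [hS, Polynomial.finset_sum_coeff]
    rw [Finset.sum_eq_single c]
    · simp
    · intro b _ hb
      rw [Polynomial.coeff_C_mul, Polynomial.coeff_X_pow, if_neg (Ne.symm hb), mul_zero]
    · intro h; exact absurd hc h
  have heval : ∀ i, q.eval ((rr A : ℂ) * rt A i) = S.eval (1 * rt A i) := by
    intro i
    rw [Polynomial.eval_eq_sum_range, ← Finset.sum_fiberwise_of_maps_to hmaps, hS,
      Polynomial.eval_finset_sum]
    apply Finset.sum_congr rfl
    intro c _
    rw [Polynomial.eval_mul, Polynomial.eval_C, Polynomial.eval_pow, Polynomial.eval_X, A1_sc,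
      Finset.sum_mul]
    apply Finset.sum_congr rfl
    intro n hn
    rw [Finset.mem_filter] at hn
    rw [mul_pow, pow_eq_pow_mod n (rt_pow A i hA), hn.2, one_mul]
    ring
  have hpars := parseval A hA S hSdeg 1
  have h4 : ∑ i ∈ range A, ‖q.eval ((rr A : ℂ) * rt A i)‖ ^ 2 =
      A * ∑ c ∈ range A, ‖A1_sc A q c‖ ^ 2 := by
    calc ∑ i ∈ range A, ‖q.eval ((rr A : ℂ) * rt A i)‖ ^ 2
        = ∑ i ∈ range A, ‖S.eval (1 * rt A i)‖ ^ 2 := by
          apply Finset.sum_congr rfl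
          intro i _
          rw [heval i]
      _ = A * ∑ n ∈ range A, ‖(1 : ℂ)‖ ^ (2 * n) * ‖S.coeff n‖ ^ 2 := hpars
      _ = _ := by
          congr 1
          apply Finset.sum_congr rfl
          intro c hc
          rw [hScoeff c hc, norm_one, one_pow, one_mul]
  rw [h4]
  have h5 : ∑ c ∈ range A, ‖A1_sc A q c‖ ^ 2 ≤
      2 * ∑ n ∈ range (q.natDegree + 1), (rr A) ^ n * ‖q.coeff n‖ ^ 2 := by
    rw [← Finset.sum_fiberwise_of_maps_to hmaps, Finset.mul_sum]
    apply Finset.sum_le_sum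
    intro c _
    exact A1_sc_le A hA q c
  calc (A : ℝ) * ∑ c ∈ range A, ‖A1_sc A q c‖ ^ 2
      ≤ A * (2 * ∑ n ∈ range (q.natDegree + 1), (rr A) ^ n * ‖q.coeff n‖ ^ 2) :=
        mul_le_mul_of_nonneg_left h5 (Nat.cast_nonneg _)
    _ = _ := by ring

/-- PB-3 (from 1): -/
theorem level_bound (M l : ℕ) (hM : 1 ≤ M) (q : ℂ[X]) :
    ∑ i ∈ range (M ^ l), ‖q.eval (zz M l i)‖ ^ 2 ≤ 2 * (M : ℝ) ^ l * nsq q := by
  have h1 := sampling (M ^ l) (Nat.one_le_pow _ _ hM) q
  have hr0 := rr_pos (M ^ l)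
  have hr1 := rr_le_one (M ^ l)
  unfold zz
  refine h1.trans ?_
  rw [Nat.cast_pow]
  apply mul_le_mul_of_nonneg_left _ (by positivity)
  unfold nsq
  apply Finset.sum_le_sum
  intro n _
  have h2 : (rr (M ^ l)) ^ n ≤ 1 := pow_le_one₀ hr0.le hr1
  calc (rr (M ^ l)) ^ n * ‖q.coeff n‖ ^ 2 ≤ 1 * ‖q.coeff n‖ ^ 2 :=
        mul_le_mul_of_nonneg_right h2 (by positivity)
    _ = _ := one_mul _

end PB
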