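import Pool.Agent.Helper89.PB.Defs
import Pool.Agent.Helper89.PB.A1
import Pool.Agent.Helper89.PB.A2

namespace PB

open Finset Polynomial

/-- The polynomial with the given coefficients, truncated. -/
noncomputable def A4_tr (a : ℕ → ℂ) (A : ℕ) : ℂ[X] := ∑ n ∈ range A, C (a n) * X ^ n

theorem A4_coeff (a : ℕ → ℂ) (A n : ℕ) : (A4_tr a A).coeff n = if n < A then a n else 0 := by
  unfold A4_tr
  rw [finsetSum_coeff]
  simp only [coeff_C_mul, coeff_X_pow, mul_ite, mul_one, mul_zero]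
  rw [Finset.sum_ite_eq (range A) n a]
  simp

theorem A4_deg (a : ℕ → ℂ) (A : ℕ) (hA : 1 ≤ A) : (A4_tr a A).natDegree < A := by
  have h : (A4_tr a A).natDegree ≤ A - 1 := by
    rw [natDegree_le_iff_coeff_eq_zero]
    intro n hn
    rw [A4_coeff, if_neg (by omega)]
  omega

theorem A4_eval (a : ℕ → ℂ) (A : ℕ) (z : ℂ) :
    (A4_tr a A).eval z = ∑ n ∈ range A, a n * z ^ n := by
  unfold A4_tr
  simp [eval_finsetSum]

theorem A4_parseval (a : ℕ → ℂ) (A : ℕ) (hA : 1 ≤ A) :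
    ∑ j ∈ range A, ‖∑ n ∈ range A, a n * (rt A j) ^ n‖ ^ 2 = A * ∑ n ∈ range A, ‖a n‖ ^ 2 := by
  have h := parseval A hA (A4_tr a A) (A4_deg a A hA) 1
  simp only [one_mul, norm_one, one_pow, A4_eval] at h
  rw [h]
  congr 1
  apply Finset.sum_congr rfl
  intro n hn
  rw [A4_coeff, if_pos (Finset.mem_range.mp hn)]

theorem A4_range_mul {E : Type*} [AddCommMonoid E] (A M : ℕ) (F : ℕ → E) :
    ∑ i ∈ range (M * A), F i = ∑ c ∈ range M, ∑ j ∈ range A, F (M * j + c) := by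
  rw [Finset.sum_comm]
  induction A with
  | zero => simp
  | succ A ih =>
    rw [Finset.sum_range_succ, ← ih, Nat.mul_succ, Finset.sum_range_add]

theorem A4_rt_split (A M j c : ℕ) (hA : 1 ≤ A) (hM : 1 ≤ M) :
    rt (M * A) (M * j + c) = rt (M * A) c * rt A j := by
  unfold rt
  rw [← Complex.exp_add]
  congr 1
  have hA' : (A : ℂ) ≠ 0 := by
    exact_mod_cast (by omega : A ≠ 0)
  have hM' : (M : ℂ) ≠ 0 := by
    exact_mod_cast (by omega : M ≠ 0)
  push_cast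
  field_simp
  ring

theorem A4_rt_pow_sub_one (B c n : ℕ) :
    ‖rt B c ^ n - 1‖ ≤ 2 * Real.pi * (n * c / B) := by
  have h1 : rt B c ^ n = Complex.exp (Complex.I * ((2 * Real.pi * (n * c / B) : ℝ) : ℂ)) := by
    unfold rt
    rw [← Complex.exp_nat_mul]
    congr 1
    push_cast
    ring
  rw [h1]
  refine le_trans (Real.norm_exp_I_mul_ofReal_sub_one_le) ?_
  rw [Real.norm_eq_abs, abs_of_nonneg]
  positivity

theorem A4_mult (A M c n : ℕ) (hA : 1 ≤ A) (hM : 1 ≤ M) (hc : c < M) :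
    ‖((rr (M * A) : ℂ) * rt (M * A) c) ^ n - (rr A : ℂ) ^ n‖ ≤ 7 * (n / A) := by
  have hB : 1 ≤ M * A := Nat.mul_pos hM hA
  have e1 : ((rr (M * A) : ℂ) * rt (M * A) c) ^ n - (rr A : ℂ) ^ n =
      (rr (M * A) : ℂ) ^ n * (rt (M * A) c ^ n - 1) + ((rr (M * A) : ℂ) ^ n - (rr A : ℂ) ^ n) := by
    rw [mul_pow]
    ring
  rw [e1]
  refine le_trans (norm_add_le _ _) ?_
  have h0 := rr_pos (M * A)
  have h1 := rr_le_one (M * A)
  have h2 : ‖(rr (M * A) : ℂ) ^ n * (rt (M * A) c ^ n - 1)‖ ≤ 2 * Real.pi * (n / A) := by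
    rw [norm_mul, norm_pow, Complex.norm_real, Real.norm_eq_abs, abs_of_pos h0]
    have h3 : rr (M * A) ^ n ≤ 1 := pow_le_one₀ h0.le h1
    have h4 := A4_rt_pow_sub_one (M * A) c n
    have h5 : (n : ℝ) * c / ((M * A : ℕ) : ℝ) ≤ n / A := by
      have hA' : (0 : ℝ) < A := by exact_mod_cast hA
      have hM' : (0 : ℝ) < M := by exact_mod_cast hM
      push_cast
      rw [div_le_div_iff₀ (by positivity) hA']
      have hc' : (c : ℝ) ≤ M := by exact_mod_cast hc.le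
      have : (n : ℝ) * c * A ≤ n * M * A := by gcongr
      linarith
    have h6 : 0 ≤ 2 * Real.pi * ((n : ℝ) / A) := by positivity
    calc rr (M * A) ^ n * ‖rt (M * A) c ^ n - 1‖
        ≤ 1 * ‖rt (M * A) c ^ n - 1‖ := by gcongr
      _ ≤ 2 * Real.pi * (n * c / ((M * A : ℕ) : ℝ)) := by rw [one_mul]; exact h4
      _ ≤ 2 * Real.pi * (n / A) := by gcongr
  have h7 : ‖(rr (M * A) : ℂ) ^ n - (rr A : ℂ) ^ n‖ ≤ 0.6932 * n / A := by
    rw [← Complex.ofReal_pow, ← Complex.ofReal_pow, ← Complex.ofReal_sub, Complex.norm_real,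
      Real.norm_eq_abs]
    have h8 : rr A ≤ rr (M * A) := rr_mono A (M * A) hA (Nat.le_mul_of_pos_left A hM)
    have h9 : rr A ^ n ≤ rr (M * A) ^ n := pow_le_pow_left₀ (rr_pos A).le h8 n
    have h10 : rr (M * A) ^ n ≤ 1 := pow_le_one₀ h0.le h1
    have h11 := one_sub_rr_pow A n hA
    rw [abs_of_nonneg (by linarith)]
    linarith
  have hpi := Real.pi_lt_d4
  have h12 : 0 ≤ (n : ℝ) / A := by positivity
  have h13 : 0.6932 * (n : ℝ) / A = 0.6932 * (n / A) := by ring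
  rw [h13] at h7
  nlinarith

theorem A4_low (A M : ℕ) (hA : 1 ≤ A) (hM : 1 ≤ M) (a : ℕ → ℂ) :
    ∑ i ∈ range (M * A), ‖(∑ n ∈ range A, a n * ((rr (M * A) : ℂ) * rt (M * A) i) ^ n) -
      ∑ n ∈ range A, a n * ((rr A : ℂ) * rt A (i / M)) ^ n‖ ^ 2 ≤
      (M * A : ℝ) * ∑ n ∈ range A, ‖a n‖ ^ 2 * (49 * ((n : ℝ) / A) ^ 2) := by
  rw [A4_range_mul]
  have h : ∀ c ∈ range M, ∑ j ∈ range A,
      ‖(∑ n ∈ range A, a n * ((rr (M * A) : ℂ) * rt (M * A) (M * j + c)) ^ n) -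
      ∑ n ∈ range A, a n * ((rr A : ℂ) * rt A ((M * j + c) / M)) ^ n‖ ^ 2 ≤
      A * ∑ n ∈ range A, ‖a n‖ ^ 2 * (49 * ((n : ℝ) / A) ^ 2) := by
    intro c hc
    have hc' : c < M := Finset.mem_range.mp hc
    have e : ∀ j ∈ range A,
        ‖(∑ n ∈ range A, a n * ((rr (M * A) : ℂ) * rt (M * A) (M * j + c)) ^ n) -
      ∑ n ∈ range A, a n * ((rr A : ℂ) * rt A ((M * j + c) / M)) ^ n‖ ^ 2 =
        ‖∑ n ∈ range A, (a n * (((rr (M * A) : ℂ) * rt (M * A) c) ^ n - (rr A : ℂ) ^ n)) *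
          (rt A j) ^ n‖ ^ 2 := by
      intro j hj
      have hd : (M * j + c) / M = j := by
        rw [Nat.mul_add_div (by omega), Nat.div_eq_of_lt hc', add_zero]
      rw [hd, ← Finset.sum_sub_distrib]
      congr 2
      apply Finset.sum_congr rfl
      intro n hn
      rw [A4_rt_split A M j c hA hM]
      rw [← mul_assoc, mul_pow ((rr (M * A) : ℂ) * rt (M * A) c), mul_pow (rr A : ℂ)]
      ring
    rw [Finset.sum_congr rfl e, A4_parseval _ A hA]
    gcongr with n hn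
    rw [norm_mul, mul_pow]
    have h1 := A4_mult A M c n hA hM hc'
    have h2 : ‖((rr (M * A) : ℂ) * rt (M * A) c) ^ n - (rr A : ℂ) ^ n‖ ^ 2 ≤
        (7 * ((n : ℝ) / A)) ^ 2 := by
      gcongr
    have h3 : (7 * ((n : ℝ) / A)) ^ 2 = 49 * ((n : ℝ) / A) ^ 2 := by ring
    rw [h3] at h2
    gcongr
  refine le_trans (Finset.sum_le_sum h) ?_
  rw [Finset.sum_const, Finset.card_range, nsmul_eq_mul]
  apply le_of_eq
  ring

/-- the high part -/
noncomputable def A4_hi (q : ℂ[X]) (A : ℕ) : ℂ[X] := q - A4_tr q.coeff A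

theorem A4_hi_coeff (q : ℂ[X]) (A n : ℕ) :
    (A4_hi q A).coeff n = if A ≤ n then q.coeff n else 0 := by
  unfold A4_hi
  rw [coeff_sub, A4_coeff]
  by_cases h : n < A
  · rw [if_pos h, if_neg (by omega), sub_self]
  · rw [if_neg h, if_pos (by omega), sub_zero]

theorem A4_hi_deg (q : ℂ[X]) (A : ℕ) : (A4_hi q A).natDegree ≤ q.natDegree := by
  rw [natDegree_le_iff_coeff_eq_zero]
  intro n hn
  rw [A4_hi_coeff, coeff_eq_zero_of_natDegree_lt hn]
  simp

theorem A4_hi_sampling (q : ℂ[X]) (A B : ℕ) (hB : 1 ≤ B) :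
    ∑ i ∈ range B, ‖(A4_hi q A).eval ((rr B : ℂ) * rt B i)‖ ^ 2 ≤
      B * ∑ n ∈ range (q.natDegree + 1), ‖q.coeff n‖ ^ 2 *
        (2 * (if A ≤ n then rr B ^ n else 0)) := by
  refine le_trans (sampling B hB (A4_hi q A)) ?_
  have h1 : ∑ n ∈ range ((A4_hi q A).natDegree + 1), rr B ^ n * ‖(A4_hi q A).coeff n‖ ^ 2 ≤
      ∑ n ∈ range (q.natDegree + 1), rr B ^ n * ‖(A4_hi q A).coeff n‖ ^ 2 := by
    apply Finset.sum_le_sum_of_subset_of_nonneg
    · intro n hn
      rw [Finset.mem_range] at *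
      have := A4_hi_deg q A
      omega
    · intro n _ _
      have := rr_pos B
      positivity
  have h2 : ∑ n ∈ range (q.natDegree + 1), ‖q.coeff n‖ ^ 2 * (2 * (if A ≤ n then rr B ^ n else 0))
      = 2 * ∑ n ∈ range (q.natDegree + 1), rr B ^ n * ‖(A4_hi q A).coeff n‖ ^ 2 := by
    rw [Finset.mul_sum]
    apply Finset.sum_congr rfl
    intro n hn
    rw [A4_hi_coeff]
    split_ifs
    · ring
    · simp
  rw [h2]
  have h3 : (0 : ℝ) ≤ B := by positivity
  nlinarith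

theorem A4_level (M k : ℕ) (hM : 2 ≤ M) (q : ℂ[X]) :
    (1 / (M : ℝ) ^ (k + 1)) * ∑ i ∈ range (M ^ (k + 1)),
      ‖q.eval (zz M (k + 1) i) - q.eval (zz M k (i / M))‖ ^ 2 ≤
    ∑ n ∈ range (q.natDegree + 1), ‖q.coeff n‖ ^ 2 *
      (98 * (if n < M ^ k then ((n : ℝ) / (M : ℝ) ^ k) ^ 2 else 0) +
       8 * (if M ^ k ≤ n then rr (M ^ (k + 1)) ^ n else 0) +
       8 * (if M ^ k ≤ n then rr (M ^ k) ^ n else 0)) := by
  set A := M ^ k with hAdef
  have hA : 1 ≤ A := Nat.one_le_pow _ _ (by omega)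
  have hB : M ^ (k + 1) = M * A := by rw [hAdef, pow_succ, mul_comm]
  have hM0 : (0 : ℝ) < M := by exact_mod_cast (by omega : 0 < M)
  have hA0 : (0 : ℝ) < A := by exact_mod_cast hA
  have hAr : (M : ℝ) ^ k = A := by rw [hAdef]; push_cast; rfl
  have hBr : (M : ℝ) ^ (k + 1) = M * A := by rw [pow_succ, hAr, mul_comm]
  have hz1 : ∀ i, zz M (k + 1) i = (rr (M * A) : ℂ) * rt (M * A) i := by
    intro i
    unfold zz
    rw [hB]
  have hz2 : ∀ i, zz M k i = (rr A : ℂ) * rt A i := by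
    intro i
    unfold zz
    rw [← hAdef]
  rw [hB, hBr, hAr]
  have hBpos : (0 : ℝ) < M * A := by positivity
  rw [one_div, inv_mul_le_iff₀ hBpos]
  -- pointwise
  have hpt : ∀ i ∈ range (M * A), ‖q.eval (zz M (k + 1) i) - q.eval (zz M k (i / M))‖ ^ 2 ≤
      2 * ‖(∑ n ∈ range A, q.coeff n * ((rr (M * A) : ℂ) * rt (M * A) i) ^ n) -
      ∑ n ∈ range A, q.coeff n * ((rr A : ℂ) * rt A (i / M)) ^ n‖ ^ 2 +
      4 * ‖(A4_hi q A).eval ((rr (M * A) : ℂ) * rt (M * A) i)‖ ^ 2 +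
      4 * ‖(A4_hi q A).eval ((rr A : ℂ) * rt A (i / M))‖ ^ 2 := by
    intro i _
    rw [hz1, hz2]
    have e : ∀ z : ℂ, q.eval z = (∑ n ∈ range A, q.coeff n * z ^ n) + (A4_hi q A).eval z := by
      intro z
      unfold A4_hi
      rw [eval_sub, A4_eval]
      ring
    rw [e ((rr (M * A) : ℂ) * rt (M * A) i), e ((rr A : ℂ) * rt A (i / M))]
    set a := ∑ n ∈ range A, q.coeff n * ((rr (M * A) : ℂ) * rt (M * A) i) ^ n
    set b := ∑ n ∈ range A, q.coeff n * ((rr A : ℂ) * rt A (i / M)) ^ n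
    set c := (A4_hi q A).eval ((rr (M * A) : ℂ) * rt (M * A) i)
    set d := (A4_hi q A).eval ((rr A : ℂ) * rt A (i / M))
    have h1 : ‖a + c - (b + d)‖ ≤ ‖a - b‖ + (‖c‖ + ‖d‖) := by
      calc ‖a + c - (b + d)‖ = ‖(a - b) + (c - d)‖ := by congr 1; ring
        _ ≤ ‖a - b‖ + ‖c - d‖ := norm_add_le _ _
        _ ≤ _ := by gcongr; exact norm_sub_le _ _
    have h2 : ‖a + c - (b + d)‖ ^ 2 ≤ (‖a - b‖ + (‖c‖ + ‖d‖)) ^ 2 := by gcongr
    nlinarith [sq_nonneg (‖a - b‖ - (‖c‖ + ‖d‖)), sq_nonneg (‖c‖ - ‖d‖)]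
  refine le_trans (Finset.sum_le_sum hpt) ?_
  rw [Finset.sum_add_distrib, Finset.sum_add_distrib, ← Finset.mul_sum, ← Finset.mul_sum,
    ← Finset.mul_sum]
  have h1 := A4_low A M hA (by omega) q.coeff
  have h2 := A4_hi_sampling q A (M * A) (Nat.mul_pos (by omega) hA)
  have h3 : ∑ i ∈ range (M * A), ‖(A4_hi q A).eval ((rr A : ℂ) * rt A (i / M))‖ ^ 2 ≤
      (M * A : ℝ) * ∑ n ∈ range (q.natDegree + 1), ‖q.coeff n‖ ^ 2 *
        (2 * (if A ≤ n then rr A ^ n else 0)) := by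
    rw [A4_range_mul]
    have : ∀ c ∈ range M, ∑ j ∈ range A, ‖(A4_hi q A).eval ((rr A : ℂ) *
        rt A ((M * j + c) / M))‖ ^ 2 ≤ A * ∑ n ∈ range (q.natDegree + 1), ‖q.coeff n‖ ^ 2 *
        (2 * (if A ≤ n then rr A ^ n else 0)) := by
      intro c hc
      have hc' : c < M := Finset.mem_range.mp hc
      refine le_trans (le_of_eq ?_) (A4_hi_sampling q A A hA)
      apply Finset.sum_congr rfl
      intro j _
      have hd : (M * j + c) / M = j := by
        rw [Nat.mul_add_div (by omega), Nat.div_eq_of_lt hc', add_zero]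
      rw [hd]
    refine le_trans (Finset.sum_le_sum this) ?_
    rw [Finset.sum_const, Finset.card_range, nsmul_eq_mul]
    apply le_of_eq
    ring
  have h4 : ∑ n ∈ range A, ‖q.coeff n‖ ^ 2 * (49 * ((n : ℝ) / A) ^ 2) ≤
      ∑ n ∈ range (q.natDegree + 1), ‖q.coeff n‖ ^ 2 *
        (49 * (if n < A then ((n : ℝ) / A) ^ 2 else 0)) := by
    have e1 : ∑ n ∈ range A, ‖q.coeff n‖ ^ 2 * (49 * ((n : ℝ) / A) ^ 2) =
        ∑ n ∈ range A, ‖q.coeff n‖ ^ 2 * (49 * (if n < A then ((n : ℝ) / A) ^ 2 else 0)) := by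
      apply Finset.sum_congr rfl
      intro n hn
      rw [if_pos (Finset.mem_range.mp hn)]
    rw [e1]
    by_cases hle : A ≤ q.natDegree + 1
    · apply Finset.sum_le_sum_of_subset_of_nonneg
      · exact Finset.range_mono hle
      · intro n _ _
        have : (0 : ℝ) ≤ (if n < A then ((n : ℝ) / A) ^ 2 else 0) := by
          split_ifs <;> positivity
        positivity
    · apply le_of_eq
      symm
      apply Finset.sum_subset (Finset.range_mono (by omega))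
      intro n _ hn
      rw [Finset.mem_range, not_lt] at hn
      rw [coeff_eq_zero_of_natDegree_lt (by omega)]
      simp
  have h5 : (M * A : ℝ) * ∑ n ∈ range A, ‖q.coeff n‖ ^ 2 * (49 * ((n : ℝ) / A) ^ 2) ≤
      (M * A : ℝ) * ∑ n ∈ range (q.natDegree + 1), ‖q.coeff n‖ ^ 2 *
        (49 * (if n < A then ((n : ℝ) / A) ^ 2 else 0)) := by gcongr
  have e2 : ∑ n ∈ range (q.natDegree + 1), ‖q.coeff n‖ ^ 2 *
      (98 * (if n < A then ((n : ℝ) / A) ^ 2 else 0) +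
       8 * (if A ≤ n then rr (M * A) ^ n else 0) +
       8 * (if A ≤ n then rr A ^ n else 0)) =
      2 * (∑ n ∈ range (q.natDegree + 1), ‖q.coeff n‖ ^ 2 *
        (49 * (if n < A then ((n : ℝ) / A) ^ 2 else 0))) +
      4 * (∑ n ∈ range (q.natDegree + 1), ‖q.coeff n‖ ^ 2 *
        (2 * (if A ≤ n then rr (M * A) ^ n else 0))) +
      4 * (∑ n ∈ range (q.natDegree + 1), ‖q.coeff n‖ ^ 2 *
        (2 * (if A ≤ n then rr A ^ n else 0))) := by
    rw [Finset.mul_sum, Finset.mul_sum, Finset.mul_sum, ← Finset.sum_add_distrib,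
      ← Finset.sum_add_distrib]
    apply Finset.sum_congr rfl
    intro n _
    ring
  rw [e2]
  push_cast at h2
  nlinarith

theorem A4_geo1 (M n m : ℕ) (hM : 2 ≤ M) :
    ∑ k ∈ range m, (if n < M ^ k then ((n : ℝ) / (M : ℝ) ^ k) ^ 2 else 0) ≤ 4 / 3 := by
  have key : ∑ k ∈ range m, (if n < M ^ k then ((n : ℝ) / (M : ℝ) ^ k) ^ 2 else 0) ≤
      4 / 3 * (1 - (if n < M ^ m then ((n : ℝ) / (M : ℝ) ^ m) ^ 2 else 1)) := by
    have hle1 : ∀ k, (if n < M ^ k then ((n : ℝ) / (M : ℝ) ^ k) ^ 2 else 1) ≤ 1 := by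
      intro k
      split_ifs with h
      · have h1 : (n : ℝ) / (M : ℝ) ^ k ≤ 1 := by
          rw [div_le_one (by positivity)]
          exact_mod_cast h.le
        have h2 : 0 ≤ (n : ℝ) / (M : ℝ) ^ k := by positivity
        nlinarith
      · exact le_refl _
    induction m with
    | zero =>
      simp only [range_zero, Finset.sum_empty]
      have := hle1 0
      linarith
    | succ m ih =>
      rw [Finset.sum_range_succ]
      by_cases h : n < M ^ m
      · rw [if_pos h] at ih ⊢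
        have h' : n < M ^ (m + 1) := lt_of_lt_of_le h (Nat.pow_le_pow_right (by omega) (by omega))
        rw [if_pos h']
        have hM0 : (0 : ℝ) < M := by exact_mod_cast (by omega : 0 < M)
        have e : ((n : ℝ) / (M : ℝ) ^ (m + 1)) ^ 2 = ((n : ℝ) / (M : ℝ) ^ m) ^ 2 / (M : ℝ) ^ 2 := by
          rw [div_pow, div_pow, pow_succ (M : ℝ) m, mul_pow, div_div]
        rw [e]
        have hM2 : (4 : ℝ) ≤ (M : ℝ) ^ 2 := by
          have : (2 : ℝ) ≤ M := by exact_mod_cast hM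
          nlinarith
        have h3 : ((n : ℝ) / (M : ℝ) ^ m) ^ 2 / (M : ℝ) ^ 2 ≤ ((n : ℝ) / (M : ℝ) ^ m) ^ 2 / 4 := by
          gcongr
        linarith
      · rw [if_neg h] at ih ⊢
        have := hle1 (m + 1)
        linarith
  refine le_trans key ?_
  have : (0 : ℝ) ≤ (if n < M ^ m then ((n : ℝ) / (M : ℝ) ^ m) ^ 2 else 1) := by
    split_ifs <;> positivity
  linarith

theorem A4_half (M n k : ℕ) (hM : 2 ≤ M) (h : M ^ k ≤ n) : rr (M ^ k) ^ n ≤ 1 / 2 := by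
  have hA : 1 ≤ M ^ k := Nat.one_le_pow _ _ (by omega)
  calc rr (M ^ k) ^ n ≤ rr (M ^ k) ^ (M ^ k) :=
        pow_le_pow_of_le_one (rr_pos _).le (rr_le_one _) h
    _ = 1 / 2 := rr_pow _ hA

theorem A4_rr_mul (A M : ℕ) (hA : 1 ≤ A) (hM : 1 ≤ M) : rr (M * A) ^ M = rr A := by
  unfold rr
  rw [← Real.rpow_natCast, ← Real.rpow_mul (by norm_num)]
  congr 1
  have hA' : (A : ℝ) ≠ 0 := by exact_mod_cast (by omega : A ≠ 0)
  have hM' : (M : ℝ) ≠ 0 := by exact_mod_cast (by omega : M ≠ 0)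
  push_cast
  field_simp

theorem A4_step (M n k : ℕ) (hM : 2 ≤ M) (h : M ^ (k + 1) ≤ n) :
    2 * rr (M ^ k) ^ n ≤ rr (M ^ (k + 1)) ^ n := by
  have hA : 1 ≤ M ^ k := Nat.one_le_pow _ _ (by omega)
  have hB : M ^ (k + 1) = M * M ^ k := by rw [pow_succ, mul_comm]
  have h1 : rr (M ^ k) = rr (M ^ (k + 1)) ^ M := by rw [hB, A4_rr_mul _ _ hA (by omega)]
  set x := rr (M ^ (k + 1)) ^ n with hx
  have hx0 : 0 < x := pow_pos (rr_pos _) _
  have hx1 : x ≤ 1 / 2 := A4_half M n (k + 1) hM h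
  have h2 : rr (M ^ k) ^ n = x ^ M := by
    rw [h1, hx, ← pow_mul, ← pow_mul, mul_comm]
  rw [h2]
  have h3 : x ^ M ≤ x ^ 2 := pow_le_pow_of_le_one hx0.le (by linarith) hM
  nlinarith

theorem A4_geo2 (M n m : ℕ) (hM : 2 ≤ M) :
    ∑ k ∈ range m, (if M ^ k ≤ n then rr (M ^ k) ^ n else 0) ≤ 1 := by
  have key : ∑ k ∈ range m, (if M ^ k ≤ n then rr (M ^ k) ^ n else 0) ≤
      (if M ^ m ≤ n then rr (M ^ m) ^ n else 1) := by
    induction m with
    | zero =>
      simp only [range_zero, Finset.sum_empty]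
      split_ifs
      · exact (pow_pos (rr_pos _) _).le
      · exact zero_le_one
    | succ m ih =>
      rw [Finset.sum_range_succ]
      by_cases h : M ^ m ≤ n
      · rw [if_pos h] at ih ⊢
        by_cases h' : M ^ (m + 1) ≤ n
        · rw [if_pos h']
          have := A4_step M n m hM h'
          linarith
        · rw [if_neg h']
          have := A4_half M n m hM h
          linarith
      · rw [if_neg h] at ih ⊢
        have h' : ¬ M ^ (m + 1) ≤ n := by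
          have : M ^ m ≤ M ^ (m + 1) := Nat.pow_le_pow_right (by omega) (by omega)
          omega
        rw [if_neg h']
        linarith
  refine le_trans key ?_
  split_ifs
  · exact pow_le_one₀ (rr_pos _).le (rr_le_one _)
  · exact le_refl _

theorem A4_geo3 (M n m : ℕ) (hM : 2 ≤ M) :
    ∑ k ∈ range m, (if M ^ k ≤ n then rr (M ^ (k + 1)) ^ n else 0) ≤ 2 := by
  have key : ∑ k ∈ range m, (if M ^ k ≤ n then rr (M ^ (k + 1)) ^ n else 0) ≤
      (if M ^ m ≤ n then 2 * rr (M ^ m) ^ n else 2) := by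
    induction m with
    | zero =>
      simp only [range_zero, Finset.sum_empty]
      split_ifs
      · have := pow_pos (rr_pos (M ^ 0)) n
        linarith
      · norm_num
    | succ m ih =>
      rw [Finset.sum_range_succ]
      by_cases h : M ^ m ≤ n
      · rw [if_pos h] at ih ⊢
        by_cases h' : M ^ (m + 1) ≤ n
        · rw [if_pos h']
          have := A4_step M n m hM h'
          linarith
        · rw [if_neg h']
          have h1 := A4_half M n m hM h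
          have h2 : rr (M ^ (m + 1)) ^ n ≤ 1 := pow_le_one₀ (rr_pos _).le (rr_le_one _)
          linarith
      · rw [if_neg h] at ih ⊢
        have h' : ¬ M ^ (m + 1) ≤ n := by
          have : M ^ m ≤ M ^ (m + 1) := Nat.pow_le_pow_right (by omega) (by omega)
          omega
        rw [if_neg h']
        linarith
  refine le_trans key ?_
  split_ifs
  · have : rr (M ^ m) ^ n ≤ 1 := pow_le_one₀ (rr_pos _).le (rr_le_one _)
    linarith
  · exact le_refl _

/-- PB-4 -/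
theorem square_fun (M m : ℕ) (hM : 2 ≤ M) (q : ℂ[X]) :
    ∑ k : Fin m, (1 / (M : ℝ) ^ ((k : ℕ) + 1)) * ∑ i ∈ range (M ^ ((k : ℕ) + 1)),
      ‖q.eval (zz M ((k : ℕ) + 1) i) - q.eval (zz M (k : ℕ) (i / M))‖ ^ 2 ≤ 200 * nsq q := by
  rw [Fin.sum_univ_eq_sum_range (fun k => (1 / (M : ℝ) ^ (k + 1)) * ∑ i ∈ range (M ^ (k + 1)),
      ‖q.eval (zz M (k + 1) i) - q.eval (zz M k (i / M))‖ ^ 2) m]
  refine le_trans (Finset.sum_le_sum (fun k _ => A4_level M k hM q)) ?_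
  rw [Finset.sum_comm]
  unfold nsq
  rw [Finset.mul_sum]
  apply Finset.sum_le_sum
  intro n _
  rw [← Finset.mul_sum, Finset.sum_add_distrib, Finset.sum_add_distrib, ← Finset.mul_sum,
    ← Finset.mul_sum, ← Finset.mul_sum]
  have h1 := A4_geo1 M n m hM
  have h2 := A4_geo2 M n m hM
  have h3 := A4_geo3 M n m hM
  have h4 : 0 ≤ ‖q.coeff n‖ ^ 2 := by positivity
  nlinarith

end PB
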