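import Pool.Agent.Helper89.PB.Defs
import Pool.Agent.Helper89.PB.R0
import Pool.Agent.Helper89.PB.A4

namespace PB

open Finset Polynomial

theorem E1_eval (A J : ℕ) (z : ℂ) : (chi A J).eval z =
    1 / (A : ℂ) ^ 2 * (∑ s ∈ range A, ((starRingEnd ℂ) (rt A J)) ^ s * z ^ s) *
      (∑ s ∈ range A, (rt A J) ^ s * z ^ (A - s)) := by
  unfold chi
  simp [eval_finsetSum]

theorem chi_sum (A : ℕ) (hA : 1 ≤ A) (z : ℂ) (hz : ‖z‖ ≤ 1) :
    ∑ J ∈ range A, ‖(chi A J).eval z‖ ≤ 1 := by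
  have hA0 : (0 : ℝ) < A := by exact_mod_cast hA
  have h1 : ∑ J ∈ range A, ‖∑ s ∈ range A, ((starRingEnd ℂ) (rt A J)) ^ s * z ^ s‖ ^ 2 ≤
      (A : ℝ) ^ 2 := by
    have e : ∀ J ∈ range A, ‖∑ s ∈ range A, ((starRingEnd ℂ) (rt A J)) ^ s * z ^ s‖ ^ 2 =
        ‖∑ s ∈ range A, ((starRingEnd ℂ) z) ^ s * (rt A J) ^ s‖ ^ 2 := by
      intro J _
      rw [← Complex.norm_conj]
      congr 2
      rw [map_sum]
      apply Finset.sum_congr rfl
      intro s _
      rw [map_mul, map_pow, map_pow, Complex.conj_conj]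
      ring
    rw [Finset.sum_congr rfl e, A4_parseval (fun s => ((starRingEnd ℂ) z) ^ s) A hA]
    have h : ∑ n ∈ range A, ‖((starRingEnd ℂ) z) ^ n‖ ^ 2 ≤ ∑ n ∈ range A, (1 : ℝ) := by
      apply Finset.sum_le_sum
      intro n _
      rw [norm_pow, Complex.norm_conj]
      have : ‖z‖ ^ n ≤ 1 := pow_le_one₀ (norm_nonneg _) hz
      exact pow_le_one₀ (by positivity) this
    rw [Finset.sum_const, Finset.card_range, nsmul_eq_mul, mul_one] at h
    nlinarith
  have h2 : ∑ J ∈ range A, ‖∑ s ∈ range A, (rt A J) ^ s * z ^ (A - s)‖ ^ 2 ≤ (A : ℝ) ^ 2 := by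
    have e : ∀ J ∈ range A, ‖∑ s ∈ range A, (rt A J) ^ s * z ^ (A - s)‖ ^ 2 =
        ‖∑ s ∈ range A, z ^ (A - s) * (rt A J) ^ s‖ ^ 2 := by
      intro J _
      congr 2
      apply Finset.sum_congr rfl
      intro s _
      ring
    rw [Finset.sum_congr rfl e, A4_parseval (fun s => z ^ (A - s)) A hA]
    have h : ∑ n ∈ range A, ‖z ^ (A - n)‖ ^ 2 ≤ ∑ n ∈ range A, (1 : ℝ) := by
      apply Finset.sum_le_sum
      intro n _
      rw [norm_pow]
      have : ‖z‖ ^ (A - n) ≤ 1 := pow_le_one₀ (norm_nonneg _) hz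
      exact pow_le_one₀ (by positivity) this
    rw [Finset.sum_const, Finset.card_range, nsmul_eq_mul, mul_one] at h
    nlinarith
  have h3 : ∀ J ∈ range A, ‖(chi A J).eval z‖ ≤ 1 / (A : ℝ) ^ 2 *
      (1 / 2 * (‖∑ s ∈ range A, ((starRingEnd ℂ) (rt A J)) ^ s * z ^ s‖ ^ 2 +
        ‖∑ s ∈ range A, (rt A J) ^ s * z ^ (A - s)‖ ^ 2)) := by
    intro J _
    rw [E1_eval, norm_mul, norm_mul, norm_div, norm_one, norm_pow, Complex.norm_natCast, mul_assoc]
    apply mul_le_mul_of_nonneg_left _ (by positivity)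
    nlinarith [sq_nonneg (‖∑ s ∈ range A, ((starRingEnd ℂ) (rt A J)) ^ s * z ^ s‖ -
      ‖∑ s ∈ range A, (rt A J) ^ s * z ^ (A - s)‖)]
  refine le_trans (Finset.sum_le_sum h3) ?_
  rw [← Finset.mul_sum, ← Finset.mul_sum, Finset.sum_add_distrib, one_div,
    inv_mul_le_iff₀ (by positivity)]
  linarith

/-- The relative root of unity. -/
theorem E1_geom (A I J : ℕ) (hA : 1 ≤ A) :
    (1 - (rr A : ℂ) * (rt A I * (starRingEnd ℂ) (rt A J))) *
      ∑ s ∈ range A, ((rr A : ℂ) * (rt A I * (starRingEnd ℂ) (rt A J))) ^ s = 1 / 2 := by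
  rw [mul_neg_geom_sum, mul_pow, mul_pow, ← map_pow, rt_pow A I hA, rt_pow A J hA,
    ← Complex.ofReal_pow, rr_pow A hA]
  simp
  norm_num

theorem E1_conj (A J : ℕ) : (starRingEnd ℂ) (rt A J) * rt A J = 1 := by
  rw [Complex.conj_mul', norm_rt]
  simp

theorem E1_chi (A I J : ℕ) (hA : 1 ≤ A) :
    (chi A J).eval ((rr A : ℂ) * rt A I) = 1 / (A : ℂ) ^ 2 *
      (((rr A : ℂ) * (rt A I * (starRingEnd ℂ) (rt A J))) *
      (∑ s ∈ range A, ((rr A : ℂ) * (rt A I * (starRingEnd ℂ) (rt A J))) ^ s) ^ 2) := by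
  rw [E1_eval]
  set w := rt A I * (starRingEnd ℂ) (rt A J) with hw
  have h1 : ∑ s ∈ range A, ((starRingEnd ℂ) (rt A J)) ^ s * ((rr A : ℂ) * rt A I) ^ s =
      ∑ s ∈ range A, ((rr A : ℂ) * w) ^ s := by
    apply Finset.sum_congr rfl
    intro s _
    rw [← mul_pow]
    congr 1
    rw [hw]
    ring
  have hxw : rt A I = w * rt A J := by
    rw [hw, mul_assoc, E1_conj, mul_one]
  have h2 : ∑ s ∈ range A, (rt A J) ^ s * ((rr A : ℂ) * rt A I) ^ (A - s) =
      ((rr A : ℂ) * w) * ∑ s ∈ range A, ((rr A : ℂ) * w) ^ s := by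
    rw [Finset.mul_sum, ← Finset.sum_range_reflect]
    apply Finset.sum_congr rfl
    intro s hs
    have hs' := Finset.mem_range.mp hs
    have e1 : A - (A - 1 - s) = s + 1 := by omega
    rw [e1]
    have e2 : rt A J ^ (A - 1 - s) * ((rr A : ℂ) * rt A I) ^ (s + 1) =
        rt A J ^ A * ((rr A : ℂ) * w) ^ (s + 1) := by
      have e3 : rt A J ^ A = rt A J ^ (A - 1 - s) * rt A J ^ (s + 1) := by
        rw [← pow_add]
        congr 1
        omega
      rw [e3, mul_assoc, ← mul_pow]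
      congr 2
      rw [hxw]
      ring
    rw [e2, rt_pow A J hA, one_mul, pow_succ]
    ring
  rw [h1, h2]
  ring

theorem chi_diag (A : ℕ) (hA : 100 ≤ A) (I : ℕ) :
    ∃ t : ℝ, 1 / 2 ≤ t ∧ (chi A I).eval ((rr A : ℂ) * rt A I) = t := by
  have hA1 : 1 ≤ A := by omega
  have hw : rt A I * (starRingEnd ℂ) (rt A I) = 1 := by
    rw [mul_comm, E1_conj]
  have hg := E1_geom A I I hA1
  have hc := E1_chi A I I hA1
  rw [hw, mul_one] at hg hc
  have hA0 : (0 : ℝ) < A := by exact_mod_cast (by omega : 0 < A)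
  have hA100 : (100 : ℝ) ≤ A := by exact_mod_cast hA
  set r := rr A with hr
  have hr0 : 0 < r := rr_pos A
  have hS : (1 - r) * ∑ s ∈ range A, r ^ s = 1 / 2 := by
    rw [mul_neg_geom_sum, hr, rr_pow A hA1]
    norm_num
  set S := ∑ s ∈ range A, r ^ s with hSdef
  have hS' : ∑ s ∈ range A, (r : ℂ) ^ s = (S : ℂ) := by
    rw [hSdef]
    push_cast
    rfl
  refine ⟨1 / (A : ℝ) ^ 2 * (r * S ^ 2), ?_, ?_⟩
  · have h1 := one_sub_rr_pow A 1 hA1
    rw [pow_one, ← hr, Nat.cast_one, mul_one] at h1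
    have h2 : (1 - r) * A ≤ 0.6932 := by
      rw [le_div_iff₀ hA0] at h1
      exact h1
    have hr1 : r < 1 := rr_lt_one A hA1
    have h3 : (A : ℝ) / (2 * 0.6932) ≤ S := by
      have h4 : 0 < 1 - r := by linarith
      have h5 : S = 1 / 2 / (1 - r) := by
        rw [eq_div_iff h4.ne']
        linarith
      rw [h5, div_le_div_iff₀ (by norm_num) h4]
      nlinarith
    have h6 : ((A : ℝ) / (2 * 0.6932)) ^ 2 ≤ S ^ 2 := by gcongr
    have h7 : 0.99 ≤ r := by nlinarith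
    rw [one_div ((A : ℝ) ^ 2), le_inv_mul_iff₀ (by positivity)]
    have h8 : (A : ℝ) ^ 2 * 0.52 ≤ S ^ 2 := by
      refine le_trans ?_ h6
      rw [div_pow]
      rw [le_div_iff₀ (by norm_num)]
      nlinarith [sq_nonneg (A : ℝ)]
    nlinarith [sq_nonneg (A : ℝ)]
  · rw [hc, hS']
    push_cast
    ring

theorem E1_w (A I e : ℕ) (J : ℕ) (hA : 1 ≤ A) (h : e + I = J ∨ e + I = J + A) :
    rt A I * (starRingEnd ℂ) (rt A J) =
      ((Real.cos (2 * Real.pi * (e / A)) : ℝ) : ℂ) - ((Real.sin (2 * Real.pi * (e / A)) : ℝ) : ℂ) *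
        Complex.I := by
  have hA' : (A : ℂ) ≠ 0 := by exact_mod_cast (by omega : A ≠ 0)
  have h1 : rt A I * (starRingEnd ℂ) (rt A J) =
      Complex.exp (-(2 * Real.pi * ((e : ℂ) / A)) * Complex.I) := by
    unfold rt
    rw [← Complex.exp_conj, ← Complex.exp_add]
    simp only [map_mul, map_div₀, Complex.conj_I, Complex.conj_ofReal, map_natCast, map_ofNat]
    rcases h with h | h
    · congr 1
      have : (J : ℂ) = e + I := by exact_mod_cast h.symm
      rw [this]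
      field_simp
      ring
    · have : (J : ℂ) = e + I - A := by
        have : (e : ℂ) + I = J + A := by exact_mod_cast h
        rw [this]
        ring
      rw [this]
      have e1 : 2 * (Real.pi : ℂ) * Complex.I * ((I : ℂ) / A) +
          2 * (Real.pi : ℂ) * -Complex.I * (((e : ℂ) + I - A) / A) =
          -(2 * Real.pi * ((e : ℂ) / A)) * Complex.I + 2 * Real.pi * Complex.I := by
        field_simp
        ring
      rw [e1, Complex.exp_add, Complex.exp_two_pi_mul_I, mul_one]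
  rw [h1, Complex.exp_mul_I]
  push_cast
  rw [Complex.cos_neg, Complex.sin_neg]
  ring

theorem E1_sin (A e : ℕ) (he1 : 1 ≤ e) (he2 : e < A) :
    1 / (Real.sin (Real.pi * (e / A))) ^ 2 ≤
      (A : ℝ) ^ 2 / 4 * (1 / (e : ℝ) ^ 2 + 1 / ((A : ℝ) - e) ^ 2) := by
  have hA0 : (0 : ℝ) < A := by exact_mod_cast (by omega : 0 < A)
  have he0 : (0 : ℝ) < e := by exact_mod_cast (by omega : 0 < e)
  have hAe : (0 : ℝ) < (A : ℝ) - e := by
    have : (e : ℝ) < A := by exact_mod_cast he2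
    linarith
  have hpi := Real.pi_pos
  have key : ∀ x : ℝ, 0 < x → x ≤ A / 2 → 1 / (Real.sin (Real.pi * (x / A))) ^ 2 ≤
      (A : ℝ) ^ 2 / 4 * (1 / x ^ 2) := by
    intro x hx0 hx
    have h1 : 2 / Real.pi * (Real.pi * (x / A)) ≤ Real.sin (Real.pi * (x / A)) := by
      apply Real.mul_le_sin (by positivity)
      have : x / A ≤ 1 / 2 := by
        rw [div_le_iff₀ hA0]
        linarith
      nlinarith
    have h2 : 2 / Real.pi * (Real.pi * (x / A)) = 2 * x / A := by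
      field_simp
    rw [h2] at h1
    have h3 : 0 < 2 * x / A := by positivity
    have h4 : (2 * x / A) ^ 2 ≤ (Real.sin (Real.pi * (x / A))) ^ 2 := by gcongr
    calc 1 / (Real.sin (Real.pi * (x / A))) ^ 2 ≤ 1 / (2 * x / A) ^ 2 := by gcongr
      _ = (A : ℝ) ^ 2 / 4 * (1 / x ^ 2) := by
        field_simp
        ring
  by_cases h : (e : ℝ) ≤ A / 2
  · refine le_trans (key e he0 h) ?_
    have : 0 ≤ 1 / ((A : ℝ) - e) ^ 2 := by positivity
    have h5 : (0 : ℝ) ≤ (A : ℝ) ^ 2 / 4 := by positivity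
    nlinarith
  · have h1 := key ((A : ℝ) - e) hAe (by linarith)
    have h2 : Real.pi * (((A : ℝ) - e) / A) = Real.pi - Real.pi * (e / A) := by
      field_simp
    rw [h2, Real.sin_pi_sub] at h1
    refine le_trans h1 ?_
    have : 0 ≤ 1 / (e : ℝ) ^ 2 := by positivity
    have h5 : (0 : ℝ) ≤ (A : ℝ) ^ 2 / 4 := by positivity
    nlinarith

theorem E1_term (A I J e : ℕ) (hA : 1 ≤ A) (he1 : 1 ≤ e) (he2 : e < A)
    (h : e + I = J ∨ e + I = J + A) :
    ‖(chi A J).eval ((rr A : ℂ) * rt A I)‖ ≤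
      1 / 64 * (1 / (e : ℝ) ^ 2 + 1 / ((A : ℝ) - e) ^ 2) := by
  have hA0 : (0 : ℝ) < A := by exact_mod_cast (by omega : 0 < A)
  have he0 : (0 : ℝ) < e := by exact_mod_cast (by omega : 0 < e)
  have hAe : (0 : ℝ) < (A : ℝ) - e := by
    have : (e : ℝ) < A := by exact_mod_cast he2
    linarith
  have hpi := Real.pi_pos
  have hg := E1_geom A I J hA
  rw [E1_chi A I J hA]
  set w := rt A I * (starRingEnd ℂ) (rt A J) with hw
  set S := ∑ s ∈ range A, ((rr A : ℂ) * w) ^ s with hS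
  have hr0 := rr_pos A
  have hwn : ‖w‖ = 1 := by
    rw [hw, norm_mul, Complex.norm_conj, norm_rt, norm_rt, one_mul]
  have hn1 : ‖1 - (rr A : ℂ) * w‖ * ‖S‖ = 1 / 2 := by
    rw [← norm_mul, hg]
    norm_num
  have hsin : 0 < Real.sin (Real.pi * (e / A)) := by
    apply Real.sin_pos_of_pos_of_lt_pi (by positivity)
    have : (e : ℝ) / A < 1 := by
      rw [div_lt_one hA0]
      exact_mod_cast he2
    nlinarith
  have hn2 : 4 * rr A * (Real.sin (Real.pi * (e / A))) ^ 2 ≤ ‖1 - (rr A : ℂ) * w‖ ^ 2 := by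
    have hww := E1_w A I e J hA h
    rw [← hw] at hww
    rw [hww, Complex.sq_norm, Complex.normSq_apply]
    simp only [Complex.sub_re, Complex.one_re, Complex.mul_re, Complex.ofReal_re,
      Complex.ofReal_im, Complex.I_re, Complex.I_im, Complex.sub_im, Complex.one_im,
      Complex.mul_im, mul_zero, mul_one, zero_mul, sub_zero, add_zero, zero_sub, zero_sub]
    have h2 : 2 * Real.pi * ((e : ℝ) / A) = 2 * (Real.pi * (e / A)) := by ring
    rw [h2, Real.cos_two_mul, Real.sin_two_mul]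
    set s := Real.sin (Real.pi * (e / A))
    set c := Real.cos (Real.pi * (e / A))
    have hsc : s ^ 2 + c ^ 2 = 1 := Real.sin_sq_add_cos_sq _
    have hc2 : c ^ 2 = 1 - s ^ 2 := by linarith
    have e3 : (1 - rr A * (2 * c ^ 2 - 1)) * (1 - rr A * (2 * c ^ 2 - 1)) +
        -(rr A * -(2 * s * c)) * -(rr A * -(2 * s * c)) =
        (1 - rr A) ^ 2 + 4 * rr A * s ^ 2 := by
      have : (1 - rr A * (2 * c ^ 2 - 1)) * (1 - rr A * (2 * c ^ 2 - 1)) +
        -(rr A * -(2 * s * c)) * -(rr A * -(2 * s * c)) =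
        (1 - rr A * (2 * c ^ 2 - 1)) ^ 2 + (rr A) ^ 2 * 4 * s ^ 2 * c ^ 2 := by ring
      rw [this, hc2]
      ring
    nlinarith [sq_nonneg (1 - rr A)]
  have hn3 : ‖S‖ ^ 2 = 1 / 4 / ‖1 - (rr A : ℂ) * w‖ ^ 2 := by
    have h0 : ‖1 - (rr A : ℂ) * w‖ ≠ 0 := by
      intro h0
      rw [h0, zero_mul] at hn1
      norm_num at hn1
    rw [eq_div_iff (by positivity), ← mul_pow, mul_comm, hn1]
    norm_num
  rw [norm_mul, norm_mul, norm_mul, norm_pow, norm_div, norm_one, norm_pow, Complex.norm_natCast,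
    hwn, mul_one, Complex.norm_real, Real.norm_eq_abs, abs_of_pos hr0, hn3]
  have h4 : 1 / 4 / ‖1 - (rr A : ℂ) * w‖ ^ 2 ≤
      1 / 4 / (4 * rr A * (Real.sin (Real.pi * (e / A))) ^ 2) := by
    gcongr
  calc 1 / (A : ℝ) ^ 2 * (rr A * (1 / 4 / ‖1 - (rr A : ℂ) * w‖ ^ 2))
      ≤ 1 / (A : ℝ) ^ 2 * (rr A * (1 / 4 / (4 * rr A * (Real.sin (Real.pi * (e / A))) ^ 2))) := by
        gcongr
    _ = 1 / (16 * (A : ℝ) ^ 2) * (1 / (Real.sin (Real.pi * (e / A))) ^ 2) := by
        field_simp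
        ring
    _ ≤ 1 / (16 * (A : ℝ) ^ 2) *
        ((A : ℝ) ^ 2 / 4 * (1 / (e : ℝ) ^ 2 + 1 / ((A : ℝ) - e) ^ 2)) := by
        have := E1_sin A e he1 he2
        gcongr
    _ = 1 / 64 * (1 / (e : ℝ) ^ 2 + 1 / ((A : ℝ) - e) ^ 2) := by
        field_simp
        ring

theorem E1_basel (N : ℕ) : ∑ n ∈ range N, 1 / ((n : ℝ) + 1) ^ 2 ≤ 7 / 4 := by
  have key : ∀ N : ℕ, ∑ n ∈ range (N + 2), 1 / ((n : ℝ) + 1) ^ 2 ≤ 7 / 4 - 1 / ((N : ℝ) + 2) := by
    intro N
    induction N with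
    | zero =>
      norm_num [Finset.sum_range_succ]
    | succ N ih =>
      rw [Finset.sum_range_succ]
      have h : 1 / (((N + 2 : ℕ) : ℝ) + 1) ^ 2 ≤ 1 / ((N : ℝ) + 2) - 1 / ((N : ℝ) + 3) := by
        push_cast
        rw [div_sub_div _ _ (by positivity) (by positivity), div_le_div_iff₀ (by positivity)
          (by positivity)]
        have : (0 : ℝ) ≤ N := by positivity
        nlinarith
      push_cast at h ⊢
      have e : (N : ℝ) + 1 + 2 = N + 3 := by ring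
      rw [e]
      linarith
  have h := key N
  have h1 : ∑ n ∈ range N, 1 / ((n : ℝ) + 1) ^ 2 ≤ ∑ n ∈ range (N + 2), 1 / ((n : ℝ) + 1) ^ 2 := by
    apply Finset.sum_le_sum_of_subset_of_nonneg (Finset.range_mono (by omega))
    intro n _ _
    positivity
  have h2 : 0 ≤ 1 / ((N : ℝ) + 2) := by positivity
  linarith

theorem chi_off (A : ℕ) (hA : 100 ≤ A) (I : ℕ) (hI : I < A) :
    ∑ J ∈ (range A).erase I, ‖(chi A J).eval ((rr A : ℂ) * rt A I)‖ ≤ 6 / 100 := by
  have h1 : ∑ J ∈ (range A).erase I, ‖(chi A J).eval ((rr A : ℂ) * rt A I)‖ ≤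
      ∑ J ∈ (range A).erase I, 1 / 64 * (1 / (((if I < J then J - I else J + A - I : ℕ)) : ℝ) ^ 2 +
        1 / ((A : ℝ) - ((if I < J then J - I else J + A - I : ℕ) : ℝ)) ^ 2) := by
    apply Finset.sum_le_sum
    intro J hJ
    rw [Finset.mem_erase, Finset.mem_range] at hJ
    apply E1_term A I J _ (by omega)
    · split_ifs <;> omega
    · split_ifs <;> omega
    · split_ifs <;> omega
  refine le_trans h1 ?_
  have h2 : ∑ J ∈ (range A).erase I,
      1 / 64 * (1 / (((if I < J then J - I else J + A - I : ℕ)) : ℝ) ^ 2 +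
        1 / ((A : ℝ) - ((if I < J then J - I else J + A - I : ℕ) : ℝ)) ^ 2) =
      ∑ n ∈ range (A - 1), 1 / 64 * (1 / (((n + 1 : ℕ)) : ℝ) ^ 2 +
        1 / ((A : ℝ) - ((n + 1 : ℕ) : ℝ)) ^ 2) := by
    apply Finset.sum_nbij' (fun J => (if I < J then J - I else J + A - I) - 1)
      (fun n => if n + 1 + I < A then n + 1 + I else n + 1 + I - A)
    · intro J hJ
      rw [Finset.mem_erase, Finset.mem_range] at hJ
      rw [Finset.mem_range]
      split_ifs <;> omega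
    · intro n hn
      rw [Finset.mem_range] at hn
      rw [Finset.mem_erase, Finset.mem_range]
      split_ifs <;> omega
    · intro J hJ
      rw [Finset.mem_erase, Finset.mem_range] at hJ
      split_ifs <;> omega
    · intro n hn
      rw [Finset.mem_range] at hn
      split_ifs <;> omega
    · intro J hJ
      rw [Finset.mem_erase, Finset.mem_range] at hJ
      have e : (if I < J then J - I else J + A - I) - 1 + 1 =
          (if I < J then J - I else J + A - I) := by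
        split_ifs <;> omega
      rw [e]
  rw [h2, ← Finset.mul_sum, Finset.sum_add_distrib]
  have h3 : ∑ n ∈ range (A - 1), 1 / (((n + 1 : ℕ)) : ℝ) ^ 2 ≤ 7 / 4 := by
    have := E1_basel (A - 1)
    push_cast
    exact this
  have h4 : ∑ n ∈ range (A - 1), 1 / ((A : ℝ) - ((n + 1 : ℕ) : ℝ)) ^ 2 =
      ∑ n ∈ range (A - 1), 1 / (((n + 1 : ℕ)) : ℝ) ^ 2 := by
    rw [← Finset.sum_range_reflect]
    apply Finset.sum_congr rfl
    intro n hn
    rw [Finset.mem_range] at hn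
    congr 2
    have : A - 1 - 1 - n + 1 + (n + 1) = A := by omega
    have h5 : ((A - 1 - 1 - n + 1 : ℕ) : ℝ) + ((n + 1 : ℕ) : ℝ) = A := by exact_mod_cast this
    linarith
  rw [h4]
  linarith

end PB
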