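import Pool.Agent.Helper89.PB.Defs

namespace PB

open Finset Polynomial

/-- Differencing. -/
theorem B4_diff (p : ℕ) [Fact p.Prime] (P : ZMod p → ZMod p) :
    (∑ x, ZMod.stdAddChar (P x)) * (starRingEnd ℂ) (∑ x, ZMod.stdAddChar (P x)) =
      ∑ h, ∑ y, (ZMod.stdAddChar (P (y + h) - P y) : ℂ) := by
  rw [map_sum, Finset.sum_mul_sum, Finset.sum_comm]
  have h1 : ∀ y : ZMod p, ∑ x, (ZMod.stdAddChar (P x) : ℂ) *
      (starRingEnd ℂ) (ZMod.stdAddChar (P y)) = ∑ h, (ZMod.stdAddChar (P (y + h) - P y) : ℂ) := by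
    intro y
    rw [← Equiv.sum_comp (Equiv.addLeft y)]
    refine Finset.sum_congr rfl fun h _ => ?_
    rw [← AddChar.map_neg_eq_conj, ← AddChar.map_add_eq_mul, ← sub_eq_add_neg]
    rfl
  rw [Finset.sum_congr rfl fun y _ => h1 y, Finset.sum_comm]

theorem B4_orth (p : ℕ) [Fact p.Prime] (t : ZMod p) :
    ∑ x : ZMod p, (ZMod.stdAddChar (x * t) : ℂ) = if t = 0 then (p : ℂ) else 0 := by
  rw [AddChar.sum_mulShift t (ZMod.isPrimitive_stdAddChar p), ZMod.card]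
  split_ifs <;> simp

theorem B4_two_ne (p : ℕ) [Fact p.Prime] (hp : p ≠ 2) : (2 : ZMod p) ≠ 0 := by
  intro h
  have h1 : ((2 : ℕ) : ZMod p) = 0 := by exact_mod_cast h
  rw [ZMod.natCast_eq_zero_iff] at h1
  have h2 := (Nat.prime_dvd_prime_iff_eq (Fact.out) Nat.prime_two).mp h1
  exact hp h2

theorem B4_three_ne (p : ℕ) [Fact p.Prime] (hp : p ≠ 3) : (3 : ZMod p) ≠ 0 := by
  intro h
  have h1 : ((3 : ℕ) : ZMod p) = 0 := by exact_mod_cast h
  rw [ZMod.natCast_eq_zero_iff] at h1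
  have h2 := (Nat.prime_dvd_prime_iff_eq (Fact.out) Nat.prime_three).mp h1
  exact hp h2

/-- The modulus of the quadratic Gauss sums. -/
theorem B4_gauss (p : ℕ) [Fact p.Prime] (hp : p ≠ 2) (u v w : ZMod p) (hu : u ≠ 0) :
    ‖∑ x : ZMod p, (ZMod.stdAddChar (u * x ^ 2 + v * x + w) : ℂ)‖ ^ 2 = p := by
  have h1 := B4_diff p (fun x => u * x ^ 2 + v * x + w)
  have h2 : ∀ h : ZMod p, ∑ y : ZMod p, (ZMod.stdAddChar ((u * (y + h) ^ 2 + v * (y + h) + w)
      - (u * y ^ 2 + v * y + w)) : ℂ) = if h = 0 then (p : ℂ) else 0 := by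
    intro h
    have h3 : ∀ y : ZMod p, (ZMod.stdAddChar ((u * (y + h) ^ 2 + v * (y + h) + w)
      - (u * y ^ 2 + v * y + w)) : ℂ) = ZMod.stdAddChar (u * h ^ 2 + v * h) *
        ZMod.stdAddChar (y * (2 * u * h)) := by
      intro y
      rw [← AddChar.map_add_eq_mul]
      congr 1
      ring
    rw [Finset.sum_congr rfl fun y _ => h3 y, ← Finset.mul_sum, B4_orth]
    by_cases hh : h = 0
    · subst hh
      simp
    · rw [if_neg hh, if_neg (mul_ne_zero (mul_ne_zero (B4_two_ne p hp) hu) hh), mul_zero]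
  rw [Finset.sum_congr rfl fun h _ => h2 h, Finset.sum_ite_eq' univ (0 : ZMod p)] at h1
  simp only [Finset.mem_univ, if_true] at h1
  rw [Complex.mul_conj, Complex.normSq_eq_norm_sq] at h1
  exact_mod_cast h1

/-- cross level inner products -/
theorem vv_cross (p : ℕ) [Fact p.Prime] (hp : 5 ≤ p) (k k' : ℕ) (hk : (k : ZMod p) ≠ k')
    (a a' : Fin 4 → ZMod p) (j j' : ℕ) :
    ‖∑ x, vv p k a j x * (starRingEnd ℂ) (vv p k' a' j' x)‖ ^ 4 ≤ 4 * (p : ℝ) ^ 3 := by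
  set c : ZMod p := k - k' with hc
  set α : ZMod p := (a 0 + (j : ZMod p) * a 2) - (a' 0 + (j' : ZMod p) * a' 2) with hα
  set β : ZMod p := (a 1 + (j : ZMod p) * a 3) - (a' 1 + (j' : ZMod p) * a' 3) with hβ
  have hc0 : c ≠ 0 := sub_ne_zero.mpr hk
  have hS : ∑ x, vv p k a j x * (starRingEnd ℂ) (vv p k' a' j' x)
      = ∑ x : ZMod p, (ZMod.stdAddChar (c * x ^ 3 + α * x ^ 2 + β * x) : ℂ) := by
    refine Finset.sum_congr rfl fun x _ => ?_
    unfold vv
    rw [← AddChar.map_neg_eq_conj, ← AddChar.map_add_eq_mul]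
    congr 1
    rw [hc, hα, hβ]
    ring
  rw [hS]
  set S := ∑ x : ZMod p, (ZMod.stdAddChar (c * x ^ 3 + α * x ^ 2 + β * x) : ℂ) with hSdef
  have h1 := B4_diff p (fun x => c * x ^ 3 + α * x ^ 2 + β * x)
  set T : ZMod p → ℂ := fun h => ∑ y : ZMod p, (ZMod.stdAddChar
    ((c * (y + h) ^ 3 + α * (y + h) ^ 2 + β * (y + h))
      - (c * y ^ 3 + α * y ^ 2 + β * y)) : ℂ) with hT
  have hp0 : (0 : ℝ) < p := by
    have : 0 < p := by omega
    exact_mod_cast this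
  have hT0 : ‖T 0‖ ≤ p := by
    have : T 0 = p := by
      simp [hT, ZMod.card]
    rw [this]
    simp
  have hTh : ∀ h ≠ 0, ‖T h‖ = Real.sqrt p := by
    intro h hh
    have h2 : T h = ∑ y : ZMod p, (ZMod.stdAddChar (3 * c * h * y ^ 2 +
        (3 * c * h ^ 2 + 2 * α * h) * y + (c * h ^ 3 + α * h ^ 2 + β * h)) : ℂ) := by
      refine Finset.sum_congr rfl fun y _ => ?_
      congr 1
      ring
    have h3 := B4_gauss p (by omega) (3 * c * h) (3 * c * h ^ 2 + 2 * α * h)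
      (c * h ^ 3 + α * h ^ 2 + β * h)
      (mul_ne_zero (mul_ne_zero (B4_three_ne p (by omega)) hc0) hh)
    rw [← h2] at h3
    rw [← h3, Real.sqrt_sq (norm_nonneg _)]
  have h2 : ‖S‖ ^ 2 ≤ 2 * (p * Real.sqrt p) := by
    have h3 : ‖S‖ ^ 2 = ‖∑ h, T h‖ := by
      have h4 : S * (starRingEnd ℂ) S = ∑ h, T h := h1
      rw [← h4, norm_mul, RCLike.norm_conj, pow_two]
    rw [h3]
    have h5 : 1 ≤ Real.sqrt p := by
      rw [Real.one_le_sqrt]
      have : 1 ≤ p := by omega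
      exact_mod_cast this
    calc ‖∑ h, T h‖ ≤ ∑ h, ‖T h‖ := norm_sum_le _ _
      _ = ‖T 0‖ + ∑ h ∈ univ.erase 0, ‖T h‖ := (Finset.add_sum_erase _ _ (Finset.mem_univ 0)).symm
      _ ≤ p + ∑ _h ∈ univ.erase (0 : ZMod p), Real.sqrt p := by
          refine add_le_add hT0 (Finset.sum_le_sum fun h hh => ?_)
          exact (hTh h (Finset.ne_of_mem_erase hh)).le
      _ ≤ p + p * Real.sqrt p := by
          rw [Finset.sum_const, nsmul_eq_mul]
          refine add_le_add le_rfl (mul_le_mul_of_nonneg_right ?_ (Real.sqrt_nonneg _))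
          have h6 : (univ.erase (0 : ZMod p)).card ≤ p := by
            calc (univ.erase (0 : ZMod p)).card ≤ (univ : Finset (ZMod p)).card :=
                  Finset.card_erase_le
              _ = p := by rw [Finset.card_univ, ZMod.card]
          exact_mod_cast h6
      _ ≤ 2 * (p * Real.sqrt p) := by nlinarith
  have h3 : ‖S‖ ^ 4 = (‖S‖ ^ 2) ^ 2 := by ring
  rw [h3]
  calc (‖S‖ ^ 2) ^ 2 ≤ (2 * (p * Real.sqrt p)) ^ 2 :=
        pow_le_pow_left₀ (by positivity) h2 2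
    _ = 4 * (p : ℝ) ^ 3 := by
        have h4 : Real.sqrt p ^ 2 = p := Real.sq_sqrt hp0.le
        calc (2 * (p * Real.sqrt p)) ^ 2 = 4 * (p : ℝ) ^ 2 * Real.sqrt p ^ 2 := by ring
          _ = _ := by rw [h4]; ring

end PB
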