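import Pool.Agent.Helper89.PB.Defs

namespace PB

open Finset Polynomial

private theorem B5_conj (p : ℕ) [NeZero p] (x : ZMod p) :
    (starRingEnd ℂ) (ZMod.stdAddChar x) = ZMod.stdAddChar (-x) :=
  (AddChar.map_neg_eq_conj _ _).symm

private theorem B5_norm (p : ℕ) [NeZero p] (x : ZMod p) :
    ‖(ZMod.stdAddChar x : ℂ)‖ = 1 := AddChar.norm_apply _ _

private theorem B5_vv_mul (p : ℕ) [NeZero p] (k : ℕ) (a : Fin 4 → ZMod p) (j j' : ℕ)
    (x : ZMod p) :
    vv p k a j x * (starRingEnd ℂ) (vv p k a j' x) =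
      ZMod.stdAddChar ((((j : ZMod p) - (j' : ZMod p)) * a 2) * x ^ 2 + (((j : ZMod p) - (j' : ZMod p)) * a 3) * x) := by
  unfold vv
  rw [B5_conj, ← AddChar.map_add_eq_mul]
  congr 1
  ring

private theorem B5_lin (p : ℕ) [Fact p.Prime] (b : ZMod p) :
    ∑ x : ZMod p, (ZMod.stdAddChar (x * b) : ℂ) = if b = 0 then (p : ℂ) else 0 := by
  have h := AddChar.sum_mulShift (R' := ℂ) b (ZMod.isPrimitive_stdAddChar p)
  rw [h, ZMod.card]
  split_ifs <;> simp

private theorem B5_quad (p : ℕ) [Fact p.Prime] (hp : p ≠ 2) (u v : ZMod p) (hu : u ≠ 0) :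
    (∑ x : ZMod p, (ZMod.stdAddChar (u * x ^ 2 + v * x) : ℂ)) *
      (starRingEnd ℂ) (∑ x : ZMod p, (ZMod.stdAddChar (u * x ^ 2 + v * x) : ℂ)) = p := by
  rw [map_sum, Finset.sum_mul_sum, Finset.sum_comm]
  have h1 : ∀ y : ZMod p, ∑ x : ZMod p, (ZMod.stdAddChar (u * x ^ 2 + v * x) : ℂ) *
      (starRingEnd ℂ) (ZMod.stdAddChar (u * y ^ 2 + v * y)) =
      ∑ h : ZMod p, ZMod.stdAddChar (u * h ^ 2 + v * h) *
        (ZMod.stdAddChar (y * (2 * u * h)) : ℂ) := by
    intro y
    rw [← Equiv.sum_comp (Equiv.addRight y)]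
    apply Finset.sum_congr rfl
    intro h _
    rw [B5_conj, ← AddChar.map_add_eq_mul, ← AddChar.map_add_eq_mul]
    congr 1
    simp only [Equiv.coe_addRight]
    ring
  simp_rw [h1]
  rw [Finset.sum_comm]
  simp_rw [← Finset.mul_sum, B5_lin]
  have h2 : (2 : ZMod p) ≠ 0 := by
    intro h
    have h3 : ((2 : ℕ) : ZMod p) = 0 := by exact_mod_cast h
    rw [ZMod.natCast_eq_zero_iff] at h3
    have h4 := (Nat.prime_dvd_prime_iff_eq (Fact.out : p.Prime) Nat.prime_two).mp h3
    exact hp h4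
  rw [Finset.sum_eq_single 0]
  · simp
  · intro b _ hb
    rw [if_neg, mul_zero]
    exact mul_ne_zero (mul_ne_zero h2 hu) hb
  · intro h; exact absurd (Finset.mem_univ _) h

/-- same level inner products -/
theorem vv_same (p : ℕ) [Fact p.Prime] (hp : p ≠ 2) (k : ℕ) (a : Fin 4 → ZMod p) (ha : gd a)
    (j j' : ℕ) (hj : (j : ZMod p) ≠ j') :
    ‖∑ x, vv p k a j x * (starRingEnd ℂ) (vv p k a j' x)‖ ^ 2 ≤ p := by
  simp_rw [B5_vv_mul]
  have hjj : (j : ZMod p) - (j' : ZMod p) ≠ 0 := sub_ne_zero.mpr hj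
  by_cases hu : a 2 = 0
  · have hv : a 3 ≠ 0 := by
      rcases ha with h | h
      · exact absurd hu h
      · exact h
    have h1 : ∑ x : ZMod p, (ZMod.stdAddChar ((((j : ZMod p) - (j' : ZMod p)) * a 2) * x ^ 2 +
        (((j : ZMod p) - (j' : ZMod p)) * a 3) * x) : ℂ) = 0 := by
      have h2 := B5_lin p ((((j : ZMod p) - (j' : ZMod p)) * a 3))
      rw [if_neg (mul_ne_zero hjj hv)] at h2
      rw [← h2]
      apply Finset.sum_congr rfl
      intro x _
      congr 1
      rw [hu]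
      ring
    rw [h1]
    simp
  · have h1 := B5_quad p hp (((j : ZMod p) - (j' : ZMod p)) * a 2) (((j : ZMod p) - (j' : ZMod p)) * a 3)
      (mul_ne_zero hjj hu)
    have h2 := congrArg (fun z : ℂ => ‖z‖) h1
    simp only [norm_mul, RCLike.norm_conj, Complex.norm_natCast] at h2
    rw [pow_two, h2]

private theorem B5_gram (p : ℕ) [Fact p.Prime] (hp : p ≠ 2) (m : ℕ) (hmp : m ≤ p)
    (k : ℕ) (a : Fin 4 → ZMod p) (ha : gd a) (j j' : ℕ) (hj : j < m) (hj' : j' < m) :
    ‖∑ x, vv p k a j x * (starRingEnd ℂ) (vv p k a j' x)‖ ≤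
      (if j = j' then (p : ℝ) else 0) + Real.sqrt p := by
  by_cases h : j = j'
  · rw [if_pos h]
    have h1 : ‖∑ x, vv p k a j x * (starRingEnd ℂ) (vv p k a j' x)‖ ≤ p := by
      refine (norm_sum_le _ _).trans ?_
      have h2 : ∀ x ∈ (Finset.univ : Finset (ZMod p)),
          ‖vv p k a j x * (starRingEnd ℂ) (vv p k a j' x)‖ = 1 := by
        intro x _
        rw [norm_mul, RCLike.norm_conj]
        unfold vv
        rw [B5_norm, B5_norm, one_mul]
      rw [Finset.sum_congr rfl h2, Finset.sum_const, Finset.card_univ, ZMod.card]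
      simp
    linarith [Real.sqrt_nonneg (p : ℝ)]
  · rw [if_neg h, zero_add]
    apply Real.le_sqrt_of_sq_le
    apply vv_same p hp k a ha j j'
    intro h1
    apply h
    rw [ZMod.natCast_eq_natCast_iff'] at h1
    rwa [Nat.mod_eq_of_lt (lt_of_lt_of_le hj hmp), Nat.mod_eq_of_lt (lt_of_lt_of_le hj' hmp)] at h1

/-- same level Bessel inequality -/
theorem bessel_same (p : ℕ) [Fact p.Prime] (hp : p ≠ 2) (m : ℕ) (hmp : 4 * m ^ 8 ≤ p) (hm : 1 ≤ m)
    (k : ℕ) (a : Fin 4 → ZMod p) (ha : gd a) (b : ZMod p → ℂ) :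
    ∑ j ∈ range m, ‖∑ x, (starRingEnd ℂ) (vv p k a j x) * b x‖ ^ 2 ≤ 2 * p * sq b := by
  have hm8 : m ^ 2 ≤ m ^ 8 := Nat.pow_le_pow_right hm (by norm_num)
  have hm2 : m ≤ m ^ 2 := Nat.le_self_pow (by norm_num) m
  have hm2p : m ^ 2 ≤ p := by omega
  have hmp' : m ≤ p := by omega
  set c : ℕ → ℂ := fun j => ∑ x, (starRingEnd ℂ) (vv p k a j x) * b x with hc
  set Q : ℝ := ∑ j ∈ range m, ‖c j‖ ^ 2 with hQ
  have hQ0 : 0 ≤ Q := Finset.sum_nonneg (fun i _ => by positivity)
  change Q ≤ 2 * p * sq b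
  set w : ZMod p → ℂ := fun x => ∑ j ∈ range m, c j * vv p k a j x with hw
  -- inner product
  have hin : ∑ x, (starRingEnd ℂ) (w x) * b x = (Q : ℂ) := by
    have h1 : ∀ x, (starRingEnd ℂ) (w x) * b x = ∑ j ∈ range m,
        (starRingEnd ℂ) (c j) * ((starRingEnd ℂ) (vv p k a j x) * b x) := by
      intro x
      rw [hw]
      simp only [map_sum, map_mul, Finset.sum_mul]
      apply Finset.sum_congr rfl
      intro j _
      ring
    simp_rw [h1]
    rw [Finset.sum_comm, hQ, Complex.ofReal_sum]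
    apply Finset.sum_congr rfl
    intro j _
    rw [← Finset.mul_sum]
    change (starRingEnd ℂ) (c j) * c j = _
    rw [Complex.conj_mul']
    push_cast
    rfl
  have hCS : Q ^ 2 ≤ sq w * sq b := by
    have h1 : Q = ‖∑ x, (starRingEnd ℂ) (w x) * b x‖ := by
      rw [hin, Complex.norm_real, Real.norm_of_nonneg hQ0]
    have h2 : Q ≤ ∑ x, ‖w x‖ * ‖b x‖ := by
      rw [h1]
      refine (norm_sum_le _ _).trans (le_of_eq ?_)
      apply Finset.sum_congr rfl
      intro x _
      rw [norm_mul, RCLike.norm_conj]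
    calc Q ^ 2 ≤ (∑ x, ‖w x‖ * ‖b x‖) ^ 2 := pow_le_pow_left₀ hQ0 h2 2
      _ ≤ (∑ x, ‖w x‖ ^ 2) * ∑ x, ‖b x‖ ^ 2 := Finset.sum_mul_sq_le_sq_mul_sq _ _ _
      _ = sq w * sq b := rfl
  have hw2 : sq w ≤ 2 * p * Q := by
    have h1 : ((sq w : ℝ) : ℂ) = ∑ j ∈ range m, ∑ j' ∈ range m,
        c j * (starRingEnd ℂ) (c j') * ∑ x, vv p k a j x * (starRingEnd ℂ) (vv p k a j' x) := by
      unfold sq
      rw [Complex.ofReal_sum]
      have h2 : ∀ x, ((‖w x‖ ^ 2 : ℝ) : ℂ) = ∑ j ∈ range m, ∑ j' ∈ range m,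
          c j * (starRingEnd ℂ) (c j') * (vv p k a j x * (starRingEnd ℂ) (vv p k a j' x)) := by
        intro x
        rw [Complex.ofReal_pow, ← Complex.mul_conj', hw]
        simp only [map_sum, map_mul]
        rw [Finset.sum_mul_sum]
        apply Finset.sum_congr rfl
        intro j _
        apply Finset.sum_congr rfl
        intro j' _
        ring
      simp_rw [h2]
      rw [Finset.sum_comm]
      apply Finset.sum_congr rfl
      intro j _
      rw [Finset.sum_comm]
      apply Finset.sum_congr rfl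
      intro j' _
      rw [Finset.mul_sum]
    have hsw : 0 ≤ sq w := Finset.sum_nonneg (fun i _ => by positivity)
    have h3 : sq w ≤ ∑ j ∈ range m, ∑ j' ∈ range m,
        ‖c j‖ * ‖c j'‖ * ((if j = j' then (p : ℝ) else 0) + Real.sqrt p) := by
      have h4 : sq w = ‖((sq w : ℝ) : ℂ)‖ := by
        rw [Complex.norm_real, Real.norm_of_nonneg hsw]
      rw [h4, h1]
      refine (norm_sum_le _ _).trans ?_
      apply Finset.sum_le_sum
      intro j hj
      refine (norm_sum_le _ _).trans ?_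
      apply Finset.sum_le_sum
      intro j' hj'
      rw [norm_mul, norm_mul, RCLike.norm_conj]
      apply mul_le_mul_of_nonneg_left _ (by positivity)
      exact B5_gram p hp m hmp' k a ha j j' (Finset.mem_range.mp hj) (Finset.mem_range.mp hj')
    have h5 : ∑ j ∈ range m, ∑ j' ∈ range m,
        ‖c j‖ * ‖c j'‖ * ((if j = j' then (p : ℝ) else 0) + Real.sqrt p) =
        p * Q + Real.sqrt p * (∑ j ∈ range m, ‖c j‖) ^ 2 := by
      have h6 : ∀ j ∈ range m, ∑ j' ∈ range m,
          ‖c j‖ * ‖c j'‖ * ((if j = j' then (p : ℝ) else 0) + Real.sqrt p) =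
          p * ‖c j‖ ^ 2 + Real.sqrt p * (‖c j‖ * ∑ j' ∈ range m, ‖c j'‖) := by
        intro j hj
        simp_rw [mul_add]
        rw [Finset.sum_add_distrib]
        congr 1
        · rw [Finset.sum_eq_single j]
          · rw [if_pos rfl]; ring
          · intro b _ hb
            rw [if_neg (Ne.symm hb), mul_zero]
          · intro h; exact absurd hj h
        · rw [Finset.mul_sum, Finset.mul_sum]
          apply Finset.sum_congr rfl
          intro j' _
          ring
      rw [Finset.sum_congr rfl h6, Finset.sum_add_distrib, ← Finset.mul_sum, ← Finset.mul_sum,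
        ← Finset.sum_mul]
      ring
    have h7 : (∑ j ∈ range m, ‖c j‖) ^ 2 ≤ m * Q := by
      have h8 := sq_sum_le_card_mul_sum_sq (s := range m) (f := fun j => ‖c j‖)
      rwa [Finset.card_range] at h8
    have h8 : Real.sqrt p * m ≤ p := by
      have h9 : (m : ℝ) ≤ Real.sqrt p := by
        apply Real.le_sqrt_of_sq_le
        exact_mod_cast hm2p
      calc Real.sqrt p * m ≤ Real.sqrt p * Real.sqrt p :=
            mul_le_mul_of_nonneg_left h9 (Real.sqrt_nonneg _)
        _ = p := Real.mul_self_sqrt (Nat.cast_nonneg _)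
    calc sq w ≤ p * Q + Real.sqrt p * (∑ j ∈ range m, ‖c j‖) ^ 2 := by rw [← h5]; exact h3
      _ ≤ p * Q + Real.sqrt p * (m * Q) := by
          have := mul_le_mul_of_nonneg_left h7 (Real.sqrt_nonneg (p : ℝ))
          linarith
      _ = p * Q + (Real.sqrt p * m) * Q := by ring
      _ ≤ p * Q + p * Q := by
          have := mul_le_mul_of_nonneg_right h8 hQ0
          linarith
      _ = 2 * p * Q := by ring
  have hb0 : 0 ≤ sq b := Finset.sum_nonneg (fun i _ => by positivity)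
  have h9 : Q ^ 2 ≤ (2 * p * sq b) * Q := by
    calc Q ^ 2 ≤ sq w * sq b := hCS
      _ ≤ (2 * p * Q) * sq b := mul_le_mul_of_nonneg_right hw2 hb0
      _ = _ := by ring
  rcases hQ0.eq_or_lt with h | h
  · rw [← h]; positivity
  · rw [pow_two] at h9
    exact le_of_mul_le_mul_right h9 h

end PB
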