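import Pool.Agent.Helper89.PB.Defs
import Pool.Agent.Helper89.PB.B4
import Pool.Agent.Helper89.PB.B5

namespace PB

open Finset Polynomial

theorem E3_wcs {ι : Type*} (T : Finset ι) (φ s : ι → ℝ) (hφ : ∀ J ∈ T, 0 ≤ φ J)
    (hφ1 : ∑ J ∈ T, φ J ≤ 1) : (∑ J ∈ T, φ J * s J) ^ 2 ≤ ∑ J ∈ T, φ J * s J ^ 2 := by
  have h := Finset.sum_sq_le_sum_mul_sum_of_sq_le_mul T (r := fun J => φ J * s J) (f := φ)
    (g := fun J => φ J * s J ^ 2) hφ (fun J hJ => mul_nonneg (hφ J hJ) (sq_nonneg _))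
    (fun J _ => le_of_eq (by ring))
  have h2 : 0 ≤ ∑ J ∈ T, φ J * s J ^ 2 :=
    Finset.sum_nonneg (fun J hJ => mul_nonneg (hφ J hJ) (sq_nonneg _))
  calc _ ≤ (∑ J ∈ T, φ J) * ∑ J ∈ T, φ J * s J ^ 2 := h
    _ ≤ 1 * ∑ J ∈ T, φ J * s J ^ 2 := mul_le_mul_of_nonneg_right hφ1 h2
    _ = _ := one_mul _

theorem E3_wcs_norm {ι : Type*} (T : Finset ι) (φ : ι → ℝ) (g : ι → ℂ) (hφ : ∀ J ∈ T, 0 ≤ φ J)
    (hφ1 : ∑ J ∈ T, φ J ≤ 1) : ‖∑ J ∈ T, (φ J : ℂ) * g J‖ ^ 2 ≤ ∑ J ∈ T, φ J * ‖g J‖ ^ 2 := by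
  refine le_trans ?_ (E3_wcs T φ (fun J => ‖g J‖) hφ hφ1)
  refine pow_le_pow_left₀ (norm_nonneg _) ?_ 2
  refine le_trans (norm_sum_le _ _) (Finset.sum_le_sum (fun J hJ => ?_))
  rw [norm_mul, Complex.norm_real, Real.norm_of_nonneg (hφ J hJ)]

theorem E3_cs {ι : Type*} (T : Finset ι) (F G : ι → ℂ) :
    ‖∑ a ∈ T, F a * G a‖ ^ 2 ≤ (∑ a ∈ T, ‖F a‖ ^ 2) * (∑ a ∈ T, ‖G a‖ ^ 2) := by
  calc ‖∑ a ∈ T, F a * G a‖ ^ 2 ≤ (∑ a ∈ T, ‖F a‖ * ‖G a‖) ^ 2 := by
        refine pow_le_pow_left₀ (norm_nonneg _) ?_ 2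
        refine le_trans (norm_sum_le _ _) (Finset.sum_le_sum (fun J hJ => ?_))
        rw [norm_mul]
    _ ≤ _ := Finset.sum_mul_sq_le_sq_mul_sq _ _ _

theorem E3_sq_eq {κ : Type*} [Fintype κ] (g : κ → ℂ) :
    ((sq g : ℝ) : ℂ) = ∑ x, g x * (starRingEnd ℂ) (g x) := by
  unfold sq
  push_cast
  refine Finset.sum_congr rfl (fun x _ => ?_)
  rw [Complex.mul_conj, Complex.normSq_eq_norm_sq]
  push_cast
  rfl

/-- duality for the Bessel inequality -/
theorem E3_dual {κ : Type*} [Fintype κ] (m : ℕ) (w : ℕ → κ → ℂ) (D : ℝ) (hD : 0 ≤ D)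
    (h : ∀ b : κ → ℂ, ∑ j ∈ range m, ‖∑ x, (starRingEnd ℂ) (w j x) * b x‖ ^ 2 ≤ D * sq b)
    (d : ℕ → ℂ) :
    sq (fun x => ∑ j ∈ range m, d j * w j x) ≤ D * ∑ j ∈ range m, ‖d j‖ ^ 2 := by
  set g : κ → ℂ := fun x => ∑ j ∈ range m, d j * w j x with hg
  have h1 : ((sq g : ℝ) : ℂ) = ∑ j ∈ range m, d j *
      (starRingEnd ℂ) (∑ x, (starRingEnd ℂ) (w j x) * g x) := by
    rw [E3_sq_eq]
    have e1 : ∀ x, g x * (starRingEnd ℂ) (g x) =
        ∑ j ∈ range m, d j * w j x * (starRingEnd ℂ) (g x) := by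
      intro x
      rw [← Finset.sum_mul]
    simp_rw [e1]
    rw [Finset.sum_comm]
    refine Finset.sum_congr rfl (fun j _ => ?_)
    rw [map_sum, Finset.mul_sum]
    refine Finset.sum_congr rfl (fun x _ => ?_)
    rw [map_mul, Complex.conj_conj]
    ring
  have h2 : (sq g) ^ 2 ≤ (∑ j ∈ range m, ‖d j‖ ^ 2) * (D * sq g) := by
    have e2 : sq g = ‖((sq g : ℝ) : ℂ)‖ := by
      rw [Complex.norm_real, Real.norm_of_nonneg]
      exact Finset.sum_nonneg (fun x _ => by positivity)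
    calc (sq g) ^ 2 = ‖((sq g : ℝ) : ℂ)‖ ^ 2 := by rw [← e2]
      _ ≤ (∑ j ∈ range m, ‖d j‖ ^ 2) *
          ∑ j ∈ range m, ‖(starRingEnd ℂ) (∑ x, (starRingEnd ℂ) (w j x) * g x)‖ ^ 2 := by
          rw [h1]
          exact E3_cs _ _ _
      _ ≤ _ := by
          refine mul_le_mul_of_nonneg_left ?_ (Finset.sum_nonneg (fun x _ => by positivity))
          simp_rw [RCLike.norm_conj]
          exact h g
  have h3 : 0 ≤ sq g := Finset.sum_nonneg (fun x _ => by positivity)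
  rcases h3.eq_or_lt with h4 | h4
  · rw [← h4]
    exact mul_nonneg hD (Finset.sum_nonneg (fun x _ => by positivity))
  · have h5 : sq g * sq g ≤ (D * ∑ j ∈ range m, ‖d j‖ ^ 2) * sq g := by
      calc sq g * sq g = (sq g) ^ 2 := by ring
        _ ≤ _ := h2
        _ = _ := by ring
    exact le_of_mul_le_mul_right h5 h4

theorem E3_X (p m : ℕ) (hmp : 4 * m ^ 8 ≤ p) :
    (m : ℝ) * (m * Real.sqrt (Real.sqrt (4 * (p : ℝ) ^ 3))) ≤ p := by
  have h0 : (0 : ℝ) ≤ 4 * (p : ℝ) ^ 3 := by positivity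
  have h1 : ((m : ℝ) * (m * Real.sqrt (Real.sqrt (4 * (p : ℝ) ^ 3)))) ^ 4 ≤ (p : ℝ) ^ 4 := by
    have e1 : Real.sqrt (Real.sqrt (4 * (p : ℝ) ^ 3)) ^ 4 = 4 * (p : ℝ) ^ 3 := by
      rw [show (4 : ℕ) = 2 * 2 by norm_num, pow_mul, Real.sq_sqrt (Real.sqrt_nonneg _),
        Real.sq_sqrt h0]
    calc ((m : ℝ) * (m * Real.sqrt (Real.sqrt (4 * (p : ℝ) ^ 3)))) ^ 4 =
        (4 * (m : ℝ) ^ 8) * (p : ℝ) ^ 3 := by
          rw [mul_pow, mul_pow, e1]; ring
      _ ≤ p * (p : ℝ) ^ 3 := by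
          refine mul_le_mul_of_nonneg_right ?_ (by positivity)
          exact_mod_cast hmp
      _ = _ := by ring
  exact (pow_le_pow_iff_left₀ (by positivity) (by positivity) (by norm_num)).1 h1

theorem E3_single (p : ℕ) [Fact p.Prime] (hp : 5 ≤ p) (m : ℕ) (hmp : 4 * m ^ 8 ≤ p) (hm : 1 ≤ m)
    {ι : Type*} (T : Fin m → Finset ι) (a : Fin m → ι → Fin 4 → ZMod p)
    (ha : ∀ k, ∀ J ∈ T k, gd (a k J)) (φ : Fin m → ι → ℝ) (hφ : ∀ k, ∀ J ∈ T k, 0 ≤ φ k J)
    (hφ1 : ∀ k, ∑ J ∈ T k, φ k J ≤ 1) (b : ZMod p → ℂ) :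
    ∑ k : Fin m, ∑ J ∈ T k, φ k J * ∑ j ∈ range m,
      ‖∑ x, (starRingEnd ℂ) (vv p ((k : ℕ) + 1) (a k J) j x) * b x‖ ^ 2 ≤
      3 * p * sq b := by
  set c : Fin m → ι → ℕ → ℂ := fun k J j =>
    ∑ x, (starRingEnd ℂ) (vv p ((k : ℕ) + 1) (a k J) j x) * b x with hc
  set g : Fin m → ι → ZMod p → ℂ := fun k J x =>
    ∑ j ∈ range m, c k J j * vv p ((k : ℕ) + 1) (a k J) j x with hg
  set r : Fin m → ZMod p → ℂ := fun k x => ∑ J ∈ T k, (φ k J : ℂ) * g k J x with hr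
  set Qk : Fin m → ℝ := fun k => ∑ J ∈ T k, φ k J * ∑ j ∈ range m, ‖c k J j‖ ^ 2 with hQk
  set Q : ℝ := ∑ k, Qk k with hQ
  set X : ℝ := Real.sqrt (Real.sqrt (4 * (p : ℝ) ^ 3)) with hX
  have hX0 : 0 ≤ X := Real.sqrt_nonneg _
  have hQk0 : ∀ k, 0 ≤ Qk k := fun k => Finset.sum_nonneg (fun J hJ =>
    mul_nonneg (hφ k J hJ) (Finset.sum_nonneg (fun j _ => by positivity)))
  have hQ0 : 0 ≤ Q := Finset.sum_nonneg (fun k _ => hQk0 k)
  have hb0 : 0 ≤ sq b := Finset.sum_nonneg (fun x _ => by positivity)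
  change Q ≤ 3 * p * sq b
  -- step 1
  have h1 : ∀ k, ∀ J ∈ T k, sq (g k J) ≤ 2 * p * ∑ j ∈ range m, ‖c k J j‖ ^ 2 := by
    intro k J hJ
    exact E3_dual m (fun j x => vv p ((k : ℕ) + 1) (a k J) j x) (2 * p) (by positivity)
      (fun b => bessel_same p (by omega) m hmp hm ((k : ℕ) + 1) (a k J) (ha k J hJ) b) (c k J)
  -- step 2
  have h2 : ∀ k, sq (r k) ≤ 2 * p * Qk k := by
    intro k
    calc sq (r k) ≤ ∑ x, ∑ J ∈ T k, φ k J * ‖g k J x‖ ^ 2 := by
          refine Finset.sum_le_sum (fun x _ => ?_)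
          exact E3_wcs_norm (T k) (φ k) (fun J => g k J x) (hφ k) (hφ1 k)
      _ = ∑ J ∈ T k, φ k J * sq (g k J) := by
          rw [Finset.sum_comm]
          refine Finset.sum_congr rfl (fun J _ => ?_)
          rw [← Finset.mul_sum]
          rfl
      _ ≤ ∑ J ∈ T k, φ k J * (2 * p * ∑ j ∈ range m, ‖c k J j‖ ^ 2) := by
          refine Finset.sum_le_sum (fun J hJ => ?_)
          exact mul_le_mul_of_nonneg_left (h1 k J hJ) (hφ k J hJ)
      _ = 2 * p * Qk k := by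
          rw [hQk, Finset.mul_sum]
          refine Finset.sum_congr rfl (fun J _ => ?_)
          ring
  -- step 3
  have hA : ∀ k, (∑ J ∈ T k, φ k J * ∑ j ∈ range m, ‖c k J j‖) ^ 2 ≤ m * Qk k := by
    intro k
    refine le_trans (E3_wcs (T k) (φ k) (fun J => ∑ j ∈ range m, ‖c k J j‖) (hφ k) (hφ1 k)) ?_
    rw [hQk, Finset.mul_sum]
    refine Finset.sum_le_sum (fun J hJ => ?_)
    have := sq_sum_le_card_mul_sum_sq (s := range m) (f := fun j => ‖c k J j‖)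
    rw [Finset.card_range] at this
    calc _ ≤ φ k J * ((m : ℝ) * ∑ j ∈ range m, ‖c k J j‖ ^ 2) :=
          mul_le_mul_of_nonneg_left this (hφ k J hJ)
      _ = _ := by ring
  have hA0 : ∀ k, 0 ≤ ∑ J ∈ T k, φ k J * ∑ j ∈ range m, ‖c k J j‖ := fun k =>
    Finset.sum_nonneg (fun J hJ => mul_nonneg (hφ k J hJ)
      (Finset.sum_nonneg (fun j _ => norm_nonneg _)))
  have hcast : ∀ k l : Fin m, k ≠ l → (((k : ℕ) + 1 : ℕ) : ZMod p) ≠ (((l : ℕ) + 1 : ℕ) : ZMod p) := by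
    intro k l hkl h
    rw [ZMod.natCast_eq_natCast_iff'] at h
    have hmp' : m ≤ m ^ 8 := Nat.le_self_pow (by norm_num) m
    have hk := k.2
    have hl := l.2
    rw [Nat.mod_eq_of_lt (by omega), Nat.mod_eq_of_lt (by omega)] at h
    exact hkl (Fin.ext (by omega))
  have h3 : ∀ k l : Fin m, k ≠ l → ‖∑ x, r k x * (starRingEnd ℂ) (r l x)‖ ≤
      m * X * ((Qk k + Qk l) / 2) := by
    intro k l hkl
    have e1 : ∑ x, r k x * (starRingEnd ℂ) (r l x) = ∑ J ∈ T k, ∑ J' ∈ T l, ∑ j ∈ range m,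
        ∑ j' ∈ range m, ((φ k J : ℂ) * c k J j) * ((φ l J' : ℂ) * (starRingEnd ℂ) (c l J' j')) *
        ∑ x, vv p ((k : ℕ) + 1) (a k J) j x *
          (starRingEnd ℂ) (vv p ((l : ℕ) + 1) (a l J') j' x) := by
      have e2 : ∀ x, r k x * (starRingEnd ℂ) (r l x) = ∑ J ∈ T k, ∑ J' ∈ T l, ∑ j ∈ range m,
        ∑ j' ∈ range m, ((φ k J : ℂ) * c k J j) * ((φ l J' : ℂ) * (starRingEnd ℂ) (c l J' j')) *
        (vv p ((k : ℕ) + 1) (a k J) j x *
          (starRingEnd ℂ) (vv p ((l : ℕ) + 1) (a l J') j' x)) := by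
        intro x
        rw [hr]
        dsimp only
        rw [map_sum, Finset.sum_mul_sum]
        refine Finset.sum_congr rfl (fun J _ => Finset.sum_congr rfl (fun J' _ => ?_))
        rw [hg]
        dsimp only
        rw [map_mul, map_sum, Complex.conj_ofReal, Finset.mul_sum, Finset.mul_sum,
          Finset.sum_mul_sum]
        refine Finset.sum_congr rfl (fun j _ => Finset.sum_congr rfl (fun j' _ => ?_))
        rw [map_mul]
        ring
      simp_rw [e2]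
      rw [Finset.sum_comm]
      refine Finset.sum_congr rfl (fun J _ => ?_)
      rw [Finset.sum_comm]
      refine Finset.sum_congr rfl (fun J' _ => ?_)
      rw [Finset.sum_comm]
      refine Finset.sum_congr rfl (fun j _ => ?_)
      rw [Finset.sum_comm]
      refine Finset.sum_congr rfl (fun j' _ => ?_)
      rw [← Finset.mul_sum]
    have e3 : ∀ J J' j j', ‖∑ x, vv p ((k : ℕ) + 1) (a k J) j x *
          (starRingEnd ℂ) (vv p ((l : ℕ) + 1) (a l J') j' x)‖ ≤ X := by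
      intro J J' j j'
      have h := vv_cross p hp ((k : ℕ) + 1) ((l : ℕ) + 1) (hcast k l hkl) (a k J) (a l J') j j'
      rw [hX]
      refine Real.le_sqrt_of_sq_le (Real.le_sqrt_of_sq_le ?_)
      calc _ = ‖∑ x, vv p ((k : ℕ) + 1) (a k J) j x *
          (starRingEnd ℂ) (vv p ((l : ℕ) + 1) (a l J') j' x)‖ ^ 4 := by ring
        _ ≤ _ := h
    rw [e1]
    calc _ ≤ ∑ J ∈ T k, ∑ J' ∈ T l, ∑ j ∈ range m, ∑ j' ∈ range m,
          (φ k J * ‖c k J j‖) * (φ l J' * ‖c l J' j'‖) * X := by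
          refine le_trans (norm_sum_le _ _) (Finset.sum_le_sum (fun J hJ => ?_))
          refine le_trans (norm_sum_le _ _) (Finset.sum_le_sum (fun J' hJ' => ?_))
          refine le_trans (norm_sum_le _ _) (Finset.sum_le_sum (fun j _ => ?_))
          refine le_trans (norm_sum_le _ _) (Finset.sum_le_sum (fun j' _ => ?_))
          rw [norm_mul, norm_mul, norm_mul, norm_mul, Complex.norm_real, Complex.norm_real,
            Real.norm_of_nonneg (hφ k J hJ), Real.norm_of_nonneg (hφ l J' hJ'), RCLike.norm_conj]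
          have q1 := hφ k J hJ
          have q2 := hφ l J' hJ'
          exact mul_le_mul_of_nonneg_left (e3 J J' j j') (by positivity)
      _ = (∑ J ∈ T k, φ k J * ∑ j ∈ range m, ‖c k J j‖) *
          (∑ J ∈ T l, φ l J * ∑ j ∈ range m, ‖c l J j‖) * X := by
          rw [Finset.sum_mul_sum, Finset.sum_mul]
          refine Finset.sum_congr rfl (fun J _ => ?_)
          rw [Finset.sum_mul]
          refine Finset.sum_congr rfl (fun J' _ => ?_)
          rw [Finset.mul_sum, Finset.mul_sum, Finset.sum_mul_sum, Finset.sum_mul]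
          refine Finset.sum_congr rfl (fun j _ => ?_)
          rw [Finset.sum_mul]
      _ ≤ (m * ((Qk k + Qk l) / 2)) * X := by
          refine mul_le_mul_of_nonneg_right ?_ hX0
          have q1 := hA k
          have q2 := hA l
          nlinarith [sq_nonneg ((∑ J ∈ T k, φ k J * ∑ j ∈ range m, ‖c k J j‖) -
            (∑ J ∈ T l, φ l J * ∑ j ∈ range m, ‖c l J j‖))]
      _ = _ := by ring
  -- step 4
  have h4 : ((Q : ℝ) : ℂ) = ∑ x, (∑ k, r k x) * (starRingEnd ℂ) (b x) := by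
    have e1 : ∀ x, (∑ k, r k x) * (starRingEnd ℂ) (b x) = ∑ k, ∑ J ∈ T k, (φ k J : ℂ) *
        ∑ j ∈ range m, c k J j * (vv p ((k : ℕ) + 1) (a k J) j x * (starRingEnd ℂ) (b x)) := by
      intro x
      rw [Finset.sum_mul]
      refine Finset.sum_congr rfl (fun k _ => ?_)
      rw [hr]
      dsimp only
      rw [Finset.sum_mul]
      refine Finset.sum_congr rfl (fun J _ => ?_)
      rw [hg]
      dsimp only
      rw [mul_assoc, Finset.sum_mul]
      congr 1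
      refine Finset.sum_congr rfl (fun j _ => ?_)
      ring
    simp_rw [e1]
    rw [Finset.sum_comm, hQ]
    push_cast
    refine Finset.sum_congr rfl (fun k _ => ?_)
    rw [Finset.sum_comm, hQk]
    push_cast
    refine Finset.sum_congr rfl (fun J _ => ?_)
    rw [← Finset.mul_sum]
    congr 1
    rw [Finset.sum_comm]
    refine Finset.sum_congr rfl (fun j _ => ?_)
    rw [← Finset.mul_sum]
    have e2 : ∑ x, vv p ((k : ℕ) + 1) (a k J) j x * (starRingEnd ℂ) (b x) =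
        (starRingEnd ℂ) (c k J j) := by
      rw [hc]
      dsimp only
      rw [map_sum]
      refine Finset.sum_congr rfl (fun x _ => ?_)
      rw [map_mul, Complex.conj_conj]
    rw [e2, Complex.mul_conj, Complex.normSq_eq_norm_sq]
    push_cast
    rfl
  -- step 5
  have h5 : Q ^ 2 ≤ sq (fun x => ∑ k, r k x) * sq b := by
    have e2 : Q = ‖((Q : ℝ) : ℂ)‖ := by
      rw [Complex.norm_real, Real.norm_of_nonneg hQ0]
    calc Q ^ 2 = ‖((Q : ℝ) : ℂ)‖ ^ 2 := by rw [← e2]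
      _ ≤ _ := by
          rw [h4]
          refine le_trans (E3_cs _ _ _) (le_of_eq ?_)
          simp_rw [RCLike.norm_conj]
          rfl
  -- step 6
  have h6 : sq (fun x => ∑ k, r k x) ≤ 3 * p * Q := by
    have e1 : ((sq (fun x => ∑ k, r k x) : ℝ) : ℂ) =
        ∑ k, ∑ l, ∑ x, r k x * (starRingEnd ℂ) (r l x) := by
      rw [E3_sq_eq]
      simp_rw [map_sum, Finset.sum_mul_sum]
      rw [Finset.sum_comm]
      refine Finset.sum_congr rfl (fun k _ => ?_)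
      rw [Finset.sum_comm]
    have e2 : sq (fun x => ∑ k, r k x) = ‖((sq (fun x => ∑ k, r k x) : ℝ) : ℂ)‖ := by
      rw [Complex.norm_real, Real.norm_of_nonneg]
      exact Finset.sum_nonneg (fun x _ => by positivity)
    have e3 : ∀ k l : Fin m, ‖∑ x, r k x * (starRingEnd ℂ) (r l x)‖ ≤
        (if k = l then 2 * p * Qk k else 0) + m * X * ((Qk k + Qk l) / 2) := by
      intro k l
      by_cases hkl : k = l
      · subst hkl
        have q0 : (0 : ℝ) ≤ sq (r k) := Finset.sum_nonneg (fun x _ => by positivity)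
        rw [if_pos rfl, ← E3_sq_eq, Complex.norm_real, Real.norm_of_nonneg q0]
        have q1 := h2 k
        have q2 := hQk0 k
        have q3 : 0 ≤ (m : ℝ) * X * ((Qk k + Qk k) / 2) := by positivity
        linarith
      · rw [if_neg hkl, zero_add]
        exact h3 k l hkl
    have e4 : ∑ k : Fin m, ∑ l : Fin m, ((if k = l then 2 * p * Qk k else 0) +
        m * X * ((Qk k + Qk l) / 2)) = 2 * p * Q + m * (m * X) * Q := by
      simp_rw [Finset.sum_add_distrib, Finset.sum_ite_eq, if_pos (Finset.mem_univ _)]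
      rw [← Finset.mul_sum]
      have e5 : ∑ k : Fin m, ∑ l : Fin m, (m : ℝ) * X * ((Qk k + Qk l) / 2) =
          m * (m * X) * Q := by
        simp_rw [← Finset.mul_sum, ← Finset.sum_div, Finset.sum_add_distrib]
        rw [Finset.sum_const, Finset.card_univ, Fintype.card_fin]
        simp_rw [Finset.sum_const, Finset.card_univ, Fintype.card_fin]
        simp only [nsmul_eq_mul]
        rw [← Finset.mul_sum]
        ring
      rw [e5]
    have e6 := E3_X p m hmp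
    rw [e2, e1]
    calc _ ≤ ∑ k : Fin m, ∑ l : Fin m, ((if k = l then 2 * p * Qk k else 0) +
        m * X * ((Qk k + Qk l) / 2)) := by
          refine le_trans (norm_sum_le _ _) (Finset.sum_le_sum (fun k _ => ?_))
          refine le_trans (norm_sum_le _ _) (Finset.sum_le_sum (fun l _ => ?_))
          exact e3 k l
      _ = 2 * p * Q + m * (m * X) * Q := e4
      _ ≤ 2 * p * Q + p * Q := by
          gcongr
      _ = 3 * p * Q := by ring
  -- conclusion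
  rcases hQ0.eq_or_lt with h7 | h7
  · rw [← h7]
    positivity
  · have h8 : Q * Q ≤ (3 * p * sq b) * Q := by
      calc Q * Q = Q ^ 2 := by ring
        _ ≤ _ := h5
        _ ≤ (3 * p * Q) * sq b := mul_le_mul_of_nonneg_right h6 hb0
        _ = _ := by ring
    exact le_of_mul_le_mul_right h8 h7

/-- all levels Bessel inequality -/
theorem bessel (p : ℕ) [Fact p.Prime] (hp : 5 ≤ p) (m : ℕ) (hmp : 4 * m ^ 8 ≤ p) (hm : 1 ≤ m)
    {ι : Type*} (T : Fin m → Finset ι) (a : Fin m → ι → Fin 4 → ZMod p)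
    (ha : ∀ k, ∀ J ∈ T k, gd (a k J)) (φ : Fin m → ι → ℝ) (hφ : ∀ k, ∀ J ∈ T k, 0 ≤ φ k J)
    (hφ1 : ∀ k, ∑ J ∈ T k, φ k J ≤ 1) {S : Type*} [Fintype S] (b : S → ZMod p → ℂ) :
    ∑ k : Fin m, ∑ J ∈ T k, φ k J * ∑ j ∈ range m, ∑ s,
      ‖∑ x, (starRingEnd ℂ) (vv p ((k : ℕ) + 1) (a k J) j x) * b s x‖ ^ 2 ≤
      3 * p * ∑ s, sq (b s) := by
  have h1 : ∑ k : Fin m, ∑ J ∈ T k, φ k J * ∑ j ∈ range m, ∑ s,
      ‖∑ x, (starRingEnd ℂ) (vv p ((k : ℕ) + 1) (a k J) j x) * b s x‖ ^ 2 =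
      ∑ s, ∑ k : Fin m, ∑ J ∈ T k, φ k J * ∑ j ∈ range m,
      ‖∑ x, (starRingEnd ℂ) (vv p ((k : ℕ) + 1) (a k J) j x) * b s x‖ ^ 2 := by
    rw [Finset.sum_comm]
    refine Finset.sum_congr rfl (fun k _ => ?_)
    rw [Finset.sum_comm]
    refine Finset.sum_congr rfl (fun J _ => ?_)
    rw [← Finset.mul_sum, Finset.sum_comm]
  rw [h1, Finset.mul_sum]
  refine Finset.sum_le_sum (fun s _ => ?_)
  exact E3_single p hp m hmp hm T a ha φ hφ hφ1 (b s)

end PB
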