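import Pool.Agent.Helper89.PB.Defs
import Pool.Agent.Helper89.PB.E1
import Pool.Agent.Helper89.PB.E3
import Pool.Agent.Helper89.PB.C1

namespace PB

open Finset Polynomial

theorem E4_swap {α β κ : Type*} [Fintype α] [Fintype β] (K : Finset κ) (f : α → β → κ → ℂ) :
    ∑ a, ∑ b, ∑ k ∈ K, f a b k = ∑ k ∈ K, ∑ a, ∑ b, f a b k := by
  calc ∑ a, ∑ b, ∑ k ∈ K, f a b k = ∑ a, ∑ k ∈ K, ∑ b, f a b k :=
        Finset.sum_congr rfl fun a _ => Finset.sum_comm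
    _ = _ := Finset.sum_comm

/-- a row of Fourier coefficients -/
noncomputable def E4_co (p m : ℕ) [NeZero p] (o : ℕ) (k : Fin m) (J j : ℕ)
    (x : Sp m × ZMod p → ℂ) (s : Sp m) : ℂ :=
  ∑ u, (starRingEnd ℂ) (vv p ((k : ℕ) + 1) (dg p o J) j u) * x (s, u)

theorem E4_Cl_bound {m : ℕ} (k : Fin m) (η ξ : Sp m → ℂ) :
    ‖∑ s', ∑ s, Cl k s' s * η s' * ξ s‖ ≤ Real.sqrt (sq η) * Real.sqrt (sq ξ) := by
  have h1 : ∑ s', ∑ s, Cl k s' s * η s' * ξ s = ∑ s', η s' * ∑ s, Cl k s' s * ξ s := by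
    refine Finset.sum_congr rfl fun s' _ => ?_
    rw [Finset.mul_sum]
    refine Finset.sum_congr rfl fun s _ => ?_
    ring
  rw [h1]
  refine (norm_sum_le _ _).trans ?_
  simp_rw [norm_mul]
  refine (Real.sum_mul_le_sqrt_mul_sqrt _ _ _).trans ?_
  rw [Cl_iso k ξ]
  rfl

theorem E4_pair (p m : ℕ) [NeZero p] (k : Fin m) (J j : ℕ) (x y : Sp m × ZMod p → ℂ) :
    ∑ a : Sp m × ZMod p, ∑ b : Sp m × ZMod p, y a * (Cl k a.1 b.1 *
      ((starRingEnd ℂ) (vv p ((k : ℕ) + 1) (dg p 4 J) j a.2) *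
        (starRingEnd ℂ) (vv p ((k : ℕ) + 1) (dg p 0 J) j b.2))) * x b =
    ∑ s', ∑ s, Cl k s' s * E4_co p m 4 k J j y s' * E4_co p m 0 k J j x s := by
  rw [Fintype.sum_prod_type]
  refine Finset.sum_congr rfl fun s' _ => ?_
  simp_rw [Fintype.sum_prod_type]
  rw [Finset.sum_comm]
  refine Finset.sum_congr rfl fun s _ => ?_
  unfold E4_co
  rw [mul_assoc, Finset.sum_mul_sum, Finset.mul_sum]
  refine Finset.sum_congr rfl fun u _ => ?_
  rw [Finset.mul_sum]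
  refine Finset.sum_congr rfl fun v _ => ?_
  ring

open scoped Classical in
/-- the index set of the nodes of one level in the test polynomial -/
noncomputable def E4_T (p m : ℕ) (k : Fin m) : Finset ℕ :=
  (range ((p ^ 8) ^ ((k : ℕ) + 1))).filter (fun J => gd (dg p 0 J) ∧ gd (dg p 4 J))

theorem E4_mem (p m : ℕ) (k : Fin m) (J : ℕ) : J ∈ E4_T p m k ↔
    J ∈ range ((p ^ 8) ^ ((k : ℕ) + 1)) ∧ (gd (dg p 0 J) ∧ gd (dg p 4 J)) := by
  classical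
  unfold E4_T
  rw [Finset.mem_filter]

theorem E4_expand (p m : ℕ) [NeZero p] (z : ℂ) (x y : Sp m × ZMod p → ℂ) :
    ∑ a, ∑ b, y a * (Phi p m a b).eval z * x b =
    ∑ k : Fin m, ∑ J ∈ E4_T p m k, (chi ((p ^ 8) ^ ((k : ℕ) + 1)) J).eval z * ((1 / (p : ℂ)) *
      ∑ j ∈ range m, ∑ s', ∑ s, Cl k s' s * E4_co p m 4 k J j y s' * E4_co p m 0 k J j x s) := by
  have h1 : ∀ a b : Sp m × ZMod p, y a * (Phi p m a b).eval z * x b =
      ∑ k : Fin m, ∑ J ∈ E4_T p m k, ∑ j ∈ range m,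
        (chi ((p ^ 8) ^ ((k : ℕ) + 1)) J).eval z * ((1 / (p : ℂ)) * (y a * (Cl k a.1 b.1 *
      ((starRingEnd ℂ) (vv p ((k : ℕ) + 1) (dg p 4 J) j a.2) *
        (starRingEnd ℂ) (vv p ((k : ℕ) + 1) (dg p 0 J) j b.2))) * x b)) := by
    intro a b
    unfold Phi
    rw [eval_finsetSum, Finset.mul_sum, Finset.sum_mul]
    refine Finset.sum_congr rfl fun k _ => ?_
    rw [eval_mul, eval_C, eval_finsetSum, Finset.mul_sum, Finset.mul_sum, Finset.sum_mul]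
    refine Finset.sum_congr rfl fun J _ => ?_
    rw [eval_mul, eval_C, Finset.mul_sum, Finset.sum_mul, Finset.mul_sum, Finset.mul_sum,
      Finset.sum_mul]
    refine Finset.sum_congr rfl fun j _ => ?_
    ring
  simp_rw [h1]
  rw [E4_swap]
  refine Finset.sum_congr rfl fun k _ => ?_
  rw [E4_swap]
  refine Finset.sum_congr rfl fun J _ => ?_
  rw [E4_swap, Finset.mul_sum, Finset.mul_sum]
  refine Finset.sum_congr rfl fun j _ => ?_
  rw [← E4_pair p m k J j x y, Finset.mul_sum, Finset.mul_sum]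
  refine Finset.sum_congr rfl fun a _ => ?_
  rw [Finset.mul_sum, Finset.mul_sum]

theorem E4_chi_sum (p m : ℕ) [NeZero p] (k : Fin m) (z : ℂ) (hz : ‖z‖ ≤ 1) :
    ∑ J ∈ E4_T p m k, ‖(chi ((p ^ 8) ^ ((k : ℕ) + 1)) J).eval z‖ ≤ 1 := by
  have hA : 1 ≤ (p ^ 8) ^ ((k : ℕ) + 1) :=
    Nat.one_le_iff_ne_zero.mpr (pow_ne_zero _ (pow_ne_zero _ (NeZero.ne p)))
  refine le_trans ?_ (chi_sum _ hA z hz)
  exact Finset.sum_le_sum_of_subset_of_nonneg (fun J hJ => ((E4_mem p m k J).mp hJ).1)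
    fun i _ _ => norm_nonneg _

theorem E4_sq_prod {m p : ℕ} [NeZero p] (x : Sp m × ZMod p → ℂ) :
    ∑ s : Sp m, sq (fun u : ZMod p => x (s, u)) = sq x := by
  unfold sq
  rw [Fintype.sum_prod_type]

theorem E4_bessel (p : ℕ) [Fact p.Prime] (hp : 5 ≤ p) (m : ℕ) (hmp : 4 * m ^ 8 ≤ p) (hm : 1 ≤ m)
    (z : ℂ) (hz : ‖z‖ ≤ 1) (x : Sp m × ZMod p → ℂ) (o : ℕ) (ho : o = 0 ∨ o = 4) :
    ∑ k : Fin m, ∑ J ∈ E4_T p m k, ‖(chi ((p ^ 8) ^ ((k : ℕ) + 1)) J).eval z‖ *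
      ∑ j ∈ range m, sq (E4_co p m o k J j x) ≤ 3 * p * sq x := by
  have h := bessel p hp m hmp hm (E4_T p m) (fun _ J => dg p o J)
    (fun k J hJ => by
      rw [E4_mem] at hJ
      rcases ho with rfl | rfl
      · exact hJ.2.1
      · exact hJ.2.2)
    (fun k J => ‖(chi ((p ^ 8) ^ ((k : ℕ) + 1)) J).eval z‖) (fun _ _ _ => norm_nonneg _)
    (fun k => E4_chi_sum p m k z hz) (fun (s : Sp m) (u : ZMod p) => x (s, u))
  rw [E4_sq_prod] at h
  exact h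

theorem E4_cs {κ : Type*} (K : Finset κ) (φ X Y : κ → ℝ) (hφ : ∀ k, 0 ≤ φ k)
    (hX : ∀ k, 0 ≤ X k) (hY : ∀ k, 0 ≤ Y k) :
    ∑ k ∈ K, φ k * (Real.sqrt (Y k) * Real.sqrt (X k)) ≤
      Real.sqrt (∑ k ∈ K, φ k * Y k) * Real.sqrt (∑ k ∈ K, φ k * X k) := by
  refine le_trans (le_of_eq ?_) (Real.sum_sqrt_mul_sqrt_le K
    (fun k => mul_nonneg (hφ k) (hY k)) (fun k => mul_nonneg (hφ k) (hX k)))
  refine Finset.sum_congr rfl fun k _ => ?_
  rw [Real.sqrt_mul (hφ k), Real.sqrt_mul (hφ k)]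
  have := Real.mul_self_sqrt (hφ k)
  calc φ k * (Real.sqrt (Y k) * Real.sqrt (X k)) =
        (Real.sqrt (φ k) * Real.sqrt (φ k)) * (Real.sqrt (Y k) * Real.sqrt (X k)) := by rw [this]
    _ = _ := by ring

theorem Phi_bound (p : ℕ) [Fact p.Prime] (hp : 5 ≤ p) (m : ℕ) (hmp : 4 * m ^ 8 ≤ p) (hm : 1 ≤ m)
    (z : ℂ) (hz : ‖z‖ = 1) (x y : Sp m × ZMod p → ℂ) :
    ‖∑ a, ∑ b, y a * (Phi p m a b).eval z * x b‖ ≤ 3 * Real.sqrt (sq x) * Real.sqrt (sq y) := by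
  have hp0 : (0 : ℝ) < p := by
    have : 0 < p := by omega
    exact_mod_cast this
  have hsq : ∀ {ι : Type} [Fintype ι] (v : ι → ℂ), 0 ≤ sq v := fun v =>
    Finset.sum_nonneg fun _ _ => sq_nonneg _
  set φ : Fin m → ℕ → ℝ := fun k J => ‖(chi ((p ^ 8) ^ ((k : ℕ) + 1)) J).eval z‖ with hφ
  have hφ0 : ∀ k J, 0 ≤ φ k J := fun _ _ => norm_nonneg _
  set Y : Fin m → ℕ → ℝ := fun k J => ∑ j ∈ range m, sq (E4_co p m 4 k J j y) with hY
  set X : Fin m → ℕ → ℝ := fun k J => ∑ j ∈ range m, sq (E4_co p m 0 k J j x) with hX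
  have hY0 : ∀ k J, 0 ≤ Y k J := fun _ _ => Finset.sum_nonneg fun _ _ => hsq _
  have hX0 : ∀ k J, 0 ≤ X k J := fun _ _ => Finset.sum_nonneg fun _ _ => hsq _
  rw [E4_expand]
  have step1 : ‖∑ k : Fin m, ∑ J ∈ E4_T p m k, (chi ((p ^ 8) ^ ((k : ℕ) + 1)) J).eval z *
      ((1 / (p : ℂ)) * ∑ j ∈ range m, ∑ s', ∑ s,
        Cl k s' s * E4_co p m 4 k J j y s' * E4_co p m 0 k J j x s)‖ ≤
      ∑ k : Fin m, ∑ J ∈ E4_T p m k, (1 / (p : ℝ)) *
        (φ k J * (Real.sqrt (Y k J) * Real.sqrt (X k J))) := by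
    refine (norm_sum_le _ _).trans (Finset.sum_le_sum fun k _ => ?_)
    refine (norm_sum_le _ _).trans (Finset.sum_le_sum fun J _ => ?_)
    rw [norm_mul, norm_mul]
    have h1 : ‖(1 / (p : ℂ))‖ = 1 / (p : ℝ) := by
      rw [norm_div, norm_one, Complex.norm_natCast]
    have h2 : ‖∑ j ∈ range m, ∑ s', ∑ s,
        Cl k s' s * E4_co p m 4 k J j y s' * E4_co p m 0 k J j x s‖ ≤
        Real.sqrt (Y k J) * Real.sqrt (X k J) := by
      refine (norm_sum_le _ _).trans ?_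
      refine (Finset.sum_le_sum fun j _ => E4_Cl_bound k _ _).trans ?_
      exact Real.sum_sqrt_mul_sqrt_le _ (fun j => hsq _) (fun j => hsq _)
    rw [h1]
    have h3 : φ k J * (1 / (p : ℝ) * ‖∑ j ∈ range m, ∑ s', ∑ s,
        Cl k s' s * E4_co p m 4 k J j y s' * E4_co p m 0 k J j x s‖) ≤
        φ k J * (1 / (p : ℝ) * (Real.sqrt (Y k J) * Real.sqrt (X k J))) := by
      refine mul_le_mul_of_nonneg_left (mul_le_mul_of_nonneg_left h2 (by positivity)) (hφ0 k J)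
    refine h3.trans (le_of_eq (by ring))
  refine step1.trans ?_
  simp_rw [← Finset.mul_sum]
  have step2 : ∑ k : Fin m, ∑ J ∈ E4_T p m k, φ k J * (Real.sqrt (Y k J) * Real.sqrt (X k J)) ≤
      Real.sqrt (∑ k : Fin m, ∑ J ∈ E4_T p m k, φ k J * Y k J) *
        Real.sqrt (∑ k : Fin m, ∑ J ∈ E4_T p m k, φ k J * X k J) := by
    refine (Finset.sum_le_sum fun k _ => E4_cs (E4_T p m k) (φ k) (X k) (Y k) (hφ0 k) (hX0 k)
      (hY0 k)).trans ?_
    exact Real.sum_sqrt_mul_sqrt_le _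
      (fun k => Finset.sum_nonneg fun J _ => mul_nonneg (hφ0 k J) (hY0 k J))
      (fun k => Finset.sum_nonneg fun J _ => mul_nonneg (hφ0 k J) (hX0 k J))
  have bY := E4_bessel p hp m hmp hm z hz.le y 4 (Or.inr rfl)
  have bX := E4_bessel p hp m hmp hm z hz.le x 0 (Or.inl rfl)
  have step3 : Real.sqrt (∑ k : Fin m, ∑ J ∈ E4_T p m k, φ k J * Y k J) *
        Real.sqrt (∑ k : Fin m, ∑ J ∈ E4_T p m k, φ k J * X k J) ≤
      Real.sqrt (3 * p * sq y) * Real.sqrt (3 * p * sq x) :=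
    mul_le_mul (Real.sqrt_le_sqrt bY) (Real.sqrt_le_sqrt bX) (Real.sqrt_nonneg _)
      (Real.sqrt_nonneg _)
  have h3p : (0 : ℝ) ≤ 3 * p := by positivity
  calc 1 / (p : ℝ) * ∑ k : Fin m, ∑ J ∈ E4_T p m k,
        φ k J * (Real.sqrt (Y k J) * Real.sqrt (X k J))
      ≤ 1 / (p : ℝ) * (Real.sqrt (3 * p * sq y) * Real.sqrt (3 * p * sq x)) :=
        mul_le_mul_of_nonneg_left (step2.trans step3) (by positivity)
    _ = 1 / (p : ℝ) * ((Real.sqrt (3 * p) * Real.sqrt (3 * p)) *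
          (Real.sqrt (sq y) * Real.sqrt (sq x))) := by
        rw [Real.sqrt_mul h3p, Real.sqrt_mul h3p]; ring
    _ = 3 * Real.sqrt (sq x) * Real.sqrt (sq y) := by
        rw [Real.mul_self_sqrt h3p]
        field_simp

theorem E4_chi_deg (A J : ℕ) : (chi A J).natDegree ≤ 2 * A := by
  unfold chi
  have h1 : (C (1 / (A : ℂ) ^ 2) *
      (∑ s ∈ range A, C ((starRingEnd ℂ) (rt A J) ^ s) * X ^ s)).natDegree ≤ A := by
    refine (natDegree_C_mul_le _ _).trans ?_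
    refine natDegree_sum_le_of_forall_le _ _ fun s hs => ?_
    exact (natDegree_C_mul_X_pow_le _ _).trans (mem_range.mp hs).le
  have h2 : (∑ s ∈ range A, C ((rt A J) ^ s) * X ^ (A - s) : ℂ[X]).natDegree ≤ A := by
    refine natDegree_sum_le_of_forall_le _ _ fun s hs => ?_
    exact (natDegree_C_mul_X_pow_le _ _).trans (Nat.sub_le _ _)
  exact (natDegree_mul_le_of_le h1 h2).trans (by omega)

theorem Phi_deg (p : ℕ) [Fact p.Prime] (m : ℕ) (a b : Sp m × ZMod p) :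
    (Phi p m a b).natDegree ≤ 2 * (p ^ 8) ^ m := by
  unfold Phi
  refine natDegree_sum_le_of_forall_le _ _ fun k _ => ?_
  refine (natDegree_C_mul_le _ _).trans ?_
  refine natDegree_sum_le_of_forall_le _ _ fun J _ => ?_
  refine (natDegree_C_mul_le _ _).trans ?_
  refine (E4_chi_deg _ _).trans ?_
  have hp : 0 < p := (Fact.out : p.Prime).pos
  exact Nat.mul_le_mul_left 2 (Nat.pow_le_pow_right (pow_pos hp 8) k.isLt)

end PB
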