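import Pool.Agent.Helper89.PB.Defs
import Pool.Agent.Helper89.PB.B5

namespace PB

open Finset Polynomial

private lemma E5_norm_vv (p : ℕ) [Fact p.Prime] (k : ℕ) (a : Fin 4 → ZMod p) (j : ℕ)
    (x : ZMod p) : ‖vv p k a j x‖ = 1 := by
  unfold vv
  exact AddChar.norm_apply _ _

private lemma E5_sq_vv (p : ℕ) [Fact p.Prime] (k : ℕ) (a : Fin 4 → ZMod p) (j : ℕ) :
    sq (vv p k a j) = p := by
  unfold sq
  simp only [E5_norm_vv, one_pow, Finset.sum_const, Finset.card_univ, ZMod.card, nsmul_eq_mul,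
    mul_one]

private lemma E5_self (p : ℕ) [Fact p.Prime] (k : ℕ) (a : Fin 4 → ZMod p) (j : ℕ) :
    ∑ x, (starRingEnd ℂ) (vv p k a j x) * vv p k a j x = (p : ℂ) := by
  have h : ∀ x, (starRingEnd ℂ) (vv p k a j x) * vv p k a j x = 1 := by
    intro x
    rw [Complex.conj_mul', E5_norm_vv]
    norm_num
  simp only [h, Finset.sum_const, Finset.card_univ, ZMod.card, nsmul_eq_mul, mul_one]

/-- same level, `J` nondegenerate -/
theorem pair_bound (p : ℕ) [Fact p.Prime] (hp : p ≠ 2) (m : ℕ) (hmp : 4 * m ^ 8 ≤ p) (hm : 1 ≤ m)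
    (k : ℕ) (a b a' b' : Fin 4 → ZMod p) (ha : gd a) (hb : gd b) :
    ‖∑ j' ∈ range m, ∑ j ∈ range m,
      (∑ x, (starRingEnd ℂ) (vv p k b j' x) * vv p k b' j x) *
      (∑ x, (starRingEnd ℂ) (vv p k a j' x) * vv p k a' j x)‖ ≤ 2 * m * (p : ℝ) ^ 2 := by
  rw [Finset.sum_comm]
  have key : ∀ j ∈ range m, ‖∑ j' ∈ range m,
      (∑ x, (starRingEnd ℂ) (vv p k b j' x) * vv p k b' j x) *
      (∑ x, (starRingEnd ℂ) (vv p k a j' x) * vv p k a' j x)‖ ≤ 2 * (p : ℝ) ^ 2 := by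
    intro j _
    have h1 := bessel_same p hp m hmp hm k b hb (vv p k b' j)
    have h2 := bessel_same p hp m hmp hm k a ha (vv p k a' j)
    rw [E5_sq_vv] at h1 h2
    calc ‖∑ j' ∈ range m,
          (∑ x, (starRingEnd ℂ) (vv p k b j' x) * vv p k b' j x) *
          (∑ x, (starRingEnd ℂ) (vv p k a j' x) * vv p k a' j x)‖
        ≤ ∑ j' ∈ range m, ‖(∑ x, (starRingEnd ℂ) (vv p k b j' x) * vv p k b' j x) *
          (∑ x, (starRingEnd ℂ) (vv p k a j' x) * vv p k a' j x)‖ := norm_sum_le _ _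
      _ ≤ ∑ j' ∈ range m, ((‖∑ x, (starRingEnd ℂ) (vv p k b j' x) * vv p k b' j x‖ ^ 2 +
          ‖∑ x, (starRingEnd ℂ) (vv p k a j' x) * vv p k a' j x‖ ^ 2) / 2) := by
        refine Finset.sum_le_sum (fun j' _ => ?_)
        rw [norm_mul]
        nlinarith [sq_nonneg (‖∑ x, (starRingEnd ℂ) (vv p k b j' x) * vv p k b' j x‖ -
          ‖∑ x, (starRingEnd ℂ) (vv p k a j' x) * vv p k a' j x‖)]
      _ = ((∑ j' ∈ range m, ‖∑ x, (starRingEnd ℂ) (vv p k b j' x) * vv p k b' j x‖ ^ 2) +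
          ∑ j' ∈ range m, ‖∑ x, (starRingEnd ℂ) (vv p k a j' x) * vv p k a' j x‖ ^ 2) / 2 := by
        rw [← Finset.sum_div, Finset.sum_add_distrib]
      _ ≤ 2 * (p : ℝ) ^ 2 := by nlinarith
  calc _ ≤ ∑ j ∈ range m, ‖∑ j' ∈ range m,
      (∑ x, (starRingEnd ℂ) (vv p k b j' x) * vv p k b' j x) *
      (∑ x, (starRingEnd ℂ) (vv p k a j' x) * vv p k a' j x)‖ := norm_sum_le _ _
    _ ≤ ∑ _j ∈ range m, 2 * (p : ℝ) ^ 2 := Finset.sum_le_sum key
    _ = 2 * m * (p : ℝ) ^ 2 := by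
      rw [Finset.sum_const, Finset.card_range, nsmul_eq_mul]; ring

/-- diagonal terms -/
theorem pair_diag (p : ℕ) [Fact p.Prime] (hp : p ≠ 2) (m : ℕ) (hmp : m ≤ p)
    (k : ℕ) (a b : Fin 4 → ZMod p) (ha : gd a) (hb : gd b) :
    m * (p : ℝ) ^ 2 - m ^ 2 * p ≤ (∑ j' ∈ range m, ∑ j ∈ range m,
      (∑ x, (starRingEnd ℂ) (vv p k b j' x) * vv p k b j x) *
      (∑ x, (starRingEnd ℂ) (vv p k a j' x) * vv p k a j x)).re := by
  have hp0 : (0 : ℝ) ≤ p := Nat.cast_nonneg _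
  have key : ∀ j' ∈ range m, ∀ j ∈ range m,
      (if j = j' then (p : ℝ) ^ 2 + p else 0) - p ≤
      ((∑ x, (starRingEnd ℂ) (vv p k b j' x) * vv p k b j x) *
      (∑ x, (starRingEnd ℂ) (vv p k a j' x) * vv p k a j x)).re := by
    intro j' hj' j hj
    rw [mem_range] at hj hj'
    by_cases h : j = j'
    · subst h
      rw [if_pos rfl, E5_self, E5_self]
      have : ((p : ℂ) * (p : ℂ)).re = (p : ℝ) ^ 2 := by
        rw [← Nat.cast_mul, Complex.natCast_re]
        push_cast; ring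
      rw [this]
      linarith
    · rw [if_neg h]
      have hne : (j : ZMod p) ≠ (j' : ZMod p) := by
        intro h1
        rw [ZMod.natCast_eq_natCast_iff] at h1
        exact h (Nat.ModEq.eq_of_lt_of_lt h1 (by omega) (by omega))
      have h1 := vv_same p hp k b hb j j' hne
      have h2 := vv_same p hp k a ha j j' hne
      have e1 : ∀ c : Fin 4 → ZMod p, ∑ x, vv p k c j x * (starRingEnd ℂ) (vv p k c j' x) =
          ∑ x, (starRingEnd ℂ) (vv p k c j' x) * vv p k c j x := by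
        intro c
        exact Finset.sum_congr rfl (fun x _ => mul_comm _ _)
      rw [e1] at h1 h2
      have h3 := Complex.abs_re_le_norm
        ((∑ x, (starRingEnd ℂ) (vv p k b j' x) * vv p k b j x) *
        (∑ x, (starRingEnd ℂ) (vv p k a j' x) * vv p k a j x))
      rw [norm_mul] at h3
      have h4 := (abs_le.1 h3).1
      have h5 : ‖∑ x, (starRingEnd ℂ) (vv p k b j' x) * vv p k b j x‖ *
          ‖∑ x, (starRingEnd ℂ) (vv p k a j' x) * vv p k a j x‖ ≤ p := by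
        nlinarith [sq_nonneg (‖∑ x, (starRingEnd ℂ) (vv p k b j' x) * vv p k b j x‖ -
          ‖∑ x, (starRingEnd ℂ) (vv p k a j' x) * vv p k a j x‖)]
      linarith
  rw [Complex.re_sum]
  have h1 : ∀ j' ∈ range m, (p : ℝ) ^ 2 + p - m * p ≤ (∑ j ∈ range m,
      (∑ x, (starRingEnd ℂ) (vv p k b j' x) * vv p k b j x) *
      (∑ x, (starRingEnd ℂ) (vv p k a j' x) * vv p k a j x)).re := by
    intro j' hj'
    rw [Complex.re_sum]
    refine le_trans (le_of_eq ?_) (Finset.sum_le_sum (key j' hj'))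
    rw [Finset.sum_sub_distrib, Finset.sum_ite_eq', if_pos hj', Finset.sum_const,
      Finset.card_range, nsmul_eq_mul]
  refine le_trans ?_ (Finset.sum_le_sum h1)
  rw [Finset.sum_const, Finset.card_range, nsmul_eq_mul]
  have hm0 : (0 : ℝ) ≤ m := Nat.cast_nonneg _
  nlinarith [mul_nonneg hm0 hp0]

end PB
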