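import Pool.Agent.Helper89.PB.Defs

namespace PB

open Finset Polynomial

theorem B1_dg_apply (p o c : ℕ) (t : Fin 4) :
    dg p o c t = (((c / p ^ (o + (t : ℕ))) % p : ℕ) : ZMod p) := by
  unfold dg
  rw [ZMod.natCast_mod]

theorem B1_bij (p : ℕ) [Fact p.Prime] : Function.Bijective
    (fun c : Fin (p ^ 8) => ((dg p 0 c, dg p 4 c) : (Fin 4 → ZMod p) × (Fin 4 → ZMod p))) := by
  rw [Fintype.bijective_iff_injective_and_card]
  refine ⟨?_, ?_⟩
  · intro c c' h
    have h1 : ∀ t : Fin 4, (c / p ^ (t : ℕ)) % p = (c' / p ^ (t : ℕ)) % p := by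
      intro t
      have h2 := congrFun (congrArg Prod.fst h) t
      simp only [B1_dg_apply, zero_add] at h2
      have h3 := (ZMod.natCast_eq_natCast_iff' _ _ p).1 h2
      simpa using h3
    have h2 : ∀ t : Fin 4, (c / p ^ (4 + (t : ℕ))) % p = (c' / p ^ (4 + (t : ℕ))) % p := by
      intro t
      have h2 := congrFun (congrArg Prod.snd h) t
      simp only [B1_dg_apply] at h2
      have h3 := (ZMod.natCast_eq_natCast_iff' _ _ p).1 h2
      simpa using h3
    apply finFunctionFinEquiv.symm.injective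
    funext t
    apply Fin.ext
    change (c : ℕ) / p ^ (t : ℕ) % p = (c' : ℕ) / p ^ (t : ℕ) % p
    by_cases ht : (t : ℕ) < 4
    · exact h1 ⟨t, ht⟩
    · have h3 := h2 ⟨(t : ℕ) - 4, by omega⟩
      have h4 : 4 + ((t : ℕ) - 4) = t := by omega
      simp only [h4] at h3
      exact h3
  · simp only [Fintype.card_fin, Fintype.card_prod, Fintype.card_fun, ZMod.card]
    ring

theorem digits (p : ℕ) [Fact p.Prime] {E : Type*} [AddCommMonoid E]
    (F : (Fin 4 → ZMod p) → (Fin 4 → ZMod p) → E) :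
    ∑ c ∈ range (p ^ 8), F (dg p 0 c) (dg p 4 c) = ∑ a, ∑ b, F a b := by
  rw [Finset.sum_range, ← Fintype.sum_prod_type']
  exact (B1_bij p).sum_comp (fun x : (Fin 4 → ZMod p) × (Fin 4 → ZMod p) => F x.1 x.2)

theorem dg_add (p : ℕ) [Fact p.Prime] (o j c : ℕ) (ho : o ≤ 4) :
    dg p o (p ^ 8 * j + c) = dg p o c := by
  have hp : 0 < p := (Fact.out : p.Prime).pos
  funext t
  unfold dg
  have ht := t.2
  have h1 : p ^ 8 = p ^ (o + (t : ℕ)) * (p * p ^ (8 - (o + (t : ℕ)) - 1)) := by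
    rw [← pow_succ', ← pow_add]
    congr 1
    omega
  have h2 : (p ^ 8 * j + c) / p ^ (o + (t : ℕ)) =
      p * p ^ (8 - (o + (t : ℕ)) - 1) * j + c / p ^ (o + (t : ℕ)) := by
    rw [h1, mul_assoc, Nat.mul_add_div (pow_pos hp _)]
  rw [h2]
  push_cast
  simp

theorem B1_sum_range_mul {E : Type*} [AddCommMonoid E] (f : ℕ → E) (n m : ℕ) :
    ∑ J ∈ range (n * m), f J = ∑ j ∈ range m, ∑ c ∈ range n, f (n * j + c) := by
  induction m with
  | zero => simp
  | succ m ih => rw [Nat.mul_succ, Finset.sum_range_add, ih, Finset.sum_range_succ]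

open scoped Classical in
theorem B1_card (p : ℕ) [Fact p.Prime] :
    (∑ a : Fin 4 → ZMod p, if gd a then (0 : ℝ) else 1) = (p : ℝ) ^ 2 := by
  have h0 : (∑ a : Fin 4 → ZMod p, if gd a then (0 : ℝ) else 1) =
      ((univ.filter fun a : Fin 4 → ZMod p => ¬ gd a).card : ℝ) := by
    rw [Finset.card_filter]
    push_cast
    refine Finset.sum_congr rfl fun a _ => ?_
    by_cases h : gd a <;> simp [h]
  have h1 : (univ.filter fun a : Fin 4 → ZMod p => ¬ gd a) =
      Fintype.piFinset (fun t : Fin 4 => if t = 2 ∨ t = 3 then ({0} : Finset (ZMod p)) else univ) := by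
    ext a
    simp only [mem_filter, mem_univ, true_and, Fintype.mem_piFinset, gd, not_or, not_not]
    constructor
    · rintro ⟨h2, h3⟩ t
      by_cases ht : t = 2 ∨ t = 3
      · rw [if_pos ht]
        rcases ht with rfl | rfl
        · simpa using h2
        · simpa using h3
      · rw [if_neg ht]
        exact mem_univ _
    · intro h
      have h2 := h 2
      have h3 := h 3
      simp only [true_or, or_true, if_true, mem_singleton] at h2 h3
      exact ⟨h2, h3⟩
  rw [h0, h1, Fintype.card_piFinset]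
  have h5 : (∏ t : Fin 4, (if t = 2 ∨ t = 3 then ({0} : Finset (ZMod p)) else univ).card) = p ^ 2 := by
    rw [Fin.prod_univ_four]
    simp only [Fin.isValue, Fin.reduceEq, or_self, if_false, card_univ, ZMod.card, true_or,
      or_true, if_true, card_singleton]
    ring
  rw [h5]
  push_cast
  rfl

open scoped Classical in
/-- few nodes are degenerate -/
theorem count_bad (p : ℕ) [Fact p.Prime] (l : ℕ) (hl : 1 ≤ l) :
    (((range ((p ^ 8) ^ l)).filter
      (fun J => ¬ (gd (dg p 0 J) ∧ gd (dg p 4 J)))).card : ℝ) ≤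
      2 * ((p : ℝ) ^ 8) ^ l / (p : ℝ) ^ 2 := by
  have hp : 0 < (p : ℝ) := by exact_mod_cast (Fact.out : p.Prime).pos
  obtain ⟨n, rfl⟩ : ∃ n, l = n + 1 := ⟨l - 1, by omega⟩
  rw [Finset.card_filter]
  push_cast
  rw [pow_succ' (p ^ 8) n, B1_sum_range_mul]
  have h1 : ∀ j ∈ range ((p ^ 8) ^ n), (∑ c ∈ range (p ^ 8),
      (if ¬ (gd (dg p 0 (p ^ 8 * j + c)) ∧ gd (dg p 4 (p ^ 8 * j + c))) then (1 : ℝ) else 0)) ≤
      2 * (p : ℝ) ^ 6 := by
    intro j _
    have h2 : (∑ c ∈ range (p ^ 8),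
      (if ¬ (gd (dg p 0 (p ^ 8 * j + c)) ∧ gd (dg p 4 (p ^ 8 * j + c))) then (1 : ℝ) else 0)) =
      ∑ c ∈ range (p ^ 8), (fun a b : Fin 4 → ZMod p => if ¬ (gd a ∧ gd b) then (1 : ℝ) else 0)
        (dg p 0 c) (dg p 4 c) := by
      refine Finset.sum_congr rfl fun c _ => ?_
      rw [dg_add p 0 j c (by norm_num), dg_add p 4 j c (by norm_num)]
    rw [h2]
    refine (digits p (fun a b : Fin 4 → ZMod p =>
      if ¬ (gd a ∧ gd b) then (1 : ℝ) else 0)).le.trans ?_
    have h3 : ∀ a b : Fin 4 → ZMod p, (if ¬ (gd a ∧ gd b) then (1 : ℝ) else 0) ≤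
        (if gd a then (0 : ℝ) else 1) + (if gd b then (0 : ℝ) else 1) := by
      intro a b
      by_cases ha : gd a <;> by_cases hb : gd b <;> simp [ha, hb]
    refine (Finset.sum_le_sum fun a _ => Finset.sum_le_sum fun b _ => h3 a b).trans ?_
    simp only [Finset.sum_add_distrib, Finset.sum_const, B1_card, card_univ, Fintype.card_fun,
      ZMod.card, Fintype.card_fin, nsmul_eq_mul, ← Finset.mul_sum]
    push_cast
    apply le_of_eq
    ring
  refine (Finset.sum_le_sum h1).trans ?_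
  rw [Finset.sum_const, card_range, nsmul_eq_mul]
  push_cast
  apply le_of_eq
  rw [pow_succ ((p : ℝ) ^ 8) n]
  field_simp

end PB
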