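import Pool.Agent.Helper89.PB.Defs

namespace PB

open Finset Polynomial

/-- shifting the second parameter -/
private theorem B2_shift (p : ℕ) [Fact p.Prime] (k j : ℕ) (a : Fin 4 → ZMod p) (c x : ZMod p) :
    vv p k (a + Pi.single 1 c) j x = vv p k a j x * ZMod.stdAddChar (c * x) := by
  unfold vv
  rw [← AddChar.map_add_eq_mul]
  congr 1
  simp only [Pi.add_apply, Pi.single_apply]
  simp only [show ((0 : Fin 4) = 1) = False by simp, show ((1 : Fin 4) = 1) = True by simp,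
    show ((2 : Fin 4) = 1) = False by simp, show ((3 : Fin 4) = 1) = False by simp, if_true, if_false]
  ring

private theorem B2_conj (p : ℕ) [Fact p.Prime] (y : ZMod p) :
    (starRingEnd ℂ) (ZMod.stdAddChar y : ℂ) = ZMod.stdAddChar (-y) :=
  (AddChar.map_neg_eq_conj _ y).symm

private theorem B2_ne_one (p : ℕ) [Fact p.Prime] {y : ZMod p} (hy : y ≠ 0) :
    (ZMod.stdAddChar y : ℂ) ≠ 1 := by
  intro h
  apply hy
  apply ZMod.injective_stdAddChar
  rw [h, AddChar.map_zero_eq_one]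

theorem vv_mean (p : ℕ) [Fact p.Prime] (k j : ℕ) (x : ZMod p) :
    ∑ a : Fin 4 → ZMod p, vv p k a j x = if x = 0 then (p : ℂ) ^ 4 else 0 := by
  split_ifs with hx
  · subst hx
    simp [vv, ZMod.card]
  · have h1 : ∑ a : Fin 4 → ZMod p, vv p k a j x =
        (∑ a : Fin 4 → ZMod p, vv p k a j x) * ZMod.stdAddChar (x⁻¹ * x) := by
      rw [Finset.sum_mul, ← Equiv.sum_comp (Equiv.addRight (Pi.single 1 x⁻¹ : Fin 4 → ZMod p))]
      exact Finset.sum_congr rfl fun a _ => B2_shift p k j a x⁻¹ x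
    have h2 : (ZMod.stdAddChar (x⁻¹ * x) : ℂ) ≠ 1 := by
      rw [inv_mul_cancel₀ hx]
      exact B2_ne_one p one_ne_zero
    have h3 : (∑ a : Fin 4 → ZMod p, vv p k a j x) * (ZMod.stdAddChar (x⁻¹ * x) - 1) = 0 := by
      rw [mul_sub, mul_one, ← h1, sub_self]
    rcases mul_eq_zero.mp h3 with h | h
    · exact h
    · exact absurd (sub_eq_zero.mp h) h2

private theorem B2_mul_conj (p : ℕ) [Fact p.Prime] (k : ℕ) (a : Fin 4 → ZMod p) (j : ℕ) (x : ZMod p) :
    vv p k a j x * (starRingEnd ℂ) (vv p k a j x) = 1 := by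
  unfold vv
  rw [B2_conj, ← AddChar.map_add_eq_mul, add_neg_cancel, AddChar.map_zero_eq_one]

theorem vv_orth (p : ℕ) [Fact p.Prime] (k j : ℕ) (x x' : ZMod p) :
    ∑ a : Fin 4 → ZMod p, vv p k a j x * (starRingEnd ℂ) (vv p k a j x') =
      if x = x' then (p : ℂ) ^ 4 else 0 := by
  split_ifs with hx
  · subst hx
    simp [B2_mul_conj, ZMod.card]
  · have hd : x - x' ≠ 0 := sub_ne_zero.mpr hx
    set c := (x - x')⁻¹ with hc
    have h1 : ∑ a : Fin 4 → ZMod p, vv p k a j x * (starRingEnd ℂ) (vv p k a j x') =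
        (∑ a : Fin 4 → ZMod p, vv p k a j x * (starRingEnd ℂ) (vv p k a j x')) *
          ZMod.stdAddChar (c * (x - x')) := by
      have hs := Equiv.sum_comp (Equiv.addRight (Pi.single 1 c : Fin 4 → ZMod p))
        (fun a => vv p k a j x * (starRingEnd ℂ) (vv p k a j x'))
      rw [Finset.sum_mul, ← hs]
      refine Finset.sum_congr rfl fun a _ => ?_
      have e1 : (starRingEnd ℂ) (vv p k a j x' * ZMod.stdAddChar (c * x')) =
          (starRingEnd ℂ) (vv p k a j x') * ZMod.stdAddChar (-(c * x')) := by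
        rw [RingHom.map_mul, B2_conj]
      have e2 : (ZMod.stdAddChar (c * (x - x')) : ℂ) =
          ZMod.stdAddChar (c * x) * ZMod.stdAddChar (-(c * x')) := by
        rw [← AddChar.map_add_eq_mul]
        congr 1
        ring
      rw [Equiv.coe_addRight, B2_shift, B2_shift, e1, e2]
      ring
    have h2 : (ZMod.stdAddChar (c * (x - x')) : ℂ) ≠ 1 := by
      rw [hc, inv_mul_cancel₀ hd]
      exact B2_ne_one p one_ne_zero
    have h3 : (∑ a : Fin 4 → ZMod p, vv p k a j x * (starRingEnd ℂ) (vv p k a j x')) *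
        (ZMod.stdAddChar (c * (x - x')) - 1) = 0 := by
      rw [mul_sub, mul_one, ← h1, sub_self]
    rcases mul_eq_zero.mp h3 with h | h
    · exact h
    · exact absurd (sub_eq_zero.mp h) h2

theorem vv_isotropy (p : ℕ) [Fact p.Prime] (k j : ℕ) (b : ZMod p → ℂ) :
    ∑ a : Fin 4 → ZMod p, ‖∑ x, vv p k a j x * b x‖ ^ 2 = (p : ℝ) ^ 4 * sq b := by
  have h : ((∑ a : Fin 4 → ZMod p, ‖∑ x, vv p k a j x * b x‖ ^ 2 : ℝ) : ℂ) =
      (((p : ℝ) ^ 4 * sq b : ℝ) : ℂ) := by
    push_cast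
    have e1 : ∀ a : Fin 4 → ZMod p, ((‖∑ x, vv p k a j x * b x‖ : ℝ) : ℂ) ^ 2 =
        ∑ x, ∑ x', (b x * (starRingEnd ℂ) (b x')) *
          (vv p k a j x * (starRingEnd ℂ) (vv p k a j x')) := by
      intro a
      rw [← Complex.mul_conj', map_sum, Finset.sum_mul_sum]
      refine Finset.sum_congr rfl fun x _ => Finset.sum_congr rfl fun x' _ => ?_
      rw [map_mul]
      ring
    simp only [e1]
    rw [Finset.sum_comm]
    have e2 : ∀ x, ∑ a : Fin 4 → ZMod p, ∑ x', (b x * (starRingEnd ℂ) (b x')) *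
        (vv p k a j x * (starRingEnd ℂ) (vv p k a j x')) = (p : ℂ) ^ 4 * ((‖b x‖ : ℝ) : ℂ) ^ 2 := by
      intro x
      rw [Finset.sum_comm]
      simp only [← Finset.mul_sum, vv_orth]
      rw [Finset.sum_eq_single x]
      · simp only [if_true]
        rw [Complex.mul_conj']
        ring
      · intro x' _ hx'
        rw [if_neg (Ne.symm hx'), mul_zero]
      · intro h
        exact absurd (Finset.mem_univ _) h
    simp only [e2]
    rw [← Finset.mul_sum]
    congr 1
    unfold sq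
    push_cast
    rfl
  exact_mod_cast h

theorem vv_hs (p : ℕ) [Fact p.Prime] (k k' j : ℕ) (B : ZMod p → ZMod p → ℂ) :
    ∑ a : Fin 4 → ZMod p, ∑ b : Fin 4 → ZMod p,
      ‖∑ x', ∑ x, B x' x * vv p k b j x' * vv p k' a j x‖ ^ 2 =
        (p : ℝ) ^ 8 * ∑ x', ∑ x, ‖B x' x‖ ^ 2 := by
  rw [Finset.sum_comm]
  have e1 : ∀ b : Fin 4 → ZMod p, ∑ a : Fin 4 → ZMod p,
      ‖∑ x', ∑ x, B x' x * vv p k b j x' * vv p k' a j x‖ ^ 2 =
        (p : ℝ) ^ 4 * ∑ x, ‖∑ x', vv p k b j x' * B x' x‖ ^ 2 := by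
    intro b
    have := vv_isotropy p k' j (fun x => ∑ x', vv p k b j x' * B x' x)
    unfold sq at this
    rw [← this]
    refine Finset.sum_congr rfl fun a _ => ?_
    congr 2
    rw [Finset.sum_comm]
    refine Finset.sum_congr rfl fun x _ => ?_
    rw [Finset.mul_sum]
    refine Finset.sum_congr rfl fun x' _ => ?_
    ring
  simp only [e1]
  rw [← Finset.mul_sum, Finset.sum_comm]
  have e2 : ∀ x, ∑ b : Fin 4 → ZMod p, ‖∑ x', vv p k b j x' * B x' x‖ ^ 2 =
      (p : ℝ) ^ 4 * ∑ x', ‖B x' x‖ ^ 2 := by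
    intro x
    have := vv_isotropy p k j (fun x' => B x' x)
    unfold sq at this
    exact this
  simp only [e2]
  rw [← Finset.mul_sum, ← mul_assoc, ← pow_add, Finset.sum_comm]

end PB
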