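import Pool.Agent.Helper89.PB.Defs
import Pool.Agent.Helper89.PB.B1
import Pool.Agent.Helper89.PB.B2

namespace PB

open Finset Polynomial

/-- mean of the bilinear forms over the children of one parent -/
theorem child_mean (p : ℕ) [Fact p.Prime] (m : ℕ) (hm : 1 ≤ m) (k : ℕ) (x' x : ZMod p) :
    ∑ c ∈ range (p ^ 8), (1 / (m : ℂ)) * ∑ j ∈ range m,
      vv p k (dg p 4 c) j x' * vv p k (dg p 0 c) j x =
      if x' = 0 ∧ x = 0 then (p : ℂ) ^ 8 else 0 := by
  have hm0 : (m : ℂ) ≠ 0 := by
    have : m ≠ 0 := by omega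
    exact_mod_cast this
  rw [← mul_sum, sum_comm]
  have h1 : ∀ j ∈ range m, ∑ c ∈ range (p ^ 8), vv p k (dg p 4 c) j x' * vv p k (dg p 0 c) j x =
      if x' = 0 ∧ x = 0 then (p : ℂ) ^ 8 else 0 := by
    intro j _
    rw [digits p (fun a b => vv p k b j x' * vv p k a j x), sum_comm]
    have h2 : ∀ b : Fin 4 → ZMod p, ∑ a : Fin 4 → ZMod p, vv p k b j x' * vv p k a j x =
        vv p k b j x' * ∑ a : Fin 4 → ZMod p, vv p k a j x := by
      intro b
      rw [mul_sum]
    rw [sum_congr rfl (fun b _ => h2 b), ← sum_mul, vv_mean, vv_mean]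
    by_cases hx' : x' = 0
    · by_cases hx : x = 0
      · simp only [hx, hx', if_true, and_self]
        rw [← pow_add]
      · simp only [hx, hx', if_true, if_false, and_false, mul_zero]
    · simp only [hx', if_false, false_and, zero_mul]
  rw [sum_congr rfl h1, sum_const, card_range, nsmul_eq_mul, ← mul_assoc, one_div,
    inv_mul_cancel₀ hm0, one_mul]

end PB
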