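import Pool.Agent.Helper89.PB.Defs
import Pool.Agent.Helper89.PB.E1
import Pool.Agent.Helper89.PB.E5
import Pool.Agent.Helper89.PB.E6
import Pool.Agent.Helper89.PB.C1
import Pool.Agent.Helper89.PB.R0

namespace PB

open Finset Polynomial

/-- scalar kernel -/
noncomputable def E7G (p m : ℕ) [NeZero p] (l J : ℕ) (x' x : ZMod p) : ℂ :=
  (1 / (p : ℂ)) * ∑ j ∈ range m,
    (starRingEnd ℂ) (vv p l (dg p 4 J) j x') * (starRingEnd ℂ) (vv p l (dg p 0 J) j x)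

/-- scalar coupling -/
noncomputable def E7W (p m : ℕ) [NeZero p] (l i : ℕ) (x' x : ZMod p) : ℂ :=
  (1 / (m : ℂ)) * ∑ j ∈ range m, vv p l (dg p 4 i) j x' * vv p l (dg p 0 i) j x

open scoped Classical in
/-- the good nodes -/
noncomputable def E7S (p l : ℕ) : Finset ℕ :=
  (range ((p ^ 8) ^ l)).filter (fun J => gd (dg p 0 J) ∧ gd (dg p 4 J))

theorem E7_mem_S (p l J : ℕ) : J ∈ E7S p l ↔ J ∈ range ((p ^ 8) ^ l) ∧ gd (dg p 0 J) ∧
    gd (dg p 4 J) := by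
  simp only [E7S, Finset.mem_filter]

theorem E7_S_sub (p l : ℕ) : E7S p l ⊆ range ((p ^ 8) ^ l) := fun J hJ =>
  ((E7_mem_S p l J).1 hJ).1

/-- scalar test function -/
noncomputable def E7phi (p m : ℕ) [NeZero p] (l : ℕ) (z : ℂ) (x' x : ZMod p) : ℂ :=
  ∑ J ∈ E7S p l, E7G p m l J x' x * (chi ((p ^ 8) ^ l) J).eval z

/-- pair sums -/
noncomputable def E7P (p m : ℕ) [NeZero p] (l J i : ℕ) : ℂ :=
  ∑ j' ∈ range m, ∑ j ∈ range m,
      (∑ x, (starRingEnd ℂ) (vv p l (dg p 4 J) j' x) * vv p l (dg p 4 i) j x) *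
      (∑ x, (starRingEnd ℂ) (vv p l (dg p 0 J) j' x) * vv p l (dg p 0 i) j x)

theorem E7_Phi_eval (p m : ℕ) [NeZero p] (a b : Sp m × ZMod p) (z : ℂ) :
    (Phi p m a b).eval z = ∑ k : Fin m, Cl k a.1 b.1 * E7phi p m ((k : ℕ) + 1) z a.2 b.2 := by
  simp only [Phi, E7phi, E7S, E7G, eval_finsetSum, eval_mul, eval_C]

theorem E7_spin {p m : ℕ} [NeZero p] (k : Fin m) (F : Fin m → ZMod p → ZMod p → ℂ)
    (W : ZMod p → ZMod p → ℂ) :
    ∑ a : Sp m × ZMod p, ∑ b : Sp m × ZMod p,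
      (∑ k' : Fin m, Cl k' a.1 b.1 * F k' a.2 b.2) * (Cl k a.1 b.1 * W a.2 b.2) =
    (2 : ℂ) ^ m * ∑ x', ∑ x, F k x' x * W x' x := by
  have h : ∀ k' : Fin m, ∑ a : Sp m × ZMod p, ∑ b : Sp m × ZMod p,
      Cl k' a.1 b.1 * F k' a.2 b.2 * (Cl k a.1 b.1 * W a.2 b.2) =
      (∑ s' : Sp m, ∑ s : Sp m, Cl k' s' s * Cl k s' s) * ∑ x', ∑ x, F k' x' x * W x' x := by
    intro k'
    simp only [Fintype.sum_prod_type]
    rw [Finset.sum_mul_sum]
    refine Finset.sum_congr rfl fun s' _ => Finset.sum_congr rfl fun x' _ => ?_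
    rw [Finset.sum_mul_sum]
    refine Finset.sum_congr rfl fun s _ => Finset.sum_congr rfl fun x _ => ?_
    ring
  calc _ = ∑ k' : Fin m, ∑ a : Sp m × ZMod p, ∑ b : Sp m × ZMod p,
      Cl k' a.1 b.1 * F k' a.2 b.2 * (Cl k a.1 b.1 * W a.2 b.2) := by
        simp_rw [Finset.sum_mul]
        symm
        rw [Finset.sum_comm]
        refine Finset.sum_congr rfl fun a _ => ?_
        rw [Finset.sum_comm]
    _ = _ := by
        simp only [h, Cl_orth, ite_mul, zero_mul]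
        simp

theorem E7_swap {X : Type*} [Fintype X] (m : ℕ) (a b c d : ℕ → X → ℂ) :
    ∑ x', ∑ x, (∑ j' ∈ range m, a j' x' * b j' x) * (∑ j ∈ range m, c j x' * d j x) =
    ∑ j' ∈ range m, ∑ j ∈ range m, (∑ x', a j' x' * c j x') * (∑ x, b j' x * d j x) := by
  calc _ = ∑ x' : X, ∑ x : X, ∑ j' ∈ range m, ∑ j ∈ range m,
        (a j' x' * b j' x) * (c j x' * d j x) := by
        simp only [Finset.sum_mul_sum]
    _ = ∑ x' : X, ∑ j' ∈ range m, ∑ j ∈ range m, ∑ x : X,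
        (a j' x' * b j' x) * (c j x' * d j x) := by
        refine Finset.sum_congr rfl fun x' _ => ?_
        rw [Finset.sum_comm]
        refine Finset.sum_congr rfl fun j' _ => ?_
        rw [Finset.sum_comm]
    _ = ∑ j' ∈ range m, ∑ j ∈ range m, ∑ x' : X, ∑ x : X,
        (a j' x' * b j' x) * (c j x' * d j x) := by
        rw [Finset.sum_comm]
        refine Finset.sum_congr rfl fun j' _ => ?_
        rw [Finset.sum_comm]
    _ = _ := by
        refine Finset.sum_congr rfl fun j' _ => Finset.sum_congr rfl fun j _ => ?_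
        rw [Finset.sum_mul_sum]
        refine Finset.sum_congr rfl fun x' _ => Finset.sum_congr rfl fun x _ => ?_
        ring

theorem E7_GW (p m : ℕ) [NeZero p] (l J i : ℕ) :
    ∑ x', ∑ x, E7G p m l J x' x * E7W p m l i x' x =
      (1 / ((p : ℂ) * m)) * E7P p m l J i := by
  have h := E7_swap (X := ZMod p) m (fun j x => (starRingEnd ℂ) (vv p l (dg p 4 J) j x))
    (fun j x => (starRingEnd ℂ) (vv p l (dg p 0 J) j x))
    (fun j x => vv p l (dg p 4 i) j x) (fun j x => vv p l (dg p 0 i) j x)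
  rw [E7P, ← h, Finset.mul_sum]
  refine Finset.sum_congr rfl fun x' _ => ?_
  rw [Finset.mul_sum]
  refine Finset.sum_congr rfl fun x _ => ?_
  rw [E7G, E7W]
  rw [one_div, one_div, one_div, mul_inv]
  ring

theorem E7_fine (p m : ℕ) [NeZero p] (l i : ℕ) (z : ℂ) :
    ∑ x', ∑ x, E7phi p m l z x' x * E7W p m l i x' x =
      (1 / ((p : ℂ) * m)) * ∑ J ∈ E7S p l, (chi ((p ^ 8) ^ l) J).eval z * E7P p m l J i := by
  calc _ = ∑ x', ∑ x, ∑ J ∈ E7S p l,
        (chi ((p ^ 8) ^ l) J).eval z * (E7G p m l J x' x * E7W p m l i x' x) := by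
        refine Finset.sum_congr rfl fun x' _ => Finset.sum_congr rfl fun x _ => ?_
        rw [E7phi, Finset.sum_mul]
        refine Finset.sum_congr rfl fun J _ => ?_
        ring
    _ = ∑ J ∈ E7S p l, ∑ x', ∑ x,
        (chi ((p ^ 8) ^ l) J).eval z * (E7G p m l J x' x * E7W p m l i x' x) := by
        symm
        rw [Finset.sum_comm]
        refine Finset.sum_congr rfl fun x' _ => ?_
        rw [Finset.sum_comm]
    _ = _ := by
        rw [Finset.mul_sum]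
        refine Finset.sum_congr rfl fun J _ => ?_
        rw [mul_left_comm, ← E7_GW, Finset.mul_sum]
        refine Finset.sum_congr rfl fun x' _ => ?_
        rw [Finset.mul_sum]

theorem E7_sum_range_mul {E : Type*} [AddCommMonoid E] (M n : ℕ) (f : ℕ → E) :
    ∑ i ∈ range (M * n), f i = ∑ j ∈ range n, ∑ c ∈ range M, f (M * j + c) := by
  induction n with
  | zero => simp
  | succ n ih => rw [Nat.mul_succ, Finset.sum_range_add, ih, Finset.sum_range_succ]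

theorem E7_coarse (p m : ℕ) [Fact p.Prime] (hm : 1 ≤ m) (k : ℕ)  :
    ∑ i ∈ range ((p ^ 8) ^ (k + 1)), ∑ x', ∑ x,
      E7phi p m (k + 1) (zz (p ^ 8) k (i / p ^ 8)) x' x * E7W p m (k + 1) i x' x =
      ∑ j ∈ range ((p ^ 8) ^ k), (p : ℂ) ^ 8 * E7phi p m (k + 1) (zz (p ^ 8) k j) 0 0 := by
  have hp0 : 0 < p ^ 8 := pow_pos (Fact.out : p.Prime).pos 8
  rw [pow_succ (p ^ 8) k, mul_comm, E7_sum_range_mul]
  refine Finset.sum_congr rfl fun j _ => ?_
  have h1 : ∀ c ∈ range (p ^ 8), (p ^ 8 * j + c) / p ^ 8 = j := by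
    intro c hc
    rw [Nat.mul_add_div hp0, Nat.div_eq_of_lt (Finset.mem_range.1 hc), add_zero]
  have h2 : ∀ c x' x, E7W p m (k + 1) (p ^ 8 * j + c) x' x = E7W p m (k + 1) c x' x := by
    intro c x' x
    rw [E7W, E7W, dg_add p 4 j c le_rfl, dg_add p 0 j c (by norm_num)]
  have h3 : ∀ x' x, ∑ c ∈ range (p ^ 8), E7W p m (k + 1) c x' x =
      if x' = 0 ∧ x = 0 then (p : ℂ) ^ 8 else 0 := fun x' x => child_mean p m hm (k + 1) x' x
  calc _ = ∑ c ∈ range (p ^ 8), ∑ x', ∑ x,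
        E7phi p m (k + 1) (zz (p ^ 8) k j) x' x * E7W p m (k + 1) c x' x := by
        refine Finset.sum_congr rfl fun c hc => ?_
        rw [h1 c hc]
        simp only [h2]
    _ = ∑ x', ∑ x, E7phi p m (k + 1) (zz (p ^ 8) k j) x' x *
        ∑ c ∈ range (p ^ 8), E7W p m (k + 1) c x' x := by
        rw [Finset.sum_comm]
        refine Finset.sum_congr rfl fun x' _ => ?_
        rw [Finset.sum_comm]
        refine Finset.sum_congr rfl fun x _ => ?_
        rw [Finset.mul_sum]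
    _ = _ := by
        simp only [h3]
        rw [Finset.sum_eq_single 0, Finset.sum_eq_single 0]
        · simp [mul_comm]
        · intro x _ hx
          simp [hx]
        · simp
        · intro x' _ hx'
          simp [hx']
        · simp

theorem E7_vv_zero (p : ℕ) [NeZero p] (k : ℕ) (a : Fin 4 → ZMod p) (j : ℕ) :
    vv p k a j 0 = 1 := by
  simp [vv]

theorem E7_phi_zero (p m : ℕ) [NeZero p] (l : ℕ) (hA : 1 ≤ (p ^ 8) ^ l) (z : ℂ) (hz : ‖z‖ ≤ 1) :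
    ‖E7phi p m l z 0 0‖ ≤ (m : ℝ) / p := by
  have h1 : E7phi p m l z 0 0 = ((m : ℂ) / p) * ∑ J ∈ E7S p l, (chi ((p ^ 8) ^ l) J).eval z := by
    rw [E7phi, Finset.mul_sum]
    refine Finset.sum_congr rfl fun J _ => ?_
    have h0 : E7G p m l J 0 0 = (m : ℂ) / p := by
      simp only [E7G, E7_vv_zero]
      simp
      ring
    rw [h0]
  rw [h1, norm_mul]
  have h2 : ‖∑ J ∈ E7S p l, (chi ((p ^ 8) ^ l) J).eval z‖ ≤ 1 := by
    refine (norm_sum_le _ _).trans ?_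
    refine le_trans ?_ (chi_sum ((p ^ 8) ^ l) hA z hz)
    exact Finset.sum_le_sum_of_subset_of_nonneg (E7_S_sub _ _)
      (fun _ _ _ => norm_nonneg _)
  have h3 : ‖(m : ℂ) / p‖ = (m : ℝ) / p := by
    rw [norm_div]
    simp
  rw [h3]
  have : (0 : ℝ) ≤ (m : ℝ) / p := by positivity
  nlinarith

theorem E7_term (p : ℕ) [Fact p.Prime] (hp : 101 ≤ p) (m : ℕ) (hmp : 4 * m ^ 8 ≤ p) (hm : 1 ≤ m)
    (l : ℕ) (hl : 1 ≤ l) (i : ℕ) (hi : i < (p ^ 8) ^ l) :
    (if i ∈ E7S p l then (1 / 2 : ℝ) * (m * (p : ℝ) ^ 2 - m ^ 2 * p) else 0) -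
      (12 / 100) * (m * (p : ℝ) ^ 2) ≤
      (∑ J ∈ E7S p l, (chi ((p ^ 8) ^ l) J).eval (zz (p ^ 8) l i) * E7P p m l J i).re := by
  have hA : 100 ≤ (p ^ 8) ^ l := by
    calc 100 ≤ p := by omega
      _ ≤ p ^ 8 := Nat.le_self_pow (by norm_num) p
      _ ≤ (p ^ 8) ^ l := Nat.le_self_pow (by omega) _
  have hp2 : p ≠ 2 := by omega
  have hmp' : m ≤ p := by
    have : m ≤ m ^ 8 := Nat.le_self_pow (by norm_num) m
    omega
  have hoff : ∑ J ∈ (E7S p l).erase i, ‖(chi ((p ^ 8) ^ l) J).eval (zz (p ^ 8) l i)‖ ≤ 6 / 100 := by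
    refine le_trans ?_ (chi_off ((p ^ 8) ^ l) hA i hi)
    refine Finset.sum_le_sum_of_subset_of_nonneg ?_ (fun _ _ _ => norm_nonneg _)
    exact Finset.erase_subset_erase _ (E7_S_sub _ _)
  have hrest : -((12 / 100) * (m * (p : ℝ) ^ 2)) ≤
      (∑ J ∈ (E7S p l).erase i, (chi ((p ^ 8) ^ l) J).eval (zz (p ^ 8) l i) *
        E7P p m l J i).re := by
    have h1 : ‖∑ J ∈ (E7S p l).erase i, (chi ((p ^ 8) ^ l) J).eval (zz (p ^ 8) l i) *
        E7P p m l J i‖ ≤ (12 / 100) * (m * (p : ℝ) ^ 2) := by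
      refine (norm_sum_le _ _).trans ?_
      calc _ ≤ ∑ J ∈ (E7S p l).erase i, ‖(chi ((p ^ 8) ^ l) J).eval (zz (p ^ 8) l i)‖ *
            (2 * m * (p : ℝ) ^ 2) := by
            refine Finset.sum_le_sum fun J hJ => ?_
            rw [norm_mul]
            refine mul_le_mul_of_nonneg_left ?_ (norm_nonneg _)
            have hJ' := Finset.mem_of_mem_erase hJ
            rw [E7_mem_S] at hJ'
            exact pair_bound p hp2 m hmp hm l (dg p 0 J) (dg p 4 J) (dg p 0 i) (dg p 4 i)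
              hJ'.2.1 hJ'.2.2
        _ = (∑ J ∈ (E7S p l).erase i, ‖(chi ((p ^ 8) ^ l) J).eval (zz (p ^ 8) l i)‖) *
            (2 * m * (p : ℝ) ^ 2) := by rw [Finset.sum_mul]
        _ ≤ (6 / 100) * (2 * m * (p : ℝ) ^ 2) :=
            mul_le_mul_of_nonneg_right hoff (by positivity)
        _ = _ := by ring
    have h2 := Complex.abs_re_le_norm (∑ J ∈ (E7S p l).erase i,
      (chi ((p ^ 8) ^ l) J).eval (zz (p ^ 8) l i) * E7P p m l J i)
    have h3 := neg_abs_le (∑ J ∈ (E7S p l).erase i,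
      (chi ((p ^ 8) ^ l) J).eval (zz (p ^ 8) l i) * E7P p m l J i).re
    linarith
  by_cases hiS : i ∈ E7S p l
  · rw [if_pos hiS, ← Finset.add_sum_erase _ _ hiS, Complex.add_re]
    obtain ⟨t, ht, hchi⟩ := chi_diag ((p ^ 8) ^ l) hA i
    have hchi' : (chi ((p ^ 8) ^ l) i).eval (zz (p ^ 8) l i) = t := hchi
    rw [hchi', Complex.re_ofReal_mul]
    have hiS' := hiS
    rw [E7_mem_S] at hiS'
    have hd : m * (p : ℝ) ^ 2 - m ^ 2 * p ≤ (E7P p m l i i).re :=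
      pair_diag p hp2 m hmp' l (dg p 0 i) (dg p 4 i) hiS'.2.1 hiS'.2.2
    have hnn : 0 ≤ m * (p : ℝ) ^ 2 - m ^ 2 * p := by
      have h1 : (m : ℝ) ≤ p := by exact_mod_cast hmp'
      have h2 : (0 : ℝ) ≤ m := by positivity
      have h3 : (0 : ℝ) ≤ p := by positivity
      have : m * (p : ℝ) ^ 2 - m ^ 2 * p = m * p * (p - m) := by ring
      rw [this]
      have : (0 : ℝ) ≤ (p : ℝ) - m := by linarith
      positivity
    have : (1 / 2 : ℝ) * (m * (p : ℝ) ^ 2 - m ^ 2 * p) ≤ t * (E7P p m l i i).re :=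
      mul_le_mul ht hd hnn (by linarith)
    linarith
  · rw [if_neg hiS]
    rw [Finset.erase_eq_of_notMem hiS] at hrest
    linarith

theorem E7_card (p : ℕ) [Fact p.Prime] (l : ℕ) (hl : 1 ≤ l) :
    ((p : ℝ) ^ 8) ^ l * (1 - 2 / (p : ℝ) ^ 2) ≤ ((E7S p l).card : ℝ) := by
  classical
  have h := count_bad p l hl
  have h2 := Finset.card_filter_add_card_filter_not (s := range ((p ^ 8) ^ l))
    (fun J => gd (dg p 0 J) ∧ gd (dg p 4 J))
  rw [Finset.card_range] at h2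
  have h3 : (((E7S p l).card : ℝ)) + (((range ((p ^ 8) ^ l)).filter
      (fun J => ¬ (gd (dg p 0 J) ∧ gd (dg p 4 J)))).card : ℝ) = ((p : ℝ) ^ 8) ^ l := by
    have h4 : ((((E7S p l).card + ((range ((p ^ 8) ^ l)).filter
      (fun J => ¬ (gd (dg p 0 J) ∧ gd (dg p 4 J)))).card : ℕ)) : ℝ) = (((p ^ 8) ^ l : ℕ) : ℝ) := by
      rw [← h2, E7S]
      congr!
    push_cast at h4
    exact h4
  have h5 : ((p : ℝ) ^ 8) ^ l * (1 - 2 / (p : ℝ) ^ 2) =
      ((p : ℝ) ^ 8) ^ l - 2 * ((p : ℝ) ^ 8) ^ l / (p : ℝ) ^ 2 := by ring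
  rw [h5]
  have h6 : (((range ((p ^ 8) ^ l)).filter
      (fun J => ¬ (gd (dg p 0 J) ∧ gd (dg p 4 J)))).card : ℝ) ≤
      2 * ((p : ℝ) ^ 8) ^ l / (p : ℝ) ^ 2 := by
    convert h
  linarith

theorem E7_num (p m A s : ℝ) (hp : 101 ≤ p) (hm : 1 ≤ m) (hmp : 4 * m ≤ p) (hA : 0 ≤ A)
    (hs : A * (1 - 2 / p ^ 2) ≤ s) :
    (1 / 4) * p * A ≤ (1 / (p * m)) * (s * ((1 / 2) * (m * p ^ 2 - m ^ 2 * p)) -
      A * ((12 / 100) * (m * p ^ 2))) - A * (m / p) := by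
  have hp0 : 0 < p := by linarith
  have hm0 : 0 < m := by linarith
  have h1 : (1 / (p * m)) * (s * ((1 / 2) * (m * p ^ 2 - m ^ 2 * p)) -
      A * ((12 / 100) * (m * p ^ 2))) = s * ((1 / 2) * (p - m)) - A * ((12 / 100) * p) := by
    field_simp
  rw [h1]
  have h2 : A * (1 - 2 / p ^ 2) * ((1 / 2) * (p - m)) ≤ s * ((1 / 2) * (p - m)) :=
    mul_le_mul_of_nonneg_right hs (by linarith)
  have h3 : (1 / 4) * p ≤ (1 - 2 / p ^ 2) * ((1 / 2) * (p - m)) - (12 / 100) * p - m / p := by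
    have h4 : m / p ≤ 1 / 4 := by
      rw [div_le_div_iff₀ hp0 (by norm_num)]
      linarith
    have h5 : 2 / p ^ 2 * ((1 / 2) * (p - m)) ≤ 1 / 4 := by
      have : 2 / p ^ 2 * ((1 / 2) * (p - m)) = (p - m) / p ^ 2 := by ring
      rw [this, div_le_div_iff₀ (by positivity) (by norm_num)]
      nlinarith
    have h6 : (1 - 2 / p ^ 2) * ((1 / 2) * (p - m)) = (1 / 2) * (p - m) -
      2 / p ^ 2 * ((1 / 2) * (p - m)) := by ring
    rw [h6]
    nlinarith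
  nlinarith [mul_le_mul_of_nonneg_left h3 hA]

/-- The contribution of one level, after summation over the spinors. -/
theorem level_test (p : ℕ) [Fact p.Prime] (hp : 101 ≤ p) (m : ℕ) (hmp : 4 * m ^ 8 ≤ p) (hm : 1 ≤ m)
    (k : Fin m) :
    (1 / 4 : ℝ) * (2 : ℝ) ^ m * p * ((p : ℝ) ^ 8) ^ ((k : ℕ) + 1) ≤
    (∑ i ∈ range ((p ^ 8) ^ ((k : ℕ) + 1)), ∑ a : Sp m × ZMod p, ∑ b : Sp m × ZMod p,
      ((Phi p m a b).eval (zz (p ^ 8) ((k : ℕ) + 1) i) -
        (Phi p m a b).eval (zz (p ^ 8) (k : ℕ) (i / p ^ 8))) * (Cl k a.1 b.1 *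
            ((1 / (m : ℂ)) * ∑ j ∈ range m, vv p ((k : ℕ) + 1) (dg p 4 i) j a.2 *
              vv p ((k : ℕ) + 1) (dg p 0 i) j b.2))).re := by
  have hppos : 0 < p := (Fact.out : p.Prime).pos
  have hmp1 : 4 * m ≤ p := by
    have : m ≤ m ^ 8 := Nat.le_self_pow (by norm_num) m
    omega
  -- reduction to scalar kernels
  have hred : ∀ (i : ℕ) (z w : ℂ), ∑ a : Sp m × ZMod p, ∑ b : Sp m × ZMod p,
      ((Phi p m a b).eval z - (Phi p m a b).eval w) * (Cl k a.1 b.1 *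
            ((1 / (m : ℂ)) * ∑ j ∈ range m, vv p ((k : ℕ) + 1) (dg p 4 i) j a.2 *
              vv p ((k : ℕ) + 1) (dg p 0 i) j b.2)) =
      (2 : ℂ) ^ m * (∑ x', ∑ x, E7phi p m ((k : ℕ) + 1) z x' x * E7W p m ((k : ℕ) + 1) i x' x -
        ∑ x', ∑ x, E7phi p m ((k : ℕ) + 1) w x' x * E7W p m ((k : ℕ) + 1) i x' x) := by
    intro i z w
    have h1 := E7_spin (p := p) k (fun k' x' x => E7phi p m ((k' : ℕ) + 1) z x' x -
      E7phi p m ((k' : ℕ) + 1) w x' x) (fun x' x => E7W p m ((k : ℕ) + 1) i x' x)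
    have h2 : ∀ a b : Sp m × ZMod p, (Phi p m a b).eval z - (Phi p m a b).eval w =
        ∑ k' : Fin m, Cl k' a.1 b.1 * (E7phi p m ((k' : ℕ) + 1) z a.2 b.2 -
      E7phi p m ((k' : ℕ) + 1) w a.2 b.2) := by
      intro a b
      rw [E7_Phi_eval, E7_Phi_eval, ← Finset.sum_sub_distrib]
      refine Finset.sum_congr rfl fun k' _ => ?_
      ring
    calc _ = ∑ a : Sp m × ZMod p, ∑ b : Sp m × ZMod p,
        (∑ k' : Fin m, Cl k' a.1 b.1 * (E7phi p m ((k' : ℕ) + 1) z a.2 b.2 -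
      E7phi p m ((k' : ℕ) + 1) w a.2 b.2)) * (Cl k a.1 b.1 * E7W p m ((k : ℕ) + 1) i a.2 b.2) := by
          refine Finset.sum_congr rfl fun a _ => Finset.sum_congr rfl fun b _ => ?_
          rw [h2, E7W]
      _ = _ := by
          rw [h1]
          congr 1
          rw [← Finset.sum_sub_distrib]
          refine Finset.sum_congr rfl fun x' _ => ?_
          rw [← Finset.sum_sub_distrib]
          refine Finset.sum_congr rfl fun x _ => ?_
          ring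
  simp only [hred]
  rw [← Finset.mul_sum, Finset.sum_sub_distrib, E7_coarse p m hm (k : ℕ)]
  simp only [E7_fine]
  rw [← Finset.mul_sum]
  set A : ℕ := (p ^ 8) ^ ((k : ℕ) + 1) with hAdef
  set T : ℕ → ℂ := fun i => ∑ J ∈ E7S p ((k : ℕ) + 1),
    (chi A J).eval (zz (p ^ 8) ((k : ℕ) + 1) i) * E7P p m ((k : ℕ) + 1) J i with hT
  have hterm : ∀ i ∈ range A, (if i ∈ E7S p ((k : ℕ) + 1) then
      (1 / 2 : ℝ) * (m * (p : ℝ) ^ 2 - m ^ 2 * p) else 0) -
      (12 / 100) * (m * (p : ℝ) ^ 2) ≤ (T i).re := fun i hi =>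
    E7_term p hp m hmp hm ((k : ℕ) + 1) (by omega) i (Finset.mem_range.1 hi)
  have hsum : ((E7S p ((k : ℕ) + 1)).card : ℝ) * ((1 / 2 : ℝ) * (m * (p : ℝ) ^ 2 - m ^ 2 * p)) -
      (A : ℝ) * ((12 / 100) * (m * (p : ℝ) ^ 2)) ≤ (∑ i ∈ range A, T i).re := by
    have h1 := Finset.sum_le_sum hterm
    rw [Finset.sum_sub_distrib, Finset.sum_const, Finset.card_range, nsmul_eq_mul,
      ← Finset.sum_filter, Finset.sum_const, nsmul_eq_mul] at h1
    have h2 : (range A).filter (fun i => i ∈ E7S p ((k : ℕ) + 1)) = E7S p ((k : ℕ) + 1) := by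
      ext i
      simp only [Finset.mem_filter, E7_mem_S]
      tauto
    rw [h2] at h1
    rw [Complex.re_sum]
    exact h1
  have hcoarse : ‖∑ j ∈ range ((p ^ 8) ^ (k : ℕ)), (p : ℂ) ^ 8 *
      E7phi p m ((k : ℕ) + 1) (zz (p ^ 8) (k : ℕ) j) 0 0‖ ≤ (A : ℝ) * ((m : ℝ) / p) := by
    refine (norm_sum_le _ _).trans ?_
    calc _ ≤ ∑ j ∈ range ((p ^ 8) ^ (k : ℕ)), (p : ℝ) ^ 8 * ((m : ℝ) / p) := by
          refine Finset.sum_le_sum fun j _ => ?_
          rw [norm_mul, norm_pow, Complex.norm_natCast]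
          refine mul_le_mul_of_nonneg_left ?_ (by positivity)
          exact E7_phi_zero p m ((k : ℕ) + 1) (Nat.one_le_pow _ _ (pow_pos hppos 8)) _
            (norm_zz_le _ _ _)
      _ = _ := by
          rw [Finset.sum_const, Finset.card_range, nsmul_eq_mul, hAdef]
          push_cast
          ring
  have hre : ((2 : ℂ) ^ m * (1 / ((p : ℂ) * m) * ∑ i ∈ range A, T i -
      ∑ j ∈ range ((p ^ 8) ^ (k : ℕ)), (p : ℂ) ^ 8 *
        E7phi p m ((k : ℕ) + 1) (zz (p ^ 8) (k : ℕ) j) 0 0)).re =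
      (2 : ℝ) ^ m * ((1 / ((p : ℝ) * m)) * (∑ i ∈ range A, T i).re -
        (∑ j ∈ range ((p ^ 8) ^ (k : ℕ)), (p : ℂ) ^ 8 *
        E7phi p m ((k : ℕ) + 1) (zz (p ^ 8) (k : ℕ) j) 0 0).re) := by
    have h1 : (2 : ℂ) ^ m = (((2 : ℝ) ^ m : ℝ) : ℂ) := by push_cast; rfl
    have h2 : (1 / ((p : ℂ) * m)) = (((1 / ((p : ℝ) * m)) : ℝ) : ℂ) := by push_cast; rfl
    rw [h1, h2, Complex.re_ofReal_mul, Complex.sub_re, Complex.re_ofReal_mul]
  rw [hre]
  have hc2 := Complex.re_le_norm (∑ j ∈ range ((p ^ 8) ^ (k : ℕ)), (p : ℂ) ^ 8 *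
        E7phi p m ((k : ℕ) + 1) (zz (p ^ 8) (k : ℕ) j) 0 0)
  have hAc : (A : ℝ) = ((p : ℝ) ^ 8) ^ ((k : ℕ) + 1) := by
    rw [hAdef]
    push_cast
    rfl
  have hnum := E7_num (p : ℝ) (m : ℝ) (A : ℝ) ((E7S p ((k : ℕ) + 1)).card : ℝ)
    (by exact_mod_cast hp) (by exact_mod_cast hm) (by exact_mod_cast hmp1) (by positivity)
    (by rw [hAc]; exact E7_card p ((k : ℕ) + 1) (by omega))
  have h2m : (0 : ℝ) < (2 : ℝ) ^ m := by positivity
  have hpm : (0 : ℝ) ≤ 1 / ((p : ℝ) * m) := by positivity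
  have h7 := mul_le_mul_of_nonneg_left hsum hpm
  have h8 : (1 / 4 : ℝ) * p * A ≤ (1 / ((p : ℝ) * m)) * (∑ i ∈ range A, T i).re -
        (∑ j ∈ range ((p ^ 8) ^ (k : ℕ)), (p : ℂ) ^ 8 *
        E7phi p m ((k : ℕ) + 1) (zz (p ^ 8) (k : ℕ) j) 0 0).re := by
    linarith
  have h9 := mul_le_mul_of_nonneg_left h8 h2m.le
  rw [← hAc]
  linarith

end PB
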