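import Pool.Agent.Helper89.PB.Defs
import Pool.Agent.Helper89.PB.R0

namespace PB

open Finset Polynomial

/-- nodes as powers of the primitive root -/
theorem F1_rt_eq (K i : ℕ) : rt K i = Complex.exp (2 * Real.pi * Complex.I / (K : ℂ)) ^ i := by
  unfold rt
  rw [← Complex.exp_nat_mul]
  congr 1
  ring

theorem F1_rt_comm (K i n : ℕ) : rt K i ^ n = rt K n ^ i := by
  rw [F1_rt_eq, F1_rt_eq, ← pow_mul, ← pow_mul, mul_comm i n]

theorem F1_conj_mul (K i : ℕ) : (starRingEnd ℂ) (rt K i) * rt K i = 1 := by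
  rw [← Complex.normSq_eq_conj_mul_self, Complex.normSq_eq_norm_sq, norm_rt]
  norm_num

/-- orthogonality of the roots of unity -/
theorem F1_orth (K n d : ℕ) (hK : K ≠ 0) (hn : n < K) (hd : d < K) :
    ∑ i ∈ range K, rt K i ^ n * (starRingEnd ℂ) (rt K i) ^ d = if n = d then (K : ℂ) else 0 := by
  have hterm : ∀ i, rt K i ^ n * (starRingEnd ℂ) (rt K i) ^ d =
      (rt K n * (starRingEnd ℂ) (rt K d)) ^ i := by
    intro i
    rw [← map_pow, F1_rt_comm K i n, F1_rt_comm K i d, map_pow, ← mul_pow]
  simp_rw [hterm]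
  split_ifs with h
  · subst h
    have : rt K n * (starRingEnd ℂ) (rt K n) = 1 := by rw [mul_comm]; exact F1_conj_mul K n
    simp [this]
  · have hK' : (rt K n * (starRingEnd ℂ) (rt K d)) ^ K = 1 := by
      rw [mul_pow, ← map_pow, rt_pow K n (Nat.one_le_iff_ne_zero.mpr hK),
        rt_pow K d (Nat.one_le_iff_ne_zero.mpr hK)]
      simp
    have hne : rt K n * (starRingEnd ℂ) (rt K d) ≠ 1 := by
      intro h1
      apply h
      have h2 : rt K n = rt K d := by
        calc rt K n = rt K n * ((starRingEnd ℂ) (rt K d) * rt K d) := by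
              rw [F1_conj_mul, mul_one]
          _ = (rt K n * (starRingEnd ℂ) (rt K d)) * rt K d := by ring
          _ = rt K d := by rw [h1, one_mul]
      rw [F1_rt_eq, F1_rt_eq] at h2
      exact (Complex.isPrimitiveRoot_exp K hK).pow_inj hn hd h2
    have := mul_geom_sum (rt K n * (starRingEnd ℂ) (rt K d)) K
    rw [hK', sub_self] at this
    rcases mul_eq_zero.mp this with h1 | h1
    · exact absurd (sub_eq_zero.mp h1) hne
    · exact h1

theorem F1_sum_pow (K n : ℕ) (hK : K ≠ 0) (hn : n < K) :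
    ∑ i ∈ range K, rt K i ^ n = if n = 0 then (K : ℂ) else 0 := by
  have := F1_orth K n 0 hK hn (Nat.pos_of_ne_zero hK)
  simpa using this

section psd

open scoped ComplexOrder

variable {ι : Type*} [Fintype ι] [DecidableEq ι]

omit [DecidableEq ι] in
theorem F1_sq_eq (x : ι → ℂ) : star x ⬝ᵥ x = ((sq x : ℝ) : ℂ) := by
  unfold sq dotProduct
  push_cast
  refine Finset.sum_congr rfl fun i _ => ?_
  simp only [Pi.star_apply, RCLike.star_def]
  rw [← Complex.normSq_eq_conj_mul_self, Complex.normSq_eq_norm_sq]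
  push_cast
  ring

theorem F1_psd_one_sub (S : Matrix ι ι ℂ) (hS : MB S 1) :
    (1 - S.conjTranspose * S).PosSemidef := by
  refine Matrix.PosSemidef.of_dotProduct_mulVec_nonneg ?_ fun x => ?_
  · unfold Matrix.IsHermitian
    simp [Matrix.conjTranspose_sub, Matrix.conjTranspose_mul]
  · have h1 : star x ⬝ᵥ ((1 - S.conjTranspose * S).mulVec x) =
        ((sq x - sq (S.mulVec x) : ℝ) : ℂ) := by
      rw [Matrix.sub_mulVec, dotProduct_sub, Matrix.one_mulVec, ← Matrix.mulVec_mulVec,
        Matrix.dotProduct_mulVec (star x), ← Matrix.star_mulVec, F1_sq_eq, F1_sq_eq]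
      push_cast
      ring
    rw [h1]
    have h2 := hS x
    exact_mod_cast sub_nonneg.mpr (by linarith)

/-- partial sums of the geometric series -/
noncomputable def F1_V (S : Matrix ι ι ℂ) (a : ℕ) : Matrix ι ι ℂ := ∑ d ∈ range a, S ^ d

theorem F1_V_succ (S : Matrix ι ι ℂ) (a : ℕ) : F1_V S (a + 1) = S * F1_V S a + 1 := by
  unfold F1_V
  rw [Finset.sum_range_succ', Finset.mul_sum, pow_zero]
  simp_rw [← pow_succ']

theorem F1_Q_psd (S : Matrix ι ι ℂ) (hS : MB S 1) (N : ℕ) :
    (∑ a ∈ range N, (F1_V S (a + 1) + (F1_V S (a + 1)).conjTranspose - 1) -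
      (F1_V S N).conjTranspose * F1_V S N).PosSemidef := by
  induction N with
  | zero =>
    have : F1_V S 0 = 0 := by simp [F1_V]
    rw [this]
    simpa using Matrix.PosSemidef.zero (n := ι) (R := ℂ)
  | succ N ih =>
    have h1 := (F1_psd_one_sub S hS).conjTranspose_mul_mul_same (F1_V S N)
    have h2 := ih.add h1
    convert h2 using 1
    rw [Finset.sum_range_succ, F1_V_succ S N]
    simp only [Matrix.conjTranspose_add, Matrix.conjTranspose_mul, Matrix.conjTranspose_one]
    noncomm_ring

theorem F1_Q_psd' (S : Matrix ι ι ℂ) (hS : MB S 1) (N : ℕ) :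
    (∑ a ∈ range N, (F1_V S (a + 1) + (F1_V S (a + 1)).conjTranspose - 1)).PosSemidef := by
  have h := (F1_Q_psd S hS N).add (Matrix.posSemidef_conjTranspose_mul_self (F1_V S N))
  rwa [sub_add_cancel] at h

omit [DecidableEq ι] in
theorem F1_MB_smul (T : Matrix ι ι ℂ) (hT : MB T 1) (c : ℂ) (hc : ‖c‖ = 1) : MB (c • T) 1 := by
  intro x
  have h : sq ((c • T).mulVec x) = sq (T.mulVec x) := by
    unfold sq
    rw [Matrix.smul_mulVec]
    simp [hc]
  rw [h]
  exact hT x

end psd

open scoped ComplexOrder in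
/-- positive operator weights -/
theorem exists_weights {ι : Type*} [Fintype ι] [DecidableEq ι] (T : Matrix ι ι ℂ) (hT : MB T 1)
    (N : ℕ) (hN : 1 ≤ N) :
    ∃ P : ℕ → Matrix ι ι ℂ, (∀ i, (P i).PosSemidef) ∧
      ∀ n < N, ∑ i ∈ range (2 * N), (rt (2 * N) i) ^ n • P i =
        (((1 - (n : ℝ) / N : ℝ)) : ℂ) • T ^ n := by
  set K := 2 * N with hKdef
  have hK : K ≠ 0 := by omega
  set c : ℂ := 1 / ((K : ℂ) * N) with hc
  refine ⟨fun i => c • ∑ a ∈ range N, (F1_V ((starRingEnd ℂ) (rt K i) • T) (a + 1) +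
    (F1_V ((starRingEnd ℂ) (rt K i) • T) (a + 1)).conjTranspose - 1), fun i => ?_, fun n hn => ?_⟩
  · refine (F1_Q_psd' _ (F1_MB_smul T hT _ ?_) N).smul ?_
    · rw [RCLike.norm_conj, norm_rt]
    · have : c = ((1 / ((K : ℝ) * N) : ℝ) : ℂ) := by rw [hc]; push_cast; ring
      rw [this]
      exact_mod_cast (by positivity : (0 : ℝ) ≤ 1 / ((K : ℝ) * N))
  · have hN0 : (N : ℂ) ≠ 0 := by
      have : N ≠ 0 := by omega
      exact_mod_cast this
    have hK0 : (K : ℂ) ≠ 0 := by exact_mod_cast hK
    -- the inner sums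
    have key : ∀ a ∈ range N, ∑ i ∈ range K, rt K i ^ n •
        (F1_V ((starRingEnd ℂ) (rt K i) • T) (a + 1) +
          (F1_V ((starRingEnd ℂ) (rt K i) • T) (a + 1)).conjTranspose - 1) =
        if n ≤ a then (K : ℂ) • T ^ n else 0 := by
      intro a ha
      have haN : a < N := mem_range.mp ha
      have h1 : ∑ i ∈ range K, rt K i ^ n • F1_V ((starRingEnd ℂ) (rt K i) • T) (a + 1) =
          if n ≤ a then (K : ℂ) • T ^ n else 0 := by
        unfold F1_V
        simp_rw [Finset.smul_sum, _root_.smul_pow, smul_smul]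
        rw [Finset.sum_comm]
        simp_rw [← Finset.sum_smul]
        have : ∀ d ∈ range (a + 1), (∑ i ∈ range K, rt K i ^ n * (starRingEnd ℂ) (rt K i) ^ d) •
            T ^ d = if n = d then (K : ℂ) • T ^ n else 0 := by
          intro d hd
          have hd' : d < a + 1 := mem_range.mp hd
          rw [F1_orth K n d hK (by omega) (by omega)]
          split_ifs with h
          · rw [h]
          · simp
        rw [Finset.sum_congr rfl this, Finset.sum_ite_eq]
        simp only [mem_range, Nat.lt_succ_iff]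
      have h2 : ∑ i ∈ range K, rt K i ^ n •
          (F1_V ((starRingEnd ℂ) (rt K i) • T) (a + 1)).conjTranspose =
          if n = 0 then (K : ℂ) • (1 : Matrix ι ι ℂ) else 0 := by
        unfold F1_V
        simp_rw [Matrix.conjTranspose_sum, Finset.smul_sum, _root_.smul_pow,
          Matrix.conjTranspose_smul, star_pow, RCLike.star_def, Complex.conj_conj, smul_smul,
          ← pow_add]
        rw [Finset.sum_comm]
        simp_rw [← Finset.sum_smul]
        rw [Finset.sum_eq_single_of_mem 0 (by simp)]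
        · rw [add_zero, F1_sum_pow K n hK (by omega)]
          split_ifs with h
          · simp
          · simp
        · intro d hd hd0
          have hd' : d < a + 1 := mem_range.mp hd
          rw [F1_sum_pow K (n + d) hK (by omega), if_neg (by omega), zero_smul]
      have h3 : ∑ i ∈ range K, rt K i ^ n • (1 : Matrix ι ι ℂ) =
          if n = 0 then (K : ℂ) • (1 : Matrix ι ι ℂ) else 0 := by
        rw [← Finset.sum_smul, F1_sum_pow K n hK (by omega)]
        split_ifs with h
        · rfl
        · simp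
      simp_rw [smul_sub, smul_add]
      rw [Finset.sum_sub_distrib, Finset.sum_add_distrib, h1, h2, h3, add_sub_cancel_right]
    have h4 : ∑ i ∈ range K, rt K i ^ n • (c • ∑ a ∈ range N,
        (F1_V ((starRingEnd ℂ) (rt K i) • T) (a + 1) +
          (F1_V ((starRingEnd ℂ) (rt K i) • T) (a + 1)).conjTranspose - 1)) =
        c • ∑ a ∈ range N, ∑ i ∈ range K, rt K i ^ n •
        (F1_V ((starRingEnd ℂ) (rt K i) • T) (a + 1) +
          (F1_V ((starRingEnd ℂ) (rt K i) • T) (a + 1)).conjTranspose - 1) := by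
      rw [Finset.sum_comm, Finset.smul_sum]
      refine Finset.sum_congr rfl fun i _ => ?_
      rw [smul_comm, Finset.smul_sum]
    show ∑ i ∈ range K, rt K i ^ n • (c • ∑ a ∈ range N,
        (F1_V ((starRingEnd ℂ) (rt K i) • T) (a + 1) +
          (F1_V ((starRingEnd ℂ) (rt K i) • T) (a + 1)).conjTranspose - 1)) = _
    rw [h4, Finset.sum_congr rfl key, Finset.sum_ite, Finset.sum_const_zero, add_zero,
      Finset.sum_const]
    have hcard : #{x ∈ range N | n ≤ x} = N - n := by
      have : ({x ∈ range N | n ≤ x} : Finset ℕ) = Ico n N := by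
        ext x
        simp only [mem_filter, mem_range, mem_Ico]
        tauto
      rw [this, Nat.card_Ico]
    rw [hcard, ← Nat.cast_smul_eq_nsmul ℂ, smul_smul, smul_smul]
    congr 1
    rw [hc, Nat.cast_sub hn.le]
    push_cast
    field_simp

end PB
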