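import Pool.Agent.Helper89.PB.Defs
import Pool.Agent.Helper89.PB.F1

namespace PB

open Finset Polynomial

open scoped ComplexOrder MatrixOrder in
theorem F2_factor {ι : Type*} [Fintype ι] [DecidableEq ι] (P : Matrix ι ι ℂ)
    (hP : P.PosSemidef) : ∃ S : Matrix ι ι ℂ, P = S.conjTranspose * S := by
  obtain ⟨B, hB⟩ := CStarAlgebra.nonneg_iff_eq_star_mul_self.mp hP.nonneg
  exact ⟨B, hB⟩

theorem F2_form {ι : Type*} [Fintype ι] (S : Matrix ι ι ℂ) (x y : ι → ℂ) :
    dotProduct y ((S.conjTranspose * S).mulVec x) =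
      ∑ t, (starRingEnd ℂ) (S.mulVec (star y) t) * S.mulVec x t := by
  rw [← Matrix.mulVec_mulVec, Matrix.dotProduct_mulVec]
  apply Finset.sum_congr rfl
  intro t _
  congr 1
  rw [Matrix.vecMul, Matrix.mulVec, dotProduct, dotProduct, map_sum]
  apply Finset.sum_congr rfl
  intro i _
  rw [Matrix.conjTranspose_apply, Pi.star_apply, map_mul]
  simp only [Complex.star_def, Complex.conj_conj]
  ring

theorem F2_sq {ι : Type*} [Fintype ι] (S : Matrix ι ι ℂ) (x : ι → ℂ) :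
    ((sq (S.mulVec x) : ℝ) : ℂ) = dotProduct (star x) ((S.conjTranspose * S).mulVec x) := by
  rw [F2_form, sq, star_star, Complex.ofReal_sum]
  apply Finset.sum_congr rfl
  intro t _
  rw [← Complex.normSq_eq_norm_sq, ← Complex.mul_conj]
  ring

theorem F2_sq_star {ι : Type*} [Fintype ι] (y : ι → ℂ) : sq (star y) = sq y := by
  rw [sq, sq]
  apply Finset.sum_congr rfl
  intro t _
  rw [Pi.star_apply, norm_star]

theorem F2_sq_nonneg {ι : Type*} [Fintype ι] (y : ι → ℂ) : 0 ≤ sq y :=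
  Finset.sum_nonneg fun _ _ => by positivity

theorem F2_one {ι α β : Type*} [Fintype ι] [DecidableEq ι] [Fintype α] [Fintype β]
    (F : α → β → ℂ) (κ : ℝ)
    (hF : ∀ (x : β → ℂ) (y : α → ℂ),
      ‖∑ a, ∑ b, y a * F a b * x b‖ ≤ κ * Real.sqrt (sq x) * Real.sqrt (sq y)) (hκ : 0 ≤ κ)
    (S : Matrix ι ι ℂ) (x : β → ι → ℂ) (y : α → ι → ℂ) :
    ‖∑ a, ∑ b, F a b * dotProduct (y a) ((S.conjTranspose * S).mulVec (x b))‖ ≤
      κ * (Real.sqrt (∑ b, sq (S.mulVec (x b))) * Real.sqrt (∑ a, sq (S.mulVec (star (y a))))) := by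
  have h1 : ∑ a, ∑ b, F a b * dotProduct (y a) ((S.conjTranspose * S).mulVec (x b)) =
      ∑ t, ∑ a, ∑ b, (starRingEnd ℂ) (S.mulVec (star (y a)) t) * F a b * S.mulVec (x b) t := by
    rw [Finset.sum_comm (γ := ι)]
    apply Finset.sum_congr rfl
    intro a _
    rw [Finset.sum_comm (γ := ι)]
    apply Finset.sum_congr rfl
    intro b _
    rw [F2_form, Finset.mul_sum]
    apply Finset.sum_congr rfl
    intro t _
    ring
  rw [h1]
  have h2 : ∀ t : ι, ‖∑ a, ∑ b, (starRingEnd ℂ) (S.mulVec (star (y a)) t) * F a b *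
      S.mulVec (x b) t‖ ≤ κ * (Real.sqrt (∑ b, ‖S.mulVec (x b) t‖ ^ 2) *
        Real.sqrt (∑ a, ‖S.mulVec (star (y a)) t‖ ^ 2)) := by
    intro t
    have h3 := hF (fun b => S.mulVec (x b) t) (fun a => (starRingEnd ℂ) (S.mulVec (star (y a)) t))
    refine h3.trans (le_of_eq ?_)
    rw [mul_assoc, sq, sq]
    simp only [RCLike.norm_conj]
  calc ‖∑ t, ∑ a, ∑ b, (starRingEnd ℂ) (S.mulVec (star (y a)) t) * F a b * S.mulVec (x b) t‖
      ≤ ∑ t, κ * (Real.sqrt (∑ b, ‖S.mulVec (x b) t‖ ^ 2) *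
        Real.sqrt (∑ a, ‖S.mulVec (star (y a)) t‖ ^ 2)) :=
        (norm_sum_le _ _).trans (Finset.sum_le_sum fun t _ => h2 t)
    _ = κ * ∑ t, (Real.sqrt (∑ b, ‖S.mulVec (x b) t‖ ^ 2) *
        Real.sqrt (∑ a, ‖S.mulVec (star (y a)) t‖ ^ 2)) := by rw [Finset.mul_sum]
    _ ≤ κ * (Real.sqrt (∑ t, ∑ b, ‖S.mulVec (x b) t‖ ^ 2) *
        Real.sqrt (∑ t, ∑ a, ‖S.mulVec (star (y a)) t‖ ^ 2)) := by
        apply mul_le_mul_of_nonneg_left _ hκ
        exact Real.sum_sqrt_mul_sqrt_le _ (fun t => Finset.sum_nonneg fun _ _ => by positivity)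
          (fun t => Finset.sum_nonneg fun _ _ => by positivity)
    _ = _ := by
        rw [Finset.sum_comm (s := (univ : Finset ι)) (t := (univ : Finset β)),
          Finset.sum_comm (s := (univ : Finset ι)) (t := (univ : Finset α))]
        rfl

theorem F2_sum_sq {ι : Type*} [Fintype ι] [DecidableEq ι] (I : Finset ℕ)
    (S : ℕ → Matrix ι ι ℂ) (h : ∑ i ∈ I, (S i).conjTranspose * S i = 1) (x : ι → ℂ) :
    ∑ i ∈ I, sq ((S i).mulVec x) = sq x := by
  have h1 : ((∑ i ∈ I, sq ((S i).mulVec x) : ℝ) : ℂ) = ((sq x : ℝ) : ℂ) := by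
    rw [Complex.ofReal_sum, Finset.sum_congr rfl (fun i _ => F2_sq (S i) x), ← dotProduct_sum,
      ← Matrix.sum_mulVec, h, Matrix.one_mulVec]
    have h2 := F2_sq (1 : Matrix ι ι ℂ) x
    rw [Matrix.one_mulVec, Matrix.conjTranspose_one, one_mul, Matrix.one_mulVec] at h2
    exact h2.symm
  exact_mod_cast h1

theorem F2_bound {ι α β : Type*} [Fintype ι] [DecidableEq ι] [Fintype α] [Fintype β]
    (T : Matrix ι ι ℂ) (hT : MB T 1) (F : α → β → ℂ[X]) (κ : ℝ) (hκ : 0 ≤ κ)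
    (hF : ∀ z : ℂ, ‖z‖ = 1 → ∀ (x : β → ℂ) (y : α → ℂ),
      ‖∑ a, ∑ b, y a * (F a b).eval z * x b‖ ≤ κ * Real.sqrt (sq x) * Real.sqrt (sq y))
    (x : β → ι → ℂ) (y : α → ι → ℂ) (D N : ℕ) (hD : ∀ a b, (F a b).natDegree < D)
    (hN : 1 ≤ N) (hDN : D ≤ N) :
    ‖∑ a, ∑ b, ∑ n ∈ range D, (F a b).coeff n *
      ((((1 - (n : ℝ) / N : ℝ)) : ℂ) * dotProduct (y a) ((T ^ n).mulVec (x b)))‖ ≤
      κ * (Real.sqrt (∑ b, sq (x b)) * Real.sqrt (∑ a, sq (y a))) := by
  obtain ⟨P, hP, hsum⟩ := exists_weights T hT N hN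
  choose S hS using fun i => F2_factor (P i) (hP i)
  have hone : ∑ i ∈ range (2 * N), (S i).conjTranspose * S i = 1 := by
    have h0 := hsum 0 (by omega)
    simp only [pow_zero, one_smul, Nat.cast_zero, zero_div, sub_zero, Complex.ofReal_one] at h0
    rw [← h0]
    exact Finset.sum_congr rfl fun i _ => (hS i).symm
  have e1 : ∑ a, ∑ b, ∑ n ∈ range D, (F a b).coeff n *
      ((((1 - (n : ℝ) / N : ℝ)) : ℂ) * dotProduct (y a) ((T ^ n).mulVec (x b))) =
      ∑ i ∈ range (2 * N), ∑ a, ∑ b, (F a b).eval (rt (2 * N) i) *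
        dotProduct (y a) (((S i).conjTranspose * S i).mulVec (x b)) := by
    rw [Finset.sum_comm (s := range (2 * N))]
    apply Finset.sum_congr rfl
    intro a _
    rw [Finset.sum_comm (s := range (2 * N))]
    apply Finset.sum_congr rfl
    intro b _
    have e2 : ∀ i, (F a b).eval (rt (2 * N) i) = ∑ n ∈ range D, (F a b).coeff n *
        (rt (2 * N) i) ^ n := fun i => eval_eq_sum_range' (hD a b) _
    have e3 : ∀ n ∈ range D, (((1 - (n : ℝ) / N : ℝ)) : ℂ) *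
        dotProduct (y a) ((T ^ n).mulVec (x b)) = ∑ i ∈ range (2 * N), (rt (2 * N) i) ^ n *
          dotProduct (y a) (((S i).conjTranspose * S i).mulVec (x b)) := by
      intro n hn
      rw [mem_range] at hn
      have h1 := hsum n (by omega)
      have h2 : (((1 - (n : ℝ) / N : ℝ)) : ℂ) * dotProduct (y a) ((T ^ n).mulVec (x b)) =
          dotProduct (y a) (((((1 - (n : ℝ) / N : ℝ)) : ℂ) • T ^ n).mulVec (x b)) := by
        rw [Matrix.smul_mulVec, dotProduct_smul, smul_eq_mul]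
      rw [h2, ← h1, Matrix.sum_mulVec, dotProduct_sum]
      apply Finset.sum_congr rfl
      intro i _
      rw [Matrix.smul_mulVec, dotProduct_smul, smul_eq_mul, ← hS i]
    rw [Finset.sum_congr rfl fun n hn => by rw [e3 n hn]]
    simp only [e2, Finset.mul_sum, Finset.sum_mul]
    rw [Finset.sum_comm]
    apply Finset.sum_congr rfl
    intro i _
    apply Finset.sum_congr rfl
    intro n _
    ring
  rw [e1]
  have h4 : ∀ i ∈ range (2 * N), ‖∑ a, ∑ b, (F a b).eval (rt (2 * N) i) *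
        dotProduct (y a) (((S i).conjTranspose * S i).mulVec (x b))‖ ≤
      κ * (Real.sqrt (∑ b, sq ((S i).mulVec (x b))) *
        Real.sqrt (∑ a, sq ((S i).mulVec (star (y a))))) := by
    intro i _
    exact F2_one _ κ (fun x' y' => hF _ (norm_rt _ _) x' y') hκ (S i) x y
  refine (norm_sum_le _ _).trans ((Finset.sum_le_sum h4).trans ?_)
  rw [← Finset.mul_sum]
  apply mul_le_mul_of_nonneg_left _ hκ
  refine (Real.sum_sqrt_mul_sqrt_le _ (fun i => Finset.sum_nonneg fun _ _ => F2_sq_nonneg _)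
    (fun i => Finset.sum_nonneg fun _ _ => F2_sq_nonneg _)).trans (le_of_eq ?_)
  rw [Finset.sum_comm (s := range (2 * N)) (t := (univ : Finset β)),
    Finset.sum_comm (s := range (2 * N)) (t := (univ : Finset α))]
  congr 2
  · exact Finset.sum_congr rfl fun b _ => F2_sum_sq _ S hone (x b)
  · exact Finset.sum_congr rfl fun a _ => by rw [F2_sum_sq _ S hone, F2_sq_star]

/-- matrix valued von Neumann inequality -/
theorem vonNeumann {ι α β : Type*} [Fintype ι] [DecidableEq ι] [Fintype α] [Fintype β]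
    (T : Matrix ι ι ℂ) (hT : MB T 1) (F : α → β → ℂ[X]) (κ : ℝ) (hκ : 0 ≤ κ)
    (hF : ∀ z : ℂ, ‖z‖ = 1 → ∀ (x : β → ℂ) (y : α → ℂ),
      ‖∑ a, ∑ b, y a * (F a b).eval z * x b‖ ≤ κ * Real.sqrt (sq x) * Real.sqrt (sq y))
    (x : β → ι → ℂ) (y : α → ι → ℂ) :
    ‖∑ a, ∑ b, dotProduct (y a) ((aeval T (F a b)).mulVec (x b))‖ ≤
      κ * Real.sqrt (∑ b, sq (x b)) * Real.sqrt (∑ a, sq (y a)) := by
  obtain ⟨D, hD⟩ : ∃ D : ℕ, ∀ a b, (F a b).natDegree < D := by
    refine ⟨(∑ a, ∑ b, (F a b).natDegree) + 1, fun a b => ?_⟩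
    rw [Nat.lt_succ_iff]
    calc (F a b).natDegree ≤ ∑ b, (F a b).natDegree :=
          Finset.single_le_sum (f := fun b => (F a b).natDegree) (fun _ _ => Nat.zero_le _)
            (mem_univ b)
      _ ≤ _ := Finset.single_le_sum (f := fun a => ∑ b, (F a b).natDegree)
            (fun _ _ => Nat.zero_le _) (mem_univ a)
  set A : ℂ := ∑ a, ∑ b, dotProduct (y a) ((aeval T (F a b)).mulVec (x b)) with hA
  set B : ℂ := ∑ a, ∑ b, ∑ n ∈ range D, (F a b).coeff n *
    ((n : ℂ) * dotProduct (y a) ((T ^ n).mulVec (x b))) with hB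
  have hA' : A = ∑ a, ∑ b, ∑ n ∈ range D, (F a b).coeff n *
      dotProduct (y a) ((T ^ n).mulVec (x b)) := by
    rw [hA]
    apply Finset.sum_congr rfl
    intro a _
    apply Finset.sum_congr rfl
    intro b _
    rw [aeval_eq_sum_range' (hD a b), Matrix.sum_mulVec, dotProduct_sum]
    apply Finset.sum_congr rfl
    intro n _
    rw [Matrix.smul_mulVec, dotProduct_smul, smul_eq_mul]
  set K := κ * (Real.sqrt (∑ b, sq (x b)) * Real.sqrt (∑ a, sq (y a))) with hK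
  have hbound : ∀ N : ℕ, D + 1 ≤ N → ‖A‖ ≤ K + ‖B‖ * (1 / (N : ℝ)) := by
    intro N hN
    have h1 := F2_bound T hT F κ hκ hF x y D N hD (by omega) (by omega)
    have hN0 : (N : ℂ) ≠ 0 := by
      have : N ≠ 0 := by omega
      exact_mod_cast this
    have h2 : ∑ a, ∑ b, ∑ n ∈ range D, (F a b).coeff n *
        ((((1 - (n : ℝ) / N : ℝ)) : ℂ) * dotProduct (y a) ((T ^ n).mulVec (x b))) =
        A - B * (1 / (N : ℂ)) := by
      rw [hA', hB]
      simp only [Finset.sum_mul]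
      simp only [← Finset.sum_sub_distrib]
      apply Finset.sum_congr rfl
      intro a _
      apply Finset.sum_congr rfl
      intro b _
      apply Finset.sum_congr rfl
      intro n _
      push_cast
      ring
    rw [h2] at h1
    have h3 : A = (A - B * (1 / (N : ℂ))) + B * (1 / (N : ℂ)) := by ring
    calc ‖A‖ = ‖(A - B * (1 / (N : ℂ))) + B * (1 / (N : ℂ))‖ := by rw [← h3]
      _ ≤ ‖A - B * (1 / (N : ℂ))‖ + ‖B * (1 / (N : ℂ))‖ := norm_add_le _ _
      _ ≤ K + ‖B‖ * (1 / (N : ℝ)) := by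
          apply add_le_add h1 (le_of_eq _)
          rw [norm_mul, norm_div, norm_one, Complex.norm_natCast]
  have hlim : Filter.Tendsto (fun N : ℕ => K + ‖B‖ * (1 / (N : ℝ))) Filter.atTop
      (nhds (K + ‖B‖ * 0)) :=
    tendsto_const_nhds.add (tendsto_const_nhds.mul tendsto_one_div_atTop_nhds_zero_nat)
  have hfin : ‖A‖ ≤ K + ‖B‖ * 0 :=
    ge_of_tendsto hlim (Filter.eventually_atTop.2 ⟨D + 1, fun N hN => hbound N hN⟩)
  rw [mul_zero, add_zero, hK, ← mul_assoc] at hfin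
  exact hfin

end PB
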