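import Pool.Agent.Helper89.PB.Defs

namespace PB

open Finset Polynomial

theorem F3_conj {ι : Type*} [Fintype ι] [DecidableEq ι] (P M L : Matrix ι ι ℂ) (h : L * P = 1)
    (h' : P * L = 1) (q : ℂ[X]) : aeval (P * M * L) q = P * aeval M q * L := by
  induction q using Polynomial.induction_on' with
  | add p q hp hq => rw [map_add, map_add, hp, hq, Matrix.mul_add, Matrix.add_mul]
  | monomial n a =>
    rw [← C_mul_X_pow_eq_monomial, map_mul, map_mul, aeval_C, map_pow, aeval_X, map_pow, aeval_X,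
      aeval_C]
    have hp : ∀ n : ℕ, (P * M * L) ^ n = P * M ^ n * L := by
      intro n
      induction n with
      | zero => rw [pow_zero, pow_zero, Matrix.mul_one, h']
      | succ n ih =>
        rw [pow_succ, ih, pow_succ]
        calc P * M ^ n * L * (P * M * L) = P * M ^ n * (L * P) * M * L := by
              simp only [Matrix.mul_assoc]
          _ = P * (M ^ n * M) * L := by rw [h, Matrix.mul_one]; simp only [Matrix.mul_assoc]
    rw [hp, Algebra.algebraMap_eq_smul_one]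
    simp only [Matrix.smul_mul, Matrix.mul_smul, Matrix.one_mul]

theorem F3_diag {ι κ : Type*} [Fintype ι] [DecidableEq ι] [Fintype κ] [DecidableEq κ]
    (A : Matrix ι ι ℂ) (B : Matrix κ κ ℂ) (q : ℂ[X]) :
    aeval (Matrix.fromBlocks A 0 0 B) q = Matrix.fromBlocks (aeval A q) 0 0 (aeval B q) := by
  induction q using Polynomial.induction_on' with
  | add p q hp hq => rw [map_add, map_add, map_add, hp, hq, Matrix.fromBlocks_add]; simp
  | monomial n a =>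
    rw [← C_mul_X_pow_eq_monomial]
    simp only [map_mul, map_pow, aeval_X, aeval_C, Algebra.algebraMap_eq_smul_one,
      Matrix.smul_mul, Matrix.one_mul, Matrix.fromBlocks_diagonal_pow, Matrix.fromBlocks_smul,
      smul_zero]

/-- block functional calculus -/
theorem block {ι₁ ι₂ ι₃ : Type*} [Fintype ι₁] [Fintype ι₂] [Fintype ι₃] [DecidableEq ι₁]
    [DecidableEq ι₂] [DecidableEq ι₃] (T₁ : Matrix ι₁ ι₁ ℂ) (D : Matrix ι₂ ι₂ ℂ)
    (T₃ : Matrix ι₃ ι₃ ℂ) (W : Matrix ι₂ ι₁ ℂ) (V : Matrix ι₃ ι₂ ℂ) (s : ℝ) :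
    ∃ T : Matrix (ι₁ ⊕ (ι₂ ⊕ ι₃)) (ι₁ ⊕ (ι₂ ⊕ ι₃)) ℂ, ∀ q : ℂ[X],
      aeval T q = Matrix.fromBlocks (aeval T₁ q) 0
        (Matrix.fromRows ((s : ℂ) • (aeval D q * W - W * aeval T₁ q))
          ((s : ℂ) ^ 2 • (V * aeval D q * W - aeval T₃ q * V * W)))
        (Matrix.fromBlocks (aeval D q) 0 ((s : ℂ) • (V * aeval D q - aeval T₃ q * V))
          (aeval T₃ q)) := by
  set P : Matrix (ι₁ ⊕ (ι₂ ⊕ ι₃)) (ι₁ ⊕ (ι₂ ⊕ ι₃)) ℂ :=
    Matrix.fromBlocks 1 0 (Matrix.fromRows (-((s : ℂ) • W)) 0)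
      (Matrix.fromBlocks 1 0 ((s : ℂ) • V) 1) with hP
  set L : Matrix (ι₁ ⊕ (ι₂ ⊕ ι₃)) (ι₁ ⊕ (ι₂ ⊕ ι₃)) ℂ :=
    Matrix.fromBlocks 1 0 (Matrix.fromRows ((s : ℂ) • W) (-((s : ℂ) ^ 2 • (V * W))))
      (Matrix.fromBlocks 1 0 (-((s : ℂ) • V)) 1) with hL
  have h' : P * L = 1 := by
    rw [hP, hL, Matrix.fromBlocks_multiply, ← Matrix.fromBlocks_one]
    congr 1
    · simp
    · simp
    · rw [Matrix.mul_one, Matrix.fromBlocks_mul_fromRows]
      ext i j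
      rcases i with i | i
      · simp
      · simp [pow_two, smul_smul]
    · rw [Matrix.mul_zero, zero_add, Matrix.fromBlocks_multiply, ← Matrix.fromBlocks_one]
      simp
  have h : L * P = 1 := mul_eq_one_comm.mp h'
  refine ⟨P * Matrix.fromBlocks T₁ 0 0 (Matrix.fromBlocks D 0 0 T₃) * L, fun q => ?_⟩
  rw [F3_conj _ _ _ h h', F3_diag, F3_diag, hP, hL, Matrix.fromBlocks_multiply,
    Matrix.fromBlocks_multiply]
  congr 1
  · simp
  · simp
  · rw [Matrix.mul_zero, Matrix.mul_zero, add_zero, zero_add, Matrix.mul_one,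
      Matrix.fromBlocks_multiply, Matrix.fromRows_mul, Matrix.fromBlocks_mul_fromRows]
    ext i j
    rcases i with i | i
    · simp [smul_sub]
      ring
    · simp [smul_sub, Matrix.mul_assoc, pow_two, smul_smul]
      ring
  · simp [Matrix.fromBlocks_multiply, sub_eq_add_neg]

theorem F3_sqrt {ι : Type*} [Fintype ι] (x : ι → ℂ) :
    ‖(WithLp.toLp 2 x : EuclideanSpace ℂ ι)‖ = Real.sqrt (sq x) := by
  rw [EuclideanSpace.norm_eq]
  rfl

theorem F3_nonneg {ι : Type*} [Fintype ι] (x : ι → ℂ) : 0 ≤ sq x :=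
  Finset.sum_nonneg fun _ _ => by positivity

theorem F3_tri {ι : Type*} [Fintype ι] (x y z : ι → ℂ) (S a b c : ℝ) (hS : 0 ≤ S) (ha : 0 ≤ a)
    (hb : 0 ≤ b) (hc : 0 ≤ c) (hx : sq x ≤ a ^ 2 * S) (hy : sq y ≤ b ^ 2 * S)
    (hz : sq z ≤ c ^ 2 * S) : sq (x + y + z) ≤ (a + b + c) ^ 2 * S := by
  have key : ∀ (t : ι → ℂ) (r : ℝ), 0 ≤ r → sq t ≤ r ^ 2 * S →
      ‖(WithLp.toLp 2 t : EuclideanSpace ℂ ι)‖ ≤ r * Real.sqrt S := by
    intro t r hr h
    rw [F3_sqrt, Real.sqrt_le_left (by positivity), mul_pow, Real.sq_sqrt hS]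
    exact h
  have h1 : ‖(WithLp.toLp 2 (x + y + z) : EuclideanSpace ℂ ι)‖ ≤ (a + b + c) * Real.sqrt S := by
    have e : (WithLp.toLp 2 (x + y + z) : EuclideanSpace ℂ ι) =
      WithLp.toLp 2 x + WithLp.toLp 2 y + WithLp.toLp 2 z := rfl
    rw [e]
    calc _ ≤ ‖(WithLp.toLp 2 x + WithLp.toLp 2 y : EuclideanSpace ℂ ι)‖ +
          ‖(WithLp.toLp 2 z : EuclideanSpace ℂ ι)‖ := norm_add_le _ _
      _ ≤ ‖(WithLp.toLp 2 x : EuclideanSpace ℂ ι)‖ + ‖(WithLp.toLp 2 y : EuclideanSpace ℂ ι)‖ +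
          ‖(WithLp.toLp 2 z : EuclideanSpace ℂ ι)‖ := by
            have := norm_add_le (WithLp.toLp 2 x : EuclideanSpace ℂ ι) (WithLp.toLp 2 y)
            linarith
      _ ≤ a * Real.sqrt S + b * Real.sqrt S + c * Real.sqrt S := by
            have h1 := key x a ha hx
            have h2 := key y b hb hy
            have h3 := key z c hc hz
            linarith
      _ = (a + b + c) * Real.sqrt S := by ring
  rw [F3_sqrt, Real.sqrt_le_left (by positivity), mul_pow, Real.sq_sqrt hS] at h1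
  exact h1

theorem F3_sum {ι κ : Type*} [Fintype ι] [Fintype κ] (x : ι ⊕ κ → ℂ) :
    sq x = sq (fun i => x (Sum.inl i)) + sq (fun i => x (Sum.inr i)) := by
  unfold sq
  rw [Fintype.sum_sum_type]

theorem F3_smul {ι : Type*} [Fintype ι] (c : ℂ) (x : ι → ℂ) : sq (c • x) = ‖c‖ ^ 2 * sq x := by
  unfold sq
  rw [Finset.mul_sum]
  refine Finset.sum_congr rfl fun i _ => ?_
  rw [Pi.smul_apply, smul_eq_mul, norm_mul, mul_pow]

/-- norms of blocks -/
theorem block_norm {ι₁ ι₂ ι₃ : Type*} [Fintype ι₁] [Fintype ι₂] [Fintype ι₃]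
    (A₁ : Matrix ι₁ ι₁ ℂ) (A₂ : Matrix ι₂ ι₂ ℂ) (A₃ : Matrix ι₃ ι₃ ℂ) (X : Matrix ι₂ ι₁ ℂ)
    (Y : Matrix ι₃ ι₂ ℂ) (Z : Matrix ι₃ ι₁ ℂ) (a b s : ℝ) (ha : 0 ≤ a) (hb : 0 ≤ b) (hs : 0 ≤ s)
    (h1 : MB A₁ 1) (h2 : MB A₂ 1) (h3 : MB A₃ 1) (hX : MB X a) (hY : MB Y a) (hZ : MB Z b) :
    MB (Matrix.fromBlocks A₁ 0 (Matrix.fromRows ((s : ℂ) • X) ((s : ℂ) ^ 2 • Z))
        (Matrix.fromBlocks A₂ 0 ((s : ℂ) • Y) A₃)) (1 + s * a + s ^ 2 * b) := by
  intro x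
  set x1 : ι₁ → ℂ := fun i => x (Sum.inl i) with hx1
  set x2 : ι₂ → ℂ := fun i => x (Sum.inr (Sum.inl i)) with hx2
  set x3 : ι₃ → ℂ := fun i => x (Sum.inr (Sum.inr i)) with hx3
  have hx : sq x = sq x1 + (sq x2 + sq x3) := by rw [F3_sum, F3_sum (fun i => x (Sum.inr i))]
  have hsum : (Matrix.fromBlocks A₁ 0 (Matrix.fromRows ((s : ℂ) • X) ((s : ℂ) ^ 2 • Z))
        (Matrix.fromBlocks A₂ 0 ((s : ℂ) • Y) A₃)).mulVec x =
      Sum.elim (A₁.mulVec x1) (Sum.elim (A₂.mulVec x2) (A₃.mulVec x3)) +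
      Sum.elim (0 : ι₁ → ℂ) (Sum.elim ((s : ℂ) • X.mulVec x1) ((s : ℂ) • Y.mulVec x2)) +
      Sum.elim (0 : ι₁ → ℂ) (Sum.elim (0 : ι₂ → ℂ) ((s : ℂ) ^ 2 • Z.mulVec x1)) := by
    have e : x = Sum.elim x1 (Sum.elim x2 x3) := by
      ext i
      rcases i with i | i | i <;> rfl
    rw [e, Matrix.fromBlocks_mulVec]
    ext i
    rcases i with i | i | i
    · simp
    · simp [Matrix.fromRows_mulVec, Matrix.fromBlocks_mulVec, Matrix.smul_mulVec]
      ring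
    · simp [Matrix.fromRows_mulVec, Matrix.fromBlocks_mulVec, Matrix.smul_mulVec]
      ring
  rw [hsum]
  have n1 := F3_nonneg x1
  have n2 := F3_nonneg x2
  have n3 := F3_nonneg x3
  refine F3_tri _ _ _ (sq x) 1 (s * a) (s ^ 2 * b) (F3_nonneg _) zero_le_one (by positivity)
    (by positivity) ?_ ?_ ?_
  · have g1 := h1 x1
    have g2 := h2 x2
    have g3 := h3 x3
    rw [F3_sum, F3_sum]
    simp only [Sum.elim_inl, Sum.elim_inr, hx]
    nlinarith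
  · have g1 := hX x1
    have g2 := hY x2
    rw [F3_sum, F3_sum]
    simp only [Sum.elim_inl, Sum.elim_inr, hx]
    have z : sq (fun i : ι₁ => (0 : ι₁ → ℂ) i) = 0 := by simp [sq]
    have e1 : sq (fun i => ((s : ℂ) • X.mulVec x1) i) = s ^ 2 * sq (X.mulVec x1) := by
      have := F3_smul (s : ℂ) (X.mulVec x1)
      rw [Complex.norm_real, Real.norm_eq_abs, sq_abs] at this
      exact this
    have e2 : sq (fun i => ((s : ℂ) • Y.mulVec x2) i) = s ^ 2 * sq (Y.mulVec x2) := by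
      have := F3_smul (s : ℂ) (Y.mulVec x2)
      rw [Complex.norm_real, Real.norm_eq_abs, sq_abs] at this
      exact this
    rw [z, e1, e2]
    have m1 := mul_le_mul_of_nonneg_left g1 (sq_nonneg s)
    have m2 := mul_le_mul_of_nonneg_left g2 (sq_nonneg s)
    have m3 : 0 ≤ (s * a) ^ 2 * sq x3 := by positivity
    nlinarith
  · have g1 := hZ x1
    rw [F3_sum, F3_sum]
    simp only [Sum.elim_inl, Sum.elim_inr, hx]
    have z : sq (fun i : ι₁ => (0 : ι₁ → ℂ) i) = 0 := by simp [sq]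
    have z2 : sq (fun i : ι₂ => (0 : ι₂ → ℂ) i) = 0 := by simp [sq]
    have e1 : sq (fun i => ((s : ℂ) ^ 2 • Z.mulVec x1) i) = (s ^ 2) ^ 2 * sq (Z.mulVec x1) := by
      have := F3_smul ((s : ℂ) ^ 2) (Z.mulVec x1)
      rw [norm_pow, Complex.norm_real, Real.norm_eq_abs, sq_abs] at this
      exact this
    rw [z, z2, e1]
    have m1 := mul_le_mul_of_nonneg_left g1 (sq_nonneg (s ^ 2))
    have m2 : 0 ≤ (s ^ 2 * b) ^ 2 * sq x2 := by positivity
    have m3 : 0 ≤ (s ^ 2 * b) ^ 2 * sq x3 := by positivity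
    nlinarith

end PB
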