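import Pool.Agent.Helper89.PB.Defs
import Pool.Agent.Helper89.PB.R0
import Pool.Agent.Helper89.PB.A2

namespace PB

open Finset Polynomial

theorem A5_parseval_one (q : ℂ[X]) (A : ℕ) (hA : q.natDegree < A) :
    ∑ i ∈ range A, ‖q.eval (rt A i)‖ ^ 2 = A * nsq q := by
  have h := parseval A (by omega) q hA 1
  simp only [one_mul, norm_one, one_pow] at h
  rw [h]
  congr 1
  unfold nsq
  symm
  refine sum_subset (fun n hn => ?_) (fun n _ hn => ?_)
  · rw [mem_range] at hn ⊢; omega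
  · rw [mem_range, not_lt] at hn
    rw [coeff_eq_zero_of_natDegree_lt (by omega)]
    simp

/-- PB-5 -/
theorem nsq_mul_le (f q : ℂ[X]) (hf : Bdd1 f) : nsq (f * q) ≤ nsq q := by
  obtain ⟨A, hA⟩ : ∃ A, A = (f * q).natDegree + q.natDegree + 1 := ⟨_, rfl⟩
  have h1 := A5_parseval_one (f * q) A (by omega)
  have h2 := A5_parseval_one q A (by omega)
  have hApos : (0 : ℝ) < A := by
    have : 0 < A := by omega
    exact_mod_cast this
  have h3 : ∑ i ∈ range A, ‖(f * q).eval (rt A i)‖ ^ 2 ≤ ∑ i ∈ range A, ‖q.eval (rt A i)‖ ^ 2 := by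
    refine sum_le_sum (fun i _ => ?_)
    rw [eval_mul, norm_mul, mul_pow]
    have h4 : ‖f.eval (rt A i)‖ ≤ 1 := hf _ (le_of_eq (norm_rt A i))
    have h5 : ‖f.eval (rt A i)‖ ^ 2 ≤ 1 := pow_le_one₀ (norm_nonneg _) h4
    nlinarith [sq_nonneg ‖q.eval (rt A i)‖]
  rw [h1, h2] at h3
  exact le_of_mul_le_mul_left h3 hApos

end PB
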