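import Pool.Agent.Helper89.PB.Defs

namespace PB

open Finset Polynomial

private lemma F0_sq_nonneg {ι : Type*} [Fintype ι] (x : ι → ℂ) : 0 ≤ sq x :=
  Finset.sum_nonneg (fun _ _ => by positivity)

private lemma F0_cs {ι : Type*} [Fintype ι] (y z : ι → ℂ) :
    ‖dotProduct y z‖ ≤ Real.sqrt (sq y) * Real.sqrt (sq z) := by
  unfold dotProduct sq
  calc ‖∑ i, y i * z i‖ ≤ ∑ i, ‖y i * z i‖ := norm_sum_le _ _
    _ = ∑ i, ‖y i‖ * ‖z i‖ := Finset.sum_congr rfl (fun i _ => norm_mul _ _)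
    _ ≤ _ := Real.sum_mul_le_sqrt_mul_sqrt _ _ _

theorem MB_iff {ι κ : Type*} [Fintype ι] [Fintype κ] (A : Matrix ι κ ℂ) (c : ℝ) (hc : 0 ≤ c) :
    MB A c ↔ ∀ (x : κ → ℂ) (y : ι → ℂ),
      ‖dotProduct y (A.mulVec x)‖ ≤ c * Real.sqrt (sq x) * Real.sqrt (sq y) := by
  constructor
  · intro h x y
    refine (F0_cs y (A.mulVec x)).trans ?_
    have h1 : Real.sqrt (sq (A.mulVec x)) ≤ c * Real.sqrt (sq x) := by
      rw [← Real.sqrt_sq hc, ← Real.sqrt_mul (sq_nonneg c)]
      exact Real.sqrt_le_sqrt (h x)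
    have h2 := Real.sqrt_nonneg (sq y)
    nlinarith
  · intro h x
    have h1 := h x (fun i => (starRingEnd ℂ) (A.mulVec x i))
    have e1 : dotProduct (fun i => (starRingEnd ℂ) (A.mulVec x i)) (A.mulVec x) =
        ((sq (A.mulVec x) : ℝ) : ℂ) := by
      unfold dotProduct sq
      push_cast
      refine Finset.sum_congr rfl (fun i _ => ?_)
      rw [Complex.conj_mul']
    have e2 : sq (fun i => (starRingEnd ℂ) (A.mulVec x i)) = sq (A.mulVec x) := by
      unfold sq
      refine Finset.sum_congr rfl (fun i _ => ?_)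
      rw [Complex.norm_conj]
    have h0 := F0_sq_nonneg (A.mulVec x)
    rw [e1, e2, Complex.norm_real, Real.norm_of_nonneg h0] at h1
    have h2 : Real.sqrt (sq (A.mulVec x)) * Real.sqrt (sq (A.mulVec x)) = sq (A.mulVec x) :=
      Real.mul_self_sqrt h0
    have h3 : Real.sqrt (sq x) * Real.sqrt (sq x) = sq x := Real.mul_self_sqrt (F0_sq_nonneg x)
    have h4 := Real.sqrt_nonneg (sq (A.mulVec x))
    have h5 := Real.sqrt_nonneg (sq x)
    rcases eq_or_lt_of_le h4 with h6 | h6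
    · rw [← h2, ← h6]
      have := F0_sq_nonneg x
      simp only [mul_zero]
      positivity
    · have h7 : Real.sqrt (sq (A.mulVec x)) ≤ c * Real.sqrt (sq x) := by
        by_contra h8
        push Not at h8
        nlinarith
      calc sq (A.mulVec x) = Real.sqrt (sq (A.mulVec x)) * Real.sqrt (sq (A.mulVec x)) := h2.symm
        _ ≤ (c * Real.sqrt (sq x)) * (c * Real.sqrt (sq x)) :=
          mul_le_mul h7 h7 h4 (mul_nonneg hc h5)
        _ = c ^ 2 * (Real.sqrt (sq x) * Real.sqrt (sq x)) := by ring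
        _ = c ^ 2 * sq x := by rw [h3]

theorem MB_transpose {ι κ : Type*} [Fintype ι] [Fintype κ] (A : Matrix ι κ ℂ) (c : ℝ) (hc : 0 ≤ c)
    (h : MB A c) : MB A.transpose c := by
  rw [MB_iff _ _ hc] at h ⊢
  intro x y
  have h1 := h y x
  have e1 : dotProduct y (A.transpose.mulVec x) = dotProduct x (A.mulVec y) := by
    rw [Matrix.mulVec_transpose, Matrix.dotProduct_mulVec, dotProduct_comm]
  rw [e1]
  calc _ ≤ c * Real.sqrt (sq y) * Real.sqrt (sq x) := h1
    _ = c * Real.sqrt (sq x) * Real.sqrt (sq y) := by ring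

end PB
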