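import Pool.Agent.Helper89.PB.Defs
import Pool.Agent.Helper89.PB.A5
import Pool.Agent.Helper89.PB.F0

namespace PB

open Finset Polynomial

theorem F4_coeff_pol {N : ℕ} {α : Type*} (v : Fin N × α → ℂ) (a : α) (n : Fin N) :
    (pol v a).coeff n = v (n, a) := by
  unfold pol
  rw [Polynomial.finsetSum_coeff, Finset.sum_eq_single n]
  · simp
  · intro k _ hk
    rw [Polynomial.coeff_C_mul_X_pow, if_neg]
    intro h
    exact hk (Fin.ext h.symm)
  · intro h
    exact absurd (Finset.mem_univ _) h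

theorem F4_coeff_pol_ge {N : ℕ} {α : Type*} (v : Fin N × α → ℂ) (a : α) (n : ℕ) (hn : N ≤ n) :
    (pol v a).coeff n = 0 := by
  unfold pol
  rw [Polynomial.finsetSum_coeff]
  refine Finset.sum_eq_zero fun k _ => ?_
  rw [Polynomial.coeff_C_mul_X_pow, if_neg]
  intro h
  have := k.2
  omega

theorem F4_nsq_eq (q : ℂ[X]) (M : ℕ) (h : ∀ n, M ≤ n → q.coeff n = 0) :
    nsq q = ∑ n ∈ range M, ‖q.coeff n‖ ^ 2 := by
  unfold nsq
  rcases le_total M (q.natDegree + 1) with hM | hM
  · symm
    apply Finset.sum_subset (Finset.range_mono hM)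
    intro n _ hn
    rw [Finset.mem_range, not_lt] at hn
    rw [h n hn]
    simp
  · apply Finset.sum_subset (Finset.range_mono hM)
    intro n _ hn
    rw [Finset.mem_range, not_lt] at hn
    rw [Polynomial.coeff_eq_zero_of_natDegree_lt (by omega)]
    simp

theorem F4_sum_le_nsq (q : ℂ[X]) (M : ℕ) :
    ∑ n ∈ range M, ‖q.coeff n‖ ^ 2 ≤ nsq q := by
  have h := F4_nsq_eq q (max M (q.natDegree + 1)) (fun n hn => by
    apply Polynomial.coeff_eq_zero_of_natDegree_lt
    have := le_max_right M (q.natDegree + 1)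
    omega)
  rw [h]
  apply Finset.sum_le_sum_of_subset_of_nonneg (Finset.range_mono (le_max_left _ _))
  intro n _ _
  positivity

theorem F4_Sh_mulVec {α : Type*} [Fintype α] [DecidableEq α] (N : ℕ) (v : Fin N × α → ℂ)
    (n : Fin N) (a : α) : (Sh N α).mulVec v (n, a) = (X * pol v a).coeff n := by
  have hdef : (Sh N α).mulVec v (n, a) = ∑ b : Fin N × α,
      (if (n : ℕ) = (b.1 : ℕ) + 1 ∧ a = b.2 then (1 : ℂ) else 0) * v b := rfl
  rw [hdef]
  rcases Nat.eq_zero_or_pos (n : ℕ) with h0 | h0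
  · rw [h0, Polynomial.coeff_X_mul_zero]
    refine Finset.sum_eq_zero fun b _ => ?_
    rw [if_neg, zero_mul]
    rintro ⟨h1, _⟩
    omega
  · obtain ⟨k, hk⟩ : ∃ k, (n : ℕ) = k + 1 := ⟨(n : ℕ) - 1, by omega⟩
    have hkN : k < N := by
      have := n.2
      omega
    have h3 : (pol v a).coeff k = v (⟨k, hkN⟩, a) := F4_coeff_pol v a ⟨k, hkN⟩
    rw [hk, Polynomial.coeff_X_mul, h3]
    rw [Finset.sum_eq_single ((⟨k, hkN⟩ : Fin N), a)]
    · simp
    · rintro ⟨b, c⟩ _ hb
      rw [if_neg, zero_mul]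
      rintro ⟨h1, h2⟩
      apply hb
      simp only at h1 h2
      subst h2
      congr 1
      apply Fin.ext
      simp only
      omega
    · intro h
      exact absurd (Finset.mem_univ _) h

/-- action of the truncated shift -/
theorem shift_apply {α : Type*} [Fintype α] [DecidableEq α] (N : ℕ) (q : ℂ[X]) (v : Fin N × α → ℂ)
    (n : Fin N) (a : α) :
    (aeval (Sh N α) q).mulVec v (n, a) = (q * pol v a).coeff n := by
  induction q using Polynomial.induction_on generalizing v n a with
  | C c =>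
    rw [Polynomial.aeval_C, Polynomial.coeff_C_mul, F4_coeff_pol, Algebra.algebraMap_eq_smul_one,
      Matrix.smul_mulVec, Matrix.one_mulVec]
    rfl
  | add p q hp hq =>
    rw [map_add, Matrix.add_mulVec, Pi.add_apply, hp, hq, add_mul, Polynomial.coeff_add]
  | monomial k c ih =>
    have e : (C c * X ^ (k + 1) : ℂ[X]) = (C c * X ^ k) * X := by ring
    have e2 : (C c * X ^ k * X : ℂ[X]) * pol v a = (C c * X ^ k) * (X * pol v a) := by ring
    rw [e, map_mul, Polynomial.aeval_X, ← Matrix.mulVec_mulVec, ih, e2,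
      Polynomial.coeff_mul, Polynomial.coeff_mul]
    refine Finset.sum_congr rfl fun x hx => ?_
    have hx := Finset.HasAntidiagonal.mem_antidiagonal.mp hx
    have hx2 : x.2 < N := by
      have := n.2
      omega
    congr 1
    have h1 := F4_coeff_pol ((Sh N α).mulVec v) a ⟨x.2, hx2⟩
    have h2 := F4_Sh_mulVec N v ⟨x.2, hx2⟩ a
    simp only at h1 h2
    rw [h1, h2]

theorem F4_aeval_transpose {ι : Type*} [Fintype ι] [DecidableEq ι] (A : Matrix ι ι ℂ) (q : ℂ[X]) :
    aeval A.transpose q = (aeval A q).transpose := by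
  induction q using Polynomial.induction_on with
  | C c =>
    rw [Polynomial.aeval_C, Polynomial.aeval_C, Algebra.algebraMap_eq_smul_one,
      Matrix.transpose_smul, Matrix.transpose_one]
  | add p q hp hq => rw [map_add, map_add, Matrix.transpose_add, hp, hq]
  | monomial k c ih =>
    have e : (C c * X ^ (k + 1) : ℂ[X]) = (C c * X ^ k) * X := by ring
    have h1 : aeval A.transpose ((C c * X ^ k) * X : ℂ[X]) =
        aeval A.transpose (X : ℂ[X]) * aeval A.transpose (C c * X ^ k : ℂ[X]) := by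
      rw [mul_comm (C c * X ^ k : ℂ[X]) X]
      exact map_mul _ _ _
    have h2 : aeval A ((C c * X ^ k) * X : ℂ[X]) =
        aeval A (C c * X ^ k : ℂ[X]) * aeval A (X : ℂ[X]) := map_mul _ _ _
    rw [e, h1, h2, Matrix.transpose_mul, ih, Polynomial.aeval_X, Polynomial.aeval_X]

theorem sum_nsq_pol {α : Type*} [Fintype α] (N : ℕ) (v : Fin N × α → ℂ) :
    ∑ a, nsq (pol v a) = sq v := by
  unfold sq
  rw [Fintype.sum_prod_type, Finset.sum_comm]
  refine Finset.sum_congr rfl fun a _ => ?_
  rw [F4_nsq_eq (pol v a) N (F4_coeff_pol_ge v a), Finset.sum_range]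
  refine Finset.sum_congr rfl fun n _ => ?_
  rw [F4_coeff_pol]

theorem shift_bound {α : Type*} [Fintype α] [DecidableEq α] (N : ℕ) (q : ℂ[X]) (hq : Bdd1 q) :
    MB (aeval (Sh N α) q) 1 ∧ MB (aeval (Sh N α).transpose q) 1 := by
  have h : MB (aeval (Sh N α) q) 1 := by
    intro v
    have e : sq v = ∑ a, nsq (pol v a) := (sum_nsq_pol N v).symm
    rw [one_pow, one_mul, e]
    unfold sq
    rw [Fintype.sum_prod_type, Finset.sum_comm]
    refine Finset.sum_le_sum fun a _ => ?_
    refine le_trans ?_ (nsq_mul_le q (pol v a) hq)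
    refine le_trans (le_of_eq ?_) (F4_sum_le_nsq (q * pol v a) N)
    rw [Finset.sum_range]
    refine Finset.sum_congr rfl fun n _ => ?_
    rw [shift_apply]
  refine ⟨h, ?_⟩
  rw [F4_aeval_transpose]
  exact MB_transpose _ 1 zero_le_one h

end PB
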