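import Pool.Agent.Helper89.PB.Defs
import Pool.Agent.Helper89.PB.A5
import Pool.Agent.Helper89.PB.R0

namespace PB

open Finset Polynomial

theorem F5_aeval_diag {ι : Type*} [Fintype ι] [DecidableEq ι] (d : ι → ℂ) (q : ℂ[X]) :
    aeval (Matrix.diagonal d) q = Matrix.diagonal (fun a => q.eval (d a)) := by
  induction q using Polynomial.induction_on' with
  | add p q hp hq =>
    rw [map_add, hp, hq, Matrix.diagonal_add]
    congr 1
    funext a
    rw [eval_add]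
  | monomial n c =>
    rw [← C_mul_X_pow_eq_monomial, map_mul, map_pow, aeval_X, aeval_C,
      Algebra.algebraMap_eq_smul_one, Matrix.smul_mul, Matrix.one_mul, Matrix.diagonal_pow,
      ← Matrix.diagonal_smul]
    congr 1
    funext a
    simp

theorem diag_bound (p m : ℕ) (hp : 1 ≤ p) (q : ℂ[X]) (hq : Bdd1 q) : MB (aeval (DD p m) q) 1 := by
  intro x
  unfold DD
  rw [F5_aeval_diag, one_pow, one_mul]
  refine Finset.sum_le_sum fun a _ => ?_
  rw [Matrix.mulVec_diagonal, norm_mul, mul_pow]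
  have h1 := hq _ (norm_zz_le (p ^ 8) ((a.1 : ℕ) + 1) (a.2.1 : ℕ))
  have h2 : ‖q.eval (zz (p ^ 8) ((a.1 : ℕ) + 1) (a.2.1 : ℕ))‖ ^ 2 ≤ 1 :=
    pow_le_one₀ (norm_nonneg _) h1
  calc _ ≤ 1 * ‖x a‖ ^ 2 := mul_le_mul_of_nonneg_right h2 (by positivity)
    _ = ‖x a‖ ^ 2 := one_mul _

theorem F5_one (N : ℕ) (h : ℂ[X]) (z : ℂ) (r : ℝ) (hr : r < 1) (hz : ‖z‖ ≤ r) :
    ‖h.eval z - ∑ n ∈ range N, h.coeff n * z ^ n‖ ^ 2 ≤ r ^ (2 * N) / (1 - r ^ 2) * nsq h := by
  have hr0 : 0 ≤ r := (norm_nonneg z).trans hz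
  set M := max (h.natDegree + 1) N with hM
  have e1 : h.eval z = ∑ n ∈ range M, h.coeff n * z ^ n :=
    eval_eq_sum_range' (lt_of_lt_of_le (Nat.lt_succ_self _) (le_max_left _ _)) z
  have e2 : h.eval z - ∑ n ∈ range N, h.coeff n * z ^ n = ∑ n ∈ Ico N M, h.coeff n * z ^ n := by
    rw [e1, sub_eq_iff_eq_add, add_comm]
    exact (Finset.sum_range_add_sum_Ico _ (le_max_right _ _)).symm
  have e3 : nsq h = ∑ n ∈ range M, ‖h.coeff n‖ ^ 2 := by
    unfold nsq
    refine Finset.sum_subset (Finset.range_mono (le_max_left _ _)) fun n _ hn => ?_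
    rw [Finset.mem_range, not_lt] at hn
    rw [coeff_eq_zero_of_natDegree_lt (by omega)]
    simp
  rw [e2]
  calc ‖∑ n ∈ Ico N M, h.coeff n * z ^ n‖ ^ 2
      ≤ (∑ n ∈ Ico N M, ‖h.coeff n‖ * ‖z‖ ^ n) ^ 2 := by
        refine pow_le_pow_left₀ (norm_nonneg _) ((norm_sum_le _ _).trans (le_of_eq ?_)) 2
        refine Finset.sum_congr rfl fun n _ => ?_
        rw [norm_mul, norm_pow]
    _ ≤ (∑ n ∈ Ico N M, ‖h.coeff n‖ ^ 2) * ∑ n ∈ Ico N M, (‖z‖ ^ n) ^ 2 :=
        Finset.sum_mul_sq_le_sq_mul_sq _ _ _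
    _ ≤ nsq h * (r ^ (2 * N) / (1 - r ^ 2)) := by
        refine mul_le_mul ?_ ?_ (Finset.sum_nonneg fun _ _ => by positivity)
          (Finset.sum_nonneg fun _ _ => by positivity)
        · rw [e3]
          refine Finset.sum_le_sum_of_subset_of_nonneg ?_ fun _ _ _ => by positivity
          intro n hn
          rw [Finset.mem_Ico] at hn
          exact Finset.mem_range.mpr hn.2
        · calc ∑ n ∈ Ico N M, (‖z‖ ^ n) ^ 2 ≤ ∑ n ∈ Ico N M, (r ^ 2) ^ n := by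
                refine Finset.sum_le_sum fun n _ => ?_
                rw [← pow_mul, mul_comm n 2, pow_mul]
                exact pow_le_pow_left₀ (by positivity) (pow_le_pow_left₀ (norm_nonneg _) hz 2) n
            _ ≤ (r ^ 2) ^ N / (1 - r ^ 2) :=
                geom_sum_Ico_le_of_lt_one (by positivity) (pow_lt_one₀ hr0 hr (by norm_num))
            _ = r ^ (2 * N) / (1 - r ^ 2) := by rw [pow_mul]
    _ = _ := mul_comm _ _

/-- the bound of the tail -/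
theorem tail_bound {α : Type*} [Fintype α] (N : ℕ) (q : ℂ[X]) (hq : Bdd1 q) (g : α → ℂ[X]) (z : ℂ)
    (r : ℝ) (hr : r < 1) (hz : ‖z‖ ≤ r) :
    ∑ a, ‖(q * g a).eval z - ∑ n ∈ range N, (q * g a).coeff n * z ^ n‖ ^ 2 ≤
      r ^ (2 * N) / (1 - r ^ 2) * ∑ a, nsq (g a) := by
  rw [Finset.mul_sum]
  have hr0 : 0 ≤ r := (norm_nonneg z).trans hz
  have h1 : 0 ≤ r ^ (2 * N) / (1 - r ^ 2) := by
    have : r ^ 2 < 1 := pow_lt_one₀ hr0 hr (by norm_num)
    exact div_nonneg (by positivity) (by linarith)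
  refine Finset.sum_le_sum fun a _ => (F5_one N (q * g a) z r hr hz).trans ?_
  exact mul_le_mul_of_nonneg_left (nsq_mul_le q (g a) hq) h1

theorem card_I2 (p m : ℕ) (hp : 1 ≤ p) :
    Fintype.card (I2 p m) ≤ m * ((p ^ 8) ^ m * (2 ^ m * m)) := by
  have h : Fintype.card (I2 p m) = ∑ k : Fin m, (p ^ 8) ^ ((k : ℕ) + 1) * (2 ^ m * m) := by
    rw [Fintype.card_sigma]
    refine Finset.sum_congr rfl fun k _ => ?_
    rw [Fintype.card_prod, Fintype.card_prod, Fintype.card_fin, Fintype.card_fin]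
    simp
  rw [h]
  calc ∑ k : Fin m, (p ^ 8) ^ ((k : ℕ) + 1) * (2 ^ m * m)
      ≤ ∑ _k : Fin m, (p ^ 8) ^ m * (2 ^ m * m) := by
        refine Finset.sum_le_sum fun k _ => Nat.mul_le_mul_right _ ?_
        exact Nat.pow_le_pow_right (Nat.pow_pos (by omega)) k.2
    _ = _ := by simp

end PB
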