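import Pool.Agent.Helper89.PB.Defs
import Pool.Agent.Helper89.PB.R0
import Pool.Agent.Helper89.PB.A4
import Pool.Agent.Helper89.PB.A5

namespace PB

open Finset Polynomial

/-- PB-6 -/
theorem square_fun_mul (M m : ℕ) (hM : 2 ≤ M) (f q : ℂ[X]) (hf : Bdd1 f) :
    ∑ k : Fin m, (1 / (M : ℝ) ^ ((k : ℕ) + 1)) * ∑ i ∈ range (M ^ ((k : ℕ) + 1)),
      ‖f.eval (zz M ((k : ℕ) + 1) i) - f.eval (zz M (k : ℕ) (i / M))‖ ^ 2 *
        ‖q.eval (zz M (k : ℕ) (i / M))‖ ^ 2 ≤ 800 * nsq q := by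
  have h1 := square_fun M m hM (f * q)
  have h2 := square_fun M m hM q
  have h3 := nsq_mul_le f q hf
  have hpt : ∀ z w : ℂ, ‖z‖ ≤ 1 → ‖f.eval z - f.eval w‖ ^ 2 * ‖q.eval w‖ ^ 2 ≤
      2 * ‖(f * q).eval z - (f * q).eval w‖ ^ 2 + 2 * ‖q.eval z - q.eval w‖ ^ 2 := by
    intro z w hz
    have h4 : (f.eval z - f.eval w) * q.eval w =
        ((f * q).eval z - (f * q).eval w) - f.eval z * (q.eval z - q.eval w) := by
      rw [eval_mul, eval_mul]; ring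
    have h5 : ‖f.eval z - f.eval w‖ * ‖q.eval w‖ ≤
        ‖(f * q).eval z - (f * q).eval w‖ + ‖q.eval z - q.eval w‖ := by
      rw [← norm_mul, h4]
      refine (norm_sub_le _ _).trans (add_le_add (le_refl _) ?_)
      rw [norm_mul]
      exact mul_le_of_le_one_left (norm_nonneg _) (hf z hz)
    rw [← mul_pow]
    have h6 : 0 ≤ ‖f.eval z - f.eval w‖ * ‖q.eval w‖ := by positivity
    have h7 := pow_le_pow_left₀ h6 h5 2
    nlinarith [sq_nonneg (‖(f * q).eval z - (f * q).eval w‖ - ‖q.eval z - q.eval w‖)]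
  have h8 : ∑ k : Fin m, (1 / (M : ℝ) ^ ((k : ℕ) + 1)) * ∑ i ∈ range (M ^ ((k : ℕ) + 1)),
      ‖f.eval (zz M ((k : ℕ) + 1) i) - f.eval (zz M (k : ℕ) (i / M))‖ ^ 2 *
        ‖q.eval (zz M (k : ℕ) (i / M))‖ ^ 2 ≤
      2 * (∑ k : Fin m, (1 / (M : ℝ) ^ ((k : ℕ) + 1)) * ∑ i ∈ range (M ^ ((k : ℕ) + 1)),
        ‖(f * q).eval (zz M ((k : ℕ) + 1) i) - (f * q).eval (zz M (k : ℕ) (i / M))‖ ^ 2) +
      2 * ∑ k : Fin m, (1 / (M : ℝ) ^ ((k : ℕ) + 1)) * ∑ i ∈ range (M ^ ((k : ℕ) + 1)),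
        ‖q.eval (zz M ((k : ℕ) + 1) i) - q.eval (zz M (k : ℕ) (i / M))‖ ^ 2 := by
    rw [mul_sum, mul_sum, ← sum_add_distrib]
    refine sum_le_sum (fun k _ => ?_)
    have h9 : ∑ i ∈ range (M ^ ((k : ℕ) + 1)),
        ‖f.eval (zz M ((k : ℕ) + 1) i) - f.eval (zz M (k : ℕ) (i / M))‖ ^ 2 *
          ‖q.eval (zz M (k : ℕ) (i / M))‖ ^ 2 ≤
        2 * (∑ i ∈ range (M ^ ((k : ℕ) + 1)),
          ‖(f * q).eval (zz M ((k : ℕ) + 1) i) - (f * q).eval (zz M (k : ℕ) (i / M))‖ ^ 2) +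
        2 * ∑ i ∈ range (M ^ ((k : ℕ) + 1)),
          ‖q.eval (zz M ((k : ℕ) + 1) i) - q.eval (zz M (k : ℕ) (i / M))‖ ^ 2 := by
      rw [mul_sum, mul_sum, ← sum_add_distrib]
      exact sum_le_sum (fun i _ => hpt _ _ (norm_zz_le _ _ _))
    have h10 : (0 : ℝ) ≤ 1 / (M : ℝ) ^ ((k : ℕ) + 1) := by positivity
    have h11 := mul_le_mul_of_nonneg_left h9 h10
    linarith
  linarith

end PB
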