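import Pool.Agent.Helper89.PB.Defs
import Pool.Agent.Helper89.PB.B2

namespace PB

open Finset Polynomial

theorem B3_orth (p : ℕ) [Fact p.Prime] (t : ZMod p) :
    ∑ x : ZMod p, (ZMod.stdAddChar (x * t) : ℂ) = if t = 0 then (p : ℂ) else 0 := by
  rw [AddChar.sum_mulShift t (ZMod.isPrimitive_stdAddChar p), ZMod.card]
  split_ifs <;> simp

theorem B3_two_ne (p : ℕ) [Fact p.Prime] (hp : p ≠ 2) : (2 : ZMod p) ≠ 0 := by
  intro h
  have h1 : ((2 : ℕ) : ZMod p) = 0 := by exact_mod_cast h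
  rw [ZMod.natCast_eq_zero_iff] at h1
  have h2 := (Nat.prime_dvd_prime_iff_eq (Fact.out) Nat.prime_two).mp h1
  exact hp h2

/-- Parseval for an orthogonal family. -/
theorem B3_parseval {T ι : Type*} [Fintype T] [Fintype ι] [DecidableEq ι] (e : T → ι → ℂ) (N : ℝ)
    (h : ∀ x y, ∑ t, e t x * (starRingEnd ℂ) (e t y) = if x = y then (N : ℂ) else 0)
    (d : ι → ℂ) : ∑ t, ‖∑ x, e t x * d x‖ ^ 2 = N * ∑ x, ‖d x‖ ^ 2 := by
  have h1 : ∀ z : ℂ, ((‖z‖ ^ 2 : ℝ) : ℂ) = z * (starRingEnd ℂ) z := by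
    intro z
    rw [Complex.mul_conj, Complex.normSq_eq_norm_sq]
  have h2 : ((∑ t, ‖∑ x, e t x * d x‖ ^ 2 : ℝ) : ℂ) = ((N * ∑ x, ‖d x‖ ^ 2 : ℝ) : ℂ) := by
    rw [Complex.ofReal_sum, Complex.ofReal_mul, Complex.ofReal_sum]
    simp only [h1, map_sum, map_mul, Finset.sum_mul_sum]
    rw [Finset.sum_comm]
    rw [Finset.mul_sum]
    refine Finset.sum_congr rfl fun x _ => ?_
    rw [Finset.sum_comm]
    have h3 : ∀ y, ∑ t, e t x * d x * ((starRingEnd ℂ) (e t y) * (starRingEnd ℂ) (d y))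
        = (if x = y then (N : ℂ) else 0) * (d x * (starRingEnd ℂ) (d y)) := by
      intro y
      rw [← h x y, Finset.sum_mul]
      exact Finset.sum_congr rfl fun t _ => by ring
    rw [Finset.sum_congr rfl fun y _ => h3 y]
    simp [Finset.sum_ite_eq]
  exact_mod_cast h2

/-- the amplitude -/
noncomputable def B3_A (p : ℕ) [Fact p.Prime] (f : ZMod p → ℂ) (w : ZMod p × ZMod p) : ℂ :=
  ∑ x : ZMod p, ZMod.stdAddChar (w.1 * x ^ 2 + w.2 * x) * f x

theorem B3_gram2 (p : ℕ) [Fact p.Prime] (x y : ZMod p × ZMod p) :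
    ∑ w : ZMod p × ZMod p, (ZMod.stdAddChar (w.1 * x.1 + w.2 * x.2) : ℂ) *
      (starRingEnd ℂ) (ZMod.stdAddChar (w.1 * y.1 + w.2 * y.2)) =
      if x = y then (((p : ℝ) ^ 2 : ℝ) : ℂ) else 0 := by
  have h1 : ∀ w : ZMod p × ZMod p, (ZMod.stdAddChar (w.1 * x.1 + w.2 * x.2) : ℂ) *
      (starRingEnd ℂ) (ZMod.stdAddChar (w.1 * y.1 + w.2 * y.2))
      = ZMod.stdAddChar (w.1 * (x.1 - y.1)) * ZMod.stdAddChar (w.2 * (x.2 - y.2)) := by
    intro w
    rw [← AddChar.map_neg_eq_conj, ← AddChar.map_add_eq_mul, ← AddChar.map_add_eq_mul]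
    congr 1
    ring
  rw [Finset.sum_congr rfl fun w _ => h1 w, Fintype.sum_prod_type]
  simp only [← Finset.mul_sum]
  rw [← Finset.sum_mul, B3_orth, B3_orth]
  by_cases hx : x = y
  · subst hx
    simp [pow_two]
  · rw [if_neg hx]
    by_cases h2 : x.1 - y.1 = 0
    · have h3 : x.2 - y.2 ≠ 0 := by
        intro h3
        exact hx (Prod.ext (sub_eq_zero.mp h2) (sub_eq_zero.mp h3))
      rw [if_neg h3, mul_zero]
    · rw [if_neg h2, zero_mul]

/-- second moment -/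
theorem B3_second (p : ℕ) [Fact p.Prime] (f : ZMod p → ℂ) :
    ∑ w, ‖B3_A p f w‖ ^ 2 = (p : ℝ) ^ 2 * sq f := by
  have h1 := B3_parseval (T := ZMod p × ZMod p) (ι := ZMod p)
    (fun w x => (ZMod.stdAddChar (w.1 * x ^ 2 + w.2 * x) : ℂ)) ((p : ℝ) ^ 2) (by
      intro x y
      have h2 := B3_gram2 p (x ^ 2, x) (y ^ 2, y)
      simp only at h2
      rw [h2]
      by_cases hxy : x = y
      · subst hxy
        simp
      · rw [if_neg hxy, if_neg]
        intro h3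
        exact hxy (congrArg Prod.snd h3)) f
  exact h1

/-- fourth moment -/
theorem B3_fourth (p : ℕ) [Fact p.Prime] (hp : p ≠ 2) (f : ZMod p → ℂ) :
    ∑ w, ‖B3_A p f w‖ ^ 4 ≤ 2 * (p : ℝ) ^ 2 * sq f ^ 2 := by
  classical
  -- the fibres
  let F : ZMod p × ZMod p → Finset (ZMod p × ZMod p) := fun u =>
    univ.filter fun v => (v.1 ^ 2 + v.2 ^ 2, v.1 + v.2) = u
  let d : ZMod p × ZMod p → ℂ := fun u => ∑ v ∈ F u, f v.1 * f v.2
  have h1 : ∀ w, B3_A p f w ^ 2 = ∑ u : ZMod p × ZMod p,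
      (ZMod.stdAddChar (w.1 * u.1 + w.2 * u.2) : ℂ) * d u := by
    intro w
    unfold B3_A
    rw [pow_two, Finset.sum_mul_sum, ← Fintype.sum_prod_type
      (f := fun v : ZMod p × ZMod p => (ZMod.stdAddChar (w.1 * v.1 ^ 2 + w.2 * v.1) * f v.1) *
        (ZMod.stdAddChar (w.1 * v.2 ^ 2 + w.2 * v.2) * f v.2))]
    rw [← Finset.sum_fiberwise univ (fun v : ZMod p × ZMod p => (v.1 ^ 2 + v.2 ^ 2, v.1 + v.2))]
    refine Finset.sum_congr rfl fun u _ => ?_
    rw [Finset.mul_sum]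
    refine Finset.sum_congr rfl fun v hv => ?_
    have hv2 := (Finset.mem_filter.mp hv).2
    rw [← hv2]
    have h3 : (ZMod.stdAddChar (w.1 * (v.1 ^ 2 + v.2 ^ 2) + w.2 * (v.1 + v.2)) : ℂ)
        = ZMod.stdAddChar (w.1 * v.1 ^ 2 + w.2 * v.1) *
          ZMod.stdAddChar (w.1 * v.2 ^ 2 + w.2 * v.2) := by
      rw [← AddChar.map_add_eq_mul]
      congr 1
      ring
    simp only
    rw [h3]
    ring
  have h2 : ∑ w, ‖B3_A p f w‖ ^ 4 = (p : ℝ) ^ 2 * ∑ u, ‖d u‖ ^ 2 := by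
    rw [← B3_parseval _ ((p : ℝ) ^ 2) (B3_gram2 p) d]
    refine Finset.sum_congr rfl fun w _ => ?_
    rw [← h1, norm_pow]
    ring
  have hcard : ∀ u, (F u).card ≤ 2 := by
    intro u
    by_cases hne : (F u).Nonempty
    · obtain ⟨v, hv⟩ := hne
      have hsub : F u ⊆ {v, (v.2, v.1)} := by
        intro v' hv'
        have e1 := (Finset.mem_filter.mp hv).2
        have e2 := (Finset.mem_filter.mp hv').2
        rw [← e1, Prod.mk.injEq] at e2
        obtain ⟨e3, e4⟩ := e2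
        have e5 : (v'.1 - v.1) * (v'.1 - v.2) = 0 := by
          have e6 : v'.2 = v.1 + v.2 - v'.1 := by rw [← e4]; ring
          rw [e6] at e3
          have e7 : (2 : ZMod p) * ((v'.1 - v.1) * (v'.1 - v.2)) = 0 := by
            linear_combination e3
          exact (mul_eq_zero.mp e7).resolve_left (B3_two_ne p hp)
        rw [Finset.mem_insert, Finset.mem_singleton]
        rcases mul_eq_zero.mp e5 with h | h
        · left
          have h' := sub_eq_zero.mp h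
          refine Prod.ext h' ?_
          rw [h'] at e4
          exact add_left_cancel e4
        · right
          have h' := sub_eq_zero.mp h
          refine Prod.ext h' ?_
          rw [h', add_comm] at e4
          exact add_right_cancel e4
      exact (Finset.card_le_card hsub).trans Finset.card_le_two
    · rw [Finset.not_nonempty_iff_eq_empty] at hne
      rw [hne]
      simp
  have hd : ∀ u, ‖d u‖ ^ 2 ≤ 2 * ∑ v ∈ F u, ‖f v.1‖ ^ 2 * ‖f v.2‖ ^ 2 := by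
    intro u
    calc ‖d u‖ ^ 2 ≤ (∑ v ∈ F u, ‖f v.1 * f v.2‖) ^ 2 :=
          pow_le_pow_left₀ (norm_nonneg _) (norm_sum_le _ _) 2
      _ ≤ (F u).card * ∑ v ∈ F u, ‖f v.1 * f v.2‖ ^ 2 := sq_sum_le_card_mul_sum_sq
      _ ≤ 2 * ∑ v ∈ F u, ‖f v.1 * f v.2‖ ^ 2 := by
          refine mul_le_mul_of_nonneg_right ?_ (Finset.sum_nonneg fun _ _ => by positivity)
          exact_mod_cast hcard u
      _ = _ := by
          congr 1
          exact Finset.sum_congr rfl fun v _ => by rw [norm_mul, mul_pow]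
  rw [h2]
  have h3 : ∑ u, ‖d u‖ ^ 2 ≤ 2 * sq f ^ 2 := by
    calc ∑ u, ‖d u‖ ^ 2 ≤ ∑ u, 2 * ∑ v ∈ F u, ‖f v.1‖ ^ 2 * ‖f v.2‖ ^ 2 :=
          Finset.sum_le_sum fun u _ => hd u
      _ = 2 * ∑ v : ZMod p × ZMod p, ‖f v.1‖ ^ 2 * ‖f v.2‖ ^ 2 := by
          rw [← Finset.mul_sum]
          congr 1
          exact Finset.sum_fiberwise univ
            (fun v : ZMod p × ZMod p => (v.1 ^ 2 + v.2 ^ 2, v.1 + v.2)) _
      _ = 2 * sq f ^ 2 := by
          rw [Fintype.sum_prod_type]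
          unfold sq
          rw [pow_two, Finset.sum_mul_sum]
  have hp0 : (0 : ℝ) ≤ (p : ℝ) ^ 2 := by positivity
  nlinarith [mul_le_mul_of_nonneg_left h3 hp0]

/-- the quantity for one `j` -/
noncomputable def B3_Z (p : ℕ) [Fact p.Prime] {S : Type*} [Fintype S] (f : S → ZMod p → ℂ)
    (w : ZMod p × ZMod p) : ℝ := ∑ s, ‖B3_A p (f s) w‖ ^ 2

theorem B3_Z_mean (p : ℕ) [Fact p.Prime] {S : Type*} [Fintype S] (f : S → ZMod p → ℂ) :
    ∑ w, B3_Z p f w = (p : ℝ) ^ 2 * ∑ s, sq (f s) := by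
  unfold B3_Z
  rw [Finset.sum_comm, Finset.mul_sum]
  exact Finset.sum_congr rfl fun s _ => B3_second p (f s)

theorem B3_sq_nonneg {ι : Type*} [Fintype ι] (x : ι → ℂ) : 0 ≤ sq x :=
  Finset.sum_nonneg fun _ _ => by positivity

theorem B3_Z_sq (p : ℕ) [Fact p.Prime] (hp : p ≠ 2) {S : Type*} [Fintype S]
    (f : S → ZMod p → ℂ) : ∑ w, B3_Z p f w ^ 2 ≤ 2 * (p : ℝ) ^ 2 * (∑ s, sq (f s)) ^ 2 := by
  have h1 : ∀ s t, ∑ w, ‖B3_A p (f s) w‖ ^ 2 * ‖B3_A p (f t) w‖ ^ 2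
      ≤ 2 * (p : ℝ) ^ 2 * (sq (f s) * sq (f t)) := by
    intro s t
    have hcs := Finset.sum_mul_sq_le_sq_mul_sq univ (fun w => ‖B3_A p (f s) w‖ ^ 2)
      (fun w => ‖B3_A p (f t) w‖ ^ 2)
    have h4 : ∀ s, ∑ w, (‖B3_A p (f s) w‖ ^ 2) ^ 2 ≤ 2 * (p : ℝ) ^ 2 * sq (f s) ^ 2 := by
      intro s
      refine le_trans (le_of_eq ?_) (B3_fourth p hp (f s))
      exact Finset.sum_congr rfl fun w _ => by ring
    have h5 : (∑ w, ‖B3_A p (f s) w‖ ^ 2 * ‖B3_A p (f t) w‖ ^ 2) ^ 2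
        ≤ (2 * (p : ℝ) ^ 2 * (sq (f s) * sq (f t))) ^ 2 := by
      refine hcs.trans ?_
      calc (∑ w, (‖B3_A p (f s) w‖ ^ 2) ^ 2) * ∑ w, (‖B3_A p (f t) w‖ ^ 2) ^ 2
          ≤ (2 * (p : ℝ) ^ 2 * sq (f s) ^ 2) * (2 * (p : ℝ) ^ 2 * sq (f t) ^ 2) :=
            mul_le_mul (h4 s) (h4 t) (Finset.sum_nonneg fun _ _ => by positivity) (by positivity)
        _ = _ := by ring
    have h6 := B3_sq_nonneg (f s)
    have h7 := B3_sq_nonneg (f t)
    exact (pow_le_pow_iff_left₀ (Finset.sum_nonneg fun _ _ => by positivity) (by positivity)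
      two_ne_zero).mp h5
  unfold B3_Z
  calc ∑ w, (∑ s, ‖B3_A p (f s) w‖ ^ 2) ^ 2
      = ∑ s, ∑ t, ∑ w, ‖B3_A p (f s) w‖ ^ 2 * ‖B3_A p (f t) w‖ ^ 2 := by
        simp only [pow_two (∑ s, ‖B3_A p (f s) _‖ ^ 2), Finset.sum_mul_sum]
        rw [Finset.sum_comm]
        exact Finset.sum_congr rfl fun s _ => Finset.sum_comm
    _ ≤ ∑ s, ∑ t, 2 * (p : ℝ) ^ 2 * (sq (f s) * sq (f t)) :=
        Finset.sum_le_sum fun s _ => Finset.sum_le_sum fun t _ => h1 s t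
    _ = _ := by
        simp only [← Finset.mul_sum]
        rw [pow_two (∑ s, sq (f s)), Finset.sum_mul_sum]
        simp only [Finset.mul_sum]

/-- reparametrisation -/
theorem B3_pair (p : ℕ) [Fact p.Prime] (j j' : ZMod p) (hjj : j ≠ j')
    (F G : ZMod p × ZMod p → ℝ) :
    ∑ a : Fin 4 → ZMod p, F (a 0 + j * a 2, a 1 + j * a 3) * G (a 0 + j' * a 2, a 1 + j' * a 3)
      = (∑ w, F w) * ∑ w, G w := by
  have hne : j - j' ≠ 0 := sub_ne_zero.mpr hjj
  rw [Finset.sum_mul_sum, ← Fintype.sum_prod_type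
    (f := fun v : (ZMod p × ZMod p) × (ZMod p × ZMod p) => F v.1 * G v.2)]
  refine Fintype.sum_bijective
    (fun a : Fin 4 → ZMod p => ((a 0 + j * a 2, a 1 + j * a 3), (a 0 + j' * a 2, a 1 + j' * a 3)))
    ?_ _ _ (fun a => rfl)
  rw [Function.bijective_iff_has_inverse]
  refine ⟨fun v => ![v.1.1 - j * ((v.1.1 - v.2.1) / (j - j')), v.1.2 - j * ((v.1.2 - v.2.2) / (j - j')),
    (v.1.1 - v.2.1) / (j - j'), (v.1.2 - v.2.2) / (j - j')], ?_, ?_⟩
  · intro a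
    have e1 : (a 0 + j * a 2 - (a 0 + j' * a 2)) / (j - j') = a 2 := by
      rw [div_eq_iff hne]; ring
    have e2 : (a 1 + j * a 3 - (a 1 + j' * a 3)) / (j - j') = a 3 := by
      rw [div_eq_iff hne]; ring
    funext i
    fin_cases i
    · change a 0 + j * a 2 - j * ((a 0 + j * a 2 - (a 0 + j' * a 2)) / (j - j')) = a 0
      rw [e1]; ring
    · change a 1 + j * a 3 - j * ((a 1 + j * a 3 - (a 1 + j' * a 3)) / (j - j')) = a 1
      rw [e2]; ring
    · exact e1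
    · exact e2
  · rintro ⟨⟨v1, v2⟩, ⟨v3, v4⟩⟩
    have e1 : (v1 - v3) / (j - j') * (j - j') = v1 - v3 := div_mul_cancel₀ _ hne
    have e2 : (v2 - v4) / (j - j') * (j - j') = v2 - v4 := div_mul_cancel₀ _ hne
    refine Prod.ext (Prod.ext ?_ ?_) (Prod.ext ?_ ?_)
    · change v1 - j * ((v1 - v3) / (j - j')) + j * ((v1 - v3) / (j - j')) = v1
      ring
    · change v2 - j * ((v2 - v4) / (j - j')) + j * ((v2 - v4) / (j - j')) = v2
      ring
    · change v1 - j * ((v1 - v3) / (j - j')) + j' * ((v1 - v3) / (j - j')) = v3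
      linear_combination -e1
    · change v2 - j * ((v2 - v4) / (j - j')) + j' * ((v2 - v4) / (j - j')) = v4
      linear_combination -e2

theorem B3_single (p : ℕ) [Fact p.Prime] (j : ZMod p) (F : ZMod p × ZMod p → ℝ) :
    ∑ a : Fin 4 → ZMod p, F (a 0 + j * a 2, a 1 + j * a 3) = (p : ℝ) ^ 2 * ∑ w, F w := by
  have h1 := B3_pair p j (j + 1) (by
    intro h
    exact one_ne_zero (left_eq_add.mp h)) F (fun _ => 1)
  simp only [mul_one] at h1
  rw [h1]
  simp only [Finset.sum_const, Finset.card_univ, Fintype.card_prod, ZMod.card, nsmul_eq_mul,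
    mul_one]
  push_cast
  ring

/-- variance -/
theorem vv_variance (p : ℕ) [Fact p.Prime] (hp : p ≠ 2) (m : ℕ) (hm : 1 ≤ m) (hmp : m ≤ p) (k : ℕ)
    {S : Type*} [Fintype S] (b : S → ZMod p → ℂ) :
    ∑ a : Fin 4 → ZMod p, ((1 / (m : ℝ)) * ∑ j ∈ range m, ∑ s, ‖∑ x, vv p k a j x * b s x‖ ^ 2 -
      ∑ s, sq (b s)) ^ 2 ≤ (p : ℝ) ^ 4 * (∑ s, sq (b s)) ^ 2 / m := by
  set μ := ∑ s, sq (b s) with hμ
  let f : S → ZMod p → ℂ := fun s x => ZMod.stdAddChar ((k : ZMod p) * x ^ 3) * b s x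
  have hf : ∑ s, sq (f s) = μ := by
    refine Finset.sum_congr rfl fun s _ => ?_
    unfold sq
    refine Finset.sum_congr rfl fun x _ => ?_
    simp only [f]
    rw [norm_mul, AddChar.norm_apply, one_mul]
  have hY : ∀ (a : Fin 4 → ZMod p) (j : ℕ), ∑ s, ‖∑ x, vv p k a j x * b s x‖ ^ 2
      = B3_Z p f (a 0 + (j : ZMod p) * a 2, a 1 + (j : ZMod p) * a 3) := by
    intro a j
    unfold B3_Z B3_A
    refine Finset.sum_congr rfl fun s _ => ?_
    congr 2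
    refine Finset.sum_congr rfl fun x _ => ?_
    simp only [f]
    unfold vv
    have h1 : (ZMod.stdAddChar ((k : ZMod p) * x ^ 3 + (a 0 + (j : ZMod p) * a 2) * x ^ 2
        + (a 1 + (j : ZMod p) * a 3) * x) : ℂ)
        = ZMod.stdAddChar ((a 0 + (j : ZMod p) * a 2) * x ^ 2
        + (a 1 + (j : ZMod p) * a 3) * x) * ZMod.stdAddChar ((k : ZMod p) * x ^ 3) := by
      rw [← AddChar.map_add_eq_mul]
      congr 1
      ring
    rw [h1]
    ring
  simp only [hY]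
  have hm0 : (0 : ℝ) < m := by exact_mod_cast hm
  -- the centred variable
  let W : ZMod p × ZMod p → ℝ := fun w => B3_Z p f w - μ
  have hW : ∑ w, W w = 0 := by
    simp only [W, Finset.sum_sub_distrib]
    rw [B3_Z_mean, hf]
    simp only [Finset.sum_const, Finset.card_univ, Fintype.card_prod, ZMod.card, nsmul_eq_mul]
    push_cast
    ring
  have hW2 : ∑ w, W w ^ 2 ≤ (p : ℝ) ^ 2 * μ ^ 2 := by
    have h1 : ∑ w, W w ^ 2 = ∑ w, B3_Z p f w ^ 2 - 2 * μ * ∑ w, B3_Z p f w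
        + (p : ℝ) ^ 2 * μ ^ 2 := by
      have h2 : ∀ w, W w ^ 2 = B3_Z p f w ^ 2 - 2 * μ * B3_Z p f w + μ ^ 2 := fun w => by
        simp only [W]
        ring
      rw [Finset.sum_congr rfl fun w _ => h2 w, Finset.sum_add_distrib, Finset.sum_sub_distrib,
        ← Finset.mul_sum]
      simp only [Finset.sum_const, Finset.card_univ, Fintype.card_prod, ZMod.card, nsmul_eq_mul]
      push_cast
      ring
    have h3 := B3_Z_sq p hp f
    rw [hf] at h3
    rw [h1, B3_Z_mean, hf]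
    nlinarith
  have h1 : ∀ a : Fin 4 → ZMod p, (1 / (m : ℝ)) * ∑ j ∈ range m,
      B3_Z p f (a 0 + (j : ZMod p) * a 2, a 1 + (j : ZMod p) * a 3) - μ
      = (1 / (m : ℝ)) * ∑ j ∈ range m,
        W (a 0 + (j : ZMod p) * a 2, a 1 + (j : ZMod p) * a 3) := by
    intro a
    simp only [W, Finset.sum_sub_distrib, Finset.sum_const, Finset.card_range, nsmul_eq_mul]
    generalize ∑ j ∈ range m, B3_Z p f (a 0 + (j : ZMod p) * a 2, a 1 + (j : ZMod p) * a 3) = A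
    field_simp
  simp only [h1]
  have h2 : ∑ a : Fin 4 → ZMod p, ((1 / (m : ℝ)) * ∑ j ∈ range m,
        W (a 0 + (j : ZMod p) * a 2, a 1 + (j : ZMod p) * a 3)) ^ 2
      = (1 / (m : ℝ)) ^ 2 * ∑ j ∈ range m, ∑ j' ∈ range m, ∑ a : Fin 4 → ZMod p,
        W (a 0 + (j : ZMod p) * a 2, a 1 + (j : ZMod p) * a 3) *
        W (a 0 + (j' : ZMod p) * a 2, a 1 + (j' : ZMod p) * a 3) := by
    simp only [mul_pow, ← Finset.mul_sum]
    congr 1
    simp only [pow_two (∑ j ∈ range m, W _), Finset.sum_mul_sum]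
    rw [Finset.sum_comm]
    exact Finset.sum_congr rfl fun s _ => Finset.sum_comm
  rw [h2]
  have h3 : ∀ j ∈ range m, ∑ j' ∈ range m, ∑ a : Fin 4 → ZMod p,
        W (a 0 + (j : ZMod p) * a 2, a 1 + (j : ZMod p) * a 3) *
        W (a 0 + (j' : ZMod p) * a 2, a 1 + (j' : ZMod p) * a 3)
      = (p : ℝ) ^ 2 * ∑ w, W w ^ 2 := by
    intro j hj
    rw [Finset.sum_eq_single j]
    · have h4 := B3_single p (j : ZMod p) (fun w => W w ^ 2)
      rw [← h4]
      exact Finset.sum_congr rfl fun a _ => by ring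
    · intro j' hj' hne
      rw [B3_pair p (j : ZMod p) (j' : ZMod p) ?_ W W, hW, zero_mul]
      intro h5
      apply hne
      have h6 := (ZMod.natCast_eq_natCast_iff' j j' p).mp h5
      rw [Nat.mod_eq_of_lt ((Finset.mem_range.mp hj).trans_le hmp),
        Nat.mod_eq_of_lt ((Finset.mem_range.mp hj').trans_le hmp)] at h6
      exact h6.symm
    · intro h5
      exact absurd hj h5
  rw [Finset.sum_congr rfl h3, Finset.sum_const, Finset.card_range, nsmul_eq_mul]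
  rw [le_div_iff₀ hm0]
  have h4 : (1 / (m : ℝ)) ^ 2 * ((m : ℝ) * ((p : ℝ) ^ 2 * ∑ w, W w ^ 2)) * m
      = (p : ℝ) ^ 2 * ∑ w, W w ^ 2 := by
    field_simp
  rw [h4]
  calc (p : ℝ) ^ 2 * ∑ w, W w ^ 2 ≤ (p : ℝ) ^ 2 * ((p : ℝ) ^ 2 * μ ^ 2) :=
        mul_le_mul_of_nonneg_left hW2 (by positivity)
    _ = (p : ℝ) ^ 4 * μ ^ 2 := by ring

end PB
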