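import Pool.Agent.Helper89.PB.Defs
import Pool.Agent.Helper89.PB.B1
import Pool.Agent.Helper89.PB.B3

namespace PB

open Finset Polynomial

/-- pointwise inequality behind `child_row` -/
private theorem D0_point (a X w : ℝ) (ha : 0 < a) (hw : 0 ≤ w) (hw4 : w ≤ 4) :
    w * X ≤ 2 * w * a + 4 * ((X - a) ^ 2 / a) := by
  have hsq : 0 ≤ (X - a) ^ 2 / a := by positivity
  by_cases h : X ≤ 2 * a
  · nlinarith
  · push Not at h
    have h1 : X - 2 * a ≤ (X - a) ^ 2 / a := by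
      rw [le_div_iff₀ ha]
      nlinarith [sq_nonneg (X - a - a), mul_pos ha ha]
    have h2 : w * (X - 2 * a) ≤ 4 * (X - 2 * a) :=
      mul_le_mul_of_nonneg_right hw4 (by linarith)
    nlinarith

private theorem D0_digits (p : ℕ) [Fact p.Prime] (o : ℕ) (ho : o = 0 ∨ o = 4)
    (G : (Fin 4 → ZMod p) → ℝ) :
    ∑ c ∈ range (p ^ 8), G (dg p o c) = (p : ℝ) ^ 4 * ∑ a, G a := by
  have hcard : (Fintype.card (Fin 4 → ZMod p) : ℝ) = (p : ℝ) ^ 4 := by
    rw [Fintype.card_fun, ZMod.card, Fintype.card_fin]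
    push_cast
    rfl
  rcases ho with rfl | rfl
  · have h := digits p (fun a _ => G a)
    rw [h]
    simp only [sum_const, card_univ, nsmul_eq_mul]
    rw [hcard, ← mul_sum]
  · have h := digits p (fun _ b => G b)
    rw [h]
    simp only [sum_const, card_univ, nsmul_eq_mul]
    rw [hcard]

/-- one parent, row estimate -/
theorem child_row (p : ℕ) [Fact p.Prime] (hp : p ≠ 2) (m : ℕ) (hm : 1 ≤ m) (hmp : m ≤ p) (k : ℕ)
    (o : ℕ) (ho : o = 0 ∨ o = 4) {S : Type*} [Fintype S] (b : S → ZMod p → ℂ) (w : ℕ → ℝ)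
    (hw : ∀ c, 0 ≤ w c) (hw4 : ∀ c, w c ≤ 4) :
    ∑ c ∈ range (p ^ 8), w c * ((1 / (m : ℝ)) * ∑ j ∈ range m, ∑ s : S,
      ‖∑ x, vv p k (dg p o c) j x * b s x‖ ^ 2) ≤
      2 * (∑ c ∈ range (p ^ 8), w c) * ∑ s, sq (b s) + 4 * (p : ℝ) ^ 8 * (∑ s, sq (b s)) / m := by
  set B : ℝ := ∑ s, sq (b s) with hB
  have hsq0 : ∀ s, 0 ≤ sq (b s) := fun s => sum_nonneg fun x _ => by positivity
  have hB0 : 0 ≤ B := sum_nonneg fun s _ => hsq0 s
  have hm0 : (0 : ℝ) < m := by exact_mod_cast hm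
  rcases hB0.eq_or_lt with h0 | hpos
  · -- everything vanishes
    have hb : ∀ s x, b s x = 0 := by
      intro s x
      have h1 : sq (b s) = 0 := by
        have := (sum_eq_zero_iff_of_nonneg (fun s _ => hsq0 s)).1 h0.symm
        exact this s (mem_univ _)
      have h2 : ‖b s x‖ ^ 2 = 0 := by
        have := (sum_eq_zero_iff_of_nonneg (fun x _ => by positivity)).1 h1
        exact this x (mem_univ _)
      simpa using h2
    rw [← h0]
    simp [hb]
  · set G : (Fin 4 → ZMod p) → ℝ := fun a =>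
      ((1 / (m : ℝ)) * ∑ j ∈ range m, ∑ s, ‖∑ x, vv p k a j x * b s x‖ ^ 2 - B) ^ 2 with hG
    have hpt : ∀ c ∈ range (p ^ 8), w c * ((1 / (m : ℝ)) * ∑ j ∈ range m, ∑ s : S,
        ‖∑ x, vv p k (dg p o c) j x * b s x‖ ^ 2) ≤ 2 * w c * B + 4 * (G (dg p o c) / B) := by
      intro c _
      exact D0_point B _ (w c) hpos (hw c) (hw4 c)
    refine (sum_le_sum hpt).trans ?_
    rw [sum_add_distrib, ← sum_mul, ← mul_sum, ← mul_sum, ← sum_div,
      D0_digits p o ho G]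
    have hvar : ∑ a, G a ≤ (p : ℝ) ^ 4 * B ^ 2 / m := vv_variance p hp m hm hmp k b
    have h3 : (p : ℝ) ^ 4 * ∑ a, G a ≤ (p : ℝ) ^ 4 * ((p : ℝ) ^ 4 * B ^ 2 / m) :=
      mul_le_mul_of_nonneg_left hvar (by positivity)
    have h4 : (p : ℝ) ^ 4 * (∑ a, G a) / B ≤ (p : ℝ) ^ 8 * B / m := by
      rw [div_le_iff₀ hpos]
      refine h3.trans (le_of_eq ?_)
      field_simp
    have h5 : 4 * (p : ℝ) ^ 8 * B / m = 4 * ((p : ℝ) ^ 8 * B / m) := by ring
    rw [h5]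
    linarith

end PB
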