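import Pool.Agent.Helper89.PB.Defs
import Pool.Agent.Helper89.PB.R0
import Pool.Agent.Helper89.PB.D0
import Pool.Agent.Helper89.PB.A6
import Pool.Agent.Helper89.PB.A1
import Pool.Agent.Helper89.PB.B1

namespace PB

open Finset Polynomial

theorem D1_sum_range_mul {E : Type*} [AddCommMonoid E] (F : ℕ → E) (n M : ℕ) :
    ∑ i ∈ range (n * M), F i = ∑ j ∈ range n, ∑ c ∈ range M, F (M * j + c) := by
  induction n with
  | zero => simp
  | succ n ih =>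
    rw [Nat.succ_mul, Finset.sum_range_add, ih, Finset.sum_range_succ, Nat.mul_comm n M]

/-- L4 -/
theorem row_bound (p : ℕ) [Fact p.Prime] (hp : p ≠ 2) (m : ℕ) (hm : 1 ≤ m) (hmp : m ≤ p)
    (o : ℕ) (ho : o = 0 ∨ o = 4) (f : ℂ[X]) (hf : Bdd1 f)
    {S : Type*} [Fintype S] (g : S × ZMod p → ℂ[X]) :
    ∑ k : Fin m, (1 / ((p : ℝ) ^ 8) ^ ((k : ℕ) + 1)) * ∑ i ∈ range ((p ^ 8) ^ ((k : ℕ) + 1)),
      ‖f.eval (zz (p ^ 8) ((k : ℕ) + 1) i) - f.eval (zz (p ^ 8) (k : ℕ) (i / p ^ 8))‖ ^ 2 *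
        ((1 / (m : ℝ)) * ∑ j ∈ range m, ∑ s : S,
          ‖∑ x, vv p ((k : ℕ) + 1) (dg p o i) j x *
            (g (s, x)).eval (zz (p ^ 8) (k : ℕ) (i / p ^ 8))‖ ^ 2) ≤
      2000 * ∑ a, nsq (g a) := by
  have hm' : (0 : ℝ) < m := by exact_mod_cast hm
  have hp0 : 0 < p := (Fact.out : p.Prime).pos
  have hM0 : 0 < p ^ 8 := by positivity
  have hp' : (0 : ℝ) < p := by exact_mod_cast hp0
  have ho4 : o ≤ 4 := by rcases ho with h | h <;> omega
  have hM2 : 2 ≤ p ^ 8 := by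
    have h1 : 2 ≤ p := (Fact.out : p.Prime).two_le
    calc 2 ≤ p := h1
      _ = p ^ 1 := (pow_one p).symm
      _ ≤ p ^ 8 := Nat.pow_le_pow_right hp0 (by norm_num)
  have hcast : ∀ k : ℕ, (((p ^ 8 : ℕ) : ℝ)) ^ k = ((p : ℝ) ^ 8) ^ k := by
    intro k; push_cast; rfl
  -- the weights
  set w : ℕ → ℕ → ℕ → ℝ := fun k j c =>
    ‖f.eval (zz (p ^ 8) (k + 1) (p ^ 8 * j + c)) - f.eval (zz (p ^ 8) k j)‖ ^ 2 with hw
  have hw0 : ∀ k j c, 0 ≤ w k j c := fun k j c => sq_nonneg _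
  have hw4 : ∀ k j c, w k j c ≤ 4 := by
    intro k j c
    have h1 := hf _ (norm_zz_le (p ^ 8) (k + 1) (p ^ 8 * j + c))
    have h2 := hf _ (norm_zz_le (p ^ 8) k j)
    have h3 : ‖f.eval (zz (p ^ 8) (k + 1) (p ^ 8 * j + c)) - f.eval (zz (p ^ 8) k j)‖ ≤ 2 := by
      refine (norm_sub_le _ _).trans ?_
      linarith
    calc w k j c ≤ 2 ^ 2 := pow_le_pow_left₀ (norm_nonneg _) h3 2
      _ = 4 := by norm_num
  set Gs : ℕ → ℕ → ℝ := fun k j => ∑ a, ‖(g a).eval (zz (p ^ 8) k j)‖ ^ 2 with hGs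
  -- one level
  have hlevel : ∀ k : ℕ, ∑ i ∈ range ((p ^ 8) ^ (k + 1)),
      ‖f.eval (zz (p ^ 8) (k + 1) i) - f.eval (zz (p ^ 8) k (i / p ^ 8))‖ ^ 2 *
        ((1 / (m : ℝ)) * ∑ j ∈ range m, ∑ s : S,
          ‖∑ x, vv p (k + 1) (dg p o i) j x *
            (g (s, x)).eval (zz (p ^ 8) k (i / p ^ 8))‖ ^ 2) ≤
      ∑ j ∈ range ((p ^ 8) ^ k), (2 * (∑ c ∈ range (p ^ 8), w k j c) * Gs k j +
        4 * (p : ℝ) ^ 8 * Gs k j / m) := by
    intro k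
    rw [pow_succ, D1_sum_range_mul]
    refine Finset.sum_le_sum fun j _ => ?_
    have h1 := child_row p hp m hm hmp (k + 1) o ho
      (fun s x => (g (s, x)).eval (zz (p ^ 8) k j)) (w k j) (hw0 k j) (hw4 k j)
    have h2 : ∑ s, sq ((fun (s : S) (x : ZMod p) => (g (s, x)).eval (zz (p ^ 8) k j)) s) =
        Gs k j := by
      simp only [hGs, sq]
      rw [Fintype.sum_prod_type]
    rw [h2] at h1
    refine le_trans (le_of_eq ?_) h1
    refine Finset.sum_congr rfl fun c hc => ?_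
    have hc' : c < p ^ 8 := Finset.mem_range.1 hc
    have h3 : (p ^ 8 * j + c) / p ^ 8 = j := by
      rw [Nat.mul_add_div hM0, Nat.div_eq_of_lt hc', add_zero]
    rw [h3, dg_add p o j c ho4]
  have hA6 : ∀ a, ∑ k : Fin m, (1 / ((p : ℝ) ^ 8) ^ ((k : ℕ) + 1)) *
      ∑ j ∈ range ((p ^ 8) ^ (k : ℕ)), (∑ c ∈ range (p ^ 8), w k j c) *
        ‖(g a).eval (zz (p ^ 8) k j)‖ ^ 2 ≤ 800 * nsq (g a) := by
    intro a
    refine le_trans (le_of_eq ?_) (square_fun_mul (p ^ 8) m hM2 f (g a) hf)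
    refine Finset.sum_congr rfl fun k _ => ?_
    rw [hcast, pow_succ (p ^ 8) (k : ℕ), D1_sum_range_mul]
    congr 1
    refine Finset.sum_congr rfl fun j _ => ?_
    rw [Finset.sum_mul]
    refine Finset.sum_congr rfl fun c hc => ?_
    have hc' : c < p ^ 8 := Finset.mem_range.1 hc
    have h3 : (p ^ 8 * j + c) / p ^ 8 = j := by
      rw [Nat.mul_add_div hM0, Nat.div_eq_of_lt hc', add_zero]
    rw [h3]
  have hA1 : ∀ (k : ℕ) a, ∑ j ∈ range ((p ^ 8) ^ k), ‖(g a).eval (zz (p ^ 8) k j)‖ ^ 2 ≤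
      2 * ((p : ℝ) ^ 8) ^ k * nsq (g a) := by
    intro k a
    have h1 := level_bound (p ^ 8) k (by omega) (g a)
    rw [hcast] at h1
    exact h1
  -- assembly
  calc ∑ k : Fin m, (1 / ((p : ℝ) ^ 8) ^ ((k : ℕ) + 1)) * ∑ i ∈ range ((p ^ 8) ^ ((k : ℕ) + 1)),
      ‖f.eval (zz (p ^ 8) ((k : ℕ) + 1) i) - f.eval (zz (p ^ 8) (k : ℕ) (i / p ^ 8))‖ ^ 2 *
        ((1 / (m : ℝ)) * ∑ j ∈ range m, ∑ s : S,
          ‖∑ x, vv p ((k : ℕ) + 1) (dg p o i) j x *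
            (g (s, x)).eval (zz (p ^ 8) (k : ℕ) (i / p ^ 8))‖ ^ 2)
      ≤ ∑ k : Fin m, (1 / ((p : ℝ) ^ 8) ^ ((k : ℕ) + 1)) *
        ∑ j ∈ range ((p ^ 8) ^ (k : ℕ)), (2 * (∑ c ∈ range (p ^ 8), w k j c) * Gs k j +
          4 * (p : ℝ) ^ 8 * Gs k j / m) := by
        refine Finset.sum_le_sum fun k _ => ?_
        exact mul_le_mul_of_nonneg_left (hlevel k) (by positivity)
    _ = (2 : ℝ) * ∑ a, (∑ k : Fin m, (1 / ((p : ℝ) ^ 8) ^ ((k : ℕ) + 1)) *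
          ∑ j ∈ range ((p ^ 8) ^ (k : ℕ)), (∑ c ∈ range (p ^ 8), w k j c) *
            ‖(g a).eval (zz (p ^ 8) k j)‖ ^ 2) +
        (4 / (m : ℝ)) * ∑ k : Fin m, (1 / ((p : ℝ) ^ 8) ^ (k : ℕ)) *
          ∑ a, ∑ j ∈ range ((p ^ 8) ^ (k : ℕ)), ‖(g a).eval (zz (p ^ 8) k j)‖ ^ 2 := by
        rw [Finset.sum_comm, Finset.mul_sum, Finset.mul_sum, ← Finset.sum_add_distrib]
        refine Finset.sum_congr rfl fun k _ => ?_
        rw [Finset.sum_add_distrib, mul_add]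
        congr 1
        · rw [← Finset.mul_sum, Finset.sum_comm (s := univ), ← mul_assoc, mul_comm (2 : ℝ),
            mul_assoc]
          congr 1
          rw [Finset.mul_sum]
          refine Finset.sum_congr rfl fun j _ => ?_
          rw [← Finset.mul_sum]
          simp only [hGs]
          ring
        · rw [Finset.sum_comm (s := univ)]
          have h4 : ∀ j, 4 * (p : ℝ) ^ 8 * Gs k j / m = (4 * (p : ℝ) ^ 8 / m) * Gs k j := by
            intro j; ring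
          rw [Finset.sum_congr rfl (fun j _ => h4 j), ← Finset.mul_sum, pow_succ]
          simp only [hGs]
          field_simp
    _ ≤ (2 : ℝ) * ∑ a, 800 * nsq (g a) +
        (4 / (m : ℝ)) * ∑ k : Fin m, (1 / ((p : ℝ) ^ 8) ^ (k : ℕ)) *
          ∑ a, 2 * ((p : ℝ) ^ 8) ^ (k : ℕ) * nsq (g a) := by
        gcongr with a _ k _ a _
        · exact hA6 a
        · exact hA1 k a
    _ = 1608 * ∑ a, nsq (g a) := by
        have h5 : ∀ k : Fin m, (1 / ((p : ℝ) ^ 8) ^ (k : ℕ)) *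
            ∑ a, 2 * ((p : ℝ) ^ 8) ^ (k : ℕ) * nsq (g a) = 2 * ∑ a, nsq (g a) := by
          intro k
          rw [← Finset.mul_sum]
          field_simp
        rw [Finset.sum_congr rfl (fun k _ => h5 k), Finset.sum_const, Finset.card_univ,
          Fintype.card_fin, nsmul_eq_mul, ← Finset.mul_sum]
        field_simp
        ring
    _ ≤ 2000 * ∑ a, nsq (g a) := by
        have h6 : 0 ≤ ∑ a, nsq (g a) :=
          Finset.sum_nonneg fun a _ => Finset.sum_nonneg fun _ _ => sq_nonneg _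
        nlinarith

end PB
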