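import Pool.Agent.Helper89.PB.Defs
import Pool.Agent.Helper89.PB.D1
import Pool.Agent.Helper89.PB.F4
import Pool.Agent.Helper89.PB.F5
import Pool.Agent.Helper89.PB.C1
import Pool.Agent.Helper89.PB.R0

namespace PB

open Finset Polynomial

theorem G1_aeval_diag {ι : Type*} [Fintype ι] [DecidableEq ι] (d : ι → ℂ) (q : ℂ[X]) :
    aeval (Matrix.diagonal d) q = Matrix.diagonal (fun i => q.eval (d i)) := by
  induction q using Polynomial.induction_on' with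
  | add p q hp hq =>
    rw [map_add, hp, hq, Matrix.diagonal_add]
    congr 1
    funext i
    simp
  | monomial n a =>
    rw [aeval_monomial, Matrix.diagonal_pow]
    ext i j
    rw [Matrix.algebraMap_eq_diagonal, Matrix.diagonal_mul_diagonal]
    simp [Matrix.diagonal_apply]

/-- Vectors of the form `W u`. -/
noncomputable def G1_Y (p m : ℕ) [NeZero p] (H : Fin m → ℕ → Sp m × ZMod p → ℂ) : I2 p m → ℂ :=
  fun a => ((Real.sqrt (1 / (((p : ℝ) ^ 8) ^ ((a.1 : ℕ) + 1))) : ℝ) : ℂ) *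
    ((Real.sqrt (1 / (m : ℝ)) : ℝ) : ℂ) * ∑ s : Sp m, Cl a.1 a.2.2.1 s * ∑ x : ZMod p,
    vv p ((a.1 : ℕ) + 1) (dg p 0 (a.2.1 : ℕ)) (a.2.2.2 : ℕ) x * H a.1 (a.2.1 : ℕ) (s, x)

theorem G1_sq_Y (p m : ℕ) [NeZero p] (H : Fin m → ℕ → Sp m × ZMod p → ℂ) :
    sq (G1_Y p m H) = ∑ k : Fin m, (1 / ((p : ℝ) ^ 8) ^ ((k : ℕ) + 1)) *
      ∑ i ∈ range ((p ^ 8) ^ ((k : ℕ) + 1)), ((1 / (m : ℝ)) * ∑ j ∈ range m, ∑ s : Sp m,
        ‖∑ x, vv p ((k : ℕ) + 1) (dg p 0 i) j x * H k i (s, x)‖ ^ 2) := by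
  unfold sq
  rw [Fintype.sum_sigma]
  refine sum_congr rfl fun k _ => ?_
  rw [Fintype.sum_prod_type, mul_sum, ← Fin.sum_univ_eq_sum_range (fun i =>
    (1 / ((p : ℝ) ^ 8) ^ ((k : ℕ) + 1)) * ((1 / (m : ℝ)) * ∑ j ∈ range m, ∑ s : Sp m,
        ‖∑ x, vv p ((k : ℕ) + 1) (dg p 0 i) j x * H k i (s, x)‖ ^ 2))]
  refine sum_congr rfl fun i _ => ?_
  rw [Fintype.sum_prod_type, sum_comm, ← mul_assoc, mul_sum, ← Fin.sum_univ_eq_sum_range (fun j =>
    1 / ((p : ℝ) ^ 8) ^ ((k : ℕ) + 1) * (1 / (m : ℝ)) * ∑ s : Sp m,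
        ‖∑ x, vv p ((k : ℕ) + 1) (dg p 0 i) j x * H k i (s, x)‖ ^ 2)]
  refine sum_congr rfl fun j _ => ?_
  have h := Cl_iso k (fun s => ∑ x, vv p ((k : ℕ) + 1) (dg p 0 i) j x * H k i (s, x))
  unfold sq at h
  rw [← h, mul_sum]
  refine sum_congr rfl fun s' _ => ?_
  unfold G1_Y
  rw [norm_mul, norm_mul, mul_pow, mul_pow, Complex.norm_real, Complex.norm_real,
    Real.norm_of_nonneg (Real.sqrt_nonneg _), Real.norm_of_nonneg (Real.sqrt_nonneg _),
    Real.sq_sqrt (by positivity), Real.sq_sqrt (by positivity)]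

theorem G1_WW (p m N : ℕ) [NeZero p] (u : Fin N × (Sp m × ZMod p) → ℂ) :
    (WW p m N).mulVec u = G1_Y p m (fun k i b => ∑ n : Fin N,
      u (n, b) * zz (p ^ 8) (k : ℕ) (i / p ^ 8) ^ (n : ℕ)) := by
  funext a
  simp only [Matrix.mulVec, dotProduct, WW, G1_Y, Fintype.sum_prod_type, mul_sum]
  rw [sum_comm]
  refine sum_congr rfl fun s _ => ?_
  rw [sum_comm]
  refine sum_congr rfl fun x _ => sum_congr rfl fun n _ => ?_
  ring

theorem G1_Y_add (p m : ℕ) [NeZero p] (H K : Fin m → ℕ → Sp m × ZMod p → ℂ) (a : I2 p m) :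
    G1_Y p m (fun k i b => H k i b + K k i b) a = G1_Y p m H a + G1_Y p m K a := by
  unfold G1_Y
  rw [← mul_add, ← sum_add_distrib]
  congr 1
  refine sum_congr rfl fun s _ => ?_
  rw [← mul_add, ← sum_add_distrib]
  congr 1
  refine sum_congr rfl fun x _ => ?_
  ring

theorem G1_norm_add (a b : ℂ) :
    ‖a + b‖ ^ 2 ≤ (103 / 100) * ‖a‖ ^ 2 + (103 / 3) * ‖b‖ ^ 2 := by
  have h := norm_add_le a b
  have h0 := norm_nonneg (a + b)
  have h1 : ‖a + b‖ ^ 2 ≤ (‖a‖ + ‖b‖) ^ 2 := pow_le_pow_left₀ h0 h 2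
  nlinarith [sq_nonneg (3 * ‖a‖ - 100 * ‖b‖)]

theorem G1_Y_mul (p m : ℕ) [NeZero p] (c : Fin m → ℕ → ℂ) (H : Fin m → ℕ → Sp m × ZMod p → ℂ)
    (a : I2 p m) :
    c a.1 (a.2.1 : ℕ) * G1_Y p m H a = G1_Y p m (fun k i b => c k i * H k i b) a := by
  unfold G1_Y
  simp only [mul_sum]
  refine sum_congr rfl fun s _ => sum_congr rfl fun x _ => ?_
  ring

theorem G1_sq_le_pow (n : ℕ) (hn : 4 ≤ n) : n ^ 2 ≤ 2 ^ n := by
  induction n, hn using Nat.le_induction with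
  | base => norm_num
  | succ n hn ih =>
    rw [pow_succ 2 n]
    nlinarith

theorem G1_numerics (p m : ℕ) (hp : 101 ≤ p) (hm : 1 ≤ m) :
    (m : ℝ) * (p * (rr ((p ^ 8) ^ m) ^ (2 * ((p ^ 8) ^ m) ^ 2) / (1 - rr ((p ^ 8) ^ m) ^ 2)))
      ≤ 1 := by
  have hpA : p ≤ (p ^ 8) ^ m := by
    calc p ≤ p ^ 8 := Nat.le_self_pow (by norm_num) p
      _ ≤ (p ^ 8) ^ m := Nat.le_self_pow (by omega) _
  have hmA : m ≤ (p ^ 8) ^ m := by
    calc m ≤ 2 ^ m := Nat.lt_two_pow_self.le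
      _ ≤ (p ^ 8) ^ m := Nat.pow_le_pow_left (by
          calc 2 ≤ p := by omega
            _ ≤ p ^ 8 := Nat.le_self_pow (by norm_num) p) m
  generalize (p ^ 8) ^ m = A at *
  have hA1 : 1 ≤ A := by omega
  have h1 := rr_pow A hA1
  have h2 := one_sub_rr A hA1
  have h3 := rr_pos A
  have h4 := rr_le_one A
  have hAR : (0 : ℝ) < A := by exact_mod_cast hA1
  have e1 : rr A ^ (2 * A ^ 2) = 1 / 4 ^ A := by
    have : 2 * A ^ 2 = A * (2 * A) := by ring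
    rw [this, pow_mul, h1, pow_mul, one_div (4 ^ A), ← inv_pow]
    norm_num
  rw [e1]
  have h5 : 1 / (2 * (A : ℝ)) ≤ 1 - rr A ^ 2 := by nlinarith
  have h6 : (0 : ℝ) < 1 / (2 * (A : ℝ)) := by positivity
  have h7 : (1 : ℝ) / 4 ^ A / (1 - rr A ^ 2) ≤ 1 / 4 ^ A / (1 / (2 * (A : ℝ))) := by
    gcongr
  have h8 : (2 : ℝ) * A ^ 3 ≤ 4 ^ A := by
    have h9 : (A : ℝ) ^ 2 ≤ 2 ^ A := by exact_mod_cast G1_sq_le_pow A (by omega)
    have h10 : (4 : ℝ) ^ A = 2 ^ A * 2 ^ A := by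
      rw [← mul_pow]
      norm_num
    have h11 : (2 : ℝ) ≤ A := by exact_mod_cast (by omega : 2 ≤ A)
    calc (2 : ℝ) * (A : ℝ) ^ 3 ≤ (A : ℝ) * (A : ℝ) ^ 3 :=
          mul_le_mul_of_nonneg_right h11 (by positivity)
      _ = (A : ℝ) ^ 2 * (A : ℝ) ^ 2 := by ring
      _ ≤ (2 : ℝ) ^ A * (2 : ℝ) ^ A := mul_le_mul h9 h9 (by positivity) (by positivity)
      _ = (4 : ℝ) ^ A := h10.symm
  have hpR : (p : ℝ) ≤ A := by exact_mod_cast hpA
  have hmR : (m : ℝ) ≤ A := by exact_mod_cast hmA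
  have h4A : (0 : ℝ) < 4 ^ A := by positivity
  have h12 : 0 ≤ 1 / 4 ^ A / (1 - rr A ^ 2) := div_nonneg (by positivity) (h6.le.trans h5)
  calc (m : ℝ) * (p * (1 / 4 ^ A / (1 - rr A ^ 2)))
      ≤ A * (A * (1 / 4 ^ A / (1 / (2 * (A : ℝ))))) := by gcongr
    _ = (2 * A ^ 3) / 4 ^ A := by
        field_simp
    _ ≤ 1 := by
        rw [div_le_one h4A]
        exact h8

theorem bound_X (p : ℕ) [Fact p.Prime] (hp : 101 ≤ p) (m : ℕ) (hmp : 4 * m ^ 8 ≤ p) (hm : 1 ≤ m)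
    (N : ℕ) (hN : N = ((p ^ 8) ^ m) ^ 2) (q : ℂ[X]) (hq : Bdd1 q) :
    MB (aeval (DD p m) q * WW p m N - WW p m N * aeval (Sh N (Sp m × ZMod p)) q) 46 := by
  intro v
  have hp0 : 0 < p := by omega
  have hmp' : m ≤ p := by
    have : m ≤ m ^ 8 := Nat.le_self_pow (by norm_num) m
    omega
  have hA1 : 1 ≤ (p ^ 8) ^ m := Nat.one_le_pow _ _ (by positivity)
  obtain ⟨HA, hHA⟩ : ∃ HA : Fin m → ℕ → Sp m × ZMod p → ℂ, HA = fun (k : Fin m) i b =>
    (q.eval (zz (p ^ 8) ((k : ℕ) + 1) i) - q.eval (zz (p ^ 8) (k : ℕ) (i / p ^ 8))) *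
      (pol v b).eval (zz (p ^ 8) (k : ℕ) (i / p ^ 8)) := ⟨_, rfl⟩
  obtain ⟨HB, hHB⟩ : ∃ HB : Fin m → ℕ → Sp m × ZMod p → ℂ, HB = fun (k : Fin m) i b =>
    (q * pol v b).eval (zz (p ^ 8) (k : ℕ) (i / p ^ 8)) -
      ∑ n ∈ range N, (q * pol v b).coeff n * zz (p ^ 8) (k : ℕ) (i / p ^ 8) ^ n := ⟨_, rfl⟩
  have hX : ∀ a, (aeval (DD p m) q * WW p m N -
      WW p m N * aeval (Sh N (Sp m × ZMod p)) q).mulVec v a =
      G1_Y p m HA a + G1_Y p m HB a := by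
    intro a
    rw [Matrix.sub_mulVec, Pi.sub_apply, ← Matrix.mulVec_mulVec, ← Matrix.mulVec_mulVec, G1_WW,
      G1_WW]
    unfold DD
    rw [G1_aeval_diag, Matrix.mulVec_diagonal,
      G1_Y_mul p m (fun k i => q.eval (zz (p ^ 8) ((k : ℕ) + 1) i)), sub_eq_iff_eq_add,
      ← G1_Y_add, ← G1_Y_add]
    congr 1
    funext k i b
    have e1 : ∑ n : Fin N, v (n, b) * zz (p ^ 8) (k : ℕ) (i / p ^ 8) ^ (n : ℕ) =
        (pol v b).eval (zz (p ^ 8) (k : ℕ) (i / p ^ 8)) := by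
      unfold pol
      rw [eval_finsetSum]
      refine sum_congr rfl fun n _ => ?_
      simp
    have e2 : ∑ n : Fin N, (aeval (Sh N (Sp m × ZMod p)) q).mulVec v (n, b) *
        zz (p ^ 8) (k : ℕ) (i / p ^ 8) ^ (n : ℕ) =
        ∑ n ∈ range N, (q * pol v b).coeff n * zz (p ^ 8) (k : ℕ) (i / p ^ 8) ^ n := by
      rw [← Fin.sum_univ_eq_sum_range (fun n => (q * pol v b).coeff n *
        zz (p ^ 8) (k : ℕ) (i / p ^ 8) ^ n)]
      refine sum_congr rfl fun n _ => ?_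
      rw [shift_apply]
    rw [e1, e2, hHA, hHB]
    simp only [eval_mul]
    ring
  have hA : sq (G1_Y p m HA) ≤ 2000 * sq v := by
    rw [G1_sq_Y, ← sum_nsq_pol N v]
    refine le_trans (le_of_eq ?_) (row_bound p (by omega) m hm hmp' 0 (Or.inl rfl) q hq (pol v))
    refine sum_congr rfl fun k _ => ?_
    congr 1
    refine sum_congr rfl fun i _ => ?_
    rw [mul_left_comm]
    congr 1
    rw [mul_sum]
    refine sum_congr rfl fun j _ => ?_
    rw [mul_sum]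
    refine sum_congr rfl fun s _ => ?_
    rw [← mul_pow, ← norm_mul, mul_sum, hHA]
    congr 2
    refine sum_congr rfl fun x _ => ?_
    ring
  have hB : sq (G1_Y p m HB) ≤ 1 * sq v := by
    have hr1 := rr_lt_one _ hA1
    have htail : ∀ (k : Fin m) (i : ℕ), ∑ b, ‖HB k i b‖ ^ 2 ≤
        rr ((p ^ 8) ^ m) ^ (2 * N) / (1 - rr ((p ^ 8) ^ m) ^ 2) * sq v := by
      intro k i
      rw [← sum_nsq_pol N v, hHB]
      apply tail_bound N q hq (pol v) _ _ hr1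
      unfold zz
      rw [norm_mul, norm_rt, mul_one, Complex.norm_real, Real.norm_of_nonneg (rr_pos _).le]
      apply rr_mono
      · exact Nat.one_le_pow _ _ (by positivity)
      · exact Nat.pow_le_pow_right (by positivity) k.2.le
    obtain ⟨t, ht⟩ : ∃ t, t = rr ((p ^ 8) ^ m) ^ (2 * N) / (1 - rr ((p ^ 8) ^ m) ^ 2) := ⟨_, rfl⟩
    rw [← ht] at htail
    have hsv : 0 ≤ sq v := sum_nonneg fun _ _ => by positivity
    rw [G1_sq_Y]
    calc _ ≤ ∑ k : Fin m, (1 / ((p : ℝ) ^ 8) ^ ((k : ℕ) + 1)) *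
          ∑ i ∈ range ((p ^ 8) ^ ((k : ℕ) + 1)), (p * (t * sq v)) := by
          refine sum_le_sum fun k _ => mul_le_mul_of_nonneg_left (sum_le_sum fun i _ => ?_)
            (by positivity)
          have hm0 : (0 : ℝ) < m := by exact_mod_cast hm
          rw [one_div, inv_mul_le_iff₀ hm0]
          calc ∑ j ∈ range m, ∑ s : Sp m,
                ‖∑ x, vv p ((k : ℕ) + 1) (dg p 0 i) j x * HB k i (s, x)‖ ^ 2
              ≤ ∑ j ∈ range m, ∑ s : Sp m, (p * ∑ x, ‖HB k i (s, x)‖ ^ 2) := by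
                refine sum_le_sum fun j _ => sum_le_sum fun s _ => ?_
                have h1 : ‖∑ x, vv p ((k : ℕ) + 1) (dg p 0 i) j x * HB k i (s, x)‖ ≤
                    ∑ x, ‖HB k i (s, x)‖ := by
                  refine (norm_sum_le _ _).trans (le_of_eq (sum_congr rfl fun x _ => ?_))
                  rw [norm_mul]
                  unfold vv
                  rw [AddChar.norm_apply, one_mul]
                calc ‖∑ x, vv p ((k : ℕ) + 1) (dg p 0 i) j x * HB k i (s, x)‖ ^ 2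
                    ≤ (∑ x, ‖HB k i (s, x)‖) ^ 2 := pow_le_pow_left₀ (norm_nonneg _) h1 2
                  _ ≤ (univ : Finset (ZMod p)).card * ∑ x, ‖HB k i (s, x)‖ ^ 2 :=
                      sq_sum_le_card_mul_sum_sq
                  _ = _ := by rw [card_univ, ZMod.card]
            _ = m * (p * ∑ b, ‖HB k i b‖ ^ 2) := by
                rw [sum_const, card_range, nsmul_eq_mul, ← mul_sum, Fintype.sum_prod_type]
            _ ≤ m * (p * (t * sq v)) := by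
                have := htail k i
                gcongr
      _ = ∑ k : Fin m, (p * (t * sq v)) := by
          refine sum_congr rfl fun k _ => ?_
          rw [sum_const, card_range, nsmul_eq_mul]
          push_cast
          have : ((p : ℝ) ^ 8) ^ ((k : ℕ) + 1) ≠ 0 := by positivity
          field_simp
      _ = (m * (p * t)) * sq v := by
          rw [sum_const, card_univ, Fintype.card_fin, nsmul_eq_mul]
          ring
      _ ≤ 1 * sq v := by
          apply mul_le_mul_of_nonneg_right _ hsv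
          rw [ht, hN]
          exact G1_numerics p m hp hm
  have hsv : 0 ≤ sq v := sum_nonneg fun _ _ => by positivity
  calc sq _ = ∑ a, ‖G1_Y p m HA a + G1_Y p m HB a‖ ^ 2 := by
        unfold sq
        exact sum_congr rfl fun a _ => by rw [hX a]
    _ ≤ ∑ a, ((103 / 100) * ‖G1_Y p m HA a‖ ^ 2 + (103 / 3) * ‖G1_Y p m HB a‖ ^ 2) :=
        sum_le_sum fun a _ => G1_norm_add _ _
    _ = (103 / 100) * sq (G1_Y p m HA) + (103 / 3) * sq (G1_Y p m HB) := by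
        unfold sq
        rw [sum_add_distrib, mul_sum, mul_sum]
    _ ≤ (103 / 100) * (2000 * sq v) + (103 / 3) * (1 * sq v) := by gcongr
    _ ≤ 46 ^ 2 * sq v := by nlinarith

end PB
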