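import Pool.Agent.Helper89.PB.Defs
import Pool.Agent.Helper89.PB.D1
import Pool.Agent.Helper89.PB.F4
import Pool.Agent.Helper89.PB.F5
import Pool.Agent.Helper89.PB.F0
import Pool.Agent.Helper89.PB.R0

namespace PB

open Finset Polynomial

/-- the constant of a node -/
noncomputable def G2_c (p m k : ℕ) : ℂ :=
  ((Real.sqrt (1 / (((p : ℝ) ^ 8) ^ (k + 1))) : ℝ) : ℂ) * ((Real.sqrt (1 / (m : ℝ)) : ℝ) : ℂ)

theorem G2_norm_c (p m k : ℕ) : ‖G2_c p m k‖ ^ 2 = 1 / ((p : ℝ) ^ 8) ^ (k + 1) * (1 / (m : ℝ)) := by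
  unfold G2_c
  rw [norm_mul, mul_pow, Complex.norm_real, Complex.norm_real, Real.norm_eq_abs, Real.norm_eq_abs,
    sq_abs, sq_abs, Real.sq_sqrt (by positivity), Real.sq_sqrt (by positivity)]

theorem G2_eval_pol {N : ℕ} {α : Type*} (v : Fin N × α → ℂ) (a : α) (z : ℂ) :
    (pol v a).eval z = ∑ n : Fin N, v (n, a) * z ^ (n : ℕ) := by
  unfold pol
  rw [Polynomial.eval_finsetSum]
  simp

theorem G2_V (p m N : ℕ) [NeZero p] (v : Fin N × (Sp m × ZMod p) → ℂ) (k : Fin m)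
    (i : Fin ((p ^ 8) ^ ((k : ℕ) + 1))) (s' : Sp m) (j : Fin m) :
    (VV p m N).transpose.mulVec v ⟨k, (i, s', j)⟩ =
      G2_c p m k * ∑ x : ZMod p, vv p ((k : ℕ) + 1) (dg p 4 (i : ℕ)) (j : ℕ) x *
          (∑ n : Fin N, v (n, (s', x)) * zz (p ^ 8) (k : ℕ) ((i : ℕ) / p ^ 8) ^ (n : ℕ)) := by
  have h0 : (VV p m N).transpose.mulVec v ⟨k, (i, s', j)⟩ =
      ∑ b : Fin N × (Sp m × ZMod p), VV p m N b ⟨k, (i, s', j)⟩ * v b := rfl
  rw [h0, Fintype.sum_prod_type_right, Fintype.sum_prod_type, Finset.sum_eq_single s']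
  · rw [Finset.mul_sum]
    refine Finset.sum_congr rfl fun x _ => ?_
    rw [Finset.mul_sum, Finset.mul_sum]
    refine Finset.sum_congr rfl fun n _ => ?_
    simp only [VV, G2_c, if_true]
    ring
  · intro s _ hs
    refine Finset.sum_eq_zero fun x _ => Finset.sum_eq_zero fun n _ => ?_
    simp only [VV, if_neg (Ne.symm hs)]
    ring
  · intro h
    exact absurd (Finset.mem_univ _) h

theorem G2_norm_vv (p : ℕ) [NeZero p] (k : ℕ) (a : Fin 4 → ZMod p) (j : ℕ) (x : ZMod p) :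
    ‖vv p k a j x‖ = 1 := by
  unfold vv
  exact AddChar.norm_apply _ _

theorem G2_two (a b : ℂ) : ‖a + b‖ ^ 2 ≤ 45 / 44 * ‖a‖ ^ 2 + 45 * ‖b‖ ^ 2 := by
  have h1 : ‖a + b‖ ^ 2 ≤ (‖a‖ + ‖b‖) ^ 2 :=
    pow_le_pow_left₀ (norm_nonneg _) (norm_add_le a b) 2
  nlinarith [sq_nonneg (‖a‖ - 44 * ‖b‖)]

theorem G2_cs (p : ℕ) [NeZero p] (k : ℕ) (a : Fin 4 → ZMod p) (j : ℕ) (T : ZMod p → ℂ) :
    ‖∑ x : ZMod p, vv p k a j x * T x‖ ^ 2 ≤ p * ∑ x, ‖T x‖ ^ 2 := by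
  have h1 : ‖∑ x : ZMod p, vv p k a j x * T x‖ ≤ ∑ x, ‖T x‖ := by
    refine (norm_sum_le _ _).trans (le_of_eq ?_)
    refine Finset.sum_congr rfl fun x _ => ?_
    rw [norm_mul, G2_norm_vv, one_mul]
  calc ‖∑ x : ZMod p, vv p k a j x * T x‖ ^ 2 ≤ (∑ x, ‖T x‖) ^ 2 :=
        pow_le_pow_left₀ (norm_nonneg _) h1 2
    _ ≤ (Finset.univ : Finset (ZMod p)).card * ∑ x, ‖T x‖ ^ 2 := sq_sum_le_card_mul_sum_sq
    _ = p * ∑ x, ‖T x‖ ^ 2 := by rw [Finset.card_univ, ZMod.card]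

theorem G2_node (p m : ℕ) [NeZero p] (hm : 1 ≤ m) (k i : ℕ) (α : ℂ) (G T : Sp m × ZMod p → ℂ) :
    ∑ s' : Sp m, ∑ j : Fin m, ‖G2_c p m k * ∑ x : ZMod p, vv p (k + 1) (dg p 4 i) (j : ℕ) x *
        (α * G (s', x) + T (s', x))‖ ^ 2 ≤
      45 / 44 * ((1 / ((p : ℝ) ^ 8) ^ (k + 1)) * (‖α‖ ^ 2 * ((1 / (m : ℝ)) * ∑ j ∈ range m,
        ∑ s : Sp m, ‖∑ x, vv p (k + 1) (dg p 4 i) j x * G (s, x)‖ ^ 2))) +
      45 * ((1 / ((p : ℝ) ^ 8) ^ (k + 1)) * (p * ∑ a, ‖T a‖ ^ 2)) := by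
  have hm0 : (0 : ℝ) < m := by exact_mod_cast hm
  set w : ℝ := 1 / ((p : ℝ) ^ 8) ^ (k + 1) with hw
  have hw0 : 0 ≤ w := by positivity
  have h1 : ∀ (s' : Sp m) (j : Fin m),
      ‖G2_c p m k * ∑ x : ZMod p, vv p (k + 1) (dg p 4 i) (j : ℕ) x *
        (α * G (s', x) + T (s', x))‖ ^ 2 ≤
      w * (1 / (m : ℝ)) * (45 / 44 * (‖α‖ ^ 2 *
        ‖∑ x, vv p (k + 1) (dg p 4 i) (j : ℕ) x * G (s', x)‖ ^ 2) +
        45 * (p * ∑ x, ‖T (s', x)‖ ^ 2)) := by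
    intro s' j
    rw [norm_mul, mul_pow, G2_norm_c]
    refine mul_le_mul_of_nonneg_left ?_ (by positivity)
    have e : ∑ x : ZMod p, vv p (k + 1) (dg p 4 i) (j : ℕ) x * (α * G (s', x) + T (s', x)) =
        α * (∑ x, vv p (k + 1) (dg p 4 i) (j : ℕ) x * G (s', x)) +
          ∑ x, vv p (k + 1) (dg p 4 i) (j : ℕ) x * T (s', x) := by
      rw [Finset.mul_sum, ← Finset.sum_add_distrib]
      refine Finset.sum_congr rfl fun x _ => ?_
      ring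
    rw [e]
    refine (G2_two _ _).trans ?_
    rw [norm_mul, mul_pow]
    gcongr
    exact G2_cs p (k + 1) (dg p 4 i) j (fun x => T (s', x))
  refine (Finset.sum_le_sum fun s' _ => Finset.sum_le_sum fun j _ => h1 s' j).trans (le_of_eq ?_)
  have e2 : ∑ s' : Sp m, ∑ j : Fin m, ‖∑ x, vv p (k + 1) (dg p 4 i) (j : ℕ) x * G (s', x)‖ ^ 2 =
      ∑ j ∈ range m, ∑ s : Sp m, ‖∑ x, vv p (k + 1) (dg p 4 i) j x * G (s, x)‖ ^ 2 := by
    rw [Finset.sum_comm, Finset.sum_range]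
  have e3 : ∑ a, ‖T a‖ ^ 2 = ∑ s' : Sp m, ∑ x, ‖T (s', x)‖ ^ 2 := Fintype.sum_prod_type _
  simp only [mul_add, Finset.sum_add_distrib, ← Finset.mul_sum, Finset.sum_const, Finset.card_univ,
    Fintype.card_fin, nsmul_eq_mul]
  rw [e2, e3]
  field_simp

theorem G2_num (p m : ℕ) (hp : 101 ≤ p) (hmp : 4 * m ^ 8 ≤ p) (hm : 1 ≤ m) (N : ℕ)
    (hN : N = ((p ^ 8) ^ m) ^ 2) :
    (m : ℝ) * (p * (rr ((p ^ 8) ^ m) ^ (2 * N) / (1 - rr ((p ^ 8) ^ m) ^ 2))) ≤ 1 := by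
  set A := (p ^ 8) ^ m with hA
  have hA1 : 1 ≤ A := Nat.one_le_iff_ne_zero.mpr (by positivity)
  have hmp2 : m ≤ p := by
    have h1 : m ≤ m ^ 8 := Nat.le_self_pow (by norm_num) m
    omega
  have hmpA : m * p ≤ A := by
    calc m * p ≤ p * p := Nat.mul_le_mul_right p hmp2
      _ = p ^ 2 := (pow_two p).symm
      _ ≤ p ^ 8 := Nat.pow_le_pow_right (by omega) (by norm_num)
      _ ≤ (p ^ 8) ^ m := Nat.le_self_pow (by omega) _
  have h4 : 2 * A * A ≤ 4 ^ A := by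
    have h1 : A + 1 ≤ 2 ^ A := Nat.lt_two_pow_self
    have h2 : 2 * A ≤ 2 ^ A := by
      obtain ⟨B, hB⟩ : ∃ B, A = B + 1 := ⟨A - 1, by omega⟩
      rw [hB, pow_succ]
      have h3 : B + 1 ≤ 2 ^ B := Nat.lt_two_pow_self
      omega
    calc 2 * A * A ≤ 2 ^ A * 2 ^ A := Nat.mul_le_mul h2 (by omega)
      _ = 4 ^ A := by
          rw [← mul_pow]
          norm_num
  have hr := rr_pow A hA1
  have hr0 := rr_pos A
  have hr1 := rr_lt_one A hA1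
  have h5 : rr A ^ (2 * N) = 1 / 4 ^ A := by
    rw [hN, show 2 * A ^ 2 = A * (2 * A) by ring, pow_mul, hr, pow_mul,
      show ((1 : ℝ) / 2) ^ 2 = 1 / 4 by norm_num, one_div_pow]
  have h6 : 1 / (2 * (A : ℝ)) ≤ 1 - rr A ^ 2 := by
    have h7 := one_sub_rr A hA1
    nlinarith
  have hAr : (1 : ℝ) ≤ A := by exact_mod_cast hA1
  have h8 : rr A ^ (2 * N) / (1 - rr A ^ 2) ≤ 2 * A / 4 ^ A := by
    rw [h5]
    calc 1 / (4 : ℝ) ^ A / (1 - rr A ^ 2) ≤ 1 / (4 : ℝ) ^ A / (1 / (2 * (A : ℝ))) := by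
          apply div_le_div_of_nonneg_left (by positivity) (by positivity) h6
      _ = 2 * A / 4 ^ A := by field_simp
  calc (m : ℝ) * (p * (rr A ^ (2 * N) / (1 - rr A ^ 2))) ≤ m * (p * (2 * A / 4 ^ A)) := by gcongr
    _ = (m * p) * (2 * A) / 4 ^ A := by ring
    _ ≤ A * (2 * A) / 4 ^ A := by
        have : ((m * p : ℕ) : ℝ) ≤ A := by exact_mod_cast hmpA
        push_cast at this
        gcongr
    _ ≤ 1 := by
        rw [div_le_one (by positivity)]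
        have : ((2 * A * A : ℕ) : ℝ) ≤ ((4 ^ A : ℕ) : ℝ) := by exact_mod_cast h4
        push_cast at this
        linarith

theorem bound_Y (p : ℕ) [Fact p.Prime] (hp : 101 ≤ p) (m : ℕ) (hmp : 4 * m ^ 8 ≤ p) (hm : 1 ≤ m)
    (N : ℕ) (hN : N = ((p ^ 8) ^ m) ^ 2) (q : ℂ[X]) (hq : Bdd1 q) :
    MB (VV p m N * aeval (DD p m) q - aeval (Sh N (Sp m × ZMod p)).transpose q * VV p m N) 46 := by
  have hT : VV p m N * aeval (DD p m) q - aeval (Sh N (Sp m × ZMod p)).transpose q * VV p m N =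
      (aeval (DD p m) q * (VV p m N).transpose -
        (VV p m N).transpose * aeval (Sh N (Sp m × ZMod p)) q).transpose := by
    rw [Matrix.transpose_sub, Matrix.transpose_mul, Matrix.transpose_mul,
      Matrix.transpose_transpose, ← F4_aeval_transpose, ← F4_aeval_transpose,
      show (DD p m).transpose = DD p m from Matrix.diagonal_transpose _]
  rw [hT]
  refine MB_transpose _ _ (by norm_num) ?_
  intro v
  set G : Sp m × ZMod p → ℂ[X] := pol v with hG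
  have hsq : sq v = ∑ a, nsq (G a) := (sum_nsq_pol N v).symm
  set r := rr ((p ^ 8) ^ m) with hr
  have hA1 : 1 ≤ (p ^ 8) ^ m := Nat.one_le_iff_ne_zero.mpr (by positivity)
  have hr1 : r < 1 := rr_lt_one _ hA1
  -- the entries
  have hent : ∀ (k : Fin m) (i : Fin ((p ^ 8) ^ ((k : ℕ) + 1))) (s' : Sp m) (j : Fin m),
      (aeval (DD p m) q * (VV p m N).transpose -
        (VV p m N).transpose * aeval (Sh N (Sp m × ZMod p)) q).mulVec v ⟨k, (i, s', j)⟩ =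
      G2_c p m k * ∑ x : ZMod p, vv p ((k : ℕ) + 1) (dg p 4 (i : ℕ)) (j : ℕ) x *
        ((q.eval (zz (p ^ 8) ((k : ℕ) + 1) i) - q.eval (zz (p ^ 8) (k : ℕ) ((i : ℕ) / p ^ 8))) *
          (G (s', x)).eval (zz (p ^ 8) (k : ℕ) ((i : ℕ) / p ^ 8)) +
          ((q * G (s', x)).eval (zz (p ^ 8) (k : ℕ) ((i : ℕ) / p ^ 8)) -
            ∑ n ∈ range N, (q * G (s', x)).coeff n *
              zz (p ^ 8) (k : ℕ) ((i : ℕ) / p ^ 8) ^ n)) := by
    intro k i s' j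
    rw [Matrix.sub_mulVec, Pi.sub_apply, ← Matrix.mulVec_mulVec, ← Matrix.mulVec_mulVec, G2_V]
    have e1 : (aeval (DD p m) q).mulVec ((VV p m N).transpose.mulVec v) ⟨k, (i, s', j)⟩ =
        q.eval (zz (p ^ 8) ((k : ℕ) + 1) i) *
          (VV p m N).transpose.mulVec v ⟨k, (i, s', j)⟩ := by
      unfold DD
      rw [F5_aeval_diag, Matrix.mulVec_diagonal]
    rw [e1, G2_V, mul_left_comm, ← mul_sub]
    congr 1
    rw [Finset.mul_sum, ← Finset.sum_sub_distrib]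
    refine Finset.sum_congr rfl fun x _ => ?_
    rw [mul_left_comm, ← mul_sub]
    congr 1
    rw [← G2_eval_pol v (s', x), Polynomial.eval_mul, Finset.sum_range]
    have e2 : ∑ n : Fin N, (aeval (Sh N (Sp m × ZMod p)) q).mulVec v (n, (s', x)) *
        zz (p ^ 8) (k : ℕ) ((i : ℕ) / p ^ 8) ^ (n : ℕ) =
        ∑ n : Fin N, (q * G (s', x)).coeff n * zz (p ^ 8) (k : ℕ) ((i : ℕ) / p ^ 8) ^ (n : ℕ) := by
      refine Finset.sum_congr rfl fun n _ => ?_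
      rw [shift_apply]
    rw [e2]
    ring
  have hexp : sq ((aeval (DD p m) q * (VV p m N).transpose -
        (VV p m N).transpose * aeval (Sh N (Sp m × ZMod p)) q).mulVec v) =
      ∑ k : Fin m, ∑ i ∈ range ((p ^ 8) ^ ((k : ℕ) + 1)), ∑ s' : Sp m, ∑ j : Fin m,
        ‖G2_c p m k * ∑ x : ZMod p, vv p ((k : ℕ) + 1) (dg p 4 i) (j : ℕ) x *
        ((q.eval (zz (p ^ 8) ((k : ℕ) + 1) i) - q.eval (zz (p ^ 8) (k : ℕ) (i / p ^ 8))) *
          (G (s', x)).eval (zz (p ^ 8) (k : ℕ) (i / p ^ 8)) +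
          ((q * G (s', x)).eval (zz (p ^ 8) (k : ℕ) (i / p ^ 8)) -
            ∑ n ∈ range N, (q * G (s', x)).coeff n *
              zz (p ^ 8) (k : ℕ) (i / p ^ 8) ^ n))‖ ^ 2 := by
    unfold sq
    rw [Fintype.sum_sigma]
    refine Finset.sum_congr rfl fun k _ => ?_
    rw [Fintype.sum_prod_type, Finset.sum_range]
    refine Finset.sum_congr rfl fun i _ => ?_
    rw [Fintype.sum_prod_type]
    refine Finset.sum_congr rfl fun s' _ => Finset.sum_congr rfl fun j _ => ?_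
    rw [hent k i s' j]
  rw [hexp, hsq]
  set Q₀ := ∑ a, nsq (G a) with hQQ
  have hQ00 : 0 ≤ Q₀ := Finset.sum_nonneg fun a _ => Finset.sum_nonneg fun n _ => by positivity
  set R := r ^ (2 * N) / (1 - r ^ 2) with hR
  have hr0 : 0 < r := rr_pos _
  have hR0 : 0 ≤ R := div_nonneg (by positivity) (by nlinarith)
  have hnode : ∀ (k : Fin m), ∀ i ∈ range ((p ^ 8) ^ ((k : ℕ) + 1)),
      ∑ s' : Sp m, ∑ j : Fin m,
        ‖G2_c p m k * ∑ x : ZMod p, vv p ((k : ℕ) + 1) (dg p 4 i) (j : ℕ) x *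
        ((q.eval (zz (p ^ 8) ((k : ℕ) + 1) i) - q.eval (zz (p ^ 8) (k : ℕ) (i / p ^ 8))) *
          (G (s', x)).eval (zz (p ^ 8) (k : ℕ) (i / p ^ 8)) +
          ((q * G (s', x)).eval (zz (p ^ 8) (k : ℕ) (i / p ^ 8)) -
            ∑ n ∈ range N, (q * G (s', x)).coeff n *
              zz (p ^ 8) (k : ℕ) (i / p ^ 8) ^ n))‖ ^ 2 ≤
      45 / 44 * ((1 / ((p : ℝ) ^ 8) ^ ((k : ℕ) + 1)) *
        (‖q.eval (zz (p ^ 8) ((k : ℕ) + 1) i) - q.eval (zz (p ^ 8) (k : ℕ) (i / p ^ 8))‖ ^ 2 *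
        ((1 / (m : ℝ)) * ∑ j ∈ range m, ∑ s : Sp m,
          ‖∑ x, vv p ((k : ℕ) + 1) (dg p 4 i) j x *
            (G (s, x)).eval (zz (p ^ 8) (k : ℕ) (i / p ^ 8))‖ ^ 2))) +
      45 * ((1 / ((p : ℝ) ^ 8) ^ ((k : ℕ) + 1)) * (p * (R * Q₀))) := by
    intro k i _
    refine (G2_node p m hm k i _ (fun a => (G a).eval (zz (p ^ 8) (k : ℕ) (i / p ^ 8)))
      (fun a => (q * G a).eval (zz (p ^ 8) (k : ℕ) (i / p ^ 8)) -
            ∑ n ∈ range N, (q * G a).coeff n * zz (p ^ 8) (k : ℕ) (i / p ^ 8) ^ n)).trans ?_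
    have hz : ‖zz (p ^ 8) (k : ℕ) (i / p ^ 8)‖ ≤ r := by
      unfold zz
      rw [norm_mul, norm_rt, mul_one, Complex.norm_real, Real.norm_eq_abs, abs_of_pos (rr_pos _)]
      refine rr_mono _ _ (Nat.one_le_iff_ne_zero.mpr (by positivity)) ?_
      exact Nat.pow_le_pow_right (by positivity) k.2.le
    have htail := tail_bound N q hq G (zz (p ^ 8) (k : ℕ) (i / p ^ 8)) r hr1 hz
    gcongr
  have hrow := row_bound p (by omega) m hm (by
    have h1 : m ≤ m ^ 8 := Nat.le_self_pow (by norm_num) m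
    omega) 4 (Or.inr rfl) q hq G
  have hnum := G2_num p m hp hmp hm N hN
  rw [← hr, ← hR] at hnum
  rw [← hQQ] at hrow
  clear_value Q₀ R
  calc _ ≤ ∑ k : Fin m, ∑ i ∈ range ((p ^ 8) ^ ((k : ℕ) + 1)),
      (45 / 44 * ((1 / ((p : ℝ) ^ 8) ^ ((k : ℕ) + 1)) *
        (‖q.eval (zz (p ^ 8) ((k : ℕ) + 1) i) - q.eval (zz (p ^ 8) (k : ℕ) (i / p ^ 8))‖ ^ 2 *
        ((1 / (m : ℝ)) * ∑ j ∈ range m, ∑ s : Sp m,
          ‖∑ x, vv p ((k : ℕ) + 1) (dg p 4 i) j x *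
            (G (s, x)).eval (zz (p ^ 8) (k : ℕ) (i / p ^ 8))‖ ^ 2))) +
      45 * ((1 / ((p : ℝ) ^ 8) ^ ((k : ℕ) + 1)) * (p * (R * Q₀)))) :=
        Finset.sum_le_sum fun k _ => Finset.sum_le_sum fun i hi => hnode k i hi
    _ = 45 / 44 * (∑ k : Fin m, (1 / ((p : ℝ) ^ 8) ^ ((k : ℕ) + 1)) *
          ∑ i ∈ range ((p ^ 8) ^ ((k : ℕ) + 1)),
        (‖q.eval (zz (p ^ 8) ((k : ℕ) + 1) i) - q.eval (zz (p ^ 8) (k : ℕ) (i / p ^ 8))‖ ^ 2 *
        ((1 / (m : ℝ)) * ∑ j ∈ range m, ∑ s : Sp m,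
          ‖∑ x, vv p ((k : ℕ) + 1) (dg p 4 i) j x *
            (G (s, x)).eval (zz (p ^ 8) (k : ℕ) (i / p ^ 8))‖ ^ 2))) +
          45 * (m * (p * R)) * Q₀ := by
        have e3 : 45 * ((m : ℝ) * (p * R)) * Q₀ =
            ∑ k : Fin m, ∑ i ∈ range ((p ^ 8) ^ ((k : ℕ) + 1)),
              45 * ((1 / ((p : ℝ) ^ 8) ^ ((k : ℕ) + 1)) * (p * (R * Q₀))) := by
          have hpr : (0 : ℝ) < p := by
            have : 0 < p := by omega
            exact_mod_cast this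
          have e4 : ∀ k : Fin m, ∑ i ∈ range ((p ^ 8) ^ ((k : ℕ) + 1)),
              45 * ((1 / ((p : ℝ) ^ 8) ^ ((k : ℕ) + 1)) * (p * (R * Q₀))) =
              45 * (p * (R * Q₀)) := by
            intro k
            rw [Finset.sum_const, Finset.card_range, nsmul_eq_mul]
            push_cast
            field_simp
          simp only [e4, Finset.sum_const, Finset.card_univ, Fintype.card_fin, nsmul_eq_mul]
          ring
        rw [e3, Finset.mul_sum, ← Finset.sum_add_distrib]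
        refine Finset.sum_congr rfl fun k _ => ?_
        rw [Finset.sum_add_distrib]
        congr 1
        rw [Finset.mul_sum, Finset.mul_sum]
    _ ≤ 45 / 44 * (2000 * Q₀) + 45 * 1 * Q₀ := by gcongr
    _ ≤ 46 ^ 2 * Q₀ := by nlinarith

end PB
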