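import Pool.Agent.Helper89.PB.Defs
import Pool.Agent.Helper89.PB.A4

namespace PB

open Finset Polynomial

/-- Trigonometric polynomials are sums of an analytic and an antianalytic polynomial. -/
theorem D2_span (f : C(AddCircle (1 : ℝ), ℂ))
    (hf : f ∈ Submodule.span ℂ (Set.range (@fourier (1 : ℝ)))) :
    ∃ P₁ P₂ : ℂ[X], ∀ x : AddCircle (1 : ℝ),
      f x = P₁.eval (AddCircle.toCircle x : ℂ) +
        (starRingEnd ℂ) (P₂.eval (AddCircle.toCircle x : ℂ)) := by
  induction hf using Submodule.span_induction with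
  | mem g hg =>
    obtain ⟨n, rfl⟩ := hg
    rcases Int.eq_nat_or_neg n with ⟨k, hk | hk⟩
    · refine ⟨X ^ k, 0, fun x => ?_⟩
      rw [hk, fourier_apply, AddCircle.toCircle_zsmul]
      simp
    · refine ⟨0, X ^ k, fun x => ?_⟩
      rw [hk, fourier_neg, fourier_apply, AddCircle.toCircle_zsmul]
      simp
  | zero => exact ⟨0, 0, fun x => by simp⟩
  | add f g _ _ hf hg =>
    obtain ⟨P₁, P₂, hP⟩ := hf
    obtain ⟨Q₁, Q₂, hQ⟩ := hg
    refine ⟨P₁ + Q₁, P₂ + Q₂, fun x => ?_⟩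
    rw [ContinuousMap.add_apply, hP, hQ, eval_add, eval_add, map_add]
    ring
  | smul a f _ hf =>
    obtain ⟨P₁, P₂, hP⟩ := hf
    refine ⟨C a * P₁, C ((starRingEnd ℂ) a) * P₂, fun x => ?_⟩
    rw [ContinuousMap.smul_apply, hP, eval_mul, eval_mul, eval_C, eval_C, map_mul,
      Complex.conj_conj, smul_eq_mul]
    ring

/-- Real continuous functions on the circle are uniform limits of real parts of analytic
polynomials. -/
theorem D2_approx (u : ℂ → ℝ) (hu : Continuous u) (δ : ℝ) (hδ : 0 < δ) :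
    ∃ P : ℂ[X], ∀ z : ℂ, ‖z‖ = 1 → |2 * (P.eval z).re - u z| ≤ δ := by
  have hc : Continuous (fun x : AddCircle (1 : ℝ) => ((u (AddCircle.toCircle x : ℂ) : ℝ) : ℂ)) := by
    have h1 : Continuous (fun x : AddCircle (1 : ℝ) => (AddCircle.toCircle x : ℂ)) :=
      continuous_subtype_val.comp AddCircle.continuous_toCircle
    exact Complex.continuous_ofReal.comp (hu.comp h1)
  let F : C(AddCircle (1 : ℝ), ℂ) := ⟨_, hc⟩
  have hF : F ∈ (Submodule.span ℂ (Set.range (@fourier (1 : ℝ)))).topologicalClosure := by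
    have : Fact ((0 : ℝ) < 1) := ⟨one_pos⟩
    rw [span_fourier_closure_eq_top]
    trivial
  rw [← SetLike.mem_coe, Submodule.topologicalClosure_coe, Metric.mem_closure_iff] at hF
  obtain ⟨f, hf, hd⟩ := hF δ hδ
  obtain ⟨P₁, P₂, hP⟩ := D2_span f hf
  refine ⟨C (1 / 2) * (P₁ + P₂), fun z hz => ?_⟩
  obtain ⟨x, hx⟩ : ∃ x : AddCircle (1 : ℝ), (AddCircle.toCircle x : ℂ) = z := by
    refine ⟨(AddCircle.homeomorphCircle one_ne_zero).symm ⟨z, by simpa [Submonoid.unitSphere] using hz⟩, ?_⟩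
    rw [← AddCircle.homeomorphCircle_apply one_ne_zero, Homeomorph.apply_symm_apply]
  have h1 : dist (F x) (f x) ≤ dist F f := ContinuousMap.dist_apply_le_dist x
  have h2 : ‖F x - f x‖ < δ := by
    rw [← dist_eq_norm]
    exact lt_of_le_of_lt h1 hd
  have h3 : |(F x - f x).re| ≤ ‖F x - f x‖ := Complex.abs_re_le_norm _
  have h4 : (F x - f x).re = u z - 2 * ((C (1 / 2) * (P₁ + P₂)).eval z).re := by
    have h5 : F x = ((u (AddCircle.toCircle x : ℂ) : ℝ) : ℂ) := rfl
    rw [h5, hP x, hx, Complex.sub_re, Complex.ofReal_re, Complex.add_re, Complex.conj_re,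
      eval_mul, eval_C, eval_add]
    have h6 : (1 / 2 : ℂ) = ((1 / 2 : ℝ) : ℂ) := by norm_num
    rw [h6, Complex.re_ofReal_mul, Complex.add_re]
    ring
  rw [h4] at h3
  rw [abs_sub_comm]
  linarith

/-- Polynomial approximation of the exponential of a polynomial on the closed disc. -/
theorem D2_exp (P : ℂ[X]) (τ : ℝ) (hτ : 0 < τ) :
    ∃ Q : ℂ[X], ∀ z : ℂ, ‖z‖ ≤ 1 → ‖Q.eval z - Complex.exp (P.eval z)‖ ≤ τ := by
  obtain ⟨K, hK⟩ : ∃ K : ℝ, ∀ z : ℂ, ‖z‖ ≤ 1 → ‖P.eval z‖ ≤ K := by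
    have hcomp : IsCompact (Metric.closedBall (0 : ℂ) 1) := isCompact_closedBall 0 1
    obtain ⟨K, hK⟩ := hcomp.exists_bound_of_continuousOn (f := fun z => P.eval z)
      P.continuous.continuousOn
    exact ⟨K, fun z hz => hK z (by simpa using hz)⟩
  have hs : Summable (fun n : ℕ => |K| ^ n / (n.factorial : ℝ)) := Real.summable_pow_div_factorial |K|
  have hun := tendstoUniformlyOn_tsum_nat (f := fun (n : ℕ) (w : ℂ) => w ^ n / (n.factorial : ℂ)) hs
    (s := Metric.closedBall (0 : ℂ) |K|) (by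
      intro n w hw
      rw [mem_closedBall_zero_iff] at hw
      rw [norm_div, norm_pow, Complex.norm_natCast]
      gcongr)
  rw [Metric.tendstoUniformlyOn_iff] at hun
  obtain ⟨N, hN⟩ := (hun τ hτ).exists
  refine ⟨∑ n ∈ range N, C (1 / (n.factorial : ℂ)) * P ^ n, fun z hz => ?_⟩
  have h1 := hN (P.eval z) (by
    rw [mem_closedBall_zero_iff]
    exact le_trans (hK z hz) (le_abs_self K))
  have h2 : Complex.exp (P.eval z) = ∑' n : ℕ, (P.eval z) ^ n / (n.factorial : ℂ) := by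
    rw [Complex.exp_eq_exp_ℂ, NormedSpace.exp_eq_tsum_div]
  rw [h2, ← dist_eq_norm, dist_comm]
  have h3 : (∑ n ∈ range N, C (1 / (n.factorial : ℂ)) * P ^ n).eval z =
      ∑ n ∈ range N, (P.eval z) ^ n / (n.factorial : ℂ) := by
    rw [eval_finsetSum]
    apply Finset.sum_congr rfl
    intro n _
    rw [eval_mul, eval_C, eval_pow]
    ring
  rw [h3]
  exact h1.le

/-- The square of the Hardy norm is the mean of the square over the roots of unity. -/
theorem D2_nsq (q : ℂ[X]) (A : ℕ) (hA : q.natDegree < A) :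
    ∑ i ∈ range A, ‖q.eval (rt A i)‖ ^ 2 = A * nsq q := by
  have h := parseval A (by omega) q hA 1
  simp only [one_mul, norm_one, one_pow] at h
  rw [h]
  congr 1
  unfold nsq
  symm
  apply Finset.sum_subset (Finset.range_mono (by omega))
  intro n _ hn
  rw [Finset.mem_range, not_lt] at hn
  rw [coeff_eq_zero_of_natDegree_lt (by omega)]
  simp

theorem D2_nsq_le {ι : Type*} [Fintype ι] (g : ι → ℂ[X]) (Q : ℂ[X]) (c : ℝ)
    (h : ∀ z : ℂ, ‖z‖ = 1 → ‖Q.eval z‖ ^ 2 ≤ ∑ i, ‖(g i).eval z‖ ^ 2 + c) :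
    nsq Q ≤ ∑ i, nsq (g i) + c := by
  set A := Q.natDegree + ∑ i, (g i).natDegree + 1 with hA
  have hA0 : (0 : ℝ) < A := by
    rw [hA]
    positivity
  have h1 := D2_nsq Q A (by omega)
  have h2 : ∀ i, ∑ j ∈ range A, ‖(g i).eval (rt A j)‖ ^ 2 = A * nsq (g i) := by
    intro i
    apply D2_nsq
    have : (g i).natDegree ≤ ∑ i, (g i).natDegree :=
      Finset.single_le_sum (f := fun i => (g i).natDegree) (fun _ _ => Nat.zero_le _)
        (Finset.mem_univ i)
    omega
  have h3 : ∑ j ∈ range A, ‖Q.eval (rt A j)‖ ^ 2 ≤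
      ∑ j ∈ range A, (∑ i, ‖(g i).eval (rt A j)‖ ^ 2 + c) := by
    apply Finset.sum_le_sum
    intro j _
    exact h _ (norm_rt A j)
  rw [h1, Finset.sum_add_distrib, Finset.sum_comm, Finset.sum_congr rfl (fun i _ => h2 i),
    ← Finset.mul_sum, Finset.sum_const, Finset.card_range, nsmul_eq_mul, ← mul_add] at h3
  exact le_of_mul_le_mul_left h3 hA0

/-- approximate outer functions -/
theorem outer {ι : Type*} [Fintype ι] (g : ι → ℂ[X]) (η : ℝ) (hη : 0 < η) :
    ∃ Q R : ℂ[X], nsq Q ≤ ∑ i, nsq (g i) + η ∧ (∀ z : ℂ, ‖z‖ ≤ 1 → ‖R.eval z * Q.eval z - 1‖ ≤ η) ∧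
      (∀ z : ℂ, ‖z‖ = 1 → ∑ i, ‖R.eval z * (g i).eval z‖ ^ 2 ≤ (1 + η) ^ 2) := by
  -- the weight
  set h : ℂ → ℝ := fun z => ∑ i, ‖(g i).eval z‖ ^ 2 + η / 3 with hh
  have hcont : Continuous h := by
    rw [hh]
    apply Continuous.add _ continuous_const
    apply continuous_finsetSum
    intro i _
    exact ((g i).continuous.norm).pow 2
  have hpos : ∀ z, 0 < h z := by
    intro z
    have : 0 ≤ ∑ i, ‖(g i).eval z‖ ^ 2 := Finset.sum_nonneg (fun i _ => by positivity)
    rw [hh]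
    dsimp only
    linarith
  obtain ⟨B, hB1, hB⟩ : ∃ B : ℝ, 1 ≤ B ∧ ∀ z : ℂ, ‖z‖ ≤ 1 → h z ≤ B := by
    have hcomp : IsCompact (Metric.closedBall (0 : ℂ) 1) := isCompact_closedBall 0 1
    obtain ⟨K, hK⟩ := hcomp.exists_bound_of_continuousOn (f := h) hcont.continuousOn
    refine ⟨max K 1, le_max_right _ _, fun z hz => ?_⟩
    exact le_trans (le_trans (le_abs_self _) (hK z (by simpa using hz))) (le_max_left _ _)
  have hlog : Continuous (fun z => Real.log (h z)) := hcont.log (fun z => (hpos z).ne')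
  set s : ℝ := min (η / (3 * B)) (η / 2) with hs
  have hs0 : 0 < s := by
    rw [hs]
    apply lt_min <;> positivity
  have hs1 : s * B ≤ η / 3 := by
    have : s ≤ η / (3 * B) := min_le_left _ _
    calc s * B ≤ η / (3 * B) * B := by gcongr
      _ = η / 3 := by field_simp
  have hs2 : s ≤ η / 2 := min_le_right _ _
  have hδ : 0 < Real.log (1 + s) := Real.log_pos (by linarith)
  obtain ⟨P, hP⟩ := D2_approx (fun z => Real.log (h z)) hlog (Real.log (1 + s)) hδ
  -- bound of the exponentials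
  obtain ⟨L, hL1, hL⟩ : ∃ L : ℝ, 1 ≤ L ∧ ∀ z : ℂ, ‖z‖ ≤ 1 →
      ‖Complex.exp (P.eval z)‖ ≤ L ∧ ‖Complex.exp (-P.eval z)‖ ≤ L := by
    have hcomp : IsCompact (Metric.closedBall (0 : ℂ) 1) := isCompact_closedBall 0 1
    obtain ⟨K, hK⟩ := hcomp.exists_bound_of_continuousOn (f := fun z => Complex.exp (P.eval z))
      (Complex.continuous_exp.comp P.continuous).continuousOn
    obtain ⟨K', hK'⟩ := hcomp.exists_bound_of_continuousOn (f := fun z => Complex.exp (-P.eval z))
      (Complex.continuous_exp.comp P.continuous.neg).continuousOn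
    refine ⟨max (max K K') 1, le_max_right _ _, fun z hz => ⟨?_, ?_⟩⟩
    · exact le_trans (hK z (by simpa using hz)) (le_trans (le_max_left _ _) (le_max_left _ _))
    · exact le_trans (hK' z (by simpa using hz)) (le_trans (le_max_right _ _) (le_max_left _ _))
  set τ : ℝ := min 1 (min (η / (9 * L)) (η / (2 * B))) with hτ
  have hτ0 : 0 < τ := by
    rw [hτ]
    apply lt_min one_pos
    apply lt_min <;> positivity
  have hτ1 : τ ≤ 1 := min_le_left _ _
  have hτ2 : 3 * L * τ ≤ η / 3 := by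
    have : τ ≤ η / (9 * L) := le_trans (min_le_right _ _) (min_le_left _ _)
    calc 3 * L * τ ≤ 3 * L * (η / (9 * L)) := by gcongr
      _ = η / 3 := by field_simp; ring
  have hτ3 : τ * B ≤ η / 2 := by
    have : τ ≤ η / (2 * B) := le_trans (min_le_right _ _) (min_le_right _ _)
    calc τ * B ≤ η / (2 * B) * B := by gcongr
      _ = η / 2 := by field_simp
  obtain ⟨Q, hQ⟩ := D2_exp P τ hτ0
  obtain ⟨R, hR⟩ := D2_exp (-P) τ hτ0
  have hR' : ∀ z : ℂ, ‖z‖ ≤ 1 → ‖R.eval z - Complex.exp (-P.eval z)‖ ≤ τ := by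
    intro z hz
    have := hR z hz
    rwa [eval_neg] at this
  -- comparison on the circle
  have hcomp : ∀ z : ℂ, ‖z‖ = 1 → ‖Complex.exp (P.eval z)‖ ^ 2 ≤ (1 + s) * h z ∧
      h z ≤ (1 + s) * ‖Complex.exp (P.eval z)‖ ^ 2 := by
    intro z hz
    have h1 := abs_le.mp (hP z hz)
    have h2 : ‖Complex.exp (P.eval z)‖ ^ 2 = Real.exp (2 * (P.eval z).re) := by
      rw [Complex.norm_exp, ← Real.exp_nat_mul]
      norm_num
    have h3 : h z = Real.exp (Real.log (h z)) := (Real.exp_log (hpos z)).symm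
    have h4 : (1 + s) = Real.exp (Real.log (1 + s)) := (Real.exp_log (by linarith)).symm
    constructor
    · rw [h2]
      calc Real.exp (2 * (P.eval z).re) ≤ Real.exp (Real.log (1 + s) + Real.log (h z)) := by
            apply Real.exp_le_exp.mpr
            linarith [h1.2]
        _ = (1 + s) * h z := by rw [Real.exp_add, ← h4, ← h3]
    · rw [h2]
      calc h z = Real.exp (Real.log (h z)) := h3
        _ ≤ Real.exp (Real.log (1 + s) + 2 * (P.eval z).re) := by
            apply Real.exp_le_exp.mpr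
            linarith [h1.1]
        _ = (1 + s) * Real.exp (2 * (P.eval z).re) := by rw [Real.exp_add, ← h4]
  refine ⟨Q, R, ?_, ?_, ?_⟩
  · apply D2_nsq_le
    intro z hz
    have h1 := hQ z hz.le
    have h2 := (hL z hz.le).1
    have h3 := (hcomp z hz).1
    have h4 := hB z hz.le
    set E := ‖Complex.exp (P.eval z)‖ with hE
    have hE0 : 0 ≤ E := norm_nonneg _
    have h5 : ‖Q.eval z‖ ≤ E + τ := by
      calc ‖Q.eval z‖ = ‖(Q.eval z - Complex.exp (P.eval z)) + Complex.exp (P.eval z)‖ := by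
            congr 1; ring
        _ ≤ ‖Q.eval z - Complex.exp (P.eval z)‖ + ‖Complex.exp (P.eval z)‖ := norm_add_le _ _
        _ ≤ E + τ := by linarith
    have h6 : ‖Q.eval z‖ ^ 2 ≤ (E + τ) ^ 2 := by gcongr
    have h7 : h z = ∑ i, ‖(g i).eval z‖ ^ 2 + η / 3 := rfl
    have h8 : s * h z ≤ s * B := by gcongr
    have h9 : E * τ ≤ L * τ := by gcongr
    have h10 : τ * τ ≤ L * τ := by
      have : τ ≤ L := by linarith
      gcongr
    nlinarith
  · intro z hz
    have h1 := hQ z hz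
    have h2 := hR' z hz
    obtain ⟨h3, h4⟩ := hL z hz
    have e1 : R.eval z * Q.eval z - 1 = (R.eval z - Complex.exp (-P.eval z)) * Q.eval z +
        Complex.exp (-P.eval z) * (Q.eval z - Complex.exp (P.eval z)) := by
      have : Complex.exp (-P.eval z) * Complex.exp (P.eval z) = 1 := by
        rw [← Complex.exp_add, neg_add_cancel, Complex.exp_zero]
      linear_combination this
    have h5 : ‖Q.eval z‖ ≤ L + τ := by
      calc ‖Q.eval z‖ = ‖(Q.eval z - Complex.exp (P.eval z)) + Complex.exp (P.eval z)‖ := by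
            congr 1; ring
        _ ≤ ‖Q.eval z - Complex.exp (P.eval z)‖ + ‖Complex.exp (P.eval z)‖ := norm_add_le _ _
        _ ≤ L + τ := by linarith
    rw [e1]
    calc ‖(R.eval z - Complex.exp (-P.eval z)) * Q.eval z +
        Complex.exp (-P.eval z) * (Q.eval z - Complex.exp (P.eval z))‖
        ≤ ‖(R.eval z - Complex.exp (-P.eval z)) * Q.eval z‖ +
        ‖Complex.exp (-P.eval z) * (Q.eval z - Complex.exp (P.eval z))‖ := norm_add_le _ _
      _ ≤ τ * (L + τ) + L * τ := by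
          rw [norm_mul, norm_mul]
          gcongr
      _ ≤ η := by nlinarith
  · intro z hz
    have h2 := hR' z hz.le
    have h3 := (hcomp z hz).2
    have h4 := hB z hz.le
    set E := ‖Complex.exp (P.eval z)‖ with hE
    have hE0 : 0 < E := by
      rw [hE, norm_pos_iff]
      exact Complex.exp_ne_zero _
    have hE' : ‖Complex.exp (-P.eval z)‖ = E⁻¹ := by
      rw [Complex.exp_neg, norm_inv]
    set G := Real.sqrt (∑ i, ‖(g i).eval z‖ ^ 2) with hG
    have hsum0 : 0 ≤ ∑ i, ‖(g i).eval z‖ ^ 2 := Finset.sum_nonneg (fun i _ => by positivity)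
    have hG2 : G ^ 2 = ∑ i, ‖(g i).eval z‖ ^ 2 := Real.sq_sqrt hsum0
    have hG0 : 0 ≤ G := Real.sqrt_nonneg _
    have h7 : h z = ∑ i, ‖(g i).eval z‖ ^ 2 + η / 3 := rfl
    have hGB : G ≤ B := by
      apply le_of_sq_le_sq _ (by linarith)
      rw [hG2]
      nlinarith
    have hGE : G ≤ (1 + s) * E := by
      apply le_of_sq_le_sq _ (by positivity)
      rw [hG2]
      have h8 : (1 + s) * E ^ 2 ≤ (1 + s) * ((1 + s) * E ^ 2) := by
        have : E ^ 2 ≤ (1 + s) * E ^ 2 := by nlinarith [sq_nonneg E]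
        gcongr
      have h9 : ((1 + s) * E) ^ 2 = (1 + s) * ((1 + s) * E ^ 2) := by ring
      rw [h9]
      linarith
    have h5 : ‖R.eval z‖ ≤ E⁻¹ + τ := by
      calc ‖R.eval z‖ = ‖(R.eval z - Complex.exp (-P.eval z)) + Complex.exp (-P.eval z)‖ := by
            congr 1; ring
        _ ≤ ‖R.eval z - Complex.exp (-P.eval z)‖ + ‖Complex.exp (-P.eval z)‖ := norm_add_le _ _
        _ ≤ E⁻¹ + τ := by rw [hE']; linarith
    have h6 : ‖R.eval z‖ * G ≤ 1 + η := by
      calc ‖R.eval z‖ * G ≤ (E⁻¹ + τ) * G := by gcongr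
        _ = E⁻¹ * G + τ * G := by ring
        _ ≤ E⁻¹ * ((1 + s) * E) + τ * B := by gcongr
        _ = (1 + s) + τ * B := by field_simp
        _ ≤ 1 + η := by linarith
    calc ∑ i, ‖R.eval z * (g i).eval z‖ ^ 2 = (‖R.eval z‖ * G) ^ 2 := by
          rw [mul_pow, hG2, Finset.mul_sum]
          apply Finset.sum_congr rfl
          intro i _
          rw [norm_mul, mul_pow]
      _ ≤ (1 + η) ^ 2 := by
          have : 0 ≤ ‖R.eval z‖ * G := by positivity
          gcongr

end PB
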