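import Pool.Agent.Helper89.PB.Defs
import Pool.Agent.Helper89.PB.B1
import Pool.Agent.Helper89.PB.B2

namespace PB

open Finset Polynomial

/-- one parent, bilinear estimate -/
theorem child_avg (p : ℕ) [Fact p.Prime] (m : ℕ) (hm : 1 ≤ m) (k : ℕ) (u : ℕ → ℂ)
    (B : ZMod p → ZMod p → ℂ) :
    ‖∑ c ∈ range (p ^ 8), u c * ∑ x', ∑ x, B x' x * ((1 / (m : ℂ)) * ∑ j ∈ range m,
      vv p k (dg p 4 c) j x' * vv p k (dg p 0 c) j x)‖ ^ 2 ≤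
      (∑ c ∈ range (p ^ 8), ‖u c‖ ^ 2) * ((p : ℝ) ^ 8 * ∑ x', ∑ x, ‖B x' x‖ ^ 2) := by
  have hm' : (0 : ℝ) < m := by exact_mod_cast hm
  set T : ℕ → ℕ → ℂ := fun c j => ∑ x', ∑ x,
    B x' x * vv p k (dg p 4 c) j x' * vv p k (dg p 0 c) j x with hT
  have hS : ∀ c, ∑ x', ∑ x, B x' x * ((1 / (m : ℂ)) * ∑ j ∈ range m,
      vv p k (dg p 4 c) j x' * vv p k (dg p 0 c) j x) = (1 / (m : ℂ)) * ∑ j ∈ range m, T c j := by
    intro c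
    simp only [hT, Finset.mul_sum]
    rw [Finset.sum_comm]
    conv_rhs => rw [Finset.sum_comm]
    rw [Finset.sum_comm]
    refine Finset.sum_congr rfl fun x' _ => ?_
    conv_rhs => rw [Finset.sum_comm]
    refine Finset.sum_congr rfl fun x _ => ?_
    refine Finset.sum_congr rfl fun j _ => ?_
    ring
  have hconv : ∀ c, ‖(1 / (m : ℂ)) * ∑ j ∈ range m, T c j‖ ^ 2 ≤
      (1 / (m : ℝ)) * ∑ j ∈ range m, ‖T c j‖ ^ 2 := by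
    intro c
    have h1 : ‖∑ j ∈ range m, T c j‖ ^ 2 ≤ m * ∑ j ∈ range m, ‖T c j‖ ^ 2 := by
      have h2 : ‖∑ j ∈ range m, T c j‖ ≤ ∑ j ∈ range m, ‖T c j‖ := norm_sum_le _ _
      have h3 := sq_sum_le_card_mul_sum_sq (s := range m) (f := fun j => ‖T c j‖)
      rw [Finset.card_range] at h3
      exact (pow_le_pow_left₀ (norm_nonneg _) h2 2).trans h3
    rw [norm_mul, mul_pow]
    have h4 : ‖(1 / (m : ℂ))‖ ^ 2 = 1 / (m : ℝ) ^ 2 := by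
      rw [norm_div, norm_one, Complex.norm_natCast, div_pow, one_pow]
    rw [h4]
    calc 1 / (m : ℝ) ^ 2 * ‖∑ j ∈ range m, T c j‖ ^ 2
        ≤ 1 / (m : ℝ) ^ 2 * (m * ∑ j ∈ range m, ‖T c j‖ ^ 2) := by gcongr
      _ = (1 / (m : ℝ)) * ∑ j ∈ range m, ‖T c j‖ ^ 2 := by field_simp
  have hdig : ∀ j, ∑ c ∈ range (p ^ 8), ‖T c j‖ ^ 2 =
      (p : ℝ) ^ 8 * ∑ x', ∑ x, ‖B x' x‖ ^ 2 := by
    intro j
    rw [← vv_hs p k k j B]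
    exact digits p (fun a b =>
      ‖∑ x', ∑ x, B x' x * vv p k b j x' * vv p k a j x‖ ^ 2)
  have htot : ∑ c ∈ range (p ^ 8), ‖(1 / (m : ℂ)) * ∑ j ∈ range m, T c j‖ ^ 2 ≤
      (p : ℝ) ^ 8 * ∑ x', ∑ x, ‖B x' x‖ ^ 2 := by
    calc ∑ c ∈ range (p ^ 8), ‖(1 / (m : ℂ)) * ∑ j ∈ range m, T c j‖ ^ 2
        ≤ ∑ c ∈ range (p ^ 8), (1 / (m : ℝ)) * ∑ j ∈ range m, ‖T c j‖ ^ 2 :=
          Finset.sum_le_sum fun c _ => hconv c
      _ = (1 / (m : ℝ)) * ∑ j ∈ range m, ∑ c ∈ range (p ^ 8), ‖T c j‖ ^ 2 := by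
          rw [← Finset.mul_sum, Finset.sum_comm]
      _ = (1 / (m : ℝ)) * ∑ _j ∈ range m, (p : ℝ) ^ 8 * ∑ x', ∑ x, ‖B x' x‖ ^ 2 := by
          rw [Finset.sum_congr rfl (fun j _ => hdig j)]
      _ = (p : ℝ) ^ 8 * ∑ x', ∑ x, ‖B x' x‖ ^ 2 := by
          rw [Finset.sum_const, Finset.card_range, nsmul_eq_mul]
          field_simp
  simp only [hS]
  have h5 : ‖∑ c ∈ range (p ^ 8), u c * ((1 / (m : ℂ)) * ∑ j ∈ range m, T c j)‖ ≤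
      ∑ c ∈ range (p ^ 8), ‖u c‖ * ‖(1 / (m : ℂ)) * ∑ j ∈ range m, T c j‖ := by
    refine (norm_sum_le _ _).trans (le_of_eq ?_)
    exact Finset.sum_congr rfl fun c _ => norm_mul _ _
  have h6 := Finset.sum_mul_sq_le_sq_mul_sq (range (p ^ 8)) (fun c => ‖u c‖)
    (fun c => ‖(1 / (m : ℂ)) * ∑ j ∈ range m, T c j‖)
  refine (pow_le_pow_left₀ (norm_nonneg _) h5 2).trans (h6.trans ?_)
  exact mul_le_mul_of_nonneg_left htot (Finset.sum_nonneg fun _ _ => sq_nonneg _)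

end PB
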