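import Pool.Agent.Helper89.PB.Defs
import Pool.Agent.Helper89.PB.C1

namespace PB

open Finset Polynomial

/-- the products `<E_k x, E_l x>` -/
noncomputable def C2_T {m : ℕ} (x : Sp m → ℂ) (k l : Fin m) : ℂ :=
  ∑ s, ((C1_sg k s : ℂ) * x (C1_fl k s)) * (starRingEnd ℂ) ((C1_sg l s : ℂ) * x (C1_fl l s))

theorem C2_T_lt {m : ℕ} (x : Sp m → ℂ) {k l : Fin m} (h : k < l) : C2_T x k l = -C2_T x l k := by
  rw [C2_T, C2_T, ← ((C1_fl_bij k).comp (C1_fl_bij l)).sum_comp, ← Finset.sum_neg_distrib]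
  apply Finset.sum_congr rfl
  intro s _
  simp only [Function.comp]
  have e1 : C1_sg k (C1_fl k (C1_fl l s)) = C1_sg k s := by
    rw [C1_sg_fl_le le_rfl, C1_sg_fl_le h.le]
  have e2 : C1_sg l (C1_fl k (C1_fl l s)) = -C1_sg l s := by
    rw [C1_sg_fl_lt h, C1_sg_fl_le le_rfl]
  have e3 : C1_fl k (C1_fl k (C1_fl l s)) = C1_fl l s := C1_fl_fl k _
  have e4 : C1_fl l (C1_fl k (C1_fl l s)) = C1_fl k s := by
    rw [C1_fl_comm k l s, C1_fl_fl]
  rw [e1, e2, e3, e4]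
  simp only [map_mul, Complex.conj_ofReal, Complex.ofReal_neg, map_neg]
  ring

theorem C2_T_self {m : ℕ} (x : Sp m → ℂ) (k : Fin m) : C2_T x k k = (sq x : ℂ) := by
  rw [C2_T, sq, ← (C1_fl_bij k).sum_comp (fun s => ‖x s‖ ^ 2), Complex.ofReal_sum]
  apply Finset.sum_congr rfl
  intro s _
  rw [Complex.mul_conj, Complex.normSq_eq_norm_sq, norm_mul, Complex.norm_real, Real.norm_eq_abs,
    C1_sg_abs, one_mul]

theorem C2_T_add {m : ℕ} (x : Sp m → ℂ) (k l : Fin m) :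
    C2_T x k l + C2_T x l k = if k = l then 2 * (sq x : ℂ) else 0 := by
  rcases lt_trichotomy k l with h | h | h
  · rw [if_neg h.ne, C2_T_lt x h, neg_add_cancel]
  · subst h
    rw [if_pos rfl, C2_T_self, two_mul]
  · rw [if_neg h.ne', C2_T_lt x h, add_neg_cancel]

theorem C2_iso {m : ℕ} (x : Sp m → ℂ) (a : Fin m → ℝ) :
    ∑ s, ‖∑ k, (a k : ℂ) * ((C1_sg k s : ℂ) * x (C1_fl k s))‖ ^ 2 = (∑ k, a k ^ 2) * sq x := by
  have h1 : ((∑ s, ‖∑ k, (a k : ℂ) * ((C1_sg k s : ℂ) * x (C1_fl k s))‖ ^ 2 : ℝ) : ℂ) =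
      ∑ k, ∑ l, (a k : ℂ) * (a l : ℂ) * C2_T x k l := by
    rw [Complex.ofReal_sum]
    have h2 : ∀ s : Sp m, ((‖∑ k, (a k : ℂ) * ((C1_sg k s : ℂ) * x (C1_fl k s))‖ ^ 2 : ℝ) : ℂ) =
        ∑ k, ∑ l, (a k : ℂ) * (a l : ℂ) * (((C1_sg k s : ℂ) * x (C1_fl k s)) *
          (starRingEnd ℂ) ((C1_sg l s : ℂ) * x (C1_fl l s))) := by
      intro s
      rw [← Complex.normSq_eq_norm_sq, ← Complex.mul_conj, map_sum, Finset.sum_mul_sum]
      apply Finset.sum_congr rfl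
      intro k _
      apply Finset.sum_congr rfl
      intro l _
      rw [map_mul, Complex.conj_ofReal]
      ring
    rw [Finset.sum_congr rfl (fun s _ => h2 s), Finset.sum_comm]
    apply Finset.sum_congr rfl
    intro k _
    rw [Finset.sum_comm]
    apply Finset.sum_congr rfl
    intro l _
    rw [C2_T, Finset.mul_sum]
  have h3 : 2 * ∑ k, ∑ l, (a k : ℂ) * (a l : ℂ) * C2_T x k l =
      2 * (((∑ k, a k ^ 2) * sq x : ℝ) : ℂ) := by
    have h4 : ∑ k, ∑ l, (a k : ℂ) * (a l : ℂ) * C2_T x k l =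
        ∑ k, ∑ l, (a k : ℂ) * (a l : ℂ) * C2_T x l k := by
      rw [Finset.sum_comm]
      apply Finset.sum_congr rfl
      intro k _
      apply Finset.sum_congr rfl
      intro l _
      ring
    rw [two_mul]
    nth_rewrite 2 [h4]
    rw [← Finset.sum_add_distrib]
    have h5 : ∀ k : Fin m, ∑ l, (a k : ℂ) * (a l : ℂ) * C2_T x k l +
        ∑ l, (a k : ℂ) * (a l : ℂ) * C2_T x l k = (a k : ℂ) ^ 2 * (2 * (sq x : ℂ)) := by
      intro k
      rw [← Finset.sum_add_distrib, Finset.sum_eq_single k]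
      · rw [← mul_add, C2_T_add, if_pos rfl]
        ring
      · intro l _ hl
        rw [← mul_add, C2_T_add, if_neg (Ne.symm hl), mul_zero]
      · intro h
        exact absurd (Finset.mem_univ _) h
    rw [Finset.sum_congr rfl (fun k _ => h5 k), ← Finset.sum_mul]
    push_cast
    ring
  have h6 : ((∑ s, ‖∑ k, (a k : ℂ) * ((C1_sg k s : ℂ) * x (C1_fl k s))‖ ^ 2 : ℝ) : ℂ) =
      (((∑ k, a k ^ 2) * sq x : ℝ) : ℂ) := by
    rw [h1]
    exact mul_left_cancel₀ two_ne_zero h3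
  exact_mod_cast h6

theorem C2_cs {ι : Type*} [Fintype ι] (y z : ι → ℂ) :
    ‖∑ s, y s * z s‖ ^ 2 ≤ (∑ s, ‖y s‖ ^ 2) * ∑ s, ‖z s‖ ^ 2 := by
  have h1 : ‖∑ s, y s * z s‖ ≤ ∑ s, ‖y s‖ * ‖z s‖ := by
    refine (norm_sum_le _ _).trans (le_of_eq ?_)
    apply Finset.sum_congr rfl
    intro s _
    rw [norm_mul]
  calc ‖∑ s, y s * z s‖ ^ 2 ≤ (∑ s, ‖y s‖ * ‖z s‖) ^ 2 :=
        pow_le_pow_left₀ (norm_nonneg _) h1 2
    _ ≤ _ := Finset.sum_mul_sq_le_sq_mul_sq _ _ _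

theorem Cl_sq {m : ℕ} (x y : Sp m → ℂ) :
    ∑ k : Fin m, ‖∑ s', ∑ s, y s' * Cl k s' s * x s‖ ^ 2 ≤ 2 * sq x * sq y := by
  set γ : Fin m → ℂ := fun k => ∑ s', ∑ s, y s' * Cl k s' s * x s with hγ
  have hγ' : ∀ k, γ k = ∑ s, y s * ((C1_sg k s : ℂ) * x (C1_fl k s)) := by
    intro k
    rw [hγ]
    apply Finset.sum_congr rfl
    intro s _
    rw [← C1_apply, Finset.mul_sum]
    apply Finset.sum_congr rfl
    intro s' _
    ring
  have key : ∀ a : Fin m → ℝ, ‖∑ k, (a k : ℂ) * γ k‖ ^ 2 ≤ (∑ k, a k ^ 2) * (sq x * sq y) := by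
    intro a
    have h1 : ∑ k, (a k : ℂ) * γ k =
        ∑ s, y s * ∑ k, (a k : ℂ) * ((C1_sg k s : ℂ) * x (C1_fl k s)) := by
      simp only [hγ', Finset.mul_sum]
      rw [Finset.sum_comm]
      apply Finset.sum_congr rfl
      intro s _
      apply Finset.sum_congr rfl
      intro k _
      ring
    rw [h1]
    refine (C2_cs _ _).trans (le_of_eq ?_)
    rw [C2_iso]
    show sq y * _ = _
    ring
  set G : ℝ := ∑ k, ‖γ k‖ ^ 2 with hG
  have hA := key (fun k => (γ k).re)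
  have hB := key (fun k => (γ k).im)
  have hG0 : 0 ≤ G := Finset.sum_nonneg fun k _ => by positivity
  have hGAB : G = (∑ k, (γ k).re ^ 2) + ∑ k, (γ k).im ^ 2 := by
    rw [hG, ← Finset.sum_add_distrib]
    apply Finset.sum_congr rfl
    intro k _
    rw [← Complex.normSq_eq_norm_sq, Complex.normSq_apply]
    ring
  have hsum : (G : ℂ) = ∑ k, (((γ k).re : ℝ) : ℂ) * γ k -
      Complex.I * ∑ k, (((γ k).im : ℝ) : ℂ) * γ k := by
    rw [hG, Complex.ofReal_sum, Finset.mul_sum, ← Finset.sum_sub_distrib]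
    apply Finset.sum_congr rfl
    intro k _
    rw [← Complex.normSq_eq_norm_sq, ← Complex.mul_conj]
    have h2 : (starRingEnd ℂ) (γ k) = ((γ k).re : ℂ) - Complex.I * ((γ k).im : ℂ) := by
      apply Complex.ext <;> simp
    rw [h2]
    ring
  have hle : G ≤ ‖∑ k, (((γ k).re : ℝ) : ℂ) * γ k‖ + ‖∑ k, (((γ k).im : ℝ) : ℂ) * γ k‖ := by
    have h3 : G = ‖(G : ℂ)‖ := by rw [Complex.norm_real, Real.norm_eq_abs, abs_of_nonneg hG0]
    rw [h3, hsum]
    refine (norm_sub_le _ _).trans (le_of_eq ?_)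
    rw [norm_mul, Complex.norm_I, one_mul]
  set U := ‖∑ k, (((γ k).re : ℝ) : ℂ) * γ k‖
  set V := ‖∑ k, (((γ k).im : ℝ) : ℂ) * γ k‖
  have hU : 0 ≤ U := norm_nonneg _
  have hV : 0 ≤ V := norm_nonneg _
  have h4 : G ^ 2 ≤ 2 * (sq x * sq y) * G := by
    have h5 : G ^ 2 ≤ (U + V) ^ 2 := pow_le_pow_left₀ hG0 hle 2
    have h6 : (U + V) ^ 2 ≤ 2 * (U ^ 2 + V ^ 2) := by nlinarith [sq_nonneg (U - V)]
    have h7 : U ^ 2 + V ^ 2 ≤ G * (sq x * sq y) := by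
      rw [hGAB, add_mul]
      exact add_le_add hA hB
    nlinarith
  show G ≤ _
  rcases hG0.eq_or_lt with h | h
  · rw [← h]
    have h8 : 0 ≤ sq x := Finset.sum_nonneg fun k _ => by positivity
    have h9 : 0 ≤ sq y := Finset.sum_nonneg fun k _ => by positivity
    positivity
  · have h10 : G * G ≤ (2 * sq x * sq y) * G := by nlinarith
    exact le_of_mul_le_mul_right h10 h

end PB
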