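import Pool.Agent.Helper89.PB.Defs
import Pool.Agent.Helper89.PB.C2
import Pool.Agent.Helper89.PB.A2

namespace PB

open Finset Polynomial

private theorem D4_nsq (A : ℕ) (hA : 1 ≤ A) (q : ℂ[X]) (hq : q.natDegree < A) :
    (A : ℝ) * nsq q = ∑ i ∈ range A, ‖q.eval (rt A i)‖ ^ 2 := by
  have h := parseval A hA q hq 1
  simp only [one_mul, norm_one, one_pow] at h
  rw [h]
  congr 1
  unfold nsq
  refine Finset.sum_subset ?_ ?_
  · intro n hn
    rw [mem_range] at hn ⊢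
    omega
  · intro n _ hn
    rw [mem_range, not_lt] at hn
    rw [coeff_eq_zero_of_natDegree_lt (by omega), norm_zero]
    norm_num

private theorem D4_pt (p : ℕ) [NeZero p] (m : ℕ) (g h : Sp m × ZMod p → ℂ[X]) (R : ℂ[X]) (t : ℝ)
    (z : ℂ) (hz : ∑ b, ‖R.eval z * (g b).eval z‖ ^ 2 ≤ t) :
    ∑ k : Fin m, ∑ x' : ZMod p, ∑ x : ZMod p,
      ‖(R * ∑ s' : Sp m, ∑ s : Sp m, h (s', x') * C (Cl k s' s) * g (s, x)).eval z‖ ^ 2 ≤
      2 * t * ∑ a, ‖(h a).eval z‖ ^ 2 := by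
  have e1 : ∀ (k : Fin m) (x' x : ZMod p),
      ‖(R * ∑ s' : Sp m, ∑ s : Sp m, h (s', x') * C (Cl k s' s) * g (s, x)).eval z‖ ^ 2 =
      ‖R.eval z‖ ^ 2 *
        ‖∑ s' : Sp m, ∑ s : Sp m, (h (s', x')).eval z * Cl k s' s * (g (s, x)).eval z‖ ^ 2 := by
    intro k x' x
    rw [eval_mul, norm_mul, mul_pow]
    simp only [eval_finsetSum, eval_mul, eval_C]
  simp only [e1]
  have e2 : ∑ k : Fin m, ∑ x' : ZMod p, ∑ x : ZMod p, ‖R.eval z‖ ^ 2 *
        ‖∑ s' : Sp m, ∑ s : Sp m, (h (s', x')).eval z * Cl k s' s * (g (s, x)).eval z‖ ^ 2 =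
      ∑ x' : ZMod p, ∑ x : ZMod p, ‖R.eval z‖ ^ 2 * ∑ k : Fin m,
        ‖∑ s' : Sp m, ∑ s : Sp m, (h (s', x')).eval z * Cl k s' s * (g (s, x)).eval z‖ ^ 2 := by
    rw [Finset.sum_comm]
    refine Finset.sum_congr rfl fun x' _ => ?_
    rw [Finset.sum_comm]
    refine Finset.sum_congr rfl fun x _ => ?_
    rw [Finset.mul_sum]
  rw [e2]
  have e3 : ∀ x' x : ZMod p, ‖R.eval z‖ ^ 2 * ∑ k : Fin m,
        ‖∑ s' : Sp m, ∑ s : Sp m, (h (s', x')).eval z * Cl k s' s * (g (s, x)).eval z‖ ^ 2 ≤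
      2 * (∑ s : Sp m, ‖R.eval z * (g (s, x)).eval z‖ ^ 2) *
        ∑ s' : Sp m, ‖(h (s', x')).eval z‖ ^ 2 := by
    intro x' x
    have h1 := Cl_sq (fun s : Sp m => (g (s, x)).eval z) (fun s' : Sp m => (h (s', x')).eval z)
    refine (mul_le_mul_of_nonneg_left h1 (sq_nonneg _)).trans (le_of_eq ?_)
    unfold sq
    simp only [norm_mul, mul_pow]
    rw [← Finset.mul_sum]
    ring
  refine (Finset.sum_le_sum fun x' _ => Finset.sum_le_sum fun x _ => e3 x' x).trans ?_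
  have e4 : ∑ x' : ZMod p, ∑ x : ZMod p, 2 * (∑ s : Sp m, ‖R.eval z * (g (s, x)).eval z‖ ^ 2) *
        ∑ s' : Sp m, ‖(h (s', x')).eval z‖ ^ 2 =
      2 * (∑ b, ‖R.eval z * (g b).eval z‖ ^ 2) * ∑ a, ‖(h a).eval z‖ ^ 2 := by
    rw [Fintype.sum_prod_type_right, Fintype.sum_prod_type_right, Finset.mul_sum]
    refine Finset.sum_congr rfl fun x' _ => ?_
    rw [← Finset.sum_mul, ← Finset.mul_sum]
  rw [e4]
  refine mul_le_mul_of_nonneg_right ?_ (Finset.sum_nonneg fun a _ => sq_nonneg _)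
  linarith

/-- the circle part of the corner estimate -/
theorem circle_part (p : ℕ) [NeZero p] (m : ℕ) (g h : Sp m × ZMod p → ℂ[X]) (R : ℂ[X]) (t : ℝ)
    (hR : ∀ z : ℂ, ‖z‖ = 1 → ∑ b, ‖R.eval z * (g b).eval z‖ ^ 2 ≤ t) :
    ∑ k : Fin m, ∑ x' : ZMod p, ∑ x : ZMod p,
      nsq (R * ∑ s' : Sp m, ∑ s : Sp m, h (s', x') * C (Cl k s' s) * g (s, x)) ≤
      2 * t * ∑ a, nsq (h a) := by
  set P : Fin m → ZMod p → ZMod p → ℂ[X] := fun k x' x =>
    R * ∑ s' : Sp m, ∑ s : Sp m, h (s', x') * C (Cl k s' s) * g (s, x) with hP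
  set A : ℕ := 1 + (∑ k : Fin m, ∑ x' : ZMod p, ∑ x : ZMod p, (P k x' x).natDegree) +
    ∑ a, (h a).natDegree with hAdef
  have hA : 1 ≤ A := by omega
  have hA0 : (0 : ℝ) < A := by exact_mod_cast hA
  have hPd : ∀ k x' x, (P k x' x).natDegree < A := by
    intro k x' x
    have h1 : (P k x' x).natDegree ≤ ∑ x : ZMod p, (P k x' x).natDegree :=
      Finset.single_le_sum (f := fun x => (P k x' x).natDegree) (fun _ _ => Nat.zero_le _)
        (mem_univ x)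
    have h2 : ∑ x : ZMod p, (P k x' x).natDegree ≤
        ∑ x' : ZMod p, ∑ x : ZMod p, (P k x' x).natDegree :=
      Finset.single_le_sum (f := fun x' => ∑ x : ZMod p, (P k x' x).natDegree)
        (fun _ _ => Nat.zero_le _) (mem_univ x')
    have h3 : ∑ x' : ZMod p, ∑ x : ZMod p, (P k x' x).natDegree ≤
        ∑ k : Fin m, ∑ x' : ZMod p, ∑ x : ZMod p, (P k x' x).natDegree :=
      Finset.single_le_sum (f := fun k => ∑ x' : ZMod p, ∑ x : ZMod p, (P k x' x).natDegree)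
        (fun _ _ => Nat.zero_le _) (mem_univ k)
    omega
  have hhd : ∀ a, (h a).natDegree < A := by
    intro a
    have h1 : (h a).natDegree ≤ ∑ a, (h a).natDegree :=
      Finset.single_le_sum (f := fun a => (h a).natDegree) (fun _ _ => Nat.zero_le _) (mem_univ a)
    omega
  refine le_of_mul_le_mul_left ?_ hA0
  have e1 : (A : ℝ) * ∑ k : Fin m, ∑ x' : ZMod p, ∑ x : ZMod p, nsq (P k x' x) =
      ∑ i ∈ range A, ∑ k : Fin m, ∑ x' : ZMod p, ∑ x : ZMod p,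
        ‖(P k x' x).eval (rt A i)‖ ^ 2 := by
    rw [Finset.mul_sum, Finset.sum_comm]
    refine Finset.sum_congr rfl fun k _ => ?_
    rw [Finset.mul_sum, Finset.sum_comm]
    refine Finset.sum_congr rfl fun x' _ => ?_
    rw [Finset.mul_sum, Finset.sum_comm]
    refine Finset.sum_congr rfl fun x _ => ?_
    exact D4_nsq A hA _ (hPd k x' x)
  have e2 : (A : ℝ) * (2 * t * ∑ a, nsq (h a)) =
      ∑ i ∈ range A, 2 * t * ∑ a, ‖(h a).eval (rt A i)‖ ^ 2 := by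
    rw [← Finset.mul_sum, Finset.sum_comm]
    have : ∑ a : Sp m × ZMod p, ∑ i ∈ range A, ‖(h a).eval (rt A i)‖ ^ 2 =
        (A : ℝ) * ∑ a, nsq (h a) := by
      rw [Finset.mul_sum]
      exact Finset.sum_congr rfl fun a _ => (D4_nsq A hA _ (hhd a)).symm
    rw [this]
    ring
  rw [e1, e2]
  exact Finset.sum_le_sum fun i _ => D4_pt p m g h R t _ (hR _ (norm_rt A i))

end PB
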