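import Pool.Agent.Helper89.PB.Defs
import Pool.Agent.Helper89.PB.D2
import Pool.Agent.Helper89.PB.D3
import Pool.Agent.Helper89.PB.D4
import Pool.Agent.Helper89.PB.A1
import Pool.Agent.Helper89.PB.A6
import Pool.Agent.Helper89.PB.B1
import Pool.Agent.Helper89.PB.R0

namespace PB

open Finset Polynomial

/-- Regrouping the children of the nodes. -/
theorem D5_range_mul {E : Type*} [AddCommMonoid E] (b a : ℕ) (φ : ℕ → E) :
    ∑ i ∈ range (b * a), φ i = ∑ j ∈ range a, ∑ c ∈ range b, φ (b * j + c) := by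
  induction a with
  | zero => simp
  | succ a ih => rw [Nat.mul_succ, sum_range_add, ih, sum_range_succ]

/-- Cauchy-Schwarz. -/
theorem D5_cs {σ : Type*} (s : Finset σ) (U V : σ → ℝ) (hU : ∀ i ∈ s, 0 ≤ U i)
    (hV : ∀ i ∈ s, 0 ≤ V i) :
    ∑ i ∈ s, Real.sqrt (U i) * Real.sqrt (V i) ≤
      Real.sqrt (∑ i ∈ s, U i) * Real.sqrt (∑ i ∈ s, V i) := by
  have h := Real.sum_mul_le_sqrt_mul_sqrt s (fun i => Real.sqrt (U i)) (fun i => Real.sqrt (V i))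
  have e1 : ∑ i ∈ s, Real.sqrt (U i) ^ 2 = ∑ i ∈ s, U i :=
    sum_congr rfl fun i hi => Real.sq_sqrt (hU i hi)
  have e2 : ∑ i ∈ s, Real.sqrt (V i) ^ 2 = ∑ i ∈ s, V i :=
    sum_congr rfl fun i hi => Real.sq_sqrt (hV i hi)
  rw [e1, e2] at h
  exact h

theorem D5_nsq_nonneg (q : ℂ[X]) : 0 ≤ nsq q := sum_nonneg fun _ _ => by positivity

/-- The matrix coefficients of the Clifford part. -/
noncomputable def D5_ga {p m : ℕ} (g h : Sp m × ZMod p → ℂ[X]) (k : Fin m) (x' x : ZMod p) :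
    ℂ[X] :=
  ∑ s' : Sp m, ∑ s : Sp m, h (s', x') * C (Cl k s' s) * g (s, x)

theorem D5_inner (p : ℕ) [NeZero p] {m : ℕ} (g h : Sp m × ZMod p → ℂ[X]) (k : Fin m) (z : ℂ)
    (W : ZMod p → ZMod p → ℂ) :
    ∑ a : Sp m × ZMod p, ∑ b : Sp m × ZMod p,
      (h a).eval z * (Cl k a.1 b.1 * W a.2 b.2) * (g b).eval z =
    ∑ x', ∑ x, (D5_ga g h k x' x).eval z * W x' x := by
  simp only [D5_ga, Fintype.sum_prod_type, eval_finsetSum, eval_mul, eval_C, sum_mul]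
  rw [sum_comm]
  refine sum_congr rfl fun x' _ => ?_
  have e1 : ∀ s' : Sp m, ∑ s : Sp m, ∑ x : ZMod p,
      eval z (h (s', x')) * (Cl k s' s * W x' x) * eval z (g (s, x)) =
      ∑ x : ZMod p, ∑ s : Sp m, eval z (h (s', x')) * Cl k s' s * eval z (g (s, x)) * W x' x := by
    intro s'
    rw [sum_comm]
    refine sum_congr rfl fun x _ => sum_congr rfl fun s _ => ?_
    ring
  rw [sum_congr rfl fun s' _ => e1 s', sum_comm]

/-- The quantity to be estimated. -/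
noncomputable def D5_S (p : ℕ) [Fact p.Prime] (m : ℕ) (f : ℂ[X]) (g h : Sp m × ZMod p → ℂ[X]) : ℂ :=
  ∑ k : Fin m, (1 / ((p : ℂ) ^ 8) ^ ((k : ℕ) + 1)) * ∑ i ∈ range ((p ^ 8) ^ ((k : ℕ) + 1)),
      (f.eval (zz (p ^ 8) ((k : ℕ) + 1) i) - f.eval (zz (p ^ 8) (k : ℕ) (i / p ^ 8))) *
        ∑ a : Sp m × ZMod p, ∑ b : Sp m × ZMod p,
          (h a).eval (zz (p ^ 8) (k : ℕ) (i / p ^ 8)) * (Cl k a.1 b.1 *
            ((1 / (m : ℂ)) * ∑ j ∈ range m, vv p ((k : ℕ) + 1) (dg p 4 i) j a.2 *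
              vv p ((k : ℕ) + 1) (dg p 0 i) j b.2)) *
          (g b).eval (zz (p ^ 8) (k : ℕ) (i / p ^ 8))

/-- The difference between a child and its parent. -/
noncomputable def D5_F (p : ℕ) (f : ℂ[X]) (k j c : ℕ) : ℂ :=
  f.eval (zz (p ^ 8) (k + 1) (p ^ 8 * j + c)) - f.eval (zz (p ^ 8) k j)

/-- The contribution of one parent. -/
noncomputable def D5_T (p : ℕ) [Fact p.Prime] (m : ℕ) (f : ℂ[X]) (g h : Sp m × ZMod p → ℂ[X])
    (k : Fin m) (j : ℕ) : ℂ :=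
  ∑ c ∈ range (p ^ 8), D5_F p f k j c * ∑ x', ∑ x,
    (D5_ga g h k x' x).eval (zz (p ^ 8) (k : ℕ) j) * ((1 / (m : ℂ)) * ∑ l ∈ range m,
      vv p ((k : ℕ) + 1) (dg p 4 c) l x' * vv p ((k : ℕ) + 1) (dg p 0 c) l x)

theorem D5_S_eq (p : ℕ) [Fact p.Prime] (m : ℕ) (f : ℂ[X]) (g h : Sp m × ZMod p → ℂ[X]) :
    D5_S p m f g h = ∑ k : Fin m, (1 / ((p : ℂ) ^ 8) ^ ((k : ℕ) + 1)) *
      ∑ j ∈ range ((p ^ 8) ^ (k : ℕ)), D5_T p m f g h k j := by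
  unfold D5_S
  refine sum_congr rfl fun k _ => ?_
  congr 1
  rw [pow_succ', D5_range_mul]
  refine sum_congr rfl fun j _ => ?_
  unfold D5_T
  refine sum_congr rfl fun c hc => ?_
  have hc' : c < p ^ 8 := mem_range.1 hc
  have hdiv : (p ^ 8 * j + c) / p ^ 8 = j := by
    rw [Nat.mul_add_div (by have := (Fact.out : p.Prime).pos; positivity), Nat.div_eq_of_lt hc',
      add_zero]
  rw [hdiv, dg_add p 4 j c (by norm_num), dg_add p 0 j c (by norm_num)]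
  rw [D5_inner p g h k (zz (p ^ 8) (k : ℕ) j) (fun x' x => (1 / (m : ℂ)) * ∑ l ∈ range m,
      vv p ((k : ℕ) + 1) (dg p 4 c) l x' * vv p ((k : ℕ) + 1) (dg p 0 c) l x)]
  rfl

theorem D5_T_le (p : ℕ) [Fact p.Prime] (m : ℕ) (hm : 1 ≤ m) (f : ℂ[X])
    (g h : Sp m × ZMod p → ℂ[X]) (k : Fin m) (j : ℕ) (Q R : ℂ[X]) (η : ℝ) (hη1 : η < 1)
    (hRQ : ‖R.eval (zz (p ^ 8) (k : ℕ) j) * Q.eval (zz (p ^ 8) (k : ℕ) j) - 1‖ ≤ η) :
    ‖D5_T p m f g h k j‖ * (1 - η) ≤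
      Real.sqrt ((∑ c ∈ range (p ^ 8), ‖D5_F p f k j c‖ ^ 2) *
        ‖Q.eval (zz (p ^ 8) (k : ℕ) j)‖ ^ 2) *
      Real.sqrt ((p : ℝ) ^ 8 * ∑ x', ∑ x, ‖(R * D5_ga g h k x' x).eval (zz (p ^ 8) (k : ℕ) j)‖ ^ 2)
      := by
  have h1 := child_avg p m hm ((k : ℕ) + 1) (D5_F p f k j)
    (fun x' x => (D5_ga g h k x' x).eval (zz (p ^ 8) (k : ℕ) j))
  have h1' : ‖D5_T p m f g h k j‖ ^ 2 ≤ (∑ c ∈ range (p ^ 8), ‖D5_F p f k j c‖ ^ 2) *
      ((p : ℝ) ^ 8 * ∑ x', ∑ x, ‖(D5_ga g h k x' x).eval (zz (p ^ 8) (k : ℕ) j)‖ ^ 2) := h1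
  generalize zz (p ^ 8) (k : ℕ) j = z at *
  generalize (∑ c ∈ range (p ^ 8), ‖D5_F p f k j c‖ ^ 2) = A at *
  have hA : 0 ≤ A ∨ A < 0 := le_or_gt 0 A
  have h2 : 1 - η ≤ ‖R.eval z‖ * ‖Q.eval z‖ := by
    have h3 := norm_sub_norm_le (1 : ℂ) (R.eval z * Q.eval z)
    rw [norm_sub_rev, norm_one, norm_mul] at h3
    linarith
  have h4 : ∑ x', ∑ x, ‖(R * D5_ga g h k x' x).eval z‖ ^ 2 =
      ‖R.eval z‖ ^ 2 * ∑ x', ∑ x, ‖(D5_ga g h k x' x).eval z‖ ^ 2 := by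
    simp only [eval_mul, norm_mul, mul_pow, mul_sum]
  rw [h4]
  have hG : 0 ≤ ∑ x', ∑ x, ‖(D5_ga g h k x' x).eval z‖ ^ 2 :=
    sum_nonneg fun _ _ => sum_nonneg fun _ _ => by positivity
  generalize (∑ x', ∑ x, ‖(D5_ga g h k x' x).eval z‖ ^ 2) = G at *
  have hV : 0 ≤ (p : ℝ) ^ 8 * (‖R.eval z‖ ^ 2 * G) := by positivity
  rw [← Real.sqrt_mul' _ hV]
  apply Real.le_sqrt_of_sq_le
  rw [mul_pow]
  have h5 : (1 - η) ^ 2 ≤ (‖R.eval z‖ * ‖Q.eval z‖) ^ 2 :=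
    pow_le_pow_left₀ (by linarith) h2 2
  have hAG : 0 ≤ A * ((p : ℝ) ^ 8 * G) := le_trans (by positivity) h1'
  calc ‖D5_T p m f g h k j‖ ^ 2 * (1 - η) ^ 2
      ≤ (A * ((p : ℝ) ^ 8 * G)) * (‖R.eval z‖ * ‖Q.eval z‖) ^ 2 :=
        mul_le_mul h1' h5 (by positivity) hAG
    _ = A * ‖Q.eval z‖ ^ 2 * ((p : ℝ) ^ 8 * (‖R.eval z‖ ^ 2 * G)) := by ring

theorem D5_step (p : ℕ) [Fact p.Prime] (m : ℕ) (hm : 1 ≤ m)
    (f : ℂ[X]) (hf : Bdd1 f) (g h : Sp m × ZMod p → ℂ[X]) (η : ℝ) (hη : 0 < η) (hη1 : η < 1) :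
    ‖D5_S p m f g h‖ * (1 - η) ≤ Real.sqrt (800 * (∑ a, nsq (g a) + η)) *
      Real.sqrt (4 * (1 + η) ^ 2 * ∑ a, nsq (h a)) := by
  obtain ⟨Q, R, hQ, hRQ, hRg⟩ := outer g η hη
  have hη' : 0 ≤ 1 - η := by linarith
  have hp0 : 0 < p := (Fact.out : p.Prime).pos
  have hpR : (0 : ℝ) < p := by exact_mod_cast hp0
  obtain ⟨w, hw⟩ : ∃ w : Fin m → ℝ, w = fun k : Fin m => 1 / ((p : ℝ) ^ 8) ^ ((k : ℕ) + 1) :=
    ⟨_, rfl⟩
  have hw0 : ∀ k, 0 ≤ w k := fun k => by rw [hw]; positivity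
  obtain ⟨U, hU⟩ : ∃ U : Fin m → ℕ → ℝ, U = fun (k : Fin m) j =>
    (∑ c ∈ range (p ^ 8), ‖D5_F p f k j c‖ ^ 2) * ‖Q.eval (zz (p ^ 8) (k : ℕ) j)‖ ^ 2 := ⟨_, rfl⟩
  obtain ⟨V, hV⟩ : ∃ V : Fin m → ℕ → ℝ, V = fun (k : Fin m) j =>
    (p : ℝ) ^ 8 * ∑ x', ∑ x, ‖(R * D5_ga g h k x' x).eval (zz (p ^ 8) (k : ℕ) j)‖ ^ 2 := ⟨_, rfl⟩
  have hU0 : ∀ k j, 0 ≤ U k j := fun k j => by rw [hU]; positivity
  have hV0 : ∀ k j, 0 ≤ V k j := fun k j => by rw [hV]; positivity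
  have e1 : ‖D5_S p m f g h‖ * (1 - η) ≤
      ∑ k : Fin m, ∑ j ∈ range ((p ^ 8) ^ (k : ℕ)),
        Real.sqrt (w k * U k j) * Real.sqrt (w k * V k j) := by
    rw [D5_S_eq]
    calc ‖∑ k : Fin m, (1 / ((p : ℂ) ^ 8) ^ ((k : ℕ) + 1)) *
          ∑ j ∈ range ((p ^ 8) ^ (k : ℕ)), D5_T p m f g h k j‖ * (1 - η)
        ≤ (∑ k : Fin m, w k * ∑ j ∈ range ((p ^ 8) ^ (k : ℕ)), ‖D5_T p m f g h k j‖) * (1 - η) := by
          apply mul_le_mul_of_nonneg_right _ hη'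
          refine (norm_sum_le _ _).trans (sum_le_sum fun k _ => ?_)
          rw [norm_mul]
          have e : ‖(1 / ((p : ℂ) ^ 8) ^ ((k : ℕ) + 1))‖ = w k := by
            rw [hw]
            simp
          rw [e]
          exact mul_le_mul_of_nonneg_left (norm_sum_le _ _) (hw0 k)
      _ = ∑ k : Fin m, ∑ j ∈ range ((p ^ 8) ^ (k : ℕ)),
            w k * (‖D5_T p m f g h k j‖ * (1 - η)) := by
          rw [sum_mul]
          refine sum_congr rfl fun k _ => ?_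
          rw [mul_assoc, sum_mul, mul_sum]
      _ ≤ _ := by
          refine sum_le_sum fun k _ => sum_le_sum fun j _ => ?_
          rw [Real.sqrt_mul (hw0 k), Real.sqrt_mul (hw0 k)]
          have e : Real.sqrt (w k) * Real.sqrt (U k j) * (Real.sqrt (w k) * Real.sqrt (V k j)) =
              w k * (Real.sqrt (U k j) * Real.sqrt (V k j)) := by
            have := Real.mul_self_sqrt (hw0 k)
            linear_combination (Real.sqrt (U k j) * Real.sqrt (V k j)) * this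
          rw [e]
          apply mul_le_mul_of_nonneg_left _ (hw0 k)
          rw [hU, hV]
          exact D5_T_le p m hm f g h k j Q R η hη1 (hRQ _ (norm_zz_le _ _ _))
  have e2 : ∑ k : Fin m, ∑ j ∈ range ((p ^ 8) ^ (k : ℕ)), w k * U k j ≤ 800 * nsq Q := by
    have h8 : 2 ≤ p ^ 8 := by
      calc 2 ≤ p := (Fact.out : p.Prime).two_le
        _ ≤ p ^ 8 := Nat.le_self_pow (by norm_num) p
    refine le_trans (le_of_eq ?_) (square_fun_mul (p ^ 8) m h8 f Q hf)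
    refine sum_congr rfl fun k _ => ?_
    rw [← mul_sum, hw, hU]
    push_cast
    congr 1
    rw [pow_succ' (p ^ 8) (k : ℕ), D5_range_mul]
    refine sum_congr rfl fun j _ => ?_
    rw [sum_mul]
    refine sum_congr rfl fun c hc => ?_
    have hc' : c < p ^ 8 := mem_range.1 hc
    have hdiv : (p ^ 8 * j + c) / p ^ 8 = j := by
      rw [Nat.mul_add_div (by positivity), Nat.div_eq_of_lt hc', add_zero]
    rw [hdiv]
    rfl
  have e3 : ∑ k : Fin m, ∑ j ∈ range ((p ^ 8) ^ (k : ℕ)), w k * V k j ≤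
      4 * (1 + η) ^ 2 * ∑ a, nsq (h a) := by
    have hc := circle_part p m g h R ((1 + η) ^ 2) hRg
    calc ∑ k : Fin m, ∑ j ∈ range ((p ^ 8) ^ (k : ℕ)), w k * V k j
        ≤ ∑ k : Fin m, 2 * ∑ x' : ZMod p, ∑ x : ZMod p, nsq (R * D5_ga g h k x' x) := by
          refine sum_le_sum fun k _ => ?_
          rw [← mul_sum, hw, hV]
          have e4 : ∑ j ∈ range ((p ^ 8) ^ (k : ℕ)), (p : ℝ) ^ 8 * ∑ x' : ZMod p, ∑ x : ZMod p,
              ‖(R * D5_ga g h k x' x).eval (zz (p ^ 8) (k : ℕ) j)‖ ^ 2 =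
              (p : ℝ) ^ 8 * ∑ x' : ZMod p, ∑ x : ZMod p, ∑ j ∈ range ((p ^ 8) ^ (k : ℕ)),
              ‖(R * D5_ga g h k x' x).eval (zz (p ^ 8) (k : ℕ) j)‖ ^ 2 := by
            rw [← mul_sum, sum_comm]
            congr 1
            refine sum_congr rfl fun x' _ => ?_
            rw [sum_comm]
          have e5 : ∑ x' : ZMod p, ∑ x : ZMod p, ∑ j ∈ range ((p ^ 8) ^ (k : ℕ)),
              ‖(R * D5_ga g h k x' x).eval (zz (p ^ 8) (k : ℕ) j)‖ ^ 2 ≤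
              ∑ x' : ZMod p, ∑ x : ZMod p, 2 * ((p : ℝ) ^ 8) ^ (k : ℕ) *
                nsq (R * D5_ga g h k x' x) := by
            refine sum_le_sum fun x' _ => sum_le_sum fun x _ => ?_
            have := level_bound (p ^ 8) (k : ℕ) (Nat.one_le_pow _ _ hp0) (R * D5_ga g h k x' x)
            push_cast at this
            exact this
          have e6 : ∑ x' : ZMod p, ∑ x : ZMod p, 2 * ((p : ℝ) ^ 8) ^ (k : ℕ) *
                nsq (R * D5_ga g h k x' x) = ((p : ℝ) ^ 8) ^ (k : ℕ) * (2 *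
                ∑ x' : ZMod p, ∑ x : ZMod p, nsq (R * D5_ga g h k x' x)) := by
            simp only [mul_sum]
            refine sum_congr rfl fun x' _ => sum_congr rfl fun x _ => ?_
            ring
          show 1 / ((p : ℝ) ^ 8) ^ ((k : ℕ) + 1) * _ ≤ _
          rw [e4]
          rw [e6] at e5
          have hpk : (0 : ℝ) < ((p : ℝ) ^ 8) ^ ((k : ℕ) + 1) := by positivity
          rw [one_div, inv_mul_le_iff₀ hpk, pow_succ]
          calc (p : ℝ) ^ 8 * _ ≤ (p : ℝ) ^ 8 * _ := mul_le_mul_of_nonneg_left e5 (by positivity)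
            _ = _ := by ring
      _ = 2 * ∑ k : Fin m, ∑ x' : ZMod p, ∑ x : ZMod p, nsq (R * D5_ga g h k x' x) := by
          rw [mul_sum]
      _ ≤ 2 * (2 * (1 + η) ^ 2 * ∑ a, nsq (h a)) := by
          apply mul_le_mul_of_nonneg_left _ (by norm_num)
          exact hc
      _ = _ := by ring
  have e7 := D5_cs ((univ : Finset (Fin m)).sigma fun k => range ((p ^ 8) ^ (k : ℕ)))
    (fun x => w x.1 * U x.1 x.2) (fun x => w x.1 * V x.1 x.2)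
    (fun x _ => mul_nonneg (hw0 _) (hU0 _ _)) (fun x _ => mul_nonneg (hw0 _) (hV0 _ _))
  rw [sum_sigma, sum_sigma, sum_sigma] at e7
  refine e1.trans (e7.trans ?_)
  apply mul_le_mul
  · apply Real.sqrt_le_sqrt
    refine e2.trans ?_
    exact mul_le_mul_of_nonneg_left hQ (by norm_num)
  · exact Real.sqrt_le_sqrt e3
  · exact Real.sqrt_nonneg _
  · exact Real.sqrt_nonneg _

set_option linter.unusedVariables false in
/-- L5 -/
theorem corner_bound (p : ℕ) [Fact p.Prime] (hp : p ≠ 2) (m : ℕ) (hm : 1 ≤ m) (hmp : m ≤ p)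
    (f : ℂ[X]) (hf : Bdd1 f) (g h : Sp m × ZMod p → ℂ[X]) :
    ‖∑ k : Fin m, (1 / ((p : ℂ) ^ 8) ^ ((k : ℕ) + 1)) * ∑ i ∈ range ((p ^ 8) ^ ((k : ℕ) + 1)),
      (f.eval (zz (p ^ 8) ((k : ℕ) + 1) i) - f.eval (zz (p ^ 8) (k : ℕ) (i / p ^ 8))) *
        ∑ a : Sp m × ZMod p, ∑ b : Sp m × ZMod p,
          (h a).eval (zz (p ^ 8) (k : ℕ) (i / p ^ 8)) * (Cl k a.1 b.1 *
            ((1 / (m : ℂ)) * ∑ j ∈ range m, vv p ((k : ℕ) + 1) (dg p 4 i) j a.2 *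
              vv p ((k : ℕ) + 1) (dg p 0 i) j b.2)) *
          (g b).eval (zz (p ^ 8) (k : ℕ) (i / p ^ 8))‖ ≤
      60 * Real.sqrt (∑ a, nsq (g a)) * Real.sqrt (∑ a, nsq (h a)) := by
  show ‖D5_S p m f g h‖ ≤ _
  have hG : 0 ≤ ∑ a, nsq (g a) := sum_nonneg fun a _ => D5_nsq_nonneg _
  have hH : 0 ≤ ∑ a, nsq (h a) := sum_nonneg fun a _ => D5_nsq_nonneg _
  have hstep := D5_step p m hm f hf g h
  generalize (∑ a, nsq (g a)) = G at *
  generalize (∑ a, nsq (h a)) = H at *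
  generalize ‖D5_S p m f g h‖ = L at *
  have hlim : L * (1 - 0) ≤ Real.sqrt (800 * (G + 0)) * Real.sqrt (4 * (1 + 0) ^ 2 * H) := by
    have c1 : Continuous fun η : ℝ => L * (1 - η) := by fun_prop
    have c2 : Continuous fun η : ℝ => Real.sqrt (800 * (G + η)) *
        Real.sqrt (4 * (1 + η) ^ 2 * H) := by fun_prop
    have t1 := (c1.tendsto 0).mono_left (nhdsWithin_le_nhds (s := Set.Ioi (0 : ℝ)))
    have t2 := (c2.tendsto 0).mono_left (nhdsWithin_le_nhds (s := Set.Ioi (0 : ℝ)))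
    refine le_of_tendsto_of_tendsto t1 t2 ?_
    have : Set.Ioo (0 : ℝ) 1 ∈ nhdsWithin 0 (Set.Ioi (0 : ℝ)) := Ioo_mem_nhdsGT one_pos
    filter_upwards [this] with η hη
    exact hstep η hη.1 hη.2
  have e1 : Real.sqrt (800 * (G + 0)) * Real.sqrt (4 * (1 + 0) ^ 2 * H) =
      Real.sqrt 3200 * Real.sqrt G * Real.sqrt H := by
    rw [← Real.sqrt_mul (by positivity), ← Real.sqrt_mul (by norm_num),
      ← Real.sqrt_mul (by positivity)]
    congr 1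
    ring
  rw [e1, sub_zero, mul_one] at hlim
  have e2 : Real.sqrt 3200 ≤ 60 := by
    rw [Real.sqrt_le_left (by norm_num)]
    norm_num
  refine hlim.trans ?_
  gcongr

end PB
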