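import Pool.Agent.Helper89.PB.Defs
import Pool.Agent.Helper89.PB.D5
import Pool.Agent.Helper89.PB.F4
import Pool.Agent.Helper89.PB.F5
import Pool.Agent.Helper89.PB.F0
import Pool.Agent.Helper89.PB.C1
import Pool.Agent.Helper89.PB.R0

namespace PB

open Finset Polynomial

/-- polynomial of a diagonal matrix -/
theorem G3_aeval_diag {ι : Type*} [Fintype ι] [DecidableEq ι] (d : ι → ℂ) (q : ℂ[X]) :
    aeval (Matrix.diagonal d) q = Matrix.diagonal (fun a => q.eval (d a)) := by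
  induction q using Polynomial.induction_on' with
  | add p q hp hq => 
    rw [map_add, hp, hq, Matrix.diagonal_add]
    congr 1
    funext a
    simp
  | monomial n c => 
    rw [Polynomial.aeval_monomial, Matrix.diagonal_pow, Matrix.algebraMap_eq_diagonal,
      Matrix.diagonal_mul_diagonal]
    congr 1
    funext a
    simp

theorem G3_aeval_transpose {ι : Type*} [Fintype ι] [DecidableEq ι] (A : Matrix ι ι ℂ) (q : ℂ[X]) :
    (aeval A.transpose q).transpose = aeval A q := by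
  induction q using Polynomial.induction_on' with
  | add p q hp hq => 
    rw [map_add, Matrix.transpose_add, hp, hq, map_add]
  | monomial n c => 
    rw [Polynomial.aeval_monomial, Polynomial.aeval_monomial, Matrix.transpose_mul,
      Matrix.transpose_pow, Matrix.transpose_transpose, Matrix.algebraMap_eq_diagonal,
      Matrix.diagonal_transpose]
    rw [← Matrix.algebraMap_eq_diagonal]
    exact (Algebra.commutes _ _).symm

theorem G3_eval_pol {N : ℕ} {α : Type*} (v : Fin N × α → ℂ) (a : α) (z : ℂ) :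
    (pol v a).eval z = ∑ n : Fin N, v (n, a) * z ^ (n : ℕ) := by
  unfold pol
  rw [Polynomial.eval_finsetSum]
  simp

/-- the bilinear form of a node -/
noncomputable def G3B (p m : ℕ) [NeZero p] (k : Fin m) (i : ℕ) (F G : Sp m × ZMod p → ℂ) : ℂ :=
  ∑ a : Sp m × ZMod p, ∑ b : Sp m × ZMod p,
    F a * (Cl k a.1 b.1 *
      ((1 / (m : ℂ)) * ∑ j ∈ range m, vv p ((k : ℕ) + 1) (dg p 4 i) j a.2 *
        vv p ((k : ℕ) + 1) (dg p 0 i) j b.2)) * G b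

theorem G3_const (p m : ℕ) (k : ℕ) :
    (((Real.sqrt (1 / (((p : ℝ) ^ 8) ^ (k + 1))) : ℝ) : ℂ) *
    ((Real.sqrt (1 / (m : ℝ)) : ℝ) : ℂ)) * (((Real.sqrt (1 / (((p : ℝ) ^ 8) ^ (k + 1))) : ℝ) : ℂ) *
    ((Real.sqrt (1 / (m : ℝ)) : ℝ) : ℂ)) = (1 / ((p : ℂ) ^ 8) ^ (k + 1)) * (1 / (m : ℂ)) := by
  have h1 : ((Real.sqrt (1 / (((p : ℝ) ^ 8) ^ (k + 1))) : ℝ) : ℂ) *
      ((Real.sqrt (1 / (((p : ℝ) ^ 8) ^ (k + 1))) : ℝ) : ℂ) = 1 / ((p : ℂ) ^ 8) ^ (k + 1) := by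
    rw [← Complex.ofReal_mul, Real.mul_self_sqrt (by positivity)]
    push_cast
    rfl
  have h2 : ((Real.sqrt (1 / (m : ℝ)) : ℝ) : ℂ) * ((Real.sqrt (1 / (m : ℝ)) : ℝ) : ℂ) =
      1 / (m : ℂ) := by
    rw [← Complex.ofReal_mul, Real.mul_self_sqrt (by positivity)]
    push_cast
    rfl
  calc _ = (((Real.sqrt (1 / (((p : ℝ) ^ 8) ^ (k + 1))) : ℝ) : ℂ) *
      ((Real.sqrt (1 / (((p : ℝ) ^ 8) ^ (k + 1))) : ℝ) : ℂ)) * 
      (((Real.sqrt (1 / (m : ℝ)) : ℝ) : ℂ) * ((Real.sqrt (1 / (m : ℝ)) : ℝ) : ℂ)) := by ring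
    _ = _ := by rw [h1, h2]

/-- sum over the inner indices of a node -/
theorem G3_node (p m : ℕ) [NeZero p] (k : Fin m) (i : ℕ) (F G : Sp m × ZMod p → ℂ) (c : ℂ) :
    ∑ s' : Sp m, ∑ j : Fin m,
      (c * ∑ a : Sp m × ZMod p, (if s' = a.1 then 1 else 0) *
        vv p ((k : ℕ) + 1) (dg p 4 i) (j : ℕ) a.2 * F a) *
      (c * ∑ b : Sp m × ZMod p, Cl k s' b.1 *
        vv p ((k : ℕ) + 1) (dg p 0 i) (j : ℕ) b.2 * G b) =
      c * c * ∑ a : Sp m × ZMod p, ∑ b : Sp m × ZMod p,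
        F a * (Cl k a.1 b.1 *
          (∑ j ∈ range m, vv p ((k : ℕ) + 1) (dg p 4 i) j a.2 *
            vv p ((k : ℕ) + 1) (dg p 0 i) j b.2)) * G b := by
  have h1 : ∀ (s' : Sp m) (j : Fin m), 
      (c * ∑ a : Sp m × ZMod p, (if s' = a.1 then 1 else 0) *
        vv p ((k : ℕ) + 1) (dg p 4 i) (j : ℕ) a.2 * F a) *
      (c * ∑ b : Sp m × ZMod p, Cl k s' b.1 *
        vv p ((k : ℕ) + 1) (dg p 0 i) (j : ℕ) b.2 * G b) = 
      c * c * ∑ a : Sp m × ZMod p, ∑ b : Sp m × ZMod p, (if s' = a.1 then 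
        F a * (Cl k a.1 b.1 * (vv p ((k : ℕ) + 1) (dg p 4 i) j a.2 *
            vv p ((k : ℕ) + 1) (dg p 0 i) j b.2)) * G b else 0) := by
    intro s' j
    rw [show ∀ A B : ℂ, (c * A) * (c * B) = c * c * (A * B) from fun A B => by ring]
    rw [Finset.sum_mul_sum]
    congr 1
    refine Finset.sum_congr rfl (fun a _ => Finset.sum_congr rfl (fun b _ => ?_))
    split_ifs with h
    · rw [h]; ring
    · ring
  simp_rw [h1, ← Finset.mul_sum]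
  congr 1
  rw [Finset.sum_comm]
  have h2 : ∀ j : Fin m, ∑ s' : Sp m, ∑ a : Sp m × ZMod p, ∑ b : Sp m × ZMod p, (if s' = a.1 then 
        F a * (Cl k a.1 b.1 * (vv p ((k : ℕ) + 1) (dg p 4 i) j a.2 *
            vv p ((k : ℕ) + 1) (dg p 0 i) j b.2)) * G b else 0) = 
      ∑ a : Sp m × ZMod p, ∑ b : Sp m × ZMod p, 
        F a * (Cl k a.1 b.1 * (vv p ((k : ℕ) + 1) (dg p 4 i) j a.2 *
            vv p ((k : ℕ) + 1) (dg p 0 i) j b.2)) * G b := by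
    intro j
    rw [Finset.sum_comm]
    refine Finset.sum_congr rfl (fun a _ => ?_)
    rw [Finset.sum_comm]
    refine Finset.sum_congr rfl (fun b _ => ?_)
    rw [Finset.sum_ite_eq']
    simp
  simp_rw [h2]
  rw [Finset.sum_comm]
  refine Finset.sum_congr rfl (fun a _ => ?_)
  rw [Finset.sum_comm]
  refine Finset.sum_congr rfl (fun b _ => ?_)
  rw [← Fin.sum_univ_eq_sum_range (fun j => vv p ((k : ℕ) + 1) (dg p 4 i) j a.2 *
            vv p ((k : ℕ) + 1) (dg p 0 i) j b.2), Finset.mul_sum, Finset.mul_sum, Finset.sum_mul]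


theorem G3_V (p m N : ℕ) [NeZero p] (u : Fin N × (Sp m × ZMod p) → ℂ) (k : Fin m)
    (i : Fin ((p ^ 8) ^ ((k : ℕ) + 1))) (s' : Sp m) (j : Fin m) :
    Matrix.vecMul u (VV p m N) ⟨k, (i, s', j)⟩ =
      (((Real.sqrt (1 / (((p : ℝ) ^ 8) ^ ((k : ℕ) + 1))) : ℝ) : ℂ) *
        ((Real.sqrt (1 / (m : ℝ)) : ℝ) : ℂ)) * ∑ a : Sp m × ZMod p, (if s' = a.1 then 1 else 0) *
        vv p ((k : ℕ) + 1) (dg p 4 i) (j : ℕ) a.2 *
          (∑ n : Fin N, u (n, a) * zz (p ^ 8) (k : ℕ) ((i : ℕ) / p ^ 8) ^ (n : ℕ)) := by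
  rw [Matrix.vecMul, dotProduct, Fintype.sum_prod_type_right, Finset.mul_sum]
  refine Finset.sum_congr rfl (fun a _ => ?_)
  rw [Finset.mul_sum, Finset.mul_sum]
  refine Finset.sum_congr rfl (fun n _ => ?_)
  simp only [VV]
  split_ifs <;> ring

theorem G3_W (p m N : ℕ) [NeZero p] (v : Fin N × (Sp m × ZMod p) → ℂ) (k : Fin m)
    (i : Fin ((p ^ 8) ^ ((k : ℕ) + 1))) (s' : Sp m) (j : Fin m) :
    Matrix.mulVec (WW p m N) v ⟨k, (i, s', j)⟩ =
      (((Real.sqrt (1 / (((p : ℝ) ^ 8) ^ ((k : ℕ) + 1))) : ℝ) : ℂ) *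
        ((Real.sqrt (1 / (m : ℝ)) : ℝ) : ℂ)) * ∑ b : Sp m × ZMod p, Cl k s' b.1 *
        vv p ((k : ℕ) + 1) (dg p 0 i) (j : ℕ) b.2 *
          (∑ n : Fin N, v (n, b) * zz (p ^ 8) (k : ℕ) ((i : ℕ) / p ^ 8) ^ (n : ℕ)) := by
  rw [Matrix.mulVec, dotProduct, Fintype.sum_prod_type_right, Finset.mul_sum]
  refine Finset.sum_congr rfl (fun a _ => ?_)
  rw [Finset.mul_sum, Finset.mul_sum]
  refine Finset.sum_congr rfl (fun n _ => ?_)
  simp only [WW]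
  ring

theorem G3B_sub (p m : ℕ) [NeZero p] (k : Fin m) (i : ℕ) (F F' G : Sp m × ZMod p → ℂ) :
    G3B p m k i (fun a => F a - F' a) G = G3B p m k i F G - G3B p m k i F' G := by
  unfold G3B
  rw [← Finset.sum_sub_distrib]
  refine Finset.sum_congr rfl (fun a _ => ?_)
  rw [← Finset.sum_sub_distrib]
  refine Finset.sum_congr rfl (fun b _ => ?_)
  ring

theorem G3B_smul (p m : ℕ) [NeZero p] (k : Fin m) (i : ℕ) (c : ℂ) (F G : Sp m × ZMod p → ℂ) :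
    G3B p m k i (fun a => c * F a) G = c * G3B p m k i F G := by
  unfold G3B
  rw [Finset.mul_sum]
  refine Finset.sum_congr rfl (fun a _ => ?_)
  rw [Finset.mul_sum]
  refine Finset.sum_congr rfl (fun b _ => ?_)
  ring

/-- the sum over the second index set as a sum over the nodes -/
theorem G3_sum (p m N : ℕ) [NeZero p] (u v : Fin N × (Sp m × ZMod p) → ℂ) (μ : ℕ → ℕ → ℂ) :
    ∑ a : I2 p m, Matrix.vecMul u (VV p m N) a * (μ (a.1 : ℕ) (a.2.1 : ℕ) *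
      Matrix.mulVec (WW p m N) v a) = 
    ∑ k : Fin m, (1 / ((p : ℂ) ^ 8) ^ ((k : ℕ) + 1)) * ∑ i ∈ range ((p ^ 8) ^ ((k : ℕ) + 1)),
      μ (k : ℕ) i * G3B p m k i
        (fun a => ∑ n : Fin N, u (n, a) * zz (p ^ 8) (k : ℕ) (i / p ^ 8) ^ (n : ℕ))
        (fun b => ∑ n : Fin N, v (n, b) * zz (p ^ 8) (k : ℕ) (i / p ^ 8) ^ (n : ℕ)) := by
  rw [Fintype.sum_sigma]
  refine Finset.sum_congr rfl (fun k _ => ?_)
  rw [Fintype.sum_prod_type]
  rw [← Fin.sum_univ_eq_sum_range (fun i => μ (k : ℕ) i * G3B p m k i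
        (fun a => ∑ n : Fin N, u (n, a) * zz (p ^ 8) (k : ℕ) (i / p ^ 8) ^ (n : ℕ))
        (fun b => ∑ n : Fin N, v (n, b) * zz (p ^ 8) (k : ℕ) (i / p ^ 8) ^ (n : ℕ))),
    Finset.mul_sum]
  refine Finset.sum_congr rfl (fun i _ => ?_)
  rw [Fintype.sum_prod_type]
  dsimp only
  simp_rw [G3_V, G3_W]
  rw [show ∀ A B C : ℂ, A * (B * C) = B * (A * C) from fun A B C => by ring]
  unfold G3B
  have h1 : ∀ (A : Sp m × ZMod p → ℂ) (B : Sp m × ZMod p → ℂ), 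
      ∑ a : Sp m × ZMod p, ∑ b : Sp m × ZMod p, A a * (Cl k a.1 b.1 *
      ((1 / (m : ℂ)) * ∑ j ∈ range m, vv p ((k : ℕ) + 1) (dg p 4 (i : ℕ)) j a.2 *
        vv p ((k : ℕ) + 1) (dg p 0 (i : ℕ)) j b.2)) * B b = (1 / (m : ℂ)) * 
      ∑ a : Sp m × ZMod p, ∑ b : Sp m × ZMod p,
        A a * (Cl k a.1 b.1 *
          (∑ j ∈ range m, vv p ((k : ℕ) + 1) (dg p 4 (i : ℕ)) j a.2 *
            vv p ((k : ℕ) + 1) (dg p 0 (i : ℕ)) j b.2)) * B b := by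
    intro A B
    rw [Finset.mul_sum]
    refine Finset.sum_congr rfl (fun a _ => ?_)
    rw [Finset.mul_sum]
    refine Finset.sum_congr rfl (fun b _ => ?_)
    ring
  rw [h1, ← mul_assoc (1 / ((p : ℂ) ^ 8) ^ ((k : ℕ) + 1)), ← G3_const, ← G3_node, Finset.mul_sum]
  refine Finset.sum_congr rfl (fun s _ => ?_)
  rw [Finset.mul_sum]
  refine Finset.sum_congr rfl (fun j _ => ?_)
  ring


theorem G3_norm_vv (p : ℕ) [NeZero p] (k : ℕ) (a : Fin 4 → ZMod p) (j : ℕ) (x : ZMod p) :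
    ‖vv p k a j x‖ = 1 := by
  unfold vv
  exact AddChar.norm_apply _ _

theorem G3_cs {ι : Type*} [Fintype ι] (F G : ι → ℂ) :
    ‖∑ a, F a * G a‖ ≤ Real.sqrt (∑ a, ‖F a‖ ^ 2) * Real.sqrt (∑ a, ‖G a‖ ^ 2) := by
  calc ‖∑ a, F a * G a‖ ≤ ∑ a, ‖F a * G a‖ := norm_sum_le _ _
    _ = ∑ a, ‖F a‖ * ‖G a‖ := by simp only [norm_mul]
    _ ≤ _ := Real.sum_mul_le_sqrt_mul_sqrt _ _ _

theorem G3_sum_sqrt {κ : Type*} [Fintype κ] (f : κ → ℝ) (hf : ∀ x, 0 ≤ f x) :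
    ∑ x, Real.sqrt (f x) ≤ Real.sqrt (Fintype.card κ) * Real.sqrt (∑ x, f x) := by
  have h := Real.sum_mul_le_sqrt_mul_sqrt (Finset.univ : Finset κ) (fun _ => (1 : ℝ))
    (fun x => Real.sqrt (f x))
  simp only [one_mul, one_pow, Finset.sum_const, Finset.card_univ, nsmul_eq_mul, mul_one] at h
  simp_rw [Real.sq_sqrt (hf _)] at h
  exact h

theorem G3B_bound (p m : ℕ) [NeZero p] (k : Fin m) (i : ℕ) (F G : Sp m × ZMod p → ℂ) :
    ‖G3B p m k i F G‖ ≤ p * (Real.sqrt (∑ a, ‖F a‖ ^ 2) * Real.sqrt (∑ a, ‖G a‖ ^ 2)) := by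
  have hm : (0 : ℝ) < m := by
    have := k.2
    have h0 : 0 < m := by omega
    exact_mod_cast h0
  have hK : ∀ x' x : ZMod p, ‖(1 / (m : ℂ)) * ∑ j ∈ range m, vv p ((k : ℕ) + 1) (dg p 4 i) j x' *
      vv p ((k : ℕ) + 1) (dg p 0 i) j x‖ ≤ 1 := by
    intro x' x
    rw [norm_mul]
    have h1 : ‖∑ j ∈ range m, vv p ((k : ℕ) + 1) (dg p 4 i) j x' *
        vv p ((k : ℕ) + 1) (dg p 0 i) j x‖ ≤ m := by
      refine le_trans (norm_sum_le _ _) ?_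
      simp [G3_norm_vv]
    have h2 : ‖(1 / (m : ℂ))‖ = 1 / (m : ℝ) := by
      rw [norm_div, norm_one, Complex.norm_natCast]
    rw [h2]
    calc 1 / (m : ℝ) * _ ≤ 1 / (m : ℝ) * m := by gcongr
      _ = 1 := by field_simp
  have h0 : G3B p m k i F G = ∑ x' : ZMod p, ∑ x : ZMod p, ((1 / (m : ℂ)) * ∑ j ∈ range m,
      vv p ((k : ℕ) + 1) (dg p 4 i) j x' * vv p ((k : ℕ) + 1) (dg p 0 i) j x) *
      ∑ s' : Sp m, F (s', x') * ∑ s : Sp m, Cl k s' s * G (s, x) := by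
    unfold G3B
    rw [Fintype.sum_prod_type_right]
    refine Finset.sum_congr rfl (fun x' _ => ?_)
    have e0 : ∀ s' : Sp m, ∑ b : Sp m × ZMod p, F (s', x') * (Cl k (s', x').1 b.1 *
        ((1 / (m : ℂ)) * ∑ j ∈ range m, vv p ((k : ℕ) + 1) (dg p 4 i) j (s', x').2 *
        vv p ((k : ℕ) + 1) (dg p 0 i) j b.2)) * G b = 
        ∑ x : ZMod p, ∑ s : Sp m, F (s', x') * (Cl k s' s *
        ((1 / (m : ℂ)) * ∑ j ∈ range m, vv p ((k : ℕ) + 1) (dg p 4 i) j x' *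
        vv p ((k : ℕ) + 1) (dg p 0 i) j x)) * G (s, x) := by
      intro s'
      rw [Fintype.sum_prod_type_right]
    rw [Finset.sum_congr rfl (fun s' _ => e0 s'), Finset.sum_comm]
    refine Finset.sum_congr rfl (fun x _ => ?_)
    generalize (1 / (m : ℂ)) * ∑ j ∈ range m, vv p ((k : ℕ) + 1) (dg p 4 i) j x' *
        vv p ((k : ℕ) + 1) (dg p 0 i) j x = K
    rw [Finset.mul_sum]
    refine Finset.sum_congr rfl (fun s' _ => ?_)
    rw [Finset.mul_sum, Finset.mul_sum]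
    refine Finset.sum_congr rfl (fun s _ => ?_)
    ring
  have h1 : ∀ x' x : ZMod p, ‖∑ s' : Sp m, F (s', x') * ∑ s : Sp m, Cl k s' s * G (s, x)‖ ≤
      Real.sqrt (∑ s', ‖F (s', x')‖ ^ 2) * Real.sqrt (∑ s, ‖G (s, x)‖ ^ 2) := by
    intro x' x
    refine le_trans (G3_cs _ _) ?_
    rw [Cl_iso k (fun s => G (s, x))]
    exact le_of_eq rfl
  rw [h0]
  calc _ ≤ ∑ x' : ZMod p, ∑ x : ZMod p,
      Real.sqrt (∑ s', ‖F (s', x')‖ ^ 2) * Real.sqrt (∑ s, ‖G (s, x)‖ ^ 2) := by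
        refine le_trans (norm_sum_le _ _) (Finset.sum_le_sum (fun x' _ => ?_))
        refine le_trans (norm_sum_le _ _) (Finset.sum_le_sum (fun x _ => ?_))
        rw [norm_mul]
        calc _ ≤ 1 * _ := mul_le_mul (hK x' x) (h1 x' x) (norm_nonneg _) zero_le_one
          _ = _ := one_mul _
    _ = (∑ x' : ZMod p, Real.sqrt (∑ s', ‖F (s', x')‖ ^ 2)) *
        ∑ x : ZMod p, Real.sqrt (∑ s, ‖G (s, x)‖ ^ 2) := by
        rw [Finset.sum_mul_sum]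
    _ ≤ (Real.sqrt p * Real.sqrt (∑ a, ‖F a‖ ^ 2)) * (Real.sqrt p * Real.sqrt (∑ a, ‖G a‖ ^ 2)) := by
        have e1 : ∀ H : Sp m × ZMod p → ℂ, ∑ x : ZMod p, Real.sqrt (∑ s, ‖H (s, x)‖ ^ 2) ≤
            Real.sqrt p * Real.sqrt (∑ a, ‖H a‖ ^ 2) := by
          intro H
          have := G3_sum_sqrt (fun x : ZMod p => ∑ s, ‖H (s, x)‖ ^ 2)
            (fun x => Finset.sum_nonneg (fun s _ => by positivity))
          rw [ZMod.card] at this
          rw [Fintype.sum_prod_type_right (fun a => ‖H a‖ ^ 2)]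
          exact this
        exact mul_le_mul (e1 F) (e1 G) (Finset.sum_nonneg (fun x _ => Real.sqrt_nonneg _))
          (by positivity)
    _ = (Real.sqrt p * Real.sqrt p) *
        (Real.sqrt (∑ a, ‖F a‖ ^ 2) * Real.sqrt (∑ a, ‖G a‖ ^ 2)) := by ring
    _ = _ := by rw [Real.mul_self_sqrt (by positivity)]

theorem G3_two_pow (A : ℕ) (hA : 12 ≤ A) : 2 * A ^ 3 ≤ 2 ^ A := by
  induction A, hA using Nat.le_induction with
  | base => norm_num
  | succ n hn ih => 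
    rw [pow_succ 2 n]
    nlinarith [Nat.mul_le_mul hn hn, Nat.mul_le_mul hn (Nat.mul_le_mul hn hn), sq_nonneg n]

/-- numerics of the tails -/
theorem G3_num (p m : ℕ) (hp : 101 ≤ p) (hmp : 4 * m ^ 8 ≤ p) (hm : 1 ≤ m) :
    (m : ℝ) * (p * (rr ((p ^ 8) ^ m) ^ (((p ^ 8) ^ m) ^ 2) / (1 - rr ((p ^ 8) ^ m) ^ 2))) ≤ 1 := by
  set A := (p ^ 8) ^ m with hA
  have hpA : p ≤ A := by
    rw [hA, ← pow_mul]
    calc p = p ^ 1 := (pow_one p).symm
      _ ≤ p ^ (8 * m) := Nat.pow_le_pow_right (by omega) (by omega)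
  have hmp' : m ≤ p := by
    calc m = m ^ 1 := (pow_one m).symm
      _ ≤ m ^ 8 := Nat.pow_le_pow_right hm (by norm_num)
      _ ≤ 4 * m ^ 8 := by omega
      _ ≤ p := hmp
  have hA1 : 1 ≤ A := by omega
  have h1 : rr A ^ (A ^ 2) = (1 / 2) ^ A := by
    rw [pow_two, pow_mul, rr_pow A hA1]
  have h2 := one_sub_rr A hA1
  have h3 := rr_lt_one A hA1
  have h4 := rr_pos A
  have hA0 : (0 : ℝ) < A := by exact_mod_cast (by omega : 0 < A)
  have h5 : 1 / (2 * (A : ℝ)) ≤ 1 - rr A ^ 2 := by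
    have : rr A ^ 2 ≤ rr A := by nlinarith
    linarith
  rw [h1]
  have h6 : (2 : ℝ) * (A : ℝ) ^ 3 ≤ 2 ^ A := by
    exact_mod_cast G3_two_pow A (by omega)
  have h7 : (m : ℝ) ≤ A := by exact_mod_cast (by omega : m ≤ A)
  have h8 : (p : ℝ) ≤ A := by exact_mod_cast hpA
  have h9 : (1 / 2 : ℝ) ^ A = 1 / 2 ^ A := by rw [one_div_pow]
  have hpos : (0 : ℝ) < 1 - rr A ^ 2 := lt_of_lt_of_le (by positivity) h5
  have h2A : (0 : ℝ) < 2 ^ A := by positivity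
  calc (m : ℝ) * (p * ((1 / 2 : ℝ) ^ A / (1 - rr A ^ 2))) ≤
      A * (A * ((1 / 2 : ℝ) ^ A / (1 / (2 * (A : ℝ))))) := by
        gcongr
    _ = (2 * (A : ℝ) ^ 3) / 2 ^ A := by
        rw [h9]; field_simp
    _ ≤ 1 := by
        rw [div_le_one h2A]; exact h6


theorem G3_form (p m N : ℕ) [NeZero p] (q : ℂ[X]) (u v : Fin N × (Sp m × ZMod p) → ℂ) :
    dotProduct u ((VV p m N * aeval (DD p m) q * WW p m N -
      aeval (Sh N (Sp m × ZMod p)).transpose q * VV p m N * WW p m N).mulVec v) =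
    ∑ k : Fin m, (1 / ((p : ℂ) ^ 8) ^ ((k : ℕ) + 1)) * ∑ i ∈ range ((p ^ 8) ^ ((k : ℕ) + 1)),
      ((q.eval (zz (p ^ 8) ((k : ℕ) + 1) i) - q.eval (zz (p ^ 8) (k : ℕ) (i / p ^ 8))) *
        G3B p m k i (fun a => (pol u a).eval (zz (p ^ 8) (k : ℕ) (i / p ^ 8)))
          (fun b => (pol v b).eval (zz (p ^ 8) (k : ℕ) (i / p ^ 8))) +
        G3B p m k i (fun a => (q * pol u a).eval (zz (p ^ 8) (k : ℕ) (i / p ^ 8)) -
          ∑ n ∈ range N, (q * pol u a).coeff n * (zz (p ^ 8) (k : ℕ) (i / p ^ 8)) ^ n)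
          (fun b => (pol v b).eval (zz (p ^ 8) (k : ℕ) (i / p ^ 8)))) := by
  rw [Matrix.sub_mulVec, dotProduct_sub, ← Matrix.mulVec_mulVec, ← Matrix.mulVec_mulVec,
    ← Matrix.mulVec_mulVec, ← Matrix.mulVec_mulVec, Matrix.dotProduct_mulVec,
    Matrix.dotProduct_mulVec u, ← Matrix.mulVec_transpose (aeval (Sh N (Sp m × ZMod p)).transpose q),
    G3_aeval_transpose]
  have hD : aeval (DD p m) q = Matrix.diagonal (fun a : I2 p m =>
      q.eval (zz (p ^ 8) ((a.1 : ℕ) + 1) (a.2.1 : ℕ))) := by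
    unfold DD
    exact G3_aeval_diag _ _
  rw [hD]
  have e1 : Matrix.vecMul u (VV p m N) ⬝ᵥ (Matrix.diagonal (fun a : I2 p m =>
      q.eval (zz (p ^ 8) ((a.1 : ℕ) + 1) (a.2.1 : ℕ)))).mulVec ((WW p m N).mulVec v) =
      ∑ k : Fin m, (1 / ((p : ℂ) ^ 8) ^ ((k : ℕ) + 1)) * ∑ i ∈ range ((p ^ 8) ^ ((k : ℕ) + 1)),
      (q.eval (zz (p ^ 8) ((k : ℕ) + 1) i) *
        G3B p m k i (fun a => (pol u a).eval (zz (p ^ 8) (k : ℕ) (i / p ^ 8)))
          (fun b => (pol v b).eval (zz (p ^ 8) (k : ℕ) (i / p ^ 8)))) := by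
    simp_rw [G3_eval_pol]
    rw [← G3_sum p m N u v (fun k i => q.eval (zz (p ^ 8) (k + 1) i))]
    rw [dotProduct]
    refine Finset.sum_congr rfl (fun a _ => ?_)
    rw [Matrix.mulVec_diagonal]
  have e2 : (aeval (Sh N (Sp m × ZMod p)) q).mulVec u ⬝ᵥ (VV p m N).mulVec
      ((WW p m N).mulVec v) =
      ∑ k : Fin m, (1 / ((p : ℂ) ^ 8) ^ ((k : ℕ) + 1)) * ∑ i ∈ range ((p ^ 8) ^ ((k : ℕ) + 1)),
        G3B p m k i (fun a =>
          ∑ n ∈ range N, (q * pol u a).coeff n * (zz (p ^ 8) (k : ℕ) (i / p ^ 8)) ^ n)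
          (fun b => (pol v b).eval (zz (p ^ 8) (k : ℕ) (i / p ^ 8))) := by
    simp_rw [G3_eval_pol]
    rw [Matrix.dotProduct_mulVec, dotProduct]
    have h := G3_sum p m N ((aeval (Sh N (Sp m × ZMod p)) q).mulVec u) v (fun _ _ => 1)
    simp only [one_mul] at h
    rw [h]
    refine Finset.sum_congr rfl (fun k _ => ?_)
    congr 1
    refine Finset.sum_congr rfl (fun i _ => ?_)
    congr 1
    funext a
    rw [← Fin.sum_univ_eq_sum_range
      (fun n => (q * pol u a).coeff n * (zz (p ^ 8) (k : ℕ) (i / p ^ 8)) ^ n)]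
    refine Finset.sum_congr rfl (fun n _ => ?_)
    rw [shift_apply]
  rw [e1, e2, ← Finset.sum_sub_distrib]
  refine Finset.sum_congr rfl (fun k _ => ?_)
  rw [← mul_sub, ← Finset.sum_sub_distrib]
  congr 1
  refine Finset.sum_congr rfl (fun i _ => ?_)
  rw [G3B_sub]
  have e3 : G3B p m k i (fun a => (q * pol u a).eval (zz (p ^ 8) (k : ℕ) (i / p ^ 8)))
      (fun b => (pol v b).eval (zz (p ^ 8) (k : ℕ) (i / p ^ 8))) =
      q.eval (zz (p ^ 8) (k : ℕ) (i / p ^ 8)) *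
      G3B p m k i (fun a => (pol u a).eval (zz (p ^ 8) (k : ℕ) (i / p ^ 8)))
      (fun b => (pol v b).eval (zz (p ^ 8) (k : ℕ) (i / p ^ 8))) := by
    rw [← G3B_smul]
    simp only [Polynomial.eval_mul]
  rw [e3]
  ring

/-- the bound of the tail of a node -/
theorem G3_tail (p m : ℕ) [NeZero p] (hp : 101 ≤ p)
    (N : ℕ) (hN : N = ((p ^ 8) ^ m) ^ 2) (q : ℂ[X]) (hq : Bdd1 q)
    (u v : Fin N × (Sp m × ZMod p) → ℂ) (k : Fin m) (i : ℕ) :
    ‖G3B p m k i (fun a => (q * pol u a).eval (zz (p ^ 8) (k : ℕ) (i / p ^ 8)) -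
          ∑ n ∈ range N, (q * pol u a).coeff n * (zz (p ^ 8) (k : ℕ) (i / p ^ 8)) ^ n)
          (fun b => (pol v b).eval (zz (p ^ 8) (k : ℕ) (i / p ^ 8)))‖ ≤
      p * (rr ((p ^ 8) ^ m) ^ (((p ^ 8) ^ m) ^ 2) / (1 - rr ((p ^ 8) ^ m) ^ 2)) *
        (Real.sqrt (sq u) * Real.sqrt (sq v)) := by
  set z := zz (p ^ 8) (k : ℕ) (i / p ^ 8) with hz
  set r := rr ((p ^ 8) ^ m) with hr
  have hp1 : 1 ≤ p ^ 8 := Nat.one_le_pow _ _ (by omega)
  have hA1 : 1 ≤ (p ^ 8) ^ m := Nat.one_le_pow _ _ (by omega)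
  have hr1 : r < 1 := rr_lt_one _ hA1
  have hr0 : 0 < r := rr_pos _
  have hzr : ‖z‖ ≤ r := by
    rw [hz]
    unfold zz
    rw [norm_mul, norm_rt, mul_one, Complex.norm_real, Real.norm_of_nonneg (rr_pos _).le]
    exact rr_mono _ _ (Nat.one_le_pow _ _ (by omega)) (Nat.pow_le_pow_right (by omega) k.2.le)
  have hq1 : Bdd1 (1 : ℂ[X]) := by
    intro z _
    simp
  have h1 := tail_bound N q hq (pol u) z r hr1 hzr
  have h2 := tail_bound 0 1 hq1 (pol v) z r hr1 hzr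
  rw [sum_nsq_pol] at h1 h2
  simp only [one_mul, Finset.range_zero, Finset.sum_empty, sub_zero, mul_zero, pow_zero] at h2
  have hd : 0 < 1 - r ^ 2 := by nlinarith
  refine le_trans (G3B_bound p m k i _ _) ?_
  rw [mul_assoc]
  refine mul_le_mul_of_nonneg_left ?_ (by positivity)
  have e1 : Real.sqrt (r ^ (2 * N) / (1 - r ^ 2) * sq u) * Real.sqrt (1 / (1 - r ^ 2) * sq v) =
      r ^ N / (1 - r ^ 2) * (Real.sqrt (sq u) * Real.sqrt (sq v)) := by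
    rw [Real.sqrt_mul (by positivity), Real.sqrt_mul (by positivity)]
    have h3 : Real.sqrt (r ^ (2 * N) / (1 - r ^ 2)) * Real.sqrt (1 / (1 - r ^ 2)) =
        r ^ N / (1 - r ^ 2) := by
      rw [← Real.sqrt_mul (by positivity)]
      rw [show r ^ (2 * N) / (1 - r ^ 2) * (1 / (1 - r ^ 2)) = (r ^ N / (1 - r ^ 2)) ^ 2 by
        rw [div_pow, ← pow_mul, mul_comm N 2]
        field_simp]
      exact Real.sqrt_sq (by positivity)
    calc _ = (Real.sqrt (r ^ (2 * N) / (1 - r ^ 2)) * Real.sqrt (1 / (1 - r ^ 2))) *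
        (Real.sqrt (sq u) * Real.sqrt (sq v)) := by ring
      _ = _ := by rw [h3]
  rw [← hN, ← e1]
  exact mul_le_mul (Real.sqrt_le_sqrt h1) (Real.sqrt_le_sqrt h2) (Real.sqrt_nonneg _)
    (Real.sqrt_nonneg _)

theorem bound_Z (p : ℕ) [Fact p.Prime] (hp : 101 ≤ p) (m : ℕ) (hmp : 4 * m ^ 8 ≤ p) (hm : 1 ≤ m)
    (N : ℕ) (hN : N = ((p ^ 8) ^ m) ^ 2) (q : ℂ[X]) (hq : Bdd1 q) :
    MB (VV p m N * aeval (DD p m) q * WW p m N -
      aeval (Sh N (Sp m × ZMod p)).transpose q * VV p m N * WW p m N) 61 := by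
  rw [MB_iff _ _ (by norm_num)]
  intro v u
  rw [G3_form]
  simp_rw [Finset.sum_add_distrib, mul_add]
  rw [Finset.sum_add_distrib]
  have hmp' : m ≤ p := by
    calc m = m ^ 1 := (pow_one m).symm
      _ ≤ m ^ 8 := Nat.pow_le_pow_right hm (by norm_num)
      _ ≤ 4 * m ^ 8 := by omega
      _ ≤ p := hmp
  have h1 := corner_bound p (by omega) m hm hmp' q hq (pol v) (pol u)
  rw [sum_nsq_pol, sum_nsq_pol] at h1
  have h2 : ‖∑ k : Fin m, (1 / ((p : ℂ) ^ 8) ^ ((k : ℕ) + 1)) *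
      ∑ i ∈ range ((p ^ 8) ^ ((k : ℕ) + 1)),
        G3B p m k i (fun a => (q * pol u a).eval (zz (p ^ 8) (k : ℕ) (i / p ^ 8)) -
          ∑ n ∈ range N, (q * pol u a).coeff n * (zz (p ^ 8) (k : ℕ) (i / p ^ 8)) ^ n)
          (fun b => (pol v b).eval (zz (p ^ 8) (k : ℕ) (i / p ^ 8)))‖ ≤
      Real.sqrt (sq u) * Real.sqrt (sq v) := by
    set X := p * (rr ((p ^ 8) ^ m) ^ (((p ^ 8) ^ m) ^ 2) / (1 - rr ((p ^ 8) ^ m) ^ 2)) *
        (Real.sqrt (sq u) * Real.sqrt (sq v)) with hX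
    have h3 : ∀ k : Fin m, ‖(1 / ((p : ℂ) ^ 8) ^ ((k : ℕ) + 1)) *
      ∑ i ∈ range ((p ^ 8) ^ ((k : ℕ) + 1)),
        G3B p m k i (fun a => (q * pol u a).eval (zz (p ^ 8) (k : ℕ) (i / p ^ 8)) -
          ∑ n ∈ range N, (q * pol u a).coeff n * (zz (p ^ 8) (k : ℕ) (i / p ^ 8)) ^ n)
          (fun b => (pol v b).eval (zz (p ^ 8) (k : ℕ) (i / p ^ 8)))‖ ≤ X := by
      intro k
      have hpos : (0 : ℝ) < ((p : ℝ) ^ 8) ^ ((k : ℕ) + 1) := by
        have : 0 < p := by omega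
        positivity
      rw [norm_mul]
      have e1 : ‖(1 / ((p : ℂ) ^ 8) ^ ((k : ℕ) + 1))‖ = 1 / ((p : ℝ) ^ 8) ^ ((k : ℕ) + 1) := by
        rw [norm_div, norm_one, norm_pow, norm_pow, Complex.norm_natCast]
      rw [e1]
      have e2 : ‖∑ i ∈ range ((p ^ 8) ^ ((k : ℕ) + 1)),
        G3B p m k i (fun a => (q * pol u a).eval (zz (p ^ 8) (k : ℕ) (i / p ^ 8)) -
          ∑ n ∈ range N, (q * pol u a).coeff n * (zz (p ^ 8) (k : ℕ) (i / p ^ 8)) ^ n)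
          (fun b => (pol v b).eval (zz (p ^ 8) (k : ℕ) (i / p ^ 8)))‖ ≤
          ((p : ℝ) ^ 8) ^ ((k : ℕ) + 1) * X := by
        refine le_trans (norm_sum_le _ _) ?_
        refine le_trans (Finset.sum_le_sum (fun i _ =>
          G3_tail p m hp N hN q hq u v k i)) ?_
        rw [Finset.sum_const, Finset.card_range, nsmul_eq_mul]
        push_cast
        exact le_refl _
      calc _ ≤ 1 / ((p : ℝ) ^ 8) ^ ((k : ℕ) + 1) * (((p : ℝ) ^ 8) ^ ((k : ℕ) + 1) * X) :=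
            mul_le_mul_of_nonneg_left e2 (by positivity)
        _ = X := by field_simp
    refine le_trans (norm_sum_le _ _) ?_
    refine le_trans (Finset.sum_le_sum (fun k _ => h3 k)) ?_
    rw [Finset.sum_const, Finset.card_univ, Fintype.card_fin, nsmul_eq_mul, hX, ← mul_assoc]
    calc _ ≤ 1 * (Real.sqrt (sq u) * Real.sqrt (sq v)) :=
          mul_le_mul_of_nonneg_right (G3_num p m hp hmp hm) (by positivity)
      _ = _ := one_mul _
  refine le_trans (norm_add_le _ _) ?_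
  have h3 := add_le_add h1 h2
  refine le_trans ?_ (le_trans h3 (le_of_eq (by ring)))
  exact le_refl _

end PB
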