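import Pool.Agent.Helper89.PB.Defs
import Pool.Agent.Helper89.PB.F4

namespace PB

open Finset Polynomial

theorem G4_aeval_diag {ι : Type*} [Fintype ι] [DecidableEq ι] (d : ι → ℂ) (q : ℂ[X]) :
    aeval (Matrix.diagonal d) q = Matrix.diagonal (fun a => q.eval (d a)) := by
  induction q using Polynomial.induction_on' with
  | add p q hp hq =>
    rw [map_add, hp, hq, Matrix.diagonal_add]
    simp only [eval_add]
  | monomial n c =>
    rw [aeval_monomial, Matrix.diagonal_pow, ← Algebra.smul_def, ← Matrix.diagonal_smul]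
    congr 1
    ext a
    simp [eval_monomial]

theorem G4_aeval_transpose {ι : Type*} [Fintype ι] [DecidableEq ι] (A : Matrix ι ι ℂ) (q : ℂ[X]) :
    aeval A.transpose q = (aeval A q).transpose := by
  induction q using Polynomial.induction_on' with
  | add p q hp hq => rw [map_add, map_add, hp, hq, Matrix.transpose_add]
  | monomial n c =>
    rw [aeval_monomial, aeval_monomial, ← Algebra.smul_def, ← Algebra.smul_def,
      Matrix.transpose_smul, Matrix.transpose_pow]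

theorem G4_pol_single {α : Type*} [Fintype α] [DecidableEq α] (N : ℕ) (hN0 : 0 < N) (a c : α) :
    pol (Pi.single ((⟨0, hN0⟩ : Fin N), a) (1 : ℂ)) c = if c = a then 1 else 0 := by
  unfold pol
  by_cases h : c = a
  · subst h
    rw [if_pos rfl, Finset.sum_eq_single (⟨0, hN0⟩ : Fin N)]
    · simp
    · intro n _ hn
      rw [Pi.single_eq_of_ne, map_zero, zero_mul]
      intro h1
      exact hn (Prod.mk.inj h1).1
    · intro h1
      exact absurd (Finset.mem_univ _) h1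
  · rw [if_neg h]
    apply Finset.sum_eq_zero
    intro n _
    rw [Pi.single_eq_of_ne, map_zero, zero_mul]
    intro h1
    exact h (Prod.mk.inj h1).2

theorem G4_entry {α : Type*} [Fintype α] [DecidableEq α] (N : ℕ) (hN0 : 0 < N) (q : ℂ[X])
    (a c : α) (n : Fin N) :
    aeval (Sh N α).transpose q (⟨0, hN0⟩, a) (n, c) = if c = a then q.coeff n else 0 := by
  rw [G4_aeval_transpose, Matrix.transpose_apply]
  have h1 := shift_apply N q (Pi.single ((⟨0, hN0⟩ : Fin N), a) (1 : ℂ)) n c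
  rw [Matrix.mulVec_single_one, G4_pol_single] at h1
  rw [Matrix.col_apply] at h1
  rw [h1]
  by_cases h : c = a
  · rw [if_pos h, if_pos h, mul_one]
  · rw [if_neg h, if_neg h, mul_zero, coeff_zero]

theorem G4_V_row (p : ℕ) [Fact p.Prime] (m : ℕ) (N : ℕ) (hN0 : 0 < N) (q : ℂ[X])
    (hq : q.natDegree < N) (a : Sp m × ZMod p) (u : I2 p m) :
    (aeval (Sh N (Sp m × ZMod p)).transpose q * VV p m N) (⟨0, hN0⟩, a) u =
      VV p m N (⟨0, hN0⟩, a) u * q.eval (zz (p ^ 8) (u.1 : ℕ) ((u.2.1 : ℕ) / p ^ 8)) := by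
  rw [Matrix.mul_apply, Fintype.sum_prod_type]
  have h1 : ∀ n : Fin N, ∑ c, aeval (Sh N (Sp m × ZMod p)).transpose q (⟨0, hN0⟩, a) (n, c) *
      VV p m N (n, c) u = q.coeff n * VV p m N (n, a) u := by
    intro n
    rw [Finset.sum_eq_single a]
    · rw [G4_entry, if_pos rfl]
    · intro c _ hc
      rw [G4_entry, if_neg hc, zero_mul]
    · intro h
      exact absurd (Finset.mem_univ _) h
  rw [Finset.sum_congr rfl (fun n _ => h1 n)]
  have h2 : ∀ n : Fin N, VV p m N (n, a) u = VV p m N (⟨0, hN0⟩, a) u *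
      zz (p ^ 8) (u.1 : ℕ) ((u.2.1 : ℕ) / p ^ 8) ^ (n : ℕ) := by
    intro n
    unfold VV
    simp only [pow_zero, mul_one]
  rw [eval_eq_sum_range' hq, Finset.mul_sum, ← Fin.sum_univ_eq_sum_range
    (fun n => VV p m N (⟨0, hN0⟩, a) u *
      (q.coeff n * zz (p ^ 8) (u.1 : ℕ) ((u.2.1 : ℕ) / p ^ 8) ^ n)) N]
  refine Finset.sum_congr rfl fun n _ => ?_
  rw [h2]
  ring

/-- the corner at the constants -/
theorem corner_const (p : ℕ) [Fact p.Prime] (m : ℕ) (hm : 1 ≤ m) (N : ℕ) (hN0 : 0 < N) (q : ℂ[X])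
    (hq : q.natDegree < N) (a b : Sp m × ZMod p) :
    (VV p m N * aeval (DD p m) q * WW p m N -
      aeval (Sh N (Sp m × ZMod p)).transpose q * VV p m N * WW p m N) (⟨0, hN0⟩, a) (⟨0, hN0⟩, b) =
    ∑ k : Fin m, (1 / ((p : ℂ) ^ 8) ^ ((k : ℕ) + 1)) * ∑ i ∈ range ((p ^ 8) ^ ((k : ℕ) + 1)),
      (q.eval (zz (p ^ 8) ((k : ℕ) + 1) i) - q.eval (zz (p ^ 8) (k : ℕ) (i / p ^ 8))) *
        (Cl k a.1 b.1 * ((1 / (m : ℂ)) * ∑ j ∈ range m, vv p ((k : ℕ) + 1) (dg p 4 i) j a.2 *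
              vv p ((k : ℕ) + 1) (dg p 0 i) j b.2)) := by
  have h1 : ∀ u : I2 p m, (VV p m N * aeval (DD p m) q) (⟨0, hN0⟩, a) u =
      VV p m N (⟨0, hN0⟩, a) u * q.eval (zz (p ^ 8) ((u.1 : ℕ) + 1) (u.2.1 : ℕ)) := by
    intro u
    rw [DD, G4_aeval_diag, Matrix.mul_diagonal]
  rw [Matrix.sub_apply, Matrix.mul_apply, Matrix.mul_apply, ← Finset.sum_sub_distrib]
  have h2 : ∀ u : I2 p m, (VV p m N * aeval (DD p m) q) (⟨0, hN0⟩, a) u *
      WW p m N u (⟨0, hN0⟩, b) -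
      (aeval (Sh N (Sp m × ZMod p)).transpose q * VV p m N) (⟨0, hN0⟩, a) u *
      WW p m N u (⟨0, hN0⟩, b) =
      (1 / ((p : ℂ) ^ 8) ^ ((u.1 : ℕ) + 1)) *
        ((q.eval (zz (p ^ 8) ((u.1 : ℕ) + 1) (u.2.1 : ℕ)) -
          q.eval (zz (p ^ 8) (u.1 : ℕ) ((u.2.1 : ℕ) / p ^ 8))) *
        ((if u.2.2.1 = a.1 then Cl u.1 a.1 b.1 else 0) * ((1 / (m : ℂ)) *
          (vv p ((u.1 : ℕ) + 1) (dg p 4 (u.2.1 : ℕ)) (u.2.2.2 : ℕ) a.2 *
              vv p ((u.1 : ℕ) + 1) (dg p 0 (u.2.1 : ℕ)) (u.2.2.2 : ℕ) b.2)))) := by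
    intro u
    rw [h1, G4_V_row p m N hN0 q hq a u]
    have e1 : (((Real.sqrt (1 / (((p : ℝ) ^ 8) ^ ((u.1 : ℕ) + 1))) : ℝ) : ℂ)) *
        ((Real.sqrt (1 / (((p : ℝ) ^ 8) ^ ((u.1 : ℕ) + 1))) : ℝ) : ℂ) =
        1 / ((p : ℂ) ^ 8) ^ ((u.1 : ℕ) + 1) := by
      rw [← Complex.ofReal_mul, Real.mul_self_sqrt (by positivity)]
      push_cast
      rfl
    have e2 : (((Real.sqrt (1 / (m : ℝ)) : ℝ) : ℂ)) * ((Real.sqrt (1 / (m : ℝ)) : ℝ) : ℂ) =
        1 / (m : ℂ) := by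
      rw [← Complex.ofReal_mul, Real.mul_self_sqrt (by positivity)]
      push_cast
      rfl
    rw [← e1, ← e2]
    unfold VV WW
    simp only [pow_zero, mul_one]
    by_cases hs : u.2.2.1 = a.1
    · rw [if_pos hs, if_pos hs, hs]
      ring
    · rw [if_neg hs, if_neg hs]
      ring
  rw [Finset.sum_congr rfl (fun u _ => h2 u), Fintype.sum_sigma]
  refine Finset.sum_congr rfl fun k _ => ?_
  dsimp only
  rw [← Finset.mul_sum]
  congr 1
  rw [Fintype.sum_prod_type, ← Fin.sum_univ_eq_sum_range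
    (fun i => (q.eval (zz (p ^ 8) ((k : ℕ) + 1) i) - q.eval (zz (p ^ 8) (k : ℕ) (i / p ^ 8))) *
        (Cl k a.1 b.1 * ((1 / (m : ℂ)) * ∑ j ∈ range m, vv p ((k : ℕ) + 1) (dg p 4 i) j a.2 *
              vv p ((k : ℕ) + 1) (dg p 0 i) j b.2))) ((p ^ 8) ^ ((k : ℕ) + 1))]
  refine Finset.sum_congr rfl fun i _ => ?_
  dsimp only
  rw [← Finset.mul_sum]
  congr 1
  rw [Fintype.sum_prod_type, Finset.sum_eq_single a.1]
  · simp only [if_true]
    rw [← Finset.mul_sum, ← Finset.mul_sum]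
    congr 2
    exact Fin.sum_univ_eq_sum_range (fun j => vv p ((k : ℕ) + 1) (dg p 4 (i : ℕ)) j a.2 *
      vv p ((k : ℕ) + 1) (dg p 0 (i : ℕ)) j b.2) m
  · intro s' _ hs'
    apply Finset.sum_eq_zero
    intro j _
    simp only [if_neg hs', zero_mul]
  · intro h
    exact absurd (Finset.mem_univ _) h

end PB
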