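import Pool.Agent.Helper89.PB.Defs
import Pool.Agent.Helper89.PB.E4
import Pool.Agent.Helper89.PB.E7
import Pool.Agent.Helper89.PB.F2
import Pool.Agent.Helper89.PB.F3
import Pool.Agent.Helper89.PB.F4
import Pool.Agent.Helper89.PB.F5
import Pool.Agent.Helper89.PB.G1
import Pool.Agent.Helper89.PB.G2
import Pool.Agent.Helper89.PB.G3
import Pool.Agent.Helper89.PB.G4

namespace PB

open Finset Polynomial

theorem H2_sq_nonneg {ι : Type*} [Fintype ι] (x : ι → ℂ) : 0 ≤ sq x :=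
  Finset.sum_nonneg fun _ _ => by positivity

theorem H2_MB_mono {ι κ : Type*} [Fintype ι] [Fintype κ] {A : Matrix ι κ ℂ} {c c' : ℝ}
    (hc : 0 ≤ c) (hcc : c ≤ c') (h : MB A c) : MB A c' := by
  intro x
  refine (h x).trans ?_
  exact mul_le_mul_of_nonneg_right (pow_le_pow_left₀ hc hcc 2) (H2_sq_nonneg x)

/-- columns -/
theorem H2_col {ι κ : Type*} [Fintype ι] [Fintype κ] [DecidableEq κ] {A : Matrix ι κ ℂ} {c : ℝ}
    (h : MB A c) (e : κ) : sq (fun i => A i e) ≤ c ^ 2 := by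
  have h1 := h (Pi.single e 1)
  rw [Matrix.mulVec_single_one] at h1
  have h2 : sq (Pi.single e (1 : ℂ) : κ → ℂ) = 1 := by
    unfold sq
    rw [Finset.sum_eq_single e]
    · simp
    · intro b _ hb
      rw [Pi.single_eq_of_ne hb]
      simp
    · intro h; exact absurd (Finset.mem_univ _) h
  rw [h2, mul_one] at h1
  exact h1

theorem H2_row {ι κ : Type*} [Fintype ι] [Fintype κ] [DecidableEq ι] {A : Matrix ι κ ℂ} {c : ℝ}
    (hc : 0 ≤ c) (h : MB A c) (e : ι) : sq (fun i => A e i) ≤ c ^ 2 :=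
  H2_col (MB_transpose A c hc h) e

theorem H2_card_Sp (p m : ℕ) [NeZero p] : Fintype.card (Sp m × ZMod p) = 2 ^ m * p := by
  rw [Fintype.card_prod, ZMod.card, Fintype.card_fun, Fintype.card_bool, Fintype.card_fin]

instance H2_dec1 (N p m : ℕ) : DecidableEq (I2 p m ⊕ (Fin N × (Sp m × ZMod p))) :=
  instDecidableEqSum

instance H2_dec2 (N p m : ℕ) :
    DecidableEq ((Fin N × (Sp m × ZMod p)) ⊕ (I2 p m ⊕ (Fin N × (Sp m × ZMod p)))) :=
  instDecidableEqSum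

/-- the lower bound for the sum of the corner entries -/
theorem H2_corner_lower (p : ℕ) [Fact p.Prime] (hp : 101 ≤ p) (m : ℕ) (hmp : 4 * m ^ 8 ≤ p)
    (hm : 1 ≤ m) (N : ℕ) (hN : N = ((p ^ 8) ^ m) ^ 2) (hN0 : 0 < N) :
    (1 / 4 : ℝ) * 2 ^ m * p * m ≤
      (∑ a : Sp m × ZMod p, ∑ b : Sp m × ZMod p,
        (VV p m N * aeval (DD p m) (Phi p m a b) * WW p m N -
      aeval (Sh N (Sp m × ZMod p)).transpose (Phi p m a b) * VV p m N * WW p m N)
        (⟨0, hN0⟩, a) (⟨0, hN0⟩, b)).re := by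
  have hpp : p.Prime := Fact.out
  have hdeg : ∀ a b : Sp m × ZMod p, (Phi p m a b).natDegree < N := by
    intro a b
    refine lt_of_le_of_lt (Phi_deg p m a b) ?_
    rw [hN]
    have h1 : 3 ≤ (p ^ 8) ^ m := by
      calc 3 ≤ p := by omega
        _ = p ^ 1 := (pow_one p).symm
        _ ≤ p ^ 8 := Nat.pow_le_pow_right (by omega) (by norm_num)
        _ = (p ^ 8) ^ 1 := (pow_one _).symm
        _ ≤ (p ^ 8) ^ m := Nat.pow_le_pow_right (by positivity) hm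
    nlinarith
  have hcc : ∀ a b : Sp m × ZMod p, (VV p m N * aeval (DD p m) (Phi p m a b) * WW p m N -
      aeval (Sh N (Sp m × ZMod p)).transpose (Phi p m a b) * VV p m N * WW p m N)
        (⟨0, hN0⟩, a) (⟨0, hN0⟩, b) = _ := fun a b =>
    corner_const p m hm N hN0 (Phi p m a b) (hdeg a b) a b
  simp_rw [hcc]
  -- exchange the sums
  have hex : (∑ a : Sp m × ZMod p, ∑ b : Sp m × ZMod p,
      ∑ k : Fin m, (1 / ((p : ℂ) ^ 8) ^ ((k : ℕ) + 1)) * ∑ i ∈ range ((p ^ 8) ^ ((k : ℕ) + 1)),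
      ((Phi p m a b).eval (zz (p ^ 8) ((k : ℕ) + 1) i) -
        (Phi p m a b).eval (zz (p ^ 8) (k : ℕ) (i / p ^ 8))) *
        (Cl k a.1 b.1 * ((1 / (m : ℂ)) * ∑ j ∈ range m, vv p ((k : ℕ) + 1) (dg p 4 i) j a.2 *
              vv p ((k : ℕ) + 1) (dg p 0 i) j b.2))) =
      ∑ k : Fin m, (1 / ((p : ℂ) ^ 8) ^ ((k : ℕ) + 1)) * ∑ i ∈ range ((p ^ 8) ^ ((k : ℕ) + 1)),
        ∑ a : Sp m × ZMod p, ∑ b : Sp m × ZMod p,
      ((Phi p m a b).eval (zz (p ^ 8) ((k : ℕ) + 1) i) -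
        (Phi p m a b).eval (zz (p ^ 8) (k : ℕ) (i / p ^ 8))) *
        (Cl k a.1 b.1 * ((1 / (m : ℂ)) * ∑ j ∈ range m, vv p ((k : ℕ) + 1) (dg p 4 i) j a.2 *
              vv p ((k : ℕ) + 1) (dg p 0 i) j b.2)) := by
    have e1 : ∀ F : (Sp m × ZMod p) → (Sp m × ZMod p) → Fin m → ℂ,
        ∑ a, ∑ b, ∑ k, F a b k = ∑ k, ∑ a, ∑ b, F a b k := by
      intro F
      calc ∑ a, ∑ b, ∑ k, F a b k = ∑ a, ∑ k, ∑ b, F a b k :=
            Finset.sum_congr rfl fun a _ => Finset.sum_comm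
        _ = ∑ k, ∑ a, ∑ b, F a b k := Finset.sum_comm
    rw [e1]
    refine Finset.sum_congr rfl fun k _ => ?_
    simp_rw [← Finset.mul_sum]
    congr 1
    calc _ = ∑ a : Sp m × ZMod p, ∑ i ∈ range ((p ^ 8) ^ ((k : ℕ) + 1)),
            ∑ b : Sp m × ZMod p, _ :=
          Finset.sum_congr rfl fun a _ => Finset.sum_comm
      _ = _ := Finset.sum_comm
  rw [hex, Complex.re_sum]
  have hk : ∀ k : Fin m, (1 / 4 : ℝ) * 2 ^ m * p ≤
      ((1 / ((p : ℂ) ^ 8) ^ ((k : ℕ) + 1)) * ∑ i ∈ range ((p ^ 8) ^ ((k : ℕ) + 1)),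
        ∑ a : Sp m × ZMod p, ∑ b : Sp m × ZMod p,
      ((Phi p m a b).eval (zz (p ^ 8) ((k : ℕ) + 1) i) -
        (Phi p m a b).eval (zz (p ^ 8) (k : ℕ) (i / p ^ 8))) *
        (Cl k a.1 b.1 * ((1 / (m : ℂ)) * ∑ j ∈ range m, vv p ((k : ℕ) + 1) (dg p 4 i) j a.2 *
              vv p ((k : ℕ) + 1) (dg p 0 i) j b.2))).re := by
    intro k
    have h1 := level_test p hp m hmp hm k
    have h2 : (1 / ((p : ℂ) ^ 8) ^ ((k : ℕ) + 1)) =
        (((1 / ((p : ℝ) ^ 8) ^ ((k : ℕ) + 1)) : ℝ) : ℂ) := by push_cast; ring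
    rw [h2, Complex.re_ofReal_mul]
    have hpos : (0 : ℝ) < ((p : ℝ) ^ 8) ^ ((k : ℕ) + 1) := by
      have : (0 : ℝ) < p := by exact_mod_cast hpp.pos
      positivity
    calc (1 / 4 : ℝ) * 2 ^ m * p = 1 / ((p : ℝ) ^ 8) ^ ((k : ℕ) + 1) *
          ((1 / 4 : ℝ) * (2 : ℝ) ^ m * p * ((p : ℝ) ^ 8) ^ ((k : ℕ) + 1)) := by
          field_simp
      _ ≤ _ := mul_le_mul_of_nonneg_left h1 (by positivity)
  calc (1 / 4 : ℝ) * 2 ^ m * p * m = ∑ _k : Fin m, (1 / 4 : ℝ) * 2 ^ m * p := by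
        rw [Finset.sum_const, Finset.card_univ, Fintype.card_fin, nsmul_eq_mul]; ring
    _ ≤ _ := Finset.sum_le_sum fun k _ => hk k

/-- the square matrix -/
theorem main_matrix (p : ℕ) (hpp : p.Prime) (hp : 101 ≤ p) (m : ℕ) (hmp : 4 * m ^ 8 ≤ p)
    (hm : 1 ≤ m) (ε : ℝ) (hε : 0 < ε) (hε1 : ε ≤ 1) :
    ∃ (ι : Type) (_ : Fintype ι) (_ : DecidableEq ι) (T : Matrix ι ι ℂ),
      Fintype.card ι ≤ 2 * (((p ^ 8) ^ m) ^ 2 * (2 ^ m * p)) + m * ((p ^ 8) ^ m * (2 ^ m * m)) ∧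
      (∀ q : ℂ[X], Bdd1 q → MB (aeval T q) (1 + ε)) ∧
      ∀ (κ : Type) [Fintype κ] [DecidableEq κ] (K : Matrix κ κ ℂ) (X : Matrix ι κ ℂ)
        (Y : Matrix κ ι ℂ) (a b : ℝ), 0 ≤ a → 0 ≤ b → MB K 1 → MB X a → MB Y b →
        (∀ q : ℂ[X], aeval T q = X * aeval K q * Y) → ε ^ 2 * m / 120000 ≤ a * b := by
  have : Fact p.Prime := ⟨hpp⟩
  obtain ⟨N, hN⟩ : ∃ N : ℕ, N = ((p ^ 8) ^ m) ^ 2 := ⟨_, rfl⟩
  have hppos : 0 < p := hpp.pos
  have hN0 : 0 < N := by rw [hN]; positivity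
  obtain ⟨T, hT⟩ := block (Sh N (Sp m × ZMod p)) (DD p m) (Sh N (Sp m × ZMod p)).transpose
    (WW p m N) (VV p m N) (ε / 100)
  refine ⟨(Fin N × (Sp m × ZMod p)) ⊕ (I2 p m ⊕ (Fin N × (Sp m × ZMod p))), inferInstance,
    H2_dec2 N p m, T, ?_, ?_, ?_⟩
  · rw [Fintype.card_sum, Fintype.card_sum, Fintype.card_prod, Fintype.card_fin, H2_card_Sp,
      ← hN]
    have := card_I2 p m hpp.one_le
    omega
  · intro q hq
    rw [hT q]
    have h := block_norm (aeval (Sh N (Sp m × ZMod p)) q) (aeval (DD p m) q)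
      (aeval (Sh N (Sp m × ZMod p)).transpose q) _ _ _ 46 61 (ε / 100) (by norm_num)
      (by norm_num) (by positivity) (shift_bound N q hq).1 (diag_bound p m hpp.one_le q hq)
      (shift_bound N q hq).2 (bound_X p hp m hmp hm N hN q hq) (bound_Y p hp m hmp hm N hN q hq)
      (bound_Z p hp m hmp hm N hN q hq)
    refine H2_MB_mono (by positivity) ?_ h
    nlinarith
  · intro κ _ _ K X Y a b ha hb hK hX hY hTK
    have hlow := H2_corner_lower p hp m hmp hm N hN hN0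
    -- entries of the functional calculus
    have hent : ∀ u v : Sp m × ZMod p,
        (((ε / 100 : ℝ) : ℂ)) ^ 2 * (VV p m N * aeval (DD p m) (Phi p m u v) * WW p m N -
          aeval (Sh N (Sp m × ZMod p)).transpose (Phi p m u v) * VV p m N * WW p m N)
            (⟨0, hN0⟩, u) (⟨0, hN0⟩, v) =
          dotProduct (fun t => X (Sum.inr (Sum.inr (⟨0, hN0⟩, u))) t)
            ((aeval K (Phi p m u v)).mulVec (fun t => Y t (Sum.inl (⟨0, hN0⟩, v)))) := by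
      intro u v
      have h1 : (aeval T (Phi p m u v)) (Sum.inr (Sum.inr (⟨0, hN0⟩, u)))
          (Sum.inl (⟨0, hN0⟩, v)) = (((ε / 100 : ℝ) : ℂ)) ^ 2 *
            (VV p m N * aeval (DD p m) (Phi p m u v) * WW p m N -
          aeval (Sh N (Sp m × ZMod p)).transpose (Phi p m u v) * VV p m N * WW p m N)
            (⟨0, hN0⟩, u) (⟨0, hN0⟩, v) := by
        rw [hT (Phi p m u v)]
        rfl
      rw [← h1, hTK (Phi p m u v), Matrix.mul_assoc, Matrix.mul_apply']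
      rfl
    have hvn := vonNeumann K hK (fun u v : Sp m × ZMod p => Phi p m u v) 3 (by norm_num)
      (fun z hz x y => Phi_bound p (by omega) m hmp hm z hz x y)
      (fun v t => Y t (Sum.inl (⟨0, hN0⟩, v)))
      (fun u t => X (Sum.inr (Sum.inr (⟨0, hN0⟩, u))) t)
    simp_rw [← hent] at hvn
    simp_rw [← Finset.mul_sum] at hvn
    set S : ℂ := ∑ u : Sp m × ZMod p, ∑ v : Sp m × ZMod p,
        (VV p m N * aeval (DD p m) (Phi p m u v) * WW p m N -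
          aeval (Sh N (Sp m × ZMod p)).transpose (Phi p m u v) * VV p m N * WW p m N)
            (⟨0, hN0⟩, u) (⟨0, hN0⟩, v) with hS
    have hcardR : ((Finset.univ : Finset (Sp m × ZMod p)).card : ℝ) = 2 ^ m * p := by
      rw [Finset.card_univ, H2_card_Sp]; push_cast; ring
    have hx : ∑ v : Sp m × ZMod p, sq (fun t => Y t (Sum.inl (⟨0, hN0⟩, v))) ≤
        (2 ^ m * p) * b ^ 2 := by
      calc _ ≤ ∑ _v : Sp m × ZMod p, b ^ 2 := Finset.sum_le_sum fun v _ => H2_col hY _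
        _ = _ := by rw [Finset.sum_const, nsmul_eq_mul, hcardR]
    have hy : ∑ u : Sp m × ZMod p, sq (fun t => X (Sum.inr (Sum.inr (⟨0, hN0⟩, u))) t) ≤
        (2 ^ m * p) * a ^ 2 := by
      calc _ ≤ ∑ _v : Sp m × ZMod p, a ^ 2 := Finset.sum_le_sum fun v _ => H2_row ha hX _
        _ = _ := by rw [Finset.sum_const, nsmul_eq_mul, hcardR]
    have hppR : (0 : ℝ) < p := by exact_mod_cast hppos
    have hD : (0 : ℝ) < 2 ^ m * p := by positivity
    have hup : (ε / 100) ^ 2 * ‖S‖ ≤ 3 * (2 ^ m * p) * (a * b) := by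
      have h1 : ‖(((ε / 100 : ℝ) : ℂ)) ^ 2 * S‖ = (ε / 100) ^ 2 * ‖S‖ := by
        rw [norm_mul, norm_pow, Complex.norm_real, Real.norm_eq_abs, abs_of_pos (by positivity)]
      rw [← h1]
      refine hvn.trans ?_
      have h2 : Real.sqrt (∑ v : Sp m × ZMod p, sq (fun t => Y t (Sum.inl (⟨0, hN0⟩, v)))) ≤
          Real.sqrt (2 ^ m * p) * b := by
        calc _ ≤ Real.sqrt ((2 ^ m * p) * b ^ 2) := Real.sqrt_le_sqrt hx
          _ = _ := by rw [Real.sqrt_mul hD.le, Real.sqrt_sq hb]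
      have h3 : Real.sqrt (∑ u : Sp m × ZMod p,
          sq (fun t => X (Sum.inr (Sum.inr (⟨0, hN0⟩, u))) t)) ≤ Real.sqrt (2 ^ m * p) * a := by
        calc _ ≤ Real.sqrt ((2 ^ m * p) * a ^ 2) := Real.sqrt_le_sqrt hy
          _ = _ := by rw [Real.sqrt_mul hD.le, Real.sqrt_sq ha]
      calc _ ≤ 3 * (Real.sqrt (2 ^ m * p) * b) * (Real.sqrt (2 ^ m * p) * a) :=
            mul_le_mul (mul_le_mul_of_nonneg_left h2 (by norm_num)) h3 (Real.sqrt_nonneg _)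
              (by positivity)
        _ = 3 * (Real.sqrt (2 ^ m * p) * Real.sqrt (2 ^ m * p)) * (a * b) := by ring
        _ = _ := by rw [Real.mul_self_sqrt hD.le]
    have hSre : (1 / 4 : ℝ) * 2 ^ m * p * m ≤ ‖S‖ := hlow.trans (Complex.re_le_norm S)
    have h5 : (ε / 100) ^ 2 * ((1 / 4 : ℝ) * 2 ^ m * p * m) ≤ 3 * (2 ^ m * p) * (a * b) :=
      (mul_le_mul_of_nonneg_left hSre (by positivity)).trans hup
    have h6 : (2 ^ m * p : ℝ) * (ε ^ 2 * m / 120000) ≤ (2 ^ m * p) * (a * b) := by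
      nlinarith
    exact le_of_mul_le_mul_left h6 hD

end PB
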