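import Pool.Agent.Helper89.PB.Defs
import Pool.Agent.Helper89.PB.F0

namespace PB

open Finset Polynomial

theorem H3_sq_toLp {n : ℕ} (v : Fin n → ℂ) :
    ‖(WithLp.toLp 2 v : EuclideanSpace ℂ (Fin n))‖ ^ 2 = sq v := by
  rw [EuclideanSpace.norm_sq_eq]
  rfl

theorem H3_sq_ofLp {n : ℕ} (v : EuclideanSpace ℂ (Fin n)) : sq (WithLp.ofLp v) = ‖v‖ ^ 2 := by
  rw [EuclideanSpace.norm_sq_eq]
  rfl

theorem H3_sq_smul {ι : Type*} [Fintype ι] (k : ℂ) (v : ι → ℂ) : sq (k • v) = ‖k‖ ^ 2 * sq v := by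
  unfold sq
  rw [Finset.mul_sum]
  refine Finset.sum_congr rfl fun i _ => ?_
  rw [Pi.smul_apply, smul_eq_mul, norm_mul, mul_pow]

theorem H3_sq_nonneg {ι : Type*} [Fintype ι] (v : ι → ℂ) : 0 ≤ sq v :=
  Finset.sum_nonneg fun _ _ => sq_nonneg _

section J

variable {ι : Type} [Fintype ι] [DecidableEq ι] {n : ℕ} (φ : ι ↪ Fin n)

/-- The coordinate embedding. -/
noncomputable def H3J : Matrix (Fin n) ι ℂ := fun i a => if i = φ a then 1 else 0

omit [Fintype ι] [DecidableEq ι] in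
theorem H3_JT_mulVec (w : Fin n → ℂ) (a : ι) : (H3J φ).transpose.mulVec w a = w (φ a) := by
  simp [Matrix.mulVec, dotProduct, H3J, Matrix.transpose]

theorem H3_J_mulVec_mem (v : ι → ℂ) (a : ι) : (H3J φ).mulVec v (φ a) = v a := by
  simp [Matrix.mulVec, dotProduct, H3J]

omit [DecidableEq ι] in
theorem H3_J_mulVec_not (v : ι → ℂ) (i : Fin n) (hi : ∀ a, i ≠ φ a) :
    (H3J φ).mulVec v i = 0 := by
  simp [Matrix.mulVec, dotProduct, H3J, hi]

omit [Fintype ι] in
theorem H3_JTJ : (H3J φ).transpose * H3J φ = 1 := by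
  ext a b
  rw [Matrix.mul_apply, Matrix.one_apply]
  simp only [H3J, Matrix.transpose_apply, mul_ite, mul_one, mul_zero]
  rw [Finset.sum_ite_eq' univ (φ b), if_pos (Finset.mem_univ _)]
  by_cases h : a = b
  · rw [if_pos h, if_pos (by rw [h])]
  · rw [if_neg h, if_neg (fun h' => h (φ.injective h'.symm))]

theorem H3_sq_split (w : Fin n → ℂ) :
    sq w = ∑ a, ‖w (φ a)‖ ^ 2 + ∑ i ∈ univ.filter (fun i => ∀ a, i ≠ φ a), ‖w i‖ ^ 2 := by
  unfold sq
  rw [← Finset.sum_filter_add_sum_filter_not univ (fun i => ∃ a, i = φ a)]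
  congr 1
  · have h1 : univ.filter (fun i => ∃ a, i = φ a) = univ.map φ := by
      ext i
      simp only [Finset.mem_filter, Finset.mem_univ, true_and, Finset.mem_map]
      exact ⟨fun ⟨a, h⟩ => ⟨a, h.symm⟩, fun ⟨a, h⟩ => ⟨a, h.symm⟩⟩
    rw [h1, Finset.sum_map]
  · refine Finset.sum_congr ?_ fun _ _ => rfl
    ext i
    simp only [Finset.mem_filter, Finset.mem_univ, true_and, not_exists, ne_eq]

theorem H3_pow (T : Matrix ι ι ℂ) (k : ℕ) :
    (H3J φ * T * (H3J φ).transpose) ^ (k + 1) = H3J φ * T ^ (k + 1) * (H3J φ).transpose := by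
  induction k with
  | zero => rw [zero_add, pow_one, pow_one]
  | succ k ih =>
    rw [pow_succ, ih]
    have h1 : H3J φ * T ^ (k + 1) * (H3J φ).transpose * (H3J φ * T * (H3J φ).transpose) =
        H3J φ * T ^ (k + 1) * ((H3J φ).transpose * H3J φ) * T * (H3J φ).transpose := by
      simp only [Matrix.mul_assoc]
    rw [h1, H3_JTJ, Matrix.mul_one, Matrix.mul_assoc (H3J φ), ← pow_succ]

theorem H3_aeval (T : Matrix ι ι ℂ) (q : ℂ[X]) :
    aeval (H3J φ * T * (H3J φ).transpose) q = H3J φ * aeval T q * (H3J φ).transpose +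
      q.coeff 0 • (1 - H3J φ * (H3J φ).transpose) := by
  induction q using Polynomial.induction_on' with
  | add p q hp hq =>
    rw [map_add, map_add, hp, hq, coeff_add, add_smul, Matrix.mul_add, Matrix.add_mul]
    abel
  | monomial k c =>
    rw [aeval_monomial, aeval_monomial, ← Algebra.smul_def, ← Algebra.smul_def, coeff_monomial]
    cases k with
    | zero =>
      rw [if_pos rfl, pow_zero, pow_zero, Matrix.mul_smul, Matrix.mul_one, Matrix.smul_mul,
        ← smul_add, add_sub_cancel]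
    | succ k =>
      rw [if_neg (Nat.succ_ne_zero k), zero_smul, add_zero, H3_pow, Matrix.mul_smul,
        Matrix.smul_mul]

end J

/-- transfer to operators on `EuclideanSpace ℂ (Fin n)`, with padding by zero -/
theorem transfer {ι : Type} [Fintype ι] [DecidableEq ι] (T : Matrix ι ι ℂ) (n : ℕ)
    (hn : Fintype.card ι ≤ n) (ε L : ℝ) (hε : 0 < ε)
    (h1 : ∀ q : ℂ[X], Bdd1 q → MB (aeval T q) (1 + ε))
    (h2 : ∀ (κ : Type) [Fintype κ] [DecidableEq κ] (K : Matrix κ κ ℂ) (X : Matrix ι κ ℂ)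
        (Y : Matrix κ ι ℂ) (a b : ℝ), 0 ≤ a → 0 ≤ b → MB K 1 → MB X a → MB Y b →
        (∀ q : ℂ[X], aeval T q = X * aeval K q * Y) → L ≤ a * b) :
    ∃ T' : EuclideanSpace ℂ (Fin n) →L[ℂ] EuclideanSpace ℂ (Fin n),
      (∀ (q : ℂ[X]) (c : ℝ), (∀ z : ℂ, ‖z‖ ≤ 1 → ‖q.eval z‖ ≤ c) → ‖aeval T' q‖ ≤ (1 + ε) * c) ∧
      ∀ ξ : EuclideanSpace ℂ (Fin n) ≃L[ℂ] EuclideanSpace ℂ (Fin n),
        ‖(ξ.symm : EuclideanSpace ℂ (Fin n) →L[ℂ] EuclideanSpace ℂ (Fin n)) ∘L T' ∘L
          (ξ : EuclideanSpace ℂ (Fin n) →L[ℂ] EuclideanSpace ℂ (Fin n))‖ ≤ 1 →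
        L ≤ ‖(ξ : EuclideanSpace ℂ (Fin n) →L[ℂ] EuclideanSpace ℂ (Fin n))‖ *
          ‖(ξ.symm : EuclideanSpace ℂ (Fin n) →L[ℂ] EuclideanSpace ℂ (Fin n))‖ := by
  obtain ⟨φ⟩ : Nonempty (ι ↪ Fin n) := by
    apply Function.Embedding.nonempty_of_card_le
    rw [Fintype.card_fin]
    exact hn
  set J := H3J φ with hJ
  set TM : Matrix (Fin n) (Fin n) ℂ := J * T * J.transpose with hTM
  set Θ := Matrix.toEuclideanCLM (n := Fin n) (𝕜 := ℂ) with hΘ
  -- scaling
  have hsc : ∀ (q : ℂ[X]) (c : ℝ), 0 < c → (∀ z : ℂ, ‖z‖ ≤ 1 → ‖q.eval z‖ ≤ c) →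
      ∀ x, sq ((aeval T q).mulVec x) ≤ ((1 + ε) * c) ^ 2 * sq x := by
    intro q c hc hq x
    have hB : Bdd1 (C ((1 / c : ℝ) : ℂ) * q) := by
      intro z hz
      rw [eval_mul, eval_C, norm_mul, Complex.norm_real, Real.norm_of_nonneg (by positivity)]
      calc 1 / c * ‖q.eval z‖ ≤ 1 / c * c := by
            gcongr
            exact hq z hz
        _ = 1 := by field_simp
    have h3 := h1 _ hB x
    rw [map_mul, aeval_C, ← Algebra.smul_def, Matrix.smul_mulVec, H3_sq_smul,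
      Complex.norm_real, Real.norm_of_nonneg (by positivity : (0 : ℝ) ≤ 1 / c)] at h3
    have h4 : sq ((aeval T q).mulVec x) = c ^ 2 * ((1 / c) ^ 2 * sq ((aeval T q).mulVec x)) := by
      field_simp
    rw [h4, mul_pow, mul_comm ((1 + ε) ^ 2), mul_assoc]
    gcongr
  have hmain : ∀ (q : ℂ[X]) (c : ℝ), 0 < c → (∀ z : ℂ, ‖z‖ ≤ 1 → ‖q.eval z‖ ≤ c) →
      ∀ x, sq ((aeval TM q).mulVec x) ≤ ((1 + ε) * c) ^ 2 * sq x := by
    intro q c hc hq x
    have hu1 : ∀ a, (aeval TM q).mulVec x (φ a) =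
        (aeval T q).mulVec (J.transpose.mulVec x) a := by
      intro a
      rw [hTM, hJ, H3_aeval, Matrix.add_mulVec, Matrix.smul_mulVec, Matrix.sub_mulVec,
        Matrix.one_mulVec, ← Matrix.mulVec_mulVec, ← Matrix.mulVec_mulVec, ← Matrix.mulVec_mulVec,
        Pi.add_apply, Pi.smul_apply, Pi.sub_apply, H3_J_mulVec_mem, H3_J_mulVec_mem,
        H3_JT_mulVec, sub_self, smul_zero, add_zero]
    have hu2 : ∀ i, (∀ a, i ≠ φ a) → (aeval TM q).mulVec x i = q.coeff 0 * x i := by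
      intro i hi
      rw [hTM, hJ, H3_aeval, Matrix.add_mulVec, Matrix.smul_mulVec, Matrix.sub_mulVec,
        Matrix.one_mulVec, ← Matrix.mulVec_mulVec, ← Matrix.mulVec_mulVec, ← Matrix.mulVec_mulVec,
        Pi.add_apply, Pi.smul_apply, Pi.sub_apply, H3_J_mulVec_not _ _ _ hi,
        H3_J_mulVec_not _ _ _ hi, sub_zero, zero_add, smul_eq_mul]
    have hc0 : ‖q.coeff 0‖ ≤ c := by
      have h3 := hq 0 (by simp)
      rwa [← coeff_zero_eq_eval_zero] at h3
    rw [H3_sq_split φ, H3_sq_split φ x, mul_add]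
    refine add_le_add ?_ ?_
    · rw [Finset.sum_congr rfl (fun a _ => by rw [hu1 a])]
      have h3 := hsc q c hc hq (J.transpose.mulVec x)
      have h4 : sq (J.transpose.mulVec x) = ∑ a, ‖x (φ a)‖ ^ 2 := by
        unfold sq
        refine Finset.sum_congr rfl fun a _ => ?_
        rw [hJ, H3_JT_mulVec]
      rw [h4] at h3
      exact h3
    · rw [Finset.mul_sum]
      refine Finset.sum_le_sum fun i hi => ?_
      rw [hu2 i (Finset.mem_filter.1 hi).2, norm_mul, mul_pow]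
      have h3 : ‖q.coeff 0‖ ≤ (1 + ε) * c := by nlinarith
      gcongr
  have hT' : ∀ q : ℂ[X], aeval (Θ TM) q = Θ (aeval TM q) := fun q =>
    Polynomial.aeval_algHom_apply Θ TM q
  have hnormT : ∀ (A : Matrix (Fin n) (Fin n) ℂ) (c : ℝ), 0 ≤ c →
      (∀ x, sq (A.mulVec x) ≤ c ^ 2 * sq x) → ‖Θ A‖ ≤ c := by
    intro A c hc hA
    refine ContinuousLinearMap.opNorm_le_bound _ hc fun v => ?_
    have h3 := hA (WithLp.ofLp v)
    rw [H3_sq_ofLp v] at h3
    have h4 : sq (A.mulVec (WithLp.ofLp v)) = ‖Θ A v‖ ^ 2 := by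
      rw [← H3_sq_ofLp]
      rfl
    rw [h4, ← mul_pow] at h3
    exact le_of_sq_le_sq h3 (by positivity)
  have hnormM : ∀ (A : Matrix (Fin n) (Fin n) ℂ) (x : Fin n → ℂ),
      sq (A.mulVec x) ≤ ‖Θ A‖ ^ 2 * sq x := by
    intro A x
    have h3 := (Θ A).le_opNorm (WithLp.toLp 2 x)
    have h4 : sq (A.mulVec x) = ‖Θ A (WithLp.toLp 2 x)‖ ^ 2 := by
      rw [← H3_sq_ofLp]
      rfl
    rw [h4, ← H3_sq_toLp, ← mul_pow]
    exact pow_le_pow_left₀ (norm_nonneg _) h3 2
  refine ⟨Θ TM, fun q c hq => ?_, fun ξ hξ => ?_⟩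
  · have hc0 : 0 ≤ c := (norm_nonneg _).trans (hq 0 (by simp))
    refine le_of_forall_pos_le_add fun δ hδ => ?_
    have hδ' : 0 < δ / (1 + ε) := by positivity
    have h3 : ‖aeval (Θ TM) q‖ ≤ (1 + ε) * (c + δ / (1 + ε)) := by
      rw [hT']
      refine hnormT _ _ (by positivity) (hmain q _ (by linarith) (fun z hz => ?_))
      exact (hq z hz).trans (by linarith)
    refine h3.trans (le_of_eq ?_)
    field_simp
  · -- the intertwiner
    set ξc := (ξ : EuclideanSpace ℂ (Fin n) →L[ℂ] EuclideanSpace ℂ (Fin n)) with hξc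
    set ηc := (ξ.symm : EuclideanSpace ℂ (Fin n) →L[ℂ] EuclideanSpace ℂ (Fin n)) with hηc
    have hξη : ξc * ηc = 1 := by
      ext1 v
      exact ξ.apply_symm_apply v
    have hηξ : ηc * ξc = 1 := by
      ext1 v
      exact ξ.symm_apply_apply v
    set Xm : Matrix (Fin n) (Fin n) ℂ := Θ.symm ξc with hXm
    set Ym : Matrix (Fin n) (Fin n) ℂ := Θ.symm ηc with hYm
    have hXY : Xm * Ym = 1 := by
      rw [hXm, hYm, ← map_mul, hξη, map_one]
    have hYX : Ym * Xm = 1 := by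
      rw [hXm, hYm, ← map_mul, hηξ, map_one]
    have hΘX : Θ Xm = ξc := Θ.apply_symm_apply _
    have hΘY : Θ Ym = ηc := Θ.apply_symm_apply _
    have hconj : ∀ q : ℂ[X], aeval (Ym * TM * Xm) q = Ym * aeval TM q * Xm := by
      intro q
      induction q using Polynomial.induction_on' with
      | add p q hp hq =>
        rw [map_add, map_add, hp, hq, Matrix.mul_add, Matrix.add_mul]
      | monomial k c =>
        rw [aeval_monomial, aeval_monomial, ← Algebra.smul_def, ← Algebra.smul_def,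
          Matrix.mul_smul, Matrix.smul_mul]
        congr 1
        induction k with
        | zero => rw [pow_zero, pow_zero, Matrix.mul_one, hYX]
        | succ k ih =>
          rw [pow_succ, ih, pow_succ]
          have h3 : Ym * TM ^ k * Xm * (Ym * TM * Xm) = Ym * TM ^ k * (Xm * Ym) * TM * Xm := by
            simp only [Matrix.mul_assoc]
          rw [h3, hXY, Matrix.mul_one, Matrix.mul_assoc Ym]
    have hK1 : MB (Ym * TM * Xm) 1 := by
      intro x
      have h3 := hnormM (Ym * TM * Xm) x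
      have h4 : Θ (Ym * TM * Xm) = ηc ∘L Θ TM ∘L ξc := by
        rw [map_mul, map_mul, hΘX, hΘY, mul_assoc]
        rfl
      rw [h4] at h3
      refine h3.trans ?_
      have h5 : ‖ηc ∘L Θ TM ∘L ξc‖ ^ 2 ≤ 1 ^ 2 := pow_le_pow_left₀ (norm_nonneg _) hξ 2
      exact mul_le_mul_of_nonneg_right h5 (H3_sq_nonneg _)
    have hX : MB (J.transpose * Xm) ‖ξc‖ := by
      intro x
      rw [← Matrix.mulVec_mulVec]
      have h3 := hnormM Xm x
      rw [hΘX] at h3
      refine le_trans ?_ h3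
      rw [H3_sq_split φ (Xm.mulVec x)]
      have h4 : sq (J.transpose.mulVec (Xm.mulVec x)) = ∑ a, ‖Xm.mulVec x (φ a)‖ ^ 2 := by
        unfold sq
        refine Finset.sum_congr rfl fun a _ => ?_
        rw [hJ, H3_JT_mulVec]
      rw [h4]
      exact le_add_of_nonneg_right (Finset.sum_nonneg fun _ _ => sq_nonneg _)
    have hY : MB (Ym * J) ‖ηc‖ := by
      intro x
      rw [← Matrix.mulVec_mulVec]
      have h3 := hnormM Ym (J.mulVec x)
      rw [hΘY] at h3
      refine h3.trans (le_of_eq ?_)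
      congr 1
      rw [H3_sq_split φ (J.mulVec x)]
      have h4 : ∑ i ∈ univ.filter (fun i => ∀ a, i ≠ φ a), ‖J.mulVec x i‖ ^ 2 = 0 := by
        apply Finset.sum_eq_zero
        intro i hi
        rw [hJ, H3_J_mulVec_not _ _ _ (Finset.mem_filter.1 hi).2]
        simp
      rw [h4, add_zero]
      unfold sq
      refine Finset.sum_congr rfl fun a _ => ?_
      rw [hJ, H3_J_mulVec_mem]
    refine h2 (Fin n) (Ym * TM * Xm) (J.transpose * Xm) (Ym * J) ‖ξc‖ ‖ηc‖ (norm_nonneg _)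
      (norm_nonneg _) hK1 hX hY (fun q => ?_)
    rw [hconj]
    have h3 : J.transpose * Xm * (Ym * aeval TM q * Xm) * (Ym * J) =
        J.transpose * (Xm * Ym) * aeval TM q * (Xm * Ym) * J := by
      simp only [Matrix.mul_assoc]
    rw [h3, hXY, Matrix.mul_one, Matrix.mul_one, hTM, hJ, H3_aeval, Matrix.mul_add,
      Matrix.add_mul, Matrix.mul_smul, Matrix.smul_mul]
    have h4 : (H3J φ).transpose * (1 - H3J φ * (H3J φ).transpose) = 0 := by
      rw [Matrix.mul_sub, Matrix.mul_one, ← Matrix.mul_assoc, H3_JTJ, Matrix.one_mul, sub_self]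
    rw [h4, Matrix.zero_mul, smul_zero, add_zero]
    have h5 : (H3J φ).transpose * (H3J φ * aeval T q * (H3J φ).transpose) * H3J φ =
        ((H3J φ).transpose * H3J φ) * aeval T q * ((H3J φ).transpose * H3J φ) := by
      simp only [Matrix.mul_assoc]
    rw [h5, H3_JTJ, Matrix.one_mul, Matrix.mul_one]

end PB
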