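import Pool.Agent.Helper89.PB.H1
import Pool.Agent.Helper89.PB.H2
import Pool.Agent.Helper89.PB.H3

/-!
Final form of the lower bound for the similarity constants.
-/

namespace PB

open Finset Polynomial

/-- The Euclidean space of dimension `n`. -/
abbrev En (n : ℕ) := EuclideanSpace ℂ (Fin n)

theorem final_aux : ∃ c : ℝ, 0 < c ∧ ∀ ε : ℝ, 0 < ε → ε ≤ 1 → ∀ n : ℕ, 1 ≤ n →
    ∃ T : En n →L[ℂ] En n,
      (∀ (q : ℂ[X]) (s : ℝ), (∀ z : ℂ, ‖z‖ ≤ 1 → ‖q.eval z‖ ≤ s) → ‖aeval T q‖ ≤ (1 + ε) * s) ∧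
      ∀ ξ : En n ≃L[ℂ] En n,
        ‖(ξ.symm : En n →L[ℂ] En n) ∘L T ∘L (ξ : En n →L[ℂ] En n)‖ ≤ 1 →
        c * ε ^ 2 * (Real.log (n + 1) / Real.log (2 + Real.log (n + 1))) ≤
          ‖(ξ : En n →L[ℂ] En n)‖ * ‖(ξ.symm : En n →L[ℂ] En n)‖ := by
  obtain ⟨c₀, hc₀, hnum⟩ := numerics
  refine ⟨min c₀ 1 / 240000, by positivity, ?_⟩
  intro ε hε hε1 n hn
  have hn1 : (1 : ℝ) ≤ n := by exact_mod_cast hn
  have hlog : 0 < Real.log (n + 1) := Real.log_pos (by linarith)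
  have hloglog : 0 < Real.log (2 + Real.log (n + 1)) := Real.log_pos (by linarith)
  set R : ℝ := Real.log (n + 1) / Real.log (2 + Real.log (n + 1)) with hR
  have hRpos : 0 < R := div_pos hlog hloglog
  have hε2 : ε ^ 2 ≤ 1 := by nlinarith
  by_cases hm : 1 ≤ ⌊c₀ * R⌋₊
  · set m := ⌊c₀ * R⌋₊ with hmdef
    have hmle : (m : ℝ) ≤ c₀ * Real.log (n + 1) / Real.log (2 + Real.log (n + 1)) := by
      have := Nat.floor_le (mul_nonneg hc₀.le hRpos.le)
      rw [mul_div_assoc]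
      exact this
    obtain ⟨p, hpp, hp, hmp, hdim⟩ := hnum n hn m hm hmle
    obtain ⟨ι, _, _, T, hcard, h1, h2⟩ := main_matrix p hpp hp m hmp hm ε hε hε1
    obtain ⟨T', h3, h4⟩ := transfer T n (hcard.trans hdim) ε (ε ^ 2 * m / 120000) hε h1 h2
    refine ⟨T', h3, fun ξ hξ => le_trans ?_ (h4 ξ hξ)⟩
    have hlt : c₀ * R < m + 1 := Nat.lt_floor_add_one _
    have hm1 : (1 : ℝ) ≤ m := by exact_mod_cast hm
    have h5 : c₀ * R ≤ 2 * m := by linarith
    have h6 : min c₀ 1 * R ≤ c₀ * R := mul_le_mul_of_nonneg_right (min_le_left _ _) hRpos.le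
    have h7 : 0 ≤ ε ^ 2 := by positivity
    calc min c₀ 1 / 240000 * ε ^ 2 * R = ε ^ 2 * (min c₀ 1 * R) / 240000 := by ring
      _ ≤ ε ^ 2 * (2 * m) / 240000 := by
          have := mul_le_mul_of_nonneg_left (h6.trans h5) h7
          linarith
      _ = ε ^ 2 * m / 120000 := by ring
  · have hlt : c₀ * R < 1 := by
      have : ⌊c₀ * R⌋₊ = 0 := by omega
      exact (Nat.floor_eq_zero).1 this
    refine ⟨0, ?_, ?_⟩
    · intro q s hs
      have h0 := hs 0 (by simp)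
      have hq : aeval (0 : En n →L[ℂ] En n) q = q.eval 0 • (1 : En n →L[ℂ] En n) := by
        rw [← Polynomial.coeff_zero_eq_eval_zero, Polynomial.aeval_def, Polynomial.eval₂_at_zero]
        exact Algebra.algebraMap_eq_smul_one _
      rw [hq, norm_smul]
      have h1 : ‖(1 : En n →L[ℂ] En n)‖ ≤ 1 := ContinuousLinearMap.norm_id_le
      have hs0 : 0 ≤ s := le_trans (norm_nonneg _) h0
      calc ‖q.eval 0‖ * ‖(1 : En n →L[ℂ] En n)‖ ≤ s * 1 :=
            mul_le_mul h0 h1 (norm_nonneg _) hs0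
        _ ≤ (1 + ε) * s := by nlinarith
    · intro ξ _
      have h1 : (1 : ℝ) ≤ ‖(ξ : En n →L[ℂ] En n)‖ * ‖(ξ.symm : En n →L[ℂ] En n)‖ := by
        have hne : Nonempty (Fin n) := ⟨⟨0, hn⟩⟩
        have h2 : (ξ : En n →L[ℂ] En n) ∘L (ξ.symm : En n →L[ℂ] En n) = ContinuousLinearMap.id ℂ _ := by
          ext x; simp
        have h3 : ‖ContinuousLinearMap.id ℂ (En n)‖ = 1 := ContinuousLinearMap.norm_id
        rw [← h3, ← h2]
        exact ContinuousLinearMap.opNorm_comp_le _ _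
      have h4 : min c₀ 1 * R ≤ c₀ * R := mul_le_mul_of_nonneg_right (min_le_left _ _) hRpos.le
      have h5 : 0 ≤ min c₀ 1 * R := by positivity
      have h6 : 0 ≤ ε ^ 2 := by positivity
      have h7 : min c₀ 1 / 240000 * ε ^ 2 * R ≤ 1 := by
        have : min c₀ 1 / 240000 * ε ^ 2 * R = ε ^ 2 * (min c₀ 1 * R) / 240000 := by ring
        rw [this]
        have : ε ^ 2 * (min c₀ 1 * R) ≤ 1 * 1 :=
          mul_le_mul hε2 (by linarith) h5 (by norm_num)
        linarith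
      exact h7.trans h1

end PB
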