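import Mathlib

/-!
Definitions for the lower bound `S_eps(n) >= c eps^2 Log n / LogLog n` (similarity constants of
polynomially bounded matrices).
-/

namespace PB

open Finset Polynomial

/-- Square of the Hardy norm of a polynomial. -/
noncomputable def nsq (q : ℂ[X]) : ℝ := ∑ n ∈ range (q.natDegree + 1), ‖q.coeff n‖ ^ 2

/-- The radius `2^(-1/A)`. -/
noncomputable def rr (A : ℕ) : ℝ := (1 / 2 : ℝ) ^ ((1 : ℝ) / (A : ℝ))

/-- The root of unity `exp (2 pi I i / A)`. -/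
noncomputable def rt (A i : ℕ) : ℂ := Complex.exp (2 * Real.pi * Complex.I * ((i : ℂ) / (A : ℂ)))

/-- The node number `i` of level `l` (level `l` has `M ^ l` nodes). The parent of the node `i` of
level `k + 1` is the node `i / M` of level `k`. -/
noncomputable def zz (M l i : ℕ) : ℂ := (rr (M ^ l) : ℂ) * rt (M ^ l) i

/-- `f` is bounded by one on the closed unit disc. -/
def Bdd1 (f : ℂ[X]) : Prop := ∀ z : ℂ, ‖z‖ ≤ 1 → ‖f.eval z‖ ≤ 1

/-- Four consecutive base `p` digits of `i`, starting at position `o`. -/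
def dg (p o i : ℕ) : Fin 4 → ZMod p := fun t => ((i / p ^ (o + (t : ℕ)) : ℕ) : ZMod p)

/-- The unimodular vectors: cubic additive characters with leading coefficient `k`. -/
noncomputable def vv (p : ℕ) [NeZero p] (k : ℕ) (a : Fin 4 → ZMod p) (j : ℕ) (x : ZMod p) : ℂ :=
  ZMod.stdAddChar ((k : ZMod p) * x ^ 3 + (a 0 + (j : ZMod p) * a 2) * x ^ 2
    + (a 1 + (j : ZMod p) * a 3) * x)

/-- Nondegenerate parameters. -/
def gd {p : ℕ} (a : Fin 4 → ZMod p) : Prop := a 2 ≠ 0 ∨ a 3 ≠ 0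

/-- The index set of the spinors. -/
abbrev Sp (m : ℕ) := Fin m → Bool

/-- Real symmetric anticommuting signed permutation matrices. -/
noncomputable def Cl {m : ℕ} (k : Fin m) (s' s : Sp m) : ℂ :=
  if s' = Function.update s k (!(s k)) then
    ∏ t ∈ univ.filter (fun t : Fin m => t < k), (if s t then (-1 : ℂ) else 1)
  else 0

/-- The analytic Fejer kernels. -/
noncomputable def chi (A J : ℕ) : ℂ[X] :=
  C (1 / (A : ℂ) ^ 2) * (∑ s ∈ range A, C ((starRingEnd ℂ) (rt A J) ^ s) * X ^ s) *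
    (∑ s ∈ range A, C ((rt A J) ^ s) * X ^ (A - s))

open scoped Classical in
/-- The test polynomial, with matrix values. -/
noncomputable def Phi (p m : ℕ) [NeZero p] (a b : Sp m × ZMod p) : ℂ[X] :=
  ∑ k : Fin m, C (Cl k a.1 b.1) *
    ∑ J ∈ (range ((p ^ 8) ^ ((k : ℕ) + 1))).filter (fun J => gd (dg p 0 J) ∧ gd (dg p 4 J)),
      C ((1 / (p : ℂ)) * ∑ j ∈ range m,
        (starRingEnd ℂ) (vv p ((k : ℕ) + 1) (dg p 4 J) j a.2) *
        (starRingEnd ℂ) (vv p ((k : ℕ) + 1) (dg p 0 J) j b.2)) * chi ((p ^ 8) ^ ((k : ℕ) + 1)) J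

/-- Square of the Euclidean norm. -/
noncomputable def sq {ι : Type*} [Fintype ι] (x : ι → ℂ) : ℝ := ∑ i, ‖x i‖ ^ 2

/-- The Euclidean operator norm of the matrix `A` is at most `c`. -/
def MB {ι κ : Type*} [Fintype ι] [Fintype κ] (A : Matrix ι κ ℂ) (c : ℝ) : Prop :=
  ∀ x : κ → ℂ, sq (A.mulVec x) ≤ c ^ 2 * sq x

/-- The truncated shift on polynomials of degree `< N` with coefficients in `α → ℂ`. -/
noncomputable def Sh (N : ℕ) (α : Type*) [DecidableEq α] : Matrix (Fin N × α) (Fin N × α) ℂ :=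
  fun a b => if (a.1 : ℕ) = (b.1 : ℕ) + 1 ∧ a.2 = b.2 then 1 else 0

/-- The polynomial vector with coefficients `v`. -/
noncomputable def pol {N : ℕ} {α : Type*} (v : Fin N × α → ℂ) (a : α) : ℂ[X] :=
  ∑ n : Fin N, C (v (n, a)) * X ^ (n : ℕ)

/-- The index set of the second summand. -/
abbrev I2 (p m : ℕ) := (k : Fin m) × (Fin ((p ^ 8) ^ ((k : ℕ) + 1)) × Sp m × Fin m)

/-- The diagonal matrix of the nodes. -/
noncomputable def DD (p m : ℕ) : Matrix (I2 p m) (I2 p m) ℂ :=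
  Matrix.diagonal fun a => zz (p ^ 8) ((a.1 : ℕ) + 1) (a.2.1 : ℕ)

/-- The first coupling. -/
noncomputable def WW (p m N : ℕ) [NeZero p] : Matrix (I2 p m) (Fin N × (Sp m × ZMod p)) ℂ :=
  fun a b => ((Real.sqrt (1 / (((p : ℝ) ^ 8) ^ ((a.1 : ℕ) + 1))) : ℝ) : ℂ) *
    ((Real.sqrt (1 / (m : ℝ)) : ℝ) : ℂ) * Cl a.1 a.2.2.1 b.2.1 *
    vv p ((a.1 : ℕ) + 1) (dg p 0 (a.2.1 : ℕ)) (a.2.2.2 : ℕ) b.2.2 *
    zz (p ^ 8) (a.1 : ℕ) ((a.2.1 : ℕ) / p ^ 8) ^ (b.1 : ℕ)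

open scoped Classical in
/-- The second coupling. -/
noncomputable def VV (p m N : ℕ) [NeZero p] : Matrix (Fin N × (Sp m × ZMod p)) (I2 p m) ℂ :=
  fun b a => ((Real.sqrt (1 / (((p : ℝ) ^ 8) ^ ((a.1 : ℕ) + 1))) : ℝ) : ℂ) *
    ((Real.sqrt (1 / (m : ℝ)) : ℝ) : ℂ) * (if a.2.2.1 = b.2.1 then 1 else 0) *
    vv p ((a.1 : ℕ) + 1) (dg p 4 (a.2.1 : ℕ)) (a.2.2.2 : ℕ) b.2.2 *
    zz (p ^ 8) (a.1 : ℕ) ((a.2.1 : ℕ) / p ^ 8) ^ (b.1 : ℕ)

end PB
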