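import Pool.Agent.Helper89.PB.Defs

namespace PB

open Finset Polynomial

private theorem numerics_dim (m p : ℕ) (hm : 1 ≤ m) (hp : 101 ≤ p) (h4 : 4 * m ^ 8 ≤ p)
    (hp2 : p ≤ (2 * m) ^ 8) :
    2 * (((p ^ 8) ^ m) ^ 2 * (2 ^ m * p)) + m * ((p ^ 8) ^ m * (2 ^ m * m)) ≤
      (2 * m) ^ (152 * m) := by
  have h1 : m * m ≤ p := by
    have h2 : m ^ 2 ≤ m ^ 8 := Nat.pow_le_pow_right hm (by norm_num)
    nlinarith
  have hp0 : 1 ≤ p := by omega
  have e1 : (p ^ 8) ^ m = p ^ (8 * m) := by rw [← pow_mul]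
  have h3 : 2 ^ m ≤ p ^ m := Nat.pow_le_pow_left (by omega) m
  have h5 : p ^ (8 * m) ≤ (p ^ (8 * m)) ^ 2 := by
    rw [pow_two]
    exact Nat.le_mul_of_pos_left _ (by positivity)
  calc 2 * (((p ^ 8) ^ m) ^ 2 * (2 ^ m * p)) + m * ((p ^ 8) ^ m * (2 ^ m * m))
      = (p ^ (8 * m)) ^ 2 * (2 ^ m * (2 * p)) + p ^ (8 * m) * (2 ^ m * (m * m)) := by
        rw [e1]; ring
    _ ≤ (p ^ (8 * m)) ^ 2 * (2 ^ m * (2 * p)) + (p ^ (8 * m)) ^ 2 * (2 ^ m * p) := by
        apply Nat.add_le_add_left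
        exact Nat.mul_le_mul h5 (Nat.mul_le_mul_left _ h1)
    _ = (p ^ (8 * m)) ^ 2 * (2 ^ m * (3 * p)) := by ring
    _ ≤ (p ^ (8 * m)) ^ 2 * (p ^ m * (p * p)) := by
        apply Nat.mul_le_mul_left
        exact Nat.mul_le_mul h3 (Nat.mul_le_mul_right _ (by omega))
    _ = p ^ (17 * m + 2) := by ring
    _ ≤ p ^ (19 * m) := Nat.pow_le_pow_right hp0 (by omega)
    _ ≤ ((2 * m) ^ 8) ^ (19 * m) := Nat.pow_le_pow_left hp2 _
    _ = (2 * m) ^ (152 * m) := by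
        rw [← pow_mul]
        congr 1
        ring

/-- numerics -/
theorem numerics : ∃ c : ℝ, 0 < c ∧ ∀ n : ℕ, 1 ≤ n → ∀ m : ℕ, 1 ≤ m →
    (m : ℝ) ≤ c * Real.log (n + 1) / Real.log (2 + Real.log (n + 1)) →
    ∃ p : ℕ, p.Prime ∧ 101 ≤ p ∧ 4 * m ^ 8 ≤ p ∧
      2 * (((p ^ 8) ^ m) ^ 2 * (2 ^ m * p)) + m * ((p ^ 8) ^ m * (2 ^ m * m)) ≤ n := by
  refine ⟨1 / 1000, by norm_num, ?_⟩
  intro n hn m hm hmn
  obtain ⟨p, hpp, hp1, hp2⟩ := Nat.exists_prime_lt_and_le_two_mul (4 * m ^ 8 + 101) (by omega)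
  refine ⟨p, hpp, by omega, by omega, ?_⟩
  have hm8 : 1 ≤ m ^ 8 := Nat.one_le_pow _ _ hm
  have hp3 : p ≤ (2 * m) ^ 8 := by
    have : (2 * m) ^ 8 = 256 * m ^ 8 := by ring
    rw [this]
    omega
  refine (numerics_dim m p hm (by omega) (by omega) hp3).trans ?_
  -- the real inequality
  set L : ℝ := Real.log ((n : ℝ) + 1) with hL
  have hn1 : (1 : ℝ) ≤ n := by exact_mod_cast hn
  have hm1 : (1 : ℝ) ≤ m := by exact_mod_cast hm
  have hL0 : 0 < L := Real.log_pos (by linarith)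
  set x : ℝ := Real.log (2 + L) with hx
  have hlog2 : (0.5 : ℝ) < Real.log 2 := by
    have := Real.log_two_gt_d9
    linarith
  have hx0 : 0.5 < x := by
    have : Real.log 2 ≤ x := Real.log_le_log (by norm_num) (by linarith)
    linarith
  have hmx : (m : ℝ) * x ≤ 1 / 1000 * L := by
    rw [le_div_iff₀ (by linarith)] at hmn
    exact hmn
  have hmL : (2 * m : ℝ) ≤ L := by nlinarith
  have hn2 : 2 ≤ n := by
    by_contra hcon
    have hn' : n = 1 := by omega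
    rw [hn'] at hL
    have h1 : L < 1 := by
      rw [hL]
      have := Real.log_two_lt_d9
      norm_num
      linarith
    linarith
  have hn2' : (2 : ℝ) ≤ n := by exact_mod_cast hn2
  have hlogm : Real.log (2 * m) ≤ x := by
    apply Real.log_le_log (by linarith)
    linarith
  have hLn : L ≤ 2 * Real.log n := by
    have h1 : Real.log ((n : ℝ) + 1) ≤ Real.log ((n : ℝ) ^ 2) :=
      Real.log_le_log (by linarith) (by nlinarith)
    rw [Real.log_pow] at h1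
    push_cast at h1
    exact h1
  have hpos : (0 : ℝ) < (2 * m : ℝ) := by linarith
  have hfin : ((2 * m : ℝ)) ^ (152 * m) ≤ n := by
    rw [← Real.log_le_log_iff (by positivity) (by linarith), Real.log_pow]
    push_cast
    have hlogm0 : 0 ≤ Real.log (2 * m) := Real.log_nonneg (by linarith)
    have h1 : (m : ℝ) * Real.log (2 * m) ≤ m * x := mul_le_mul_of_nonneg_left hlogm (by linarith)
    nlinarith
  exact_mod_cast hfin

end PB
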